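import Mathlib

open Set Filter Topology

namespace Pool.Agent.Helper503.Ed

structure Setup (X A : Type*) [TopologicalSpace X] [NormedCommRing A] [NormedAlgebra ℂ A] where
  ρ : X → A →ₐ[ℂ] ℂ
  cont : ∀ a, Continuous fun x => ρ x a
  le : ∀ x a, ‖ρ x a‖ ≤ ‖a‖
  attain : ∀ a, ∃ x, ‖ρ x a‖ = ‖a‖
  peak : ∀ W : Set X, IsOpen W → W.Nonempty →
    ∃ h : A, ∃ η : ℝ, 0 < η ∧ η < 1 ∧ ‖h‖ = 1 ∧ ∀ x ∉ W, ‖ρ x h‖ ≤ η
  e : ℕ → A →ₐ[ℂ] ℂ
  e_le : ∀ i a, ‖e i a‖ ≤ ‖a‖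
  e_norming : ∀ (a : A) (r : ℝ), r < ‖a‖ → ∃ i, r < ‖e i a‖
  lim : ∀ f : ℕ → A, (∃ C : ℝ, ∀ n, ‖f n‖ ≤ C) →
    ∃ g : A, ∀ (a b : A) (C : ℝ), (∀ᶠ n in atTop, ‖a * f n + b‖ ≤ C) → ‖a * g + b‖ ≤ C

variable {X A : Type*} [TopologicalSpace X] [NormedCommRing A] [NormedAlgebra ℂ A]

namespace Setup

variable (S : Setup X A)

include S in
lemma norm_le_of {a : A} {C : ℝ} (h : ∀ x, ‖S.ρ x a‖ ≤ C) : ‖a‖ ≤ C := by
  obtain ⟨x, hx⟩ := S.attain a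
  rw [← hx]
  exact h x

/-- semicontinuity -/
lemma semicont {f : ℕ → A} {g : A} {M : ℝ} (hM : ∀ n, ‖f n‖ ≤ M)
    (hg : ∀ (a b : A) (C : ℝ), (∀ᶠ n in atTop, ‖a * f n + b‖ ≤ C) → ‖a * g + b‖ ≤ C)
    {V : Set X} (hV : IsOpen V) {b : A} {δ : ℝ}
    (h : ∀ᶠ n in atTop, ∀ x ∈ V, ‖S.ρ x (f n - b)‖ ≤ δ) :
    ∀ x ∈ V, ‖S.ρ x (g - b)‖ ≤ δ := by
  intro x hx
  by_contra hcon
  push Not at hcon
  obtain ⟨δ', h1, h2⟩ := exists_between hcon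
  have hδ : 0 ≤ δ := by
    obtain ⟨n, hn⟩ := h.exists
    exact (norm_nonneg _).trans (hn x hx)
  have hδ' : 0 < δ' := lt_of_le_of_lt hδ h1
  obtain ⟨k, η, hη0, hη1, hk1, hk⟩ := S.peak (V ∩ {y | δ' < ‖S.ρ y (g - b)‖})
    (hV.inter (isOpen_lt continuous_const (S.cont _).norm)) ⟨x, hx, h2⟩
  have hM' : 0 ≤ M + ‖b‖ := by
    have := (norm_nonneg _).trans (hM 0)
    positivity
  obtain ⟨p, hp⟩ : ∃ p : ℕ, η ^ p * (M + ‖b‖) ≤ δ' := by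
    have : Tendsto (fun p : ℕ => η ^ p * (M + ‖b‖)) atTop (𝓝 (0 * (M + ‖b‖))) :=
      (tendsto_pow_atTop_nhds_zero_of_lt_one hη0.le hη1).mul_const _
    rw [zero_mul] at this
    exact ((this.eventually (ge_mem_nhds hδ')).exists)
  have h3 : ‖k ^ p * g + (- (k ^ p * b))‖ ≤ δ' := by
    apply hg
    filter_upwards [h] with n hn
    apply S.norm_le_of
    intro y
    have e1 : k ^ p * f n + (- (k ^ p * b)) = k ^ p * (f n - b) := by ring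
    rw [e1, map_mul, map_pow, norm_mul, norm_pow]
    by_cases hy : y ∈ V ∩ {y | δ' < ‖S.ρ y (g - b)‖}
    · have e2 : ‖S.ρ y k‖ ≤ 1 := (S.le y k).trans hk1.le
      have e3 : ‖S.ρ y k‖ ^ p ≤ 1 := pow_le_one₀ (norm_nonneg _) e2
      have e4 := hn y hy.1
      calc ‖S.ρ y k‖ ^ p * ‖S.ρ y (f n - b)‖ ≤ 1 * δ := by gcongr
        _ ≤ δ' := by rw [one_mul]; exact h1.le
    · have e2 := hk y hy
      have e4 : ‖S.ρ y (f n - b)‖ ≤ M + ‖b‖ :=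
        (S.le y _).trans ((norm_sub_le _ _).trans (by gcongr; exact hM n))
      calc ‖S.ρ y k‖ ^ p * ‖S.ρ y (f n - b)‖ ≤ η ^ p * (M + ‖b‖) := by gcongr
        _ ≤ δ' := hp
  obtain ⟨y, hy⟩ := S.attain k
  rw [hk1] at hy
  have hyW : y ∈ V ∩ {y | δ' < ‖S.ρ y (g - b)‖} := by
    by_contra hyW
    have := hk y hyW
    rw [hy] at this
    linarith
  have h4 := S.le y (k ^ p * g + (- (k ^ p * b)))
  have e1 : k ^ p * g + (- (k ^ p * b)) = k ^ p * (g - b) := by ring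
  rw [e1, map_mul, map_pow, norm_mul, norm_pow, hy, one_pow, one_mul] at h4
  rw [e1] at h3
  have := hyW.2
  simp only [mem_ofPred_eq] at this
  linarith

/-- the quadratic functional -/
noncomputable def Φ (a : A) : ℝ := ∑' i, (1/2 : ℝ) ^ (i+1) * ‖S.e i a‖ ^ 2

lemma summable_half : Summable fun i : ℕ => (1/2 : ℝ) ^ (i+1) := by
  have := (summable_geometric_of_lt_one (r := (1/2 : ℝ)) (by norm_num) (by norm_num))
  exact (summable_nat_add_iff 1).2 this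

lemma tsum_half : ∑' i : ℕ, (1/2 : ℝ) ^ (i+1) = 1 := by
  have h1 : ∑' i : ℕ, (1/2 : ℝ) ^ i = 2 := by
    rw [tsum_geometric_of_lt_one (by norm_num) (by norm_num)]
    norm_num
  have h2 := (summable_geometric_of_lt_one (r := (1/2 : ℝ)) (by norm_num) (by norm_num)).tsum_eq_zero_add
  rw [h1] at h2
  simp only [pow_zero] at h2
  linarith

lemma Φ_summable (a : A) : Summable fun i => (1/2 : ℝ) ^ (i+1) * ‖S.e i a‖ ^ 2 := by
  apply Summable.of_nonneg_of_le (f := fun i : ℕ => (1/2 : ℝ) ^ (i+1) * ‖a‖ ^ 2)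
  · intro i
    positivity
  · intro i
    have := S.e_le i a
    gcongr
  · exact summable_half.mul_right _

lemma Φ_nonneg (a : A) : 0 ≤ S.Φ a := tsum_nonneg fun i => by positivity

lemma Φ_le (a : A) : S.Φ a ≤ ‖a‖ ^ 2 := by
  have : S.Φ a ≤ ∑' i : ℕ, (1/2 : ℝ) ^ (i+1) * ‖a‖ ^ 2 := by
    apply Summable.tsum_le_tsum
    · intro i
      have := S.e_le i a
      gcongr
    · exact S.Φ_summable a
    · exact summable_half.mul_right _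
  rwa [tsum_mul_right, tsum_half, one_mul] at this

lemma le_Φ (a : A) (i : ℕ) : (1/2 : ℝ) ^ (i+1) * ‖S.e i a‖ ^ 2 ≤ S.Φ a :=
  (S.Φ_summable a).le_tsum i fun j _ => by positivity

lemma Φ_par (a b : A) : S.Φ (a + b) + S.Φ (a - b) = 2 * (S.Φ a + S.Φ b) := by
  unfold Φ
  rw [← (S.Φ_summable _).tsum_add (S.Φ_summable _), ← (S.Φ_summable _).tsum_add (S.Φ_summable _),
    ← tsum_mul_left]
  apply tsum_congr
  intro i
  have h1 := parallelogram_law_with_norm ℝ (S.e i a) (S.e i b)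
  rw [map_add, map_sub]
  linear_combination (1/2 : ℝ) ^ (i+1) * h1

lemma scalar {u v : ℂ} {τ : ℝ} (hu : ‖u‖ ≤ 2) (hv : ‖v‖ ≤ 2) (h0 : 0 ≤ τ) :
    ‖u‖ ^ 2 - 16 * τ ≤ ‖(1 - τ) * u + τ * v‖ ^ 2 := by
  have h1 : ‖u‖ - 4 * τ ≤ ‖(1 - τ) * u + τ * v‖ := by
    have e1 : u = ((1 - τ) * u + τ * v) + τ * (u - v) := by ring
    have e2 : ‖u‖ ≤ ‖(1 - τ) * u + τ * v‖ + ‖(τ : ℂ) * (u - v)‖ := by
      conv_lhs => rw [e1]
      exact norm_add_le _ _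
    rw [norm_mul, Complex.norm_real, Real.norm_of_nonneg h0] at e2
    have e3 : ‖u - v‖ ≤ 4 := (norm_sub_le _ _).trans (by linarith)
    have e4 : τ * ‖u - v‖ ≤ τ * 4 := by gcongr
    linarith
  have hn := norm_nonneg u
  by_cases h : 4 * τ ≤ ‖u‖
  · have : (‖u‖ - 4 * τ) ^ 2 ≤ ‖(1 - τ) * u + τ * v‖ ^ 2 := by
      apply pow_le_pow_left₀ _ h1
      linarith
    nlinarith
  · push Not at h
    have : ‖u‖ ^ 2 - 16 * τ ≤ 0 := by nlinarith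
    exact this.trans (by positivity)

lemma Φ_mix {a b : A} (ha : ‖a‖ ≤ 2) (hb : ‖b‖ ≤ 2) {τ : ℝ} (h0 : 0 ≤ τ) :
    S.Φ a - 16 * τ ≤ S.Φ (((1 - τ : ℝ) : ℂ) • a + (τ : ℂ) • b) := by
  have key : S.Φ a ≤ S.Φ (((1 - τ : ℝ) : ℂ) • a + (τ : ℂ) • b) + 16 * τ := by
    have e : S.Φ (((1 - τ : ℝ) : ℂ) • a + (τ : ℂ) • b) + 16 * τ
        = ∑' i : ℕ, ((1/2 : ℝ) ^ (i+1) * ‖S.e i (((1 - τ : ℝ) : ℂ) • a + (τ : ℂ) • b)‖ ^ 2
          + (1/2 : ℝ) ^ (i+1) * (16 * τ)) := by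
      rw [(S.Φ_summable _).tsum_add (summable_half.mul_right _), tsum_mul_right, tsum_half, one_mul]
      rfl
    rw [e]
    apply Summable.tsum_le_tsum _ (S.Φ_summable _)
      ((S.Φ_summable _).add (summable_half.mul_right _))
    intro i
    have h1 := scalar ((S.e_le i a).trans ha) ((S.e_le i b).trans hb) h0
    have h2 : S.e i (((1 - τ : ℝ) : ℂ) • a + (τ : ℂ) • b) = (1 - τ) * S.e i a + τ * S.e i b := by
      rw [map_add, map_smul, map_smul]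
      simp
    rw [h2]
    have h3 : (0:ℝ) ≤ (1/2 : ℝ) ^ (i+1) := by positivity
    nlinarith
  linarith

end Setup

end Pool.Agent.Helper503.Ed
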