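import Mathlib
import Pool.Agent.Helper503.EdA

open Set Filter Topology

namespace Pool.Agent.Helper503.Ed

variable {X A : Type*} [TopologicalSpace X] [NormedCommRing A] [NormedAlgebra ℂ A]

/-- thresholds -/
noncomputable def al (n : ℕ) : ℝ := 1/3 + (1/6) * (1/4 : ℝ) ^ n
/-- tolerances -/
noncomputable def ka (n : ℕ) : ℝ := (1/16) * (1/4 : ℝ) ^ n

lemma quarter_pos (n : ℕ) : 0 < (1/4 : ℝ) ^ n := by positivity
lemma quarter_le (n : ℕ) : (1/4 : ℝ) ^ n ≤ 1 := pow_le_one₀ (by norm_num) (by norm_num)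
lemma ka_pos (n : ℕ) : 0 < ka n := by unfold ka; positivity
lemma ka_le (n : ℕ) : ka n ≤ 1/16 := by unfold ka; linarith [quarter_le n]
lemma al_sub (n : ℕ) : al n - al (n+1) = 2 * ka n := by
  unfold al ka
  rw [pow_succ]
  ring
lemma al_le (n : ℕ) : al n ≤ 1/2 := by unfold al; linarith [quarter_le n]
lemma al_gt (n : ℕ) : 1/3 < al n := by unfold al; linarith [quarter_pos n]

namespace Setup

variable (S : Setup X A) (U : Set X)

/-- the region -/
def Z (n : ℕ) (f : A) : Set X := {x | x ∈ U ∧ ‖S.ρ x f‖ < al n}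

/-- admissible perturbations -/
def Fam (n : ℕ) (f : A) : Set A :=
  {g | (∀ x, x ∉ S.Z U n f → ‖S.ρ x (g - f)‖ ≤ ka n) ∧ (∀ x ∈ S.Z U n f, ‖S.ρ x g‖ ≤ 1)}

lemma self_mem (n : ℕ) (f : A) : f ∈ S.Fam U n f := by
  refine ⟨fun x _ => ?_, fun x hx => ?_⟩
  · rw [sub_self, map_zero, norm_zero]
    exact (ka_pos n).le
  · have := hx.2
    linarith [al_le n]

lemma norm_of_mem {n : ℕ} {f g : A} (hg : g ∈ S.Fam U n f) : ‖g‖ ≤ max 1 (‖f‖ + ka n) := by
  apply S.norm_le_of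
  intro x
  by_cases hx : x ∈ S.Z U n f
  · exact (hg.2 x hx).trans (le_max_left _ _)
  · have h1 := hg.1 x hx
    rw [map_sub] at h1
    have h2 := norm_le_norm_add_norm_sub (S.ρ x f) (S.ρ x g)
    rw [norm_sub_rev] at h2
    have h3 := S.le x f
    exact le_trans (by linarith) (le_max_right _ _)

lemma exists_next (n : ℕ) (f : A) :
    ∃ f' ∈ S.Fam U n f, ∀ g ∈ S.Fam U n f, S.Φ g ≤ S.Φ f' + ka n := by
  have hne : (S.Φ '' S.Fam U n f).Nonempty := ⟨_, f, S.self_mem U n f, rfl⟩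
  have hb : BddAbove (S.Φ '' S.Fam U n f) := by
    refine ⟨(max 1 (‖f‖ + ka n)) ^ 2, ?_⟩
    rintro _ ⟨g, hg, rfl⟩
    have h1 := S.norm_of_mem U hg
    exact (S.Φ_le g).trans (by gcongr)
  obtain ⟨_, ⟨f', hf', rfl⟩, h2⟩ := exists_lt_of_lt_csSup hne
    (show sSup (S.Φ '' S.Fam U n f) - ka n < sSup (S.Φ '' S.Fam U n f) by linarith [ka_pos n])
  refine ⟨f', hf', fun g hg => ?_⟩
  have h3 : S.Φ g ≤ sSup (S.Φ '' S.Fam U n f) := le_csSup hb ⟨g, hg, rfl⟩
  linarith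

/-- the sequence -/
noncomputable def seq : ℕ → A
  | 0 => 0
  | n + 1 => (S.exists_next U n (seq n)).choose

lemma seq_mem (n : ℕ) : S.seq U (n+1) ∈ S.Fam U n (S.seq U n) :=
  (S.exists_next U n (S.seq U n)).choose_spec.1

lemma seq_max (n : ℕ) : ∀ g ∈ S.Fam U n (S.seq U n), S.Φ g ≤ S.Φ (S.seq U (n+1)) + ka n :=
  (S.exists_next U n (S.seq U n)).choose_spec.2

/-- the regions of the sequence -/
def Zs (n : ℕ) : Set X := S.Z U n (S.seq U n)

lemma seq_norm (n : ℕ) : ‖S.seq U n‖ ≤ 1 + (1/12) * (1 - (1/4 : ℝ) ^ n) := by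
  induction n with
  | zero => simp [seq]
  | succ n ih =>
    have h1 := S.norm_of_mem U (S.seq_mem U n)
    refine h1.trans (max_le ?_ ?_)
    · have := quarter_le (n+1)
      linarith
    · unfold ka
      rw [pow_succ]
      linarith

lemma seq_norm_le (n : ℕ) : ‖S.seq U n‖ ≤ 2 := by
  have := S.seq_norm U n
  have := quarter_pos n
  linarith

lemma Zs_zero : S.Zs U 0 = U := by
  ext x
  simp only [Zs, Z, seq, map_zero, norm_zero, mem_ofPred_eq, and_iff_left_iff_imp]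
  intro _
  linarith [al_gt 0]

lemma Zs_subset (n : ℕ) : S.Zs U n ⊆ U := fun _ hx => hx.1

lemma closure_Zs (n : ℕ) : closure (S.Zs U (n+1)) ∩ U ⊆ S.Zs U n := by
  rintro x ⟨hx, hxU⟩
  have h1 : ‖S.ρ x (S.seq U (n+1))‖ ≤ al (n+1) := by
    have : closure (S.Zs U (n+1)) ⊆ {y | ‖S.ρ y (S.seq U (n+1))‖ ≤ al (n+1)} :=
      closure_minimal (fun y hy => (hy.2).le) (isClosed_le (S.cont _).norm continuous_const)
    exact this hx
  by_contra hcon
  have h2 := (S.seq_mem U n).1 x hcon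
  apply hcon
  refine ⟨hxU, ?_⟩
  rw [map_sub] at h2
  have h3 := norm_le_norm_add_norm_sub (S.ρ x (S.seq U (n+1))) (S.ρ x (S.seq U n))
  have := al_sub n
  have := ka_pos n
  linarith

lemma Zs_succ (n : ℕ) : S.Zs U (n+1) ⊆ S.Zs U n := fun _ hx =>
  S.closure_Zs U n ⟨subset_closure hx, hx.1⟩

lemma Zs_anti : Antitone (S.Zs U) := antitone_nat_of_succ_le (S.Zs_succ U)

/-- the limit region has empty interior -/
lemma no_open {D : Set X} (hD : IsOpen D) (hne : D.Nonempty) (hsub : ∀ n, D ⊆ S.Zs U n) : False := by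
  obtain ⟨h, η, hη0, hη1, hh, hoff⟩ := S.peak D hD hne
  obtain ⟨i, hi⟩ : ∃ i, η ≤ ‖S.e i h‖ ^ 8 := by
    have hr : (η ^ ((1:ℝ)/8)) < 1 := Real.rpow_lt_one hη0.le hη1 (by norm_num)
    obtain ⟨i, hi⟩ := S.e_norming h (η ^ ((1:ℝ)/8)) (by rw [hh]; exact hr)
    refine ⟨i, ?_⟩
    have : η = (η ^ ((1:ℝ)/8)) ^ 8 := by
      rw [← Real.rpow_natCast, ← Real.rpow_mul hη0.le]
      norm_num
    rw [this]
    exact pow_le_pow_left₀ (by positivity) hi.le 8
  set c : ℝ := (1/2 : ℝ) ^ (i+1) with hc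
  have hcpos : 0 < c := by positivity
  set K : ℝ := (4 / c) * 17 with hK
  have hKpos : 0 < K := by positivity
  obtain ⟨n, hn⟩ : ∃ n : ℕ, K ^ 4 * ka n ^ 2 < η := by
    have : Tendsto (fun n : ℕ => K ^ 4 * ka n ^ 2) atTop (𝓝 (K ^ 4 * ((1/16) * 0) ^ 2)) := by
      apply Tendsto.const_mul
      apply Tendsto.pow
      apply Tendsto.const_mul
      exact tendsto_pow_atTop_nhds_zero_of_lt_one (by norm_num) (by norm_num)
    have e : K ^ 4 * ((1/16) * (0:ℝ)) ^ 2 = 0 := by ring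
    rw [e] at this
    exact (this.eventually (gt_mem_nhds hη0)).exists
  set κ := ka n with hκ
  have hκ0 : 0 < κ := ka_pos n
  have hκ1 : κ ≤ 1/16 := ka_le n
  obtain ⟨p, hp1, hp2⟩ : ∃ p : ℕ, η ^ (p+1) < κ ^ 2 ∧ κ ^ 2 ≤ η ^ p :=
    exists_nat_pow_near_of_lt_one (by positivity) (by nlinarith) hη0 hη1
  set g : A := (1/2 : ℂ) • h ^ (p+1) with hg
  set F := S.seq U (n+1) with hF
  set f := S.seq U n with hf
  have hgx : ∀ x, ‖S.ρ x g‖ = (1/2) * ‖S.ρ x h‖ ^ (p+1) := by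
    intro x
    rw [hg, map_smul, map_pow, smul_eq_mul, norm_mul, norm_pow]
    norm_num
  have hhx : ∀ x, ‖S.ρ x h‖ ^ (p+1) ≤ 1 := fun x =>
    pow_le_one₀ (norm_nonneg _) ((S.le x h).trans hh.le)
  have hg1 : ‖g‖ ≤ 1/2 := by
    apply S.norm_le_of
    intro x
    rw [hgx]
    linarith [hhx x]
  -- choose the sign
  obtain ⟨σ, hσ, hσ2⟩ : ∃ σ : ℂ, ‖σ‖ = 1 ∧ S.Φ F + S.Φ g ≤ S.Φ (F + σ • g) := by
    have hpar := S.Φ_par F g
    by_cases hcase : S.Φ F + S.Φ g ≤ S.Φ (F + g)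
    · exact ⟨1, by simp, by rwa [one_smul]⟩
    · refine ⟨-1, by simp, ?_⟩
      rw [neg_one_smul, ← sub_eq_add_neg]
      linarith
  set f' : A := ((1 - κ : ℝ) : ℂ) • (F + σ • g) + (κ : ℂ) • f with hf'
  have hf'x : ∀ x, S.ρ x f' = (1 - κ) * (S.ρ x F + σ * S.ρ x g) + κ * S.ρ x f := by
    intro x
    rw [hf', map_add, map_smul, map_smul, map_add, map_smul]
    simp
  have h1κ : ‖((1 - κ : ℝ) : ℂ)‖ = 1 - κ := by
    rw [Complex.norm_real, Real.norm_of_nonneg (by linarith)]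
  have hκn : ‖(κ : ℂ)‖ = κ := by rw [Complex.norm_real, Real.norm_of_nonneg hκ0.le]
  have hFmem := S.seq_mem U n
  rw [← hF, ← hf] at hFmem
  have hmem : f' ∈ S.Fam U n f := by
    constructor
    · intro x hx
      have hxD : x ∉ D := fun hxD => hx (hsub n hxD)
      have h1 : ‖S.ρ x g‖ ≤ κ ^ 2 / 2 := by
        rw [hgx]
        have h2 := hoff x hxD
        have : ‖S.ρ x h‖ ^ (p+1) ≤ η ^ (p+1) := by gcongr
        linarith
      have h3 := hFmem.1 x hx
      rw [map_sub] at h3 ⊢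
      have e1 : S.ρ x f' - S.ρ x f = ((1 - κ : ℝ) : ℂ) * ((S.ρ x F - S.ρ x f) + σ * S.ρ x g) := by
        rw [hf'x]
        push_cast
        ring
      rw [e1, norm_mul, h1κ]
      have h4 : ‖(S.ρ x F - S.ρ x f) + σ * S.ρ x g‖ ≤ κ + κ ^ 2 / 2 := by
        refine (norm_add_le _ _).trans ?_
        rw [norm_mul, hσ, one_mul]
        linarith
      have h5 : (1 - κ) * ‖(S.ρ x F - S.ρ x f) + σ * S.ρ x g‖ ≤ (1 - κ) * (κ + κ ^ 2 / 2) := by
        apply mul_le_mul_of_nonneg_left h4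
        linarith
      nlinarith
    · intro x hx
      have h6 : ‖S.ρ x f‖ ≤ 1/2 := (hx.2).le.trans (al_le n)
      have h7 : ‖S.ρ x F + σ * S.ρ x g‖ ≤ 1 + κ ^ 2 / 2 := by
        refine (norm_add_le _ _).trans ?_
        rw [norm_mul, hσ, one_mul]
        by_cases hxD : x ∈ D
        · have h8 := (hsub (n+1) hxD).2
          rw [← hF] at h8
          have h9 := al_le (n+1)
          have h10 : ‖S.ρ x g‖ ≤ 1/2 := (S.le x g).trans hg1
          nlinarith [sq_nonneg κ]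
        · have h8 := hFmem.2 x hx
          have h1 : ‖S.ρ x g‖ ≤ κ ^ 2 / 2 := by
            rw [hgx]
            have h2 := hoff x hxD
            have : ‖S.ρ x h‖ ^ (p+1) ≤ η ^ (p+1) := by gcongr
            linarith
          linarith
      rw [hf'x]
      have e2 : (1 - (κ:ℂ)) = ((1 - κ : ℝ) : ℂ) := by push_cast; ring
      rw [e2]
      refine (norm_add_le _ _).trans ?_
      rw [norm_mul, norm_mul, h1κ, hκn]
      have h5 : (1 - κ) * ‖S.ρ x F + σ * S.ρ x g‖ ≤ (1 - κ) * (1 + κ ^ 2 / 2) := by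
        apply mul_le_mul_of_nonneg_left h7
        linarith
      have h9 : κ * ‖S.ρ x f‖ ≤ κ * (1/2) := by gcongr
      nlinarith [mul_pos hκ0 hκ0, mul_pos (mul_pos hκ0 hκ0) hκ0]
  have hmax := S.seq_max U n f' hmem
  rw [← hF, ← hκ] at hmax
  have hFn : ‖F + σ • g‖ ≤ 2 := by
    have h1 := S.seq_norm U (n+1)
    rw [← hF] at h1
    have h2 := quarter_pos (n+1)
    have h3 := norm_add_le F (σ • g)
    rw [norm_smul, hσ, one_mul] at h3
    linarith
  have hmix := S.Φ_mix hFn (S.seq_norm_le U n) hκ0.le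
  rw [← hf, ← hf'] at hmix
  have hΦg : S.Φ g ≤ 17 * κ := by linarith
  have h11 := S.le_Φ g i
  have h12 : ‖S.e i g‖ = (1/2) * ‖S.e i h‖ ^ (p+1) := by
    rw [hg, map_smul, map_pow, smul_eq_mul, norm_mul, norm_pow]
    norm_num
  rw [h12, ← hc] at h11
  set y := ‖S.e i h‖ with hy
  have hy0 : 0 ≤ y := norm_nonneg _
  have h13 : (y ^ (p+1)) ^ 2 ≤ K * κ := by
    have h14 : c * ((1/2) * y ^ (p+1)) ^ 2 ≤ 17 * κ := h11.trans hΦg
    have h15 : (y ^ (p+1)) ^ 2 = (4 / c) * (c * ((1/2) * y ^ (p+1)) ^ 2) := by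
      field_simp
      ring
    rw [h15, hK, mul_assoc]
    gcongr
  have h16 : (y ^ 8) ^ (p+1) ≤ (K * κ) ^ 4 := by
    calc (y ^ 8) ^ (p+1) = ((y ^ (p+1)) ^ 2) ^ 4 := by
          rw [← pow_mul, ← pow_mul, ← pow_mul]
          ring_nf
      _ ≤ (K * κ) ^ 4 := by gcongr
  have h17 : η * κ ^ 2 ≤ (y ^ 8) ^ (p+1) := by
    calc η * κ ^ 2 ≤ η * η ^ p := by gcongr
      _ = η ^ (p+1) := by ring
      _ ≤ (y ^ 8) ^ (p+1) := by gcongr
  have h18 : η * κ ^ 2 ≤ (K ^ 4 * κ ^ 2) * κ ^ 2 := by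
    refine (h17.trans h16).trans (le_of_eq ?_)
    ring
  have h19 : η ≤ K ^ 4 * κ ^ 2 := le_of_mul_le_mul_right h18 (by positivity)
  linarith

lemma drift {n : ℕ} (k : ℕ) : ∀ x, x ∉ S.Zs U n →
    ‖S.ρ x (S.seq U (n + k) - S.seq U n)‖ ≤ (1/12) * ((1/4 : ℝ) ^ n - (1/4 : ℝ) ^ (n + k)) := by
  intro x hx
  induction k with
  | zero => simp
  | succ k ih =>
    have hx2 : x ∉ S.Z U (n + k) (S.seq U (n + k)) := fun h => hx (S.Zs_anti U (Nat.le_add_right n k) h)
    have h1 := (S.seq_mem U (n + k)).1 x hx2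
    have e1 : S.seq U (n + (k+1)) - S.seq U n
        = (S.seq U (n + k + 1) - S.seq U (n+k)) + (S.seq U (n+k) - S.seq U n) := by
      rw [← add_assoc]
      ring
    rw [e1, map_add]
    refine (norm_add_le _ _).trans ?_
    have e2 : (1/4 : ℝ) ^ (n + (k+1)) = (1/4) ^ (n+k) * (1/4) := by
      rw [← add_assoc, pow_succ]
    rw [e2]
    unfold ka at h1
    linarith

include S in
theorem extremallyDisconnected : ExtremallyDisconnected X := by
  refine ⟨fun U hU => ?_⟩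
  obtain ⟨g, hg⟩ := S.lim (S.seq U) ⟨2, S.seq_norm_le U⟩
  -- limit estimate
  have hlim : ∀ n, ∀ x ∈ (closure (S.Zs U n))ᶜ, ‖S.ρ x (g - S.seq U n)‖ ≤ (1/12) * (1/4 : ℝ) ^ n := by
    intro n
    apply S.semicont (S.seq_norm_le U) hg isClosed_closure.isOpen_compl
    filter_upwards [eventually_ge_atTop n] with m hm x hx
    obtain ⟨k, rfl⟩ := Nat.exists_eq_add_of_le hm
    have h1 := S.drift U k x (fun h => hx (subset_closure h))
    have h2 := quarter_pos (n + k)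
    linarith
  have hout : ∀ x, x ∉ closure U → ‖S.ρ x g‖ ≤ 1/12 := by
    intro x hx
    have h1 := hlim 0 x (by rw [S.Zs_zero]; exact hx)
    simpa [seq] using h1
  have hin : closure U ⊆ {x | 1/4 ≤ ‖S.ρ x g‖} := by
    have hcl : IsClosed {x | 1/4 ≤ ‖S.ρ x g‖} := isClosed_le continuous_const (S.cont g).norm
    apply closure_minimal _ hcl
    intro x hxU
    by_contra hcon
    -- D = U inter complement of the closed set
    refine S.no_open U (D := U ∩ {x | 1/4 ≤ ‖S.ρ x g‖}ᶜ) (hU.inter hcl.isOpen_compl) ⟨x, hxU, hcon⟩ ?_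
    intro n y hy
    have key : y ∈ closure (S.Zs U (n+1)) := by
      by_contra hy2
      have h1 := hlim (n+1) y hy2
      have h2 : y ∉ S.Zs U (n+1) := fun h => hy2 (subset_closure h)
      have h3 : al (n+1) ≤ ‖S.ρ y (S.seq U (n+1))‖ := by
        by_contra h4
        push Not at h4
        exact h2 ⟨hy.1, h4⟩
      have h4 : ‖S.ρ y g‖ < 1/4 := by
        have := hy.2
        simp only [mem_compl_iff, mem_ofPred_eq, not_le] at this
        exact this
      rw [map_sub] at h1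
      have h5 := norm_le_norm_add_norm_sub (S.ρ y g) (S.ρ y (S.seq U (n+1)))
      have h6 := quarter_le (n+1)
      have h7 := al_gt (n+1)
      have h8 := quarter_pos (n+1)
      linarith
    exact S.closure_Zs U n ⟨key, hy.1⟩
  have heq : closure U = {x | 1/6 < ‖S.ρ x g‖} := by
    ext x
    simp only [mem_ofPred_eq]
    constructor
    · intro hx
      have := hin hx
      simp only [mem_ofPred_eq] at this
      linarith
    · intro hx
      by_contra hcon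
      have := hout x hcon
      linarith
  rw [heq]
  exact isOpen_lt continuous_const (S.cont g).norm

end Setup

end Pool.Agent.Helper503.Ed
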