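import Mathlib
import Pool.Agent.Helper503.EdB

open Set Filter Topology WeakDual

namespace Pool.Agent.Helper503.Ed

variable {A : Type*} [NormedCommRing A] [NormedAlgebra ℂ A] [CompleteSpace A] [NormOneClass A]

variable (A) in
/-- the closed boundaries -/
def Bd : Set (Set (WeakDual ℂ A)) :=
  {K | IsClosed K ∧ K ⊆ characterSpace ℂ A ∧
        ∀ a : A, ∃ ψ ∈ K, ∀ φ ∈ characterSpace ℂ A, ‖φ a‖ ≤ ‖ψ a‖}

variable (A) in
/-- the norm is the supremum over the characters -/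
def Norming : Prop := ∀ (a : A) (r : ℝ), r < ‖a‖ → ∃ φ ∈ characterSpace ℂ A, r < ‖φ a‖

/-- character to homomorphism -/
noncomputable def hom (ψ : WeakDual ℂ A) (hψ : ψ ∈ characterSpace ℂ A) : A →ₐ[ℂ] ℂ :=
  CharacterSpace.toAlgHom ⟨ψ, hψ⟩

omit [CompleteSpace A] [NormOneClass A] in
lemma hom_apply (ψ : WeakDual ℂ A) (hψ : ψ ∈ characterSpace ℂ A) (a : A) : hom ψ hψ a = ψ a := rfl

lemma char_le {ψ : WeakDual ℂ A} (hψ : ψ ∈ characterSpace ℂ A) (a : A) : ‖ψ a‖ ≤ ‖a‖ := by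
  rw [← hom_apply ψ hψ]
  exact AlgHom.norm_apply_le_self _ _

omit [CompleteSpace A] [NormOneClass A] in
lemma char_mul {ψ : WeakDual ℂ A} (hψ : ψ ∈ characterSpace ℂ A) (a b : A) : ψ (a * b) = ψ a * ψ b := by
  rw [← hom_apply ψ hψ, map_mul]
  rfl

omit [CompleteSpace A] [NormOneClass A] in
lemma char_pow {ψ : WeakDual ℂ A} (hψ : ψ ∈ characterSpace ℂ A) (a : A) (n : ℕ) :
    ψ (a ^ n) = ψ a ^ n := by
  rw [← hom_apply ψ hψ, map_pow]
  rfl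

omit [CompleteSpace A] [NormOneClass A] in
lemma char_shift {ψ : WeakDual ℂ A} (hψ : ψ ∈ characterSpace ℂ A) (a : A) (c : ℂ) :
    ψ (a - algebraMap ℂ A c) = ψ a - c := by
  rw [← hom_apply ψ hψ, map_sub, AlgHom.commutes]
  rfl

omit [CompleteSpace A] [NormOneClass A] in
lemma cont_eval (a : A) : Continuous fun ψ : WeakDual ℂ A => ‖ψ a‖ :=
  (WeakDual.eval_continuous a).norm

omit [NormOneClass A] in
lemma isCompact_char : IsCompact (characterSpace ℂ A : Set (WeakDual ℂ A)) :=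
  isCompact_iff_compactSpace.2 inferInstance

lemma mem_Bd_iff (hN : Norming A) (K : Set (WeakDual ℂ A)) :
    K ∈ Bd A ↔ IsClosed K ∧ K ⊆ characterSpace ℂ A ∧ ∀ a : A, ∃ ψ ∈ K, ‖ψ a‖ = ‖a‖ := by
  constructor
  · rintro ⟨h1, h2, h3⟩
    refine ⟨h1, h2, fun a => ?_⟩
    obtain ⟨ψ, hψ, h4⟩ := h3 a
    refine ⟨ψ, hψ, le_antisymm (char_le (h2 hψ) a) ?_⟩
    by_contra hcon
    push Not at hcon
    obtain ⟨φ, hφ, h5⟩ := hN a _ hcon
    have := h4 φ hφ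
    linarith
  · rintro ⟨h1, h2, h3⟩
    refine ⟨h1, h2, fun a => ?_⟩
    obtain ⟨ψ, hψ, h4⟩ := h3 a
    refine ⟨ψ, hψ, fun φ hφ => ?_⟩
    rw [h4]
    exact char_le hφ a

/-- on a compact set of characters where the norm is not attained there is a strict bound -/
lemma strict_bound {K : Set (WeakDual ℂ A)} (hK : IsCompact K) (hKs : K ⊆ characterSpace ℂ A) {a : A}
    (h : ∀ ψ ∈ K, ‖ψ a‖ ≠ ‖a‖) (ha : 0 < ‖a‖) :
    ∃ η : ℝ, 0 < η ∧ η < ‖a‖ ∧ ∀ ψ ∈ K, ‖ψ a‖ ≤ η := by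
  rcases K.eq_empty_or_nonempty with rfl | hne
  · exact ⟨‖a‖ / 2, by linarith, by linarith, fun ψ hψ => hψ.elim⟩
  · obtain ⟨ψ₀, hψ₀, hmax⟩ := hK.exists_isMaxOn hne (cont_eval a).continuousOn
    have h1 : ‖ψ₀ a‖ < ‖a‖ := lt_of_le_of_ne (char_le (hKs hψ₀) a) (h ψ₀ hψ₀)
    refine ⟨max ‖ψ₀ a‖ (‖a‖ / 2), lt_max_of_lt_right (by linarith), max_lt h1 (by linarith), ?_⟩
    intro ψ hψ
    exact (hmax hψ).trans (le_max_left _ _)

lemma char_mem_Bd (hN : Norming A) : characterSpace ℂ A ∈ Bd A := by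
  rw [mem_Bd_iff hN]
  refine ⟨CharacterSpace.isClosed, subset_rfl, fun a => ?_⟩
  have hne : (characterSpace ℂ A : Set (WeakDual ℂ A)).Nonempty := by
    obtain ⟨φ, hφ, _⟩ := hN a (‖a‖ - 1) (by linarith)
    exact ⟨φ, hφ⟩
  obtain ⟨ψ₀, hψ₀, hmax⟩ := isCompact_char.exists_isMaxOn hne (cont_eval a).continuousOn
  refine ⟨ψ₀, hψ₀, le_antisymm (char_le hψ₀ a) ?_⟩
  by_contra hcon
  push Not at hcon
  obtain ⟨φ, hφ, h5⟩ := hN a _ hcon
  have : ‖φ a‖ ≤ ‖ψ₀ a‖ := hmax hφ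
  linarith

/-- removing a basic open set missed by some boundary -/
lemma remove (hN : Norming A) {E Γ : Set (WeakDual ℂ A)} (hE : E ∈ Bd A) (hΓ : Γ ∈ Bd A)
    (s : Finset A) {ε : ℝ} (hε : 0 < ε)
    (hV : ∀ ψ ∈ E, ¬ ∀ a ∈ s, ‖ψ a‖ < ε) :
    Γ \ {ψ | ∀ a ∈ s, ‖ψ a‖ < ε} ∈ Bd A := by
  have hopen : IsOpen {ψ : WeakDual ℂ A | ∀ a ∈ s, ‖ψ a‖ < ε} := by
    have : {ψ : WeakDual ℂ A | ∀ a ∈ s, ‖ψ a‖ < ε} = ⋂ a ∈ s, {ψ : WeakDual ℂ A | ‖ψ a‖ < ε} := by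
      ext ψ
      simp
    rw [this]
    exact isOpen_biInter_finset fun a _ => isOpen_lt (cont_eval a) continuous_const
  rw [mem_Bd_iff hN] at hE hΓ ⊢
  obtain ⟨hE1, hE2, hE3⟩ := hE
  obtain ⟨hΓ1, hΓ2, hΓ3⟩ := hΓ
  have hcl : IsClosed (Γ \ {ψ | ∀ a ∈ s, ‖ψ a‖ < ε}) := hΓ1.sdiff hopen
  have hsub : Γ \ {ψ | ∀ a ∈ s, ‖ψ a‖ < ε} ⊆ characterSpace ℂ A := sdiff_subset.trans hΓ2
  refine ⟨hcl, hsub, fun a => ?_⟩
  by_contra hcon
  push Not at hcon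
  have hcpt : IsCompact (Γ \ {ψ | ∀ a ∈ s, ‖ψ a‖ < ε}) := isCompact_char.of_isClosed_subset hcl hsub
  have ha : 0 < ‖a‖ := by
    rcases (norm_nonneg a).lt_or_eq with h | h
    · exact h
    · exfalso
      have hall : ∀ ψ ∈ characterSpace ℂ A, ‖ψ a‖ = ‖a‖ := fun ψ hψ => by
        have := char_le hψ a
        rw [← h] at this ⊢
        exact le_antisymm this (norm_nonneg _)
      have hempty : ∀ ψ ∈ Γ, ∀ b ∈ s, ‖ψ b‖ < ε := by
        intro ψ hψ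
        by_contra hh
        exact hcon ψ ⟨hψ, hh⟩ (hall ψ (hΓ2 hψ))
      have hs : ∀ b ∈ s, ‖b‖ < ε := by
        intro b hb
        obtain ⟨ψ, hψ, h4⟩ := hΓ3 b
        rw [← h4]
        exact hempty ψ hψ b hb
      obtain ⟨ψ, hψ, _⟩ := hE3 a
      exact hV ψ hψ fun b hb => (char_le (hE2 hψ) b).trans_lt (hs b hb)
  obtain ⟨η, hη0, hη1, hη⟩ := strict_bound hcpt hsub hcon ha
  -- bound for the finite set
  obtain ⟨M, hM⟩ : ∃ M : ℝ, ∀ b ∈ s, ‖b‖ ≤ M := ⟨∑ b ∈ s, ‖b‖, fun b hb =>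
    Finset.single_le_sum (f := fun b => ‖b‖) (fun i _ => norm_nonneg i) hb⟩
  have hM0 : (0:ℝ) ≤ |M| := abs_nonneg M
  have hM' : ∀ b ∈ s, ‖b‖ ≤ |M| := fun b hb => (hM b hb).trans (le_abs_self M)
  obtain ⟨p, hp⟩ : ∃ p : ℕ, (η / ‖a‖) ^ p * |M| < ε := by
    have h1 : η / ‖a‖ < 1 := (div_lt_one ha).2 hη1
    have : Tendsto (fun p : ℕ => (η / ‖a‖) ^ p * |M|) atTop (𝓝 (0 * |M|)) :=
      (tendsto_pow_atTop_nhds_zero_of_lt_one (by positivity) h1).mul_const _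
    rw [zero_mul] at this
    exact (this.eventually (gt_mem_nhds hε)).exists
  have hpos : 0 < ‖a‖ ^ p := by positivity
  have hp' : η ^ p * |M| < ε * ‖a‖ ^ p := by
    rw [div_pow] at hp
    have : η ^ p * |M| = (η ^ p / ‖a‖ ^ p * |M|) * ‖a‖ ^ p := by field_simp
    rw [this]
    gcongr
  -- the products have small norm
  have hsmall : ∀ b ∈ s, ‖a ^ p * b‖ < ε * ‖a‖ ^ p := by
    intro b hb
    obtain ⟨ψ, hψ, h4⟩ := hΓ3 (a ^ p * b)
    rw [← h4, char_mul (hΓ2 hψ), char_pow (hΓ2 hψ), norm_mul, norm_pow]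
    by_cases hψV : ∀ c ∈ s, ‖ψ c‖ < ε
    · have h5 := hψV b hb
      have h6 := char_le (hΓ2 hψ) a
      calc ‖ψ a‖ ^ p * ‖ψ b‖ ≤ ‖a‖ ^ p * ‖ψ b‖ := by gcongr
        _ < ‖a‖ ^ p * ε := by gcongr
        _ = ε * ‖a‖ ^ p := mul_comm _ _
    · have h5 := hη ψ ⟨hψ, hψV⟩
      have h6 : ‖ψ b‖ ≤ |M| := (char_le (hΓ2 hψ) b).trans (hM' b hb)
      calc ‖ψ a‖ ^ p * ‖ψ b‖ ≤ η ^ p * |M| := by gcongr
        _ < _ := hp'
  obtain ⟨ψ, hψ, h4⟩ := hE3 a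
  apply hV ψ hψ
  intro b hb
  have h5 := char_le (hE2 hψ) (a ^ p * b)
  rw [char_mul (hE2 hψ), char_pow (hE2 hψ), norm_mul, norm_pow, h4] at h5
  have h6 := hsmall b hb
  have h7 : ‖a‖ ^ p * ‖ψ b‖ < ‖a‖ ^ p * ε := by
    rw [mul_comm (‖a‖ ^ p) ε]
    exact h5.trans_lt h6
  exact lt_of_mul_lt_mul_left h7 hpos.le

omit [CompleteSpace A] [NormOneClass A] in
/-- basic neighbourhoods -/
lemma basic_nhd {K : Set (WeakDual ℂ A)} (hK : IsClosed K) (hKs : K ⊆ characterSpace ℂ A)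
    {φ : WeakDual ℂ A} (hφ : φ ∈ characterSpace ℂ A) (hφK : φ ∉ K) :
    ∃ (s : Finset A) (ε : ℝ), 0 < ε ∧ (∀ a ∈ s, ‖φ a‖ < ε) ∧ ∀ ψ ∈ K, ¬ ∀ a ∈ s, ‖ψ a‖ < ε := by
  classical
  have hind : IsInducing (fun (x : WeakDual ℂ A) (a : A) => x a) := ⟨rfl⟩
  obtain ⟨O, hO, hOK⟩ := hind.isOpen_iff.1 hK.isOpen_compl
  have hφO : (fun a => φ a) ∈ O := by
    have : φ ∈ (fun (x : WeakDual ℂ A) (a : A) => x a) ⁻¹' O := by rw [hOK]; exact hφK
    exact this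
  obtain ⟨I, u, hu, hIu⟩ := isOpen_pi_iff.1 hO _ hφO
  have hex : ∀ a : A, ∃ r : ℝ, 0 < r ∧ (a ∈ I → Metric.ball (φ a) r ⊆ u a) := by
    intro a
    by_cases ha : a ∈ I
    · obtain ⟨r, hr, h⟩ := Metric.isOpen_iff.1 (hu a ha).1 _ (hu a ha).2
      exact ⟨r, hr, fun _ => h⟩
    · exact ⟨1, one_pos, fun h => (ha h).elim⟩
  choose r hr0 hr using hex
  obtain ⟨ε, hε0, hε⟩ : ∃ ε : ℝ, 0 < ε ∧ ∀ a ∈ I, ε ≤ r a := by
    rcases I.eq_empty_or_nonempty with rfl | hne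
    · exact ⟨1, one_pos, fun a ha => by simp at ha⟩
    · exact ⟨I.inf' hne r, (Finset.lt_inf'_iff hne).2 fun a _ => hr0 a,
        fun a ha => Finset.inf'_le _ ha⟩
  refine ⟨I.image (fun a => a - algebraMap ℂ A (φ a)), ε, hε0, ?_, ?_⟩
  · intro b hb
    obtain ⟨a, ha, rfl⟩ := Finset.mem_image.1 hb
    rw [char_shift hφ, sub_self, norm_zero]
    exact hε0
  · intro ψ hψ hcon
    have h1 : (fun a => ψ a) ∈ O := by
      apply hIu
      intro a ha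
      apply hr a ha
      have h2 := hcon _ (Finset.mem_image_of_mem _ ha)
      rw [char_shift (hKs hψ)] at h2
      rw [Metric.mem_ball, dist_eq_norm]
      exact h2.trans_le (hε a ha)
    have h3 : ψ ∈ (fun (x : WeakDual ℂ A) (a : A) => x a) ⁻¹' O := h1
    rw [hOK] at h3
    exact h3 hψ

/-- the Shilov boundary is a boundary -/
theorem sInter_mem_Bd (hN : Norming A) : ⋂₀ Bd A ∈ Bd A := by
  have hbase := char_mem_Bd hN
  have hsub : ⋂₀ Bd A ⊆ characterSpace ℂ A := sInter_subset_of_mem hbase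
  have hcl : IsClosed (⋂₀ Bd A) := isClosed_sInter fun K hK => hK.1
  rw [mem_Bd_iff hN]
  refine ⟨hcl, hsub, fun a => ?_⟩
  by_contra hcon
  push Not at hcon
  -- the peak set
  set P : Set (WeakDual ℂ A) := characterSpace ℂ A ∩ {ψ | ‖ψ a‖ = ‖a‖} with hP
  have hPcpt : IsCompact P := isCompact_char.inter_right (isClosed_eq (cont_eval a) continuous_const)
  have hnb : ∀ φ ∈ P, ∃ (s : Finset A) (ε : ℝ), 0 < ε ∧ (∀ a ∈ s, ‖φ a‖ < ε) ∧
      ∃ E ∈ Bd A, ∀ ψ ∈ E, ¬ ∀ a ∈ s, ‖ψ a‖ < ε := by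
    intro φ hφ
    have : φ ∉ ⋂₀ Bd A := fun h => hcon φ h hφ.2
    rw [mem_sInter] at this
    push Not at this
    obtain ⟨E, hE, hφE⟩ := this
    obtain ⟨s, ε, h1, h2, h3⟩ := basic_nhd hE.1 hE.2.1 hφ.1 hφE
    exact ⟨s, ε, h1, h2, E, hE, h3⟩
  choose! s ε hε hmem hE using hnb
  have hopen : ∀ φ : WeakDual ℂ A, IsOpen {ψ : WeakDual ℂ A | ∀ a ∈ s φ, ‖ψ a‖ < ε φ} := by
    intro φ
    have : {ψ : WeakDual ℂ A | ∀ a ∈ s φ, ‖ψ a‖ < ε φ}
        = ⋂ a ∈ s φ, {ψ : WeakDual ℂ A | ‖ψ a‖ < ε φ} := by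
      ext ψ
      simp
    rw [this]
    exact isOpen_biInter_finset fun a _ => isOpen_lt (cont_eval a) continuous_const
  obtain ⟨t, htP, htcov⟩ := hPcpt.elim_nhds_subcover
    (fun φ => {ψ : WeakDual ℂ A | ∀ a ∈ s φ, ‖ψ a‖ < ε φ})
    (fun φ hφ => (hopen φ).mem_nhds (hmem φ hφ))
  -- remove finitely many
  have hrem : ∀ t' : Finset (WeakDual ℂ A), t' ⊆ t → ∃ Γ ∈ Bd A,
      ∀ φ ∈ t', ∀ ψ ∈ Γ, ψ ∉ {ψ : WeakDual ℂ A | ∀ a ∈ s φ, ‖ψ a‖ < ε φ} := by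
    intro t'
    classical
    induction t' using Finset.induction_on with
    | empty => intro _; exact ⟨_, hbase, by simp⟩
    | insert φ t' hφ ih =>
      intro hsubt
      obtain ⟨Γ, hΓ, h1⟩ := ih ((Finset.subset_insert _ _).trans hsubt)
      have hφP : φ ∈ P := htP φ (hsubt (Finset.mem_insert_self _ _))
      obtain ⟨E, hE1, hE2⟩ := hE φ hφP
      refine ⟨_, remove hN hE1 hΓ (s φ) (hε φ hφP) hE2, ?_⟩
      intro φ' hφ' ψ hψ
      rcases Finset.mem_insert.1 hφ' with rfl | h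
      · exact hψ.2
      · exact h1 φ' h ψ hψ.1
  obtain ⟨Γ, hΓ, h1⟩ := hrem t subset_rfl
  obtain ⟨ψ, hψ, h2⟩ := ((mem_Bd_iff hN Γ).1 hΓ).2.2 a
  have hψP : ψ ∈ P := ⟨((mem_Bd_iff hN Γ).1 hΓ).2.1 hψ, h2⟩
  have h3 := htcov hψP
  simp only [mem_iUnion] at h3
  obtain ⟨φ, hφ, h4⟩ := h3
  exact h1 φ hφ ψ hψ h4

/-- the final abstract theorem -/
theorem ed_shilov (e : ℕ → A →ₐ[ℂ] ℂ)
    (hnorm : ∀ (a : A) (r : ℝ), r < ‖a‖ → ∃ i, r < ‖e i a‖)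
    (hlim : ∀ f : ℕ → A, (∃ C : ℝ, ∀ n, ‖f n‖ ≤ C) →
      ∃ g : A, ∀ (a b : A) (C : ℝ), (∀ᶠ n in atTop, ‖a * f n + b‖ ≤ C) → ‖a * g + b‖ ≤ C) :
    ExtremallyDisconnected ↥(⋂₀ Bd A) := by
  have hN : Norming A := by
    intro a r hr
    obtain ⟨i, hi⟩ := hnorm a r hr
    refine ⟨(CharacterSpace.equivAlgHom.symm (e i)).1, (CharacterSpace.equivAlgHom.symm (e i)).2, ?_⟩
    have : (CharacterSpace.equivAlgHom.symm (e i)).1 a = e i a :=
      congrFun (CharacterSpace.equivAlgHom_symm_coe (e i)) a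
    rw [this]
    exact hi
  have hSh := sInter_mem_Bd hN
  obtain ⟨hcl, hsub, hatt⟩ := (mem_Bd_iff hN _).1 hSh
  let S : Setup ↥(⋂₀ Bd A) A :=
    { ρ := fun x => hom x.1 (hsub x.2)
      cont := fun a => (WeakDual.eval_continuous a).comp continuous_subtype_val
      le := fun x a => char_le (hsub x.2) a
      attain := fun a => by
        obtain ⟨ψ, hψ, h⟩ := hatt a
        exact ⟨⟨ψ, hψ⟩, h⟩
      peak := by
        intro W hW hne
        -- the complement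
        obtain ⟨O, hO, rfl⟩ := isOpen_induced_iff.1 hW
        have hcl2 : IsClosed (⋂₀ Bd A \ O) := hcl.sdiff hO
        have hsub2 : ⋂₀ Bd A \ O ⊆ characterSpace ℂ A := sdiff_subset.trans hsub
        have hnot : (⋂₀ Bd A \ O) ∉ Bd A := by
          intro hmem
          obtain ⟨x, hx⟩ := hne
          have := (sInter_subset_of_mem hmem) x.2
          exact this.2 hx
        rw [mem_Bd_iff hN] at hnot
        push Not at hnot
        obtain ⟨a, ha⟩ := hnot hcl2 hsub2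
        have hcpt : IsCompact (⋂₀ Bd A \ O) := isCompact_char.of_isClosed_subset hcl2 hsub2
        rcases (norm_nonneg a).lt_or_eq with h0 | h0
        · obtain ⟨η, h1, h2, h3⟩ := strict_bound hcpt hsub2 ha h0
          refine ⟨((‖a‖⁻¹ : ℝ) : ℂ) • a, η / ‖a‖, by positivity, (div_lt_one h0).2 h2, ?_, ?_⟩
          · rw [norm_smul, Complex.norm_real, norm_inv, norm_norm, inv_mul_cancel₀ h0.ne']
          · intro x hx
            rw [map_smul, norm_smul, Complex.norm_real, norm_inv, norm_norm, div_eq_inv_mul]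
            have : ‖hom x.1 (hsub x.2) a‖ ≤ η := h3 x.1 ⟨x.2, hx⟩
            gcongr
        · refine ⟨1, 1/2, by norm_num, by norm_num, norm_one, ?_⟩
          intro x hx
          exfalso
          apply ha x.1 ⟨x.2, hx⟩
          have := char_le (hsub x.2) a
          rw [← h0] at this ⊢
          exact le_antisymm this (norm_nonneg _)
      e := e
      e_le := fun i a => AlgHom.norm_apply_le_self _ _
      e_norming := hnorm
      lim := hlim }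
  exact S.extremallyDisconnected

end Pool.Agent.Helper503.Ed
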