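import Mathlib

open Set Filter Topology WeakDual
open scoped Manifold BoundedContinuousFunction ContDiff

namespace Pool.Agent.Helper503.HInf

variable (R : Type) [TopologicalSpace R] [ChartedSpace ℂ R]

/-- bounded holomorphic functions as a subalgebra of the bounded continuous functions -/
def HA : Subalgebra ℂ (R →ᵇ ℂ) where
  carrier := {f | MDifferentiable 𝓘(ℂ) 𝓘(ℂ) f}
  mul_mem' := by
    intro f g hf hg
    exact MDifferentiable.mul hf hg
  add_mem' := by
    intro f g hf hg
    exact MDifferentiable.add hf hg
  algebraMap_mem' := by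
    intro c
    exact mdifferentiable_const (c := c)

noncomputable example : NormedCommRing (HA R) := inferInstance
noncomputable example : NormedAlgebra ℂ (HA R) := inferInstance

lemma mem_HA (f : R →ᵇ ℂ) : f ∈ HA R ↔ MDifferentiable 𝓘(ℂ) 𝓘(ℂ) f := Iff.rfl

variable [IsManifold 𝓘(ℂ) ⊤ R]

lemma isClosed_HA : IsClosed (HA R : Set (R →ᵇ ℂ)) := by
  apply IsSeqClosed.isClosed
  intro F f hF hlim
  have h1 := BoundedContinuousFunction.tendsto_iff_tendstoUniformly.1 hlim
  show MDifferentiable 𝓘(ℂ) 𝓘(ℂ) f
  rw [mdifferentiable_iff]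
  refine ⟨f.continuous, ?_⟩
  intro x y
  have hopen : IsOpen (extChartAt 𝓘(ℂ) x).target := isOpen_extChartAt_target x
  simp only [mfld_simps, chartAt_self_eq]
  apply TendstoLocallyUniformlyOn.differentiableOn (φ := atTop)
    (F := fun n => (F n : R → ℂ) ∘ (chartAt ℂ x).symm)
  · apply TendstoUniformlyOn.tendstoLocallyUniformlyOn
    exact (h1.comp (chartAt ℂ x).symm).tendstoUniformlyOn
  · filter_upwards with n
    have h2 := hF n
    have h3 := (mdifferentiable_iff.1 h2).2 x y
    simpa only [mfld_simps, chartAt_self_eq] using h3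
  · simpa only [mfld_simps] using hopen

instance : CompleteSpace (HA R) := (isClosed_HA R).completeSpace_coe


/-- the carrier used in the frozen statement -/
abbrev X : Type := {f : R → ℂ // MDifferentiable 𝓘(ℂ) 𝓘(ℂ) f ∧ ∃ C : ℝ, ∀ x, ‖f x‖ ≤ C}

variable {R}

omit [IsManifold 𝓘(ℂ) ⊤ R] in
lemma X.cont (f : X R) : Continuous f.1 := f.2.1.continuous

/-- a bounded holomorphic function as an element of the algebra -/
noncomputable def mk (f : X R) : HA R :=
  ⟨BoundedContinuousFunction.ofNormedAddCommGroup f.1 f.cont _ f.2.2.choose_spec, f.2.1⟩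

omit [IsManifold 𝓘(ℂ) ⊤ R] in
@[simp] lemma mk_apply (f : X R) (x : R) : (mk f).1 x = f.1 x := rfl

/-- an element of the algebra as a bounded holomorphic function -/
noncomputable def un (f : HA R) : X R := ⟨f.1, f.2, ‖f.1‖, fun x => f.1.norm_coe_le_norm x⟩

omit [IsManifold 𝓘(ℂ) ⊤ R] in
lemma mk_un (f : HA R) : mk (un f) = f := by
  apply Subtype.ext
  apply BoundedContinuousFunction.ext
  intro x
  rfl

omit [IsManifold 𝓘(ℂ) ⊤ R] in
lemma un_mk (f : X R) : un (mk f) = f := rfl

omit [IsManifold 𝓘(ℂ) ⊤ R] in
lemma HA_ext {f g : HA R} (h : ∀ x, f.1 x = g.1 x) : f = g := by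
  apply Subtype.ext
  exact BoundedContinuousFunction.ext h

/-- the evaluation homomorphism -/
noncomputable def evHom (x : R) : HA R →ₐ[ℂ] ℂ where
  toFun f := f.1 x
  map_one' := rfl
  map_mul' _ _ := rfl
  map_zero' := rfl
  map_add' _ _ := rfl
  commutes' _ := rfl

/-- the evaluation character -/
noncomputable def ev (x : R) : characterSpace ℂ (HA R) := CharacterSpace.equivAlgHom.symm (evHom x)

@[simp] lemma ev_apply (x : R) (f : HA R) : ev x f = f.1 x := by
  have : (ev x : HA R → ℂ) = evHom x := CharacterSpace.equivAlgHom_symm_coe (evHom x)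
  exact congrFun this f

lemma ev_continuous : Continuous (ev : R → characterSpace ℂ (HA R)) := by
  rw [Topology.IsInducing.subtypeVal.continuous_iff]
  apply WeakDual.continuous_of_continuous_eval
  intro f
  have : (fun x : R => (Subtype.val ∘ ev) x f) = fun x => f.1 x := by
    funext x
    exact ev_apply x f
  rw [this]
  exact f.1.continuous

/-- the passage to the frozen statement -/
theorem transfer (γ : Circle → R)
    (h : IsPreconnected (Set.range fun t => (ev (γ t) : characterSpace ℂ (HA R)))ᶜ) :
    IsPreconnected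
          ({φ : X R → ℂ |
              (∀ u : X R, u.1 = (fun _ => (1 : ℂ)) → φ u = 1) ∧
              (∀ f g h : X R, h.1 = f.1 + g.1 → φ h = φ f + φ g) ∧
              (∀ f g h : X R, h.1 = f.1 * g.1 → φ h = φ f * φ g) ∧
              (∀ (c : ℂ) (f h : X R), h.1 = c • f.1 → φ h = c * φ f)} \
           {φ : X R → ℂ | ∃ t : Circle, ∀ f : X R, φ f = f.1 (γ t)}) := by
  set Ψ : characterSpace ℂ (HA R) → (X R → ℂ) := fun χ f => χ (mk f) with hΨ
  have hc : Continuous Ψ := continuous_pi fun f =>
    (WeakDual.eval_continuous (mk f)).comp continuous_subtype_val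
  convert h.image Ψ hc.continuousOn using 1
  ext φ
  constructor
  · rintro ⟨⟨h1, h2, h3, h4⟩, h5⟩
    let F : HA R →ₐ[ℂ] ℂ :=
      { toFun := fun f => φ (un f)
        map_one' := h1 _ rfl
        map_mul' := fun f g => h3 _ _ _ rfl
        map_zero' := by
          have := h4 0 (un (0 : HA R)) (un (0 : HA R)) (by
            funext x
            show (0:ℂ) = 0 * 0
            simp)
          rw [this, zero_mul]
        map_add' := fun f g => h2 _ _ _ rfl
        commutes' := by
          intro c
          have e1 := h4 c (un (1 : HA R)) (un (algebraMap ℂ (HA R) c)) (by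
            funext x
            show c = c * 1
            simp)
          rw [e1, h1 _ rfl]
          simp }
    have hF : ∀ f, CharacterSpace.equivAlgHom.symm F f = φ (un f) := fun f =>
      congrFun (CharacterSpace.equivAlgHom_symm_coe F) f
    refine ⟨CharacterSpace.equivAlgHom.symm F, ?_, ?_⟩
    · rintro ⟨t, ht⟩
      apply h5
      refine ⟨t, fun f => ?_⟩
      have e1 := hF (mk f)
      rw [un_mk] at e1
      rw [← e1, ← ht, ev_apply, mk_apply]
    · funext f
      show CharacterSpace.equivAlgHom.symm F (mk f) = φ f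
      rw [hF, un_mk]
  · rintro ⟨χ, hχ, rfl⟩
    refine ⟨⟨?_, ?_, ?_, ?_⟩, ?_⟩
    · intro u hu
      have : mk u = 1 := HA_ext fun x => by rw [mk_apply, hu]; rfl
      show χ (mk u) = 1
      rw [this, map_one]
    · intro f g k hk
      have : mk k = mk f + mk g := HA_ext fun x => by rw [mk_apply, hk]; rfl
      show χ (mk k) = _
      rw [this, map_add]
    · intro f g k hk
      have : mk k = mk f * mk g := HA_ext fun x => by rw [mk_apply, hk]; rfl
      show χ (mk k) = _
      rw [this, map_mul]
    · intro c f k hk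
      have : mk k = c • mk f := HA_ext fun x => by rw [mk_apply, hk]; rfl
      show χ (mk k) = _
      rw [this, map_smul, smul_eq_mul]
    · rintro ⟨t, ht⟩
      apply hχ
      refine ⟨t, ?_⟩
      apply CharacterSpace.ext
      intro f
      have := ht (un f)
      rw [ev_apply]
      show (un f).1 (γ t) = _
      rw [← this]
      show χ (mk (un f)) = χ f
      rw [mk_un]

end Pool.Agent.Helper503.HInf
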