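import Mathlib
import Pool.Agent.Helper503.EdC
import Pool.Agent.Helper503.HInf

open Set Filter Topology TopologicalSpace
open scoped Manifold BoundedContinuousFunction ContDiff

namespace Pool.Agent.Helper503.Ed

/-! local convergence -/

lemma local_limit {O : Set ℂ} (hO : IsOpen O) {F : ℕ → ℂ → ℂ} {G : ℂ → ℂ} {C : ℝ} (hC : 0 < C)
    {l : Filter ℕ} [l.NeBot]
    (hd : ∀ n, DifferentiableOn ℂ (F n) O) (hb : ∀ n, ∀ z ∈ O, ‖F n z‖ < C)
    (hlim : ∀ z ∈ O, Tendsto (fun n => F n z) l (𝓝 (G z))) : DifferentiableOn ℂ G O := by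
  have key : TendstoLocallyUniformlyOn F G l O := by
    rw [Metric.tendstoLocallyUniformlyOn_iff]
    intro ε hε z₀ hz₀
    obtain ⟨r, hr, hrO⟩ := Metric.isOpen_iff.1 hO z₀ hz₀
    -- Schwarz
    have hsch : ∀ n, ∀ z ∈ Metric.ball z₀ r, dist (F n z) (F n z₀) ≤ (2 * C) / r * dist z z₀ := by
      intro n z hz
      apply Complex.dist_le_div_mul_dist_of_mapsTo_ball ((hd n).mono hrO) _ hz
      intro w hw
      rw [Metric.mem_closedBall, dist_eq_norm]
      have h1 := hb n w (hrO hw)
      have h2 := hb n z₀ hz₀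
      exact (norm_sub_le _ _).trans (by linarith)
    set ρ : ℝ := min r (ε * r / (8 * C)) with hρ
    have hρ0 : 0 < ρ := lt_min hr (by positivity)
    refine ⟨Metric.ball z₀ ρ, mem_nhdsWithin_of_mem_nhds (Metric.ball_mem_nhds _ hρ0), ?_⟩
    have hsmall : ∀ n, ∀ z ∈ Metric.ball z₀ ρ, dist (F n z) (F n z₀) ≤ ε / 4 := by
      intro n z hz
      have hz1 : dist z z₀ < ρ := hz
      have hz2 : dist z z₀ < r := hz1.trans_le (min_le_left _ _)
      have hz3 : dist z z₀ ≤ ε * r / (8 * C) := (hz1.trans_le (min_le_right _ _)).le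
      refine (hsch n z hz2).trans ?_
      calc (2 * C) / r * dist z z₀ ≤ (2 * C) / r * (ε * r / (8 * C)) := by gcongr
        _ = ε / 4 := by field_simp; norm_num
    have hG : ∀ z ∈ Metric.ball z₀ ρ, dist (G z) (G z₀) ≤ ε / 4 := by
      intro z hz
      have hzO : z ∈ O := hrO (Metric.ball_subset_ball (min_le_left _ _) hz)
      apply le_of_tendsto ((hlim z hzO).dist (hlim z₀ hz₀))
      exact Eventually.of_forall fun n => hsmall n z hz
    filter_upwards [(Metric.tendsto_nhds.1 (hlim z₀ hz₀)) (ε / 4) (by linarith)] with n hn z hz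
    calc dist (G z) (F n z) ≤ dist (G z) (G z₀) + dist (G z₀) (F n z₀) + dist (F n z₀) (F n z) :=
          dist_triangle4 _ _ _ _
      _ < ε := by
        have h1 := hG z hz
        have h2 := hsmall n z hz
        rw [dist_comm] at hn h2
        linarith
  exact key.differentiableOn (Eventually.of_forall hd) hO

variable {R : Type} [TopologicalSpace R] [ChartedSpace ℂ R] [IsManifold 𝓘(ℂ) ⊤ R]

lemma chart_diff {f : R → ℂ} (hf : MDifferentiable 𝓘(ℂ) 𝓘(ℂ) f) (x : R) :
    DifferentiableOn ℂ (f ∘ (chartAt ℂ x).symm) (chartAt ℂ x).target := by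
  have h3 := (mdifferentiable_iff.1 hf).2 x 0
  simpa only [mfld_simps, chartAt_self_eq] using h3

open HInf in
/-- bounded sequences have limits -/
lemma exists_lim (f : ℕ → HA R) (hf : ∃ C : ℝ, ∀ n, ‖f n‖ ≤ C) [Nonempty R] :
    ∃ g : HA R, ∀ (a b : HA R) (C : ℝ), (∀ᶠ n in atTop, ‖a * f n + b‖ ≤ C) → ‖a * g + b‖ ≤ C := by
  obtain ⟨C₀, hC₀⟩ := hf
  obtain ⟨C, hC, hfC⟩ : ∃ C : ℝ, 0 < C ∧ ∀ n x, ‖(f n).1 x‖ < C := by
    refine ⟨|C₀| + 1, by positivity, fun n x => ?_⟩
    have h1 : ‖(f n).1 x‖ ≤ ‖(f n).1‖ := (f n).1.norm_coe_le_norm x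
    have h2 : ‖(f n).1‖ ≤ C₀ := hC₀ n
    have := le_abs_self C₀
    linarith
  set l : Ultrafilter ℕ := hyperfilter ℕ with hl
  have hex : ∀ x : R, ∃ w : ℂ, Tendsto (fun n => (f n).1 x) l (𝓝 w) := by
    intro x
    have hcpt : IsCompact (Metric.closedBall (0:ℂ) C) := isCompact_closedBall _ _
    have hle : (l.map (fun n => (f n).1 x) : Filter ℂ) ≤ 𝓟 (Metric.closedBall (0:ℂ) C) := by
      have h1 : ∀ᶠ n in (l : Filter ℕ), (f n).1 x ∈ Metric.closedBall (0:ℂ) C := by
        apply Filter.Eventually.of_forall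
        intro n
        rw [Metric.mem_closedBall, dist_zero_right]
        exact (hfC n x).le
      exact le_principal_iff.2 h1
    obtain ⟨w, _, hw⟩ := hcpt.ultrafilter_le_nhds (l.map (fun n => (f n).1 x)) hle
    exact ⟨w, hw⟩
  choose g hg using hex
  have hgC : ∀ x, ‖g x‖ ≤ C := fun x =>
    le_of_tendsto (hg x).norm (Eventually.of_forall fun n => (hfC n x).le)
  have hgd : ∀ x : R, DifferentiableOn ℂ (g ∘ (chartAt ℂ x).symm) (chartAt ℂ x).target := by
    intro x
    apply local_limit (chartAt ℂ x).open_target (F := fun n => (f n).1 ∘ (chartAt ℂ x).symm) hC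
      (l := (l : Filter ℕ))
    · intro n
      exact chart_diff (f n).2 x
    · intro n z _
      exact hfC n _
    · intro z _
      exact hg _
  have hgc : Continuous g := by
    rw [continuous_iff_continuousAt]
    intro x
    have h1 : ContinuousAt (g ∘ (chartAt ℂ x).symm) (chartAt ℂ x x) :=
      ((hgd x).continuousOn).continuousAt
        ((chartAt ℂ x).open_target.mem_nhds (mem_chart_target ℂ x))
    have h2 : ContinuousAt ((g ∘ (chartAt ℂ x).symm) ∘ (chartAt ℂ x)) x :=
      ContinuousAt.comp h1 ((chartAt ℂ x).continuousAt (mem_chart_source ℂ x))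
    apply h2.congr
    filter_upwards [(chartAt ℂ x).open_source.mem_nhds (mem_chart_source ℂ x)] with y hy
    simp only [Function.comp_apply]
    rw [(chartAt ℂ x).left_inv hy]
  have hgm : MDifferentiable 𝓘(ℂ) 𝓘(ℂ) g := by
    rw [mdifferentiable_iff]
    refine ⟨hgc, fun x y => ?_⟩
    simpa only [mfld_simps, chartAt_self_eq] using hgd x
  refine ⟨⟨BoundedContinuousFunction.ofNormedAddCommGroup g hgc C hgC, hgm⟩, ?_⟩
  intro a b C' h
  have hC' : 0 ≤ C' := by
    obtain ⟨n, hn⟩ := h.exists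
    exact (norm_nonneg _).trans hn
  show ‖(a * _ + b : HA R).1‖ ≤ C'
  rw [BoundedContinuousFunction.norm_le hC']
  intro x
  show ‖a.1 x * g x + b.1 x‖ ≤ C'
  have h1 : Tendsto (fun n => ‖a.1 x * (f n).1 x + b.1 x‖) l (𝓝 ‖a.1 x * g x + b.1 x‖) :=
    (((hg x).const_mul _).add_const _).norm
  apply le_of_tendsto h1
  have h2 : ∀ᶠ n in (l : Filter ℕ), ‖a * f n + b‖ ≤ C' := by
    have : (l : Filter ℕ) ≤ atTop := by
      rw [hl, ← Nat.cofinite_eq_atTop]
      exact hyperfilter_le_cofinite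
    exact this h
  filter_upwards [h2] with n hn
  exact ((a * f n + b : HA R).1.norm_coe_le_norm x).trans hn

/-! Poincare-Volterra -/

lemma chart_analytic {f : R → ℂ} (hf : MDifferentiable 𝓘(ℂ) 𝓘(ℂ) f) (x : R) :
    AnalyticOnNhd ℂ (f ∘ (chartAt ℂ x).symm) (chartAt ℂ x).target :=
  (chart_diff hf x).analyticOnNhd (chartAt ℂ x).open_target

lemma isClosed_const {f : R → ℂ} (hf : MDifferentiable 𝓘(ℂ) 𝓘(ℂ) f) :
    IsClosed {x | ∀ᶠ z in 𝓝 x, f z = f x} := by
  rw [← isOpen_compl_iff, isOpen_iff_mem_nhds]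
  intro x hx
  set φ := chartAt ℂ x with hφ
  obtain ⟨r, hr, hrt⟩ := Metric.isOpen_iff.1 φ.open_target (φ x) (mem_chart_target ℂ x)
  have hcont : ContinuousAt φ x := φ.continuousAt (mem_chart_source ℂ x)
  filter_upwards [φ.open_source.mem_nhds (mem_chart_source ℂ x),
    hcont.preimage_mem_nhds (Metric.ball_mem_nhds _ hr)] with y hy1 hy2
  intro hy
  apply hx
  simp only [mem_ofPred_eq] at hy ⊢
  -- constant near the image of y
  have h1 : (f ∘ φ.symm) =ᶠ[𝓝 (φ y)] fun _ => f y := by
    have h2 : Tendsto φ.symm (𝓝 (φ y)) (𝓝 y) := by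
      have := φ.symm.continuousAt (x := φ y) (by simpa using φ.map_source hy1)
      rw [ContinuousAt, φ.left_inv hy1] at this
      exact this
    exact h2.eventually hy
  have h3 : EqOn (f ∘ φ.symm) (fun _ => f y) (Metric.ball (φ x) r) :=
    ((chart_analytic hf x).mono hrt).eqOn_of_preconnected_of_eventuallyEq analyticOnNhd_const
      (convex_ball _ _).isPreconnected hy2 h1
  have h4 : f x = f y := by
    have := h3 (Metric.mem_ball_self hr)
    simp only [Function.comp_apply] at this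
    rwa [φ.left_inv (mem_chart_source ℂ x)] at this
  filter_upwards [φ.open_source.mem_nhds (mem_chart_source ℂ x),
    hcont.preimage_mem_nhds (Metric.ball_mem_nhds _ hr)] with z hz1 hz2
  have := h3 hz2
  simp only [Function.comp_apply] at this
  rw [φ.left_inv hz1] at this
  rw [this, h4]

omit [ChartedSpace ℂ R] [IsManifold 𝓘(ℂ) ⊤ R] in
lemma isOpen_const {f : R → ℂ} : IsOpen {x | ∀ᶠ z in 𝓝 x, f z = f x} := by
  rw [isOpen_iff_mem_nhds]
  intro x hx
  simp only [mem_ofPred_eq] at hx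
  have h1 := eventually_eventually_nhds.2 hx
  filter_upwards [h1] with y hy
  have h2 := hy.self_of_nhds
  show ∀ᶠ z in 𝓝 y, f z = f y
  filter_upwards [hy] with z hz
  rw [hz, h2]

lemma not_const [ConnectedSpace R] {f : R → ℂ} (hf : MDifferentiable 𝓘(ℂ) 𝓘(ℂ) f)
    (hnc : ∃ x y, f x ≠ f y) (x : R) : ¬ ∀ᶠ z in 𝓝 x, f z = f x := by
  intro hx
  have h1 : {x | ∀ᶠ z in 𝓝 x, f z = f x} = univ :=
    IsClopen.eq_univ ⟨isClosed_const hf, isOpen_const⟩ ⟨x, hx⟩
  have h2 : IsLocallyConstant f := by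
    rw [IsLocallyConstant.iff_eventually_eq]
    intro y
    have : y ∈ {x | ∀ᶠ z in 𝓝 x, f z = f x} := by rw [h1]; trivial
    exact this
  obtain ⟨a, b, hab⟩ := hnc
  exact hab (h2.apply_eq_of_preconnectedSpace a b)

lemma good [T2Space R] {f : R → ℂ} (hf : MDifferentiable 𝓘(ℂ) 𝓘(ℂ) f) (y : R)
    (hy : ¬ ∀ᶠ z in 𝓝 y, f z = f y) :
    ∃ U ∈ countableBasis ℂ, f y ∈ U ∧ IsSeparable (connectedComponentIn (f ⁻¹' U) y) := by
  set φ := chartAt ℂ y with hφ
  have hys : y ∈ φ.source := mem_chart_source ℂ y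
  have hyt : φ y ∈ φ.target := mem_chart_target ℂ y
  have han : AnalyticAt ℂ (f ∘ φ.symm) (φ y) := chart_analytic hf y _ hyt
  have hFy : (f ∘ φ.symm) (φ y) = f y := by
    simp only [Function.comp_apply]
    rw [φ.left_inv hys]
  have hpunct : ∀ᶠ w in 𝓝[≠] (φ y), (f ∘ φ.symm) w ≠ f y := by
    rcases han.eventually_eq_or_eventually_ne (analyticAt_const (v := f y)) with h | h
    · exfalso
      apply hy
      have hcont : ContinuousAt φ y := φ.continuousAt hys
      filter_upwards [φ.open_source.mem_nhds hys, hcont.eventually h] with z hz1 hz2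
      simp only [Function.comp_apply] at hz2
      rwa [φ.left_inv hz1] at hz2
    · exact h
  rw [eventually_nhdsWithin_iff, Metric.eventually_nhds_iff] at hpunct
  obtain ⟨r₁, hr₁, h1⟩ := hpunct
  obtain ⟨r₂, hr₂, h2⟩ := Metric.isOpen_iff.1 φ.open_target (φ y) hyt
  set r : ℝ := min r₁ r₂ / 2 with hr
  have hr0 : 0 < r := by
    have := lt_min hr₁ hr₂
    positivity
  have hrr₁ : r < r₁ := by
    have := min_le_left r₁ r₂
    have := lt_min hr₁ hr₂
    linarith
  have hrr₂ : r < r₂ := by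
    have := min_le_right r₁ r₂
    have := lt_min hr₁ hr₂
    linarith
  have hcb : Metric.closedBall (φ y) r ⊆ φ.target := (Metric.closedBall_subset_ball hrr₂).trans h2
  have hcs : ContinuousOn φ.symm (Metric.closedBall (φ y) r) := φ.continuousOn_symm.mono hcb
  have hKc : IsCompact (φ.symm '' Metric.closedBall (φ y) r) :=
    (isCompact_closedBall _ _).image_of_continuousOn hcs
  have hSc : IsCompact (f '' (φ.symm '' Metric.sphere (φ y) r)) :=
    (((isCompact_sphere _ _).image_of_continuousOn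
      (hcs.mono Metric.sphere_subset_closedBall))).image hf.continuous
  have hnot : f y ∈ (f '' (φ.symm '' Metric.sphere (φ y) r))ᶜ := by
    rintro ⟨_, ⟨w, hw, rfl⟩, hfw⟩
    have hw' : dist w (φ y) = r := hw
    refine h1 (y := w) (by rw [hw']; exact hrr₁) ?_ hfw
    intro hwe
    have hwe' : w = φ y := hwe
    rw [hwe', dist_self] at hw'
    linarith
  obtain ⟨U, hU, hyU, hUs⟩ := (isBasis_countableBasis ℂ).exists_subset_of_mem_open hnot
    hSc.isClosed.isOpen_compl
  refine ⟨U, hU, hyU, ?_⟩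
  have hsub : connectedComponentIn (f ⁻¹' U) y ⊆ φ.symm '' Metric.ball (φ y) r := by
    have hopenB : IsOpen (φ.symm '' Metric.ball (φ y) r) :=
      φ.symm.isOpen_image_of_subset_source Metric.isOpen_ball
        (by simpa using Metric.ball_subset_closedBall.trans hcb)
    apply IsPreconnected.subset_left_of_subset_union hopenB hKc.isClosed.isOpen_compl
    · rw [disjoint_compl_right_iff_subset]
      exact image_mono Metric.ball_subset_closedBall
    · intro z hz
      by_contra hcon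
      simp only [mem_union, mem_compl_iff, not_or, not_not] at hcon
      obtain ⟨hz1, w, hw, hwz⟩ := hcon
      have hwS : w ∈ Metric.sphere (φ y) r := by
        rw [Metric.mem_sphere]
        refine le_antisymm hw ?_
        by_contra hlt
        push Not at hlt
        exact hz1 ⟨w, hlt, hwz⟩
      have hzU : f z ∈ U := connectedComponentIn_subset (f ⁻¹' U) y hz
      exact hUs hzU ⟨z, ⟨w, hwS, hwz⟩, rfl⟩
    · refine ⟨y, mem_connectedComponentIn hyU, φ y, Metric.mem_ball_self hr0, φ.left_inv hys⟩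
    · exact isPreconnected_connectedComponentIn
  have hsrc : φ.symm '' Metric.ball (φ y) r ⊆ φ.source := by
    rintro _ ⟨w, hw, rfl⟩
    exact φ.map_target (hcb (Metric.ball_subset_closedBall hw))
  have : SecondCountableTopology φ.source := φ.secondCountableTopology_source
  exact (IsSeparable.of_subtype φ.source).mono (hsub.trans hsrc)

open Classical in
/-- countable dense subset of a component when separable -/
noncomputable def Dc (f : R → ℂ) (U : Set ℂ) (p : R) : Set R :=
  if h : IsSeparable (connectedComponentIn (f ⁻¹' U) p) then h.choose else ∅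

omit [ChartedSpace ℂ R] [IsManifold 𝓘(ℂ) ⊤ R] in
lemma Dc_countable (f : R → ℂ) (U : Set ℂ) (p : R) : (Dc f U p).Countable := by
  unfold Dc
  split_ifs with h
  · exact h.choose_spec.1
  · exact countable_empty

omit [ChartedSpace ℂ R] [IsManifold 𝓘(ℂ) ⊤ R] in
lemma subset_closure_Dc {f : R → ℂ} {U : Set ℂ} {p : R}
    (h : IsSeparable (connectedComponentIn (f ⁻¹' U) p)) :
    connectedComponentIn (f ⁻¹' U) p ⊆ closure (Dc f U p) := by
  unfold Dc
  rw [dif_pos h]
  exact h.choose_spec.2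

/-- points reached -/
noncomputable def Pt (f : R → ℂ) (x₀ : R) : ℕ → Set R
  | 0 => {x₀}
  | n + 1 => ⋃ p ∈ Pt f x₀ n, ⋃ U ∈ countableBasis ℂ, Dc f U p

omit [ChartedSpace ℂ R] [IsManifold 𝓘(ℂ) ⊤ R] in
lemma Pt_countable (f : R → ℂ) (x₀ : R) (n : ℕ) : (Pt f x₀ n).Countable := by
  induction n with
  | zero => exact countable_singleton _
  | succ n ih =>
    exact ih.biUnion fun p _ => (countable_countableBasis ℂ).biUnion fun U _ => Dc_countable f U p

theorem separable [T2Space R] [ConnectedSpace R] {f : R → ℂ} (hf : MDifferentiable 𝓘(ℂ) 𝓘(ℂ) f)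
    (hnc : ∃ x y, f x ≠ f y) : SeparableSpace R := by
  have hnc' := hnc
  obtain ⟨x₀, -⟩ := hnc
  have hlc : LocallyConnectedSpace R := ChartedSpace.locallyConnectedSpace ℂ R
  set P : Set R := ⋃ n, Pt f x₀ n with hP
  have hPc : P.Countable := countable_iUnion fun n => Pt_countable f x₀ n
  have hopen : IsOpen (closure P) := by
    rw [isOpen_iff_mem_nhds]
    intro y hy
    obtain ⟨U, hU, hyU, hsep⟩ := good hf y (not_const hf hnc' y)
    have hUo : IsOpen U := isOpen_of_mem_countableBasis hU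
    have hVo : IsOpen (connectedComponentIn (f ⁻¹' U) y) :=
      (hUo.preimage hf.continuous).connectedComponentIn
    have hVn : connectedComponentIn (f ⁻¹' U) y ∈ 𝓝 y := hVo.mem_nhds (mem_connectedComponentIn hyU)
    obtain ⟨p, hpV, hpP⟩ := mem_closure_iff_nhds.1 hy _ hVn
    obtain ⟨n, hn⟩ := mem_iUnion.1 hpP
    have heq : connectedComponentIn (f ⁻¹' U) y = connectedComponentIn (f ⁻¹' U) p :=
      connectedComponentIn_eq hpV
    apply mem_of_superset hVn
    rw [heq] at hsep ⊢
    refine (subset_closure_Dc hsep).trans (closure_mono ?_)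
    refine Subset.trans ?_ (subset_iUnion (Pt f x₀) (n+1))
    intro z hz
    simp only [Pt, mem_iUnion]
    exact ⟨p, hn, U, hU, hz⟩
  have hne : (closure P).Nonempty := ⟨x₀, subset_closure (mem_iUnion.2 ⟨0, rfl⟩)⟩
  have huniv : closure P = univ := IsClopen.eq_univ ⟨isClosed_closure, hopen⟩ hne
  exact ⟨P, hPc, dense_iff_closure_eq.2 huniv⟩

end Pool.Agent.Helper503.Ed
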