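import Mathlib

open Set Filter Topology MeasureTheory
open scoped ContDiff

namespace Pool.Agent.Helper503.Shilov

variable {n : ℕ} {G : Type*} [NormedAddCommGroup G] [NormedSpace ℂ G]

/-- the Cauchy-Riemann derivative in the `j`-th variable -/
noncomputable def db (j : Fin n) (F : (Fin n → ℂ) → G) (z : Fin n → ℂ) : G :=
  fderiv ℝ F z (Pi.single j 1) + Complex.I • fderiv ℝ F z (Pi.single j Complex.I)

/-- the Cauchy-Riemann derivative as a function of the derivative -/
noncomputable def dbL (j : Fin n) : ((Fin n → ℂ) →L[ℝ] G) →L[ℝ] G :=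
  ContinuousLinearMap.apply ℝ G (Pi.single j 1 : Fin n → ℂ) +
    ((Complex.I • ContinuousLinearMap.id ℂ G).restrictScalars ℝ).comp
      (ContinuousLinearMap.apply ℝ G (Pi.single j Complex.I : Fin n → ℂ))

lemma dbL_apply (j : Fin n) (L : (Fin n → ℂ) →L[ℝ] G) :
    dbL j L = L (Pi.single j 1) + Complex.I • L (Pi.single j Complex.I) := rfl

lemma db_eq (j : Fin n) (F : (Fin n → ℂ) → G) : db j F = fun z => dbL j (fderiv ℝ F z) := rfl

lemma db_contDiff {F : (Fin n → ℂ) → G} (hF : ContDiff ℝ ∞ F) (j : Fin n) :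
    ContDiff ℝ ∞ (db j F) := by
  rw [db_eq]
  exact (dbL j).contDiff.comp (hF.fderiv_right (m := ∞) (by simp))

lemma db_congr {F F' : (Fin n → ℂ) → G} {z : Fin n → ℂ} (h : F =ᶠ[𝓝 z] F') (j : Fin n) :
    db j F z = db j F' z := by
  unfold db; rw [h.fderiv_eq]

lemma db_const (j : Fin n) (c : G) (z : Fin n → ℂ) : db j (fun _ => c) z = 0 := by
  unfold db; simp

lemma db_add {F F' : (Fin n → ℂ) → G} {z : Fin n → ℂ} (hF : DifferentiableAt ℝ F z)
    (hF' : DifferentiableAt ℝ F' z) (j : Fin n) :
    db j (fun z => F z + F' z) z = db j F z + db j F' z := by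
  unfold db
  rw [fderiv_fun_add hF hF']
  simp only [add_apply, smul_add]
  abel

lemma db_sub {F F' : (Fin n → ℂ) → G} {z : Fin n → ℂ} (hF : DifferentiableAt ℝ F z)
    (hF' : DifferentiableAt ℝ F' z) (j : Fin n) :
    db j (fun z => F z - F' z) z = db j F z - db j F' z := by
  unfold db
  rw [fderiv_fun_sub hF hF']
  simp only [sub_apply, smul_sub]
  abel

lemma db_mul {F F' : (Fin n → ℂ) → ℂ} {z : Fin n → ℂ} (hF : DifferentiableAt ℝ F z)
    (hF' : DifferentiableAt ℝ F' z) (j : Fin n) :
    db j (fun z => F z * F' z) z = F z * db j F' z + db j F z * F' z := by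
  unfold db
  rw [fderiv_fun_mul hF hF']
  simp only [add_apply, smul_apply, smul_eq_mul]
  ring

lemma db_comm {F : (Fin n → ℂ) → G} (hF : ContDiff ℝ ∞ F) (j l : Fin n) (z : Fin n → ℂ) :
    db j (db l F) z = db l (db j F) z := by
  have hd : DifferentiableAt ℝ (fderiv ℝ F) z :=
    ((hF.fderiv_right (m := ∞) (by simp)).differentiable (by simp)) z
  have key : ∀ l : Fin n, fderiv ℝ (db l F) z = (dbL l).comp (fderiv ℝ (fderiv ℝ F) z) := by
    intro l
    rw [db_eq]
    exact ((dbL l).hasFDerivAt.comp z hd.hasFDerivAt).fderiv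
  have hsymm : ∀ v w, fderiv ℝ (fderiv ℝ F) z v w = fderiv ℝ (fderiv ℝ F) z w v := by
    intro v w
    apply second_derivative_symmetric (f := F) (f' := fderiv ℝ F)
    · intro y
      exact ((hF.differentiable (by simp)) y).hasFDerivAt
    · exact hd.hasFDerivAt
  rw [show db j (db l F) z = dbL j (fderiv ℝ (db l F) z) from rfl,
    show db l (db j F) z = dbL l (fderiv ℝ (db j F) z) from rfl, key, key, dbL_apply, dbL_apply]
  simp only [ContinuousLinearMap.comp_apply, dbL_apply]
  rw [hsymm (Pi.single j 1) (Pi.single l 1), hsymm (Pi.single j 1) (Pi.single l Complex.I),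
    hsymm (Pi.single j Complex.I) (Pi.single l 1),
    hsymm (Pi.single j Complex.I) (Pi.single l Complex.I)]
  simp only [smul_add]
  abel

lemma db_comp {G' : Type*} [NormedAddCommGroup G'] [NormedSpace ℂ G'] (L : G →L[ℂ] G')
    {F : (Fin n → ℂ) → G} {z : Fin n → ℂ} (hF : DifferentiableAt ℝ F z) (j : Fin n) :
    db j (fun z => L (F z)) z = L (db j F z) := by
  have h : fderiv ℝ (fun z => L (F z)) z = (L.restrictScalars ℝ).comp (fderiv ℝ F z) :=
    ((L.restrictScalars ℝ).hasFDerivAt.comp z hF.hasFDerivAt).fderiv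
  unfold db
  rw [h]
  simp

lemma integral_fderiv {F : (Fin n → ℂ) → ℂ} (hF : ContDiff ℝ ∞ F) (hc : HasCompactSupport F)
    (v : Fin n → ℂ) : ∫ z, fderiv ℝ F z v = 0 := by
  have hd : ContDiff ℝ ∞ (fderiv ℝ F) := hF.fderiv_right (by simp)
  have h1 : Integrable (fun z => fderiv ℝ F z v) := by
    apply Continuous.integrable_of_hasCompactSupport
    · exact hd.continuous.clm_apply continuous_const
    · exact hc.fderiv_apply ℝ v
  have := integral_mul_fderiv_eq_neg_fderiv_mul_of_integrable (𝕜 := ℂ) (μ := volume)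
    (f := fun _ : Fin n → ℂ => (1:ℂ)) (g := F) (v := v) (by simp) (by simpa using h1)
    (by simpa using hF.continuous.integrable_of_hasCompactSupport hc)
    (fun x _ => differentiableAt_const _) (fun x _ => (hF.differentiable (by simp)) x)
  simpa using this

lemma integral_db {F : (Fin n → ℂ) → ℂ} (hF : ContDiff ℝ ∞ F) (hc : HasCompactSupport F)
    (j : Fin n) : ∫ z, db j F z = 0 := by
  have hd : ContDiff ℝ ∞ (fderiv ℝ F) := hF.fderiv_right (by simp)
  have h1 : ∀ v : Fin n → ℂ, Integrable (fun z => fderiv ℝ F z v) := by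
    intro v
    apply Continuous.integrable_of_hasCompactSupport
    · exact hd.continuous.clm_apply continuous_const
    · exact hc.fderiv_apply ℝ v
  unfold db
  have h2 : Integrable (fun z => Complex.I • fderiv ℝ F z (Pi.single j Complex.I)) :=
    (h1 _).const_mul Complex.I
  rw [integral_add (h1 _) h2, integral_smul, integral_fderiv hF hc,
    integral_fderiv hF hc]
  simp

end Pool.Agent.Helper503.Shilov
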