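import Mathlib
import Pool.Agent.Helper503.ShA

open Set Filter Topology MeasureTheory
open scoped ContDiff

namespace Pool.Agent.Helper503.Shilov

variable {n : ℕ}

/-- the determinant of the Cauchy-Riemann derivatives -/
noncomputable def J {B : Type*} [NormedCommRing B] [NormedAlgebra ℂ B]
    (s : Fin n → (Fin n → ℂ) → B) (z : Fin n → ℂ) : B :=
  (Matrix.of fun j i => db j (s i) z).det

lemma J_eq {B : Type*} [NormedCommRing B] [NormedAlgebra ℂ B]
    (s : Fin n → (Fin n → ℂ) → B) (z : Fin n → ℂ) :
    J s z = ∑ σ : Equiv.Perm (Fin n), ((Equiv.Perm.sign σ : ℤ) : B) * ∏ i, db (σ i) (s i) z := by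
  unfold J
  rw [Matrix.det_apply']
  rfl

/-- product of all the entries but the `k`-th -/
noncomputable def PK (r : Fin n → (Fin n → ℂ) → ℂ) (k : Fin n) (σ : Equiv.Perm (Fin n))
    (z : Fin n → ℂ) : ℂ := ∏ i ∈ Finset.univ.erase k, db (σ i) (r i) z

lemma J_update (r : Fin n → (Fin n → ℂ) → ℂ) (k : Fin n) (t : (Fin n → ℂ) → ℂ) (z : Fin n → ℂ) :
    J (Function.update r k t) z =
      ∑ σ : Equiv.Perm (Fin n), ((Equiv.Perm.sign σ : ℤ) : ℂ) * (db (σ k) t z * PK r k σ z) := by
  rw [J_eq]
  apply Finset.sum_congr rfl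
  intro σ _
  congr 1
  rw [← Finset.mul_prod_erase Finset.univ _ (Finset.mem_univ k)]
  congr 1
  · rw [Function.update_self]
  · apply Finset.prod_congr rfl
    intro i hi
    rw [Function.update_of_ne (Finset.ne_of_mem_erase hi)]

lemma PK_contDiff {r : Fin n → (Fin n → ℂ) → ℂ} (hr : ∀ i, ContDiff ℝ ∞ (r i)) (k : Fin n)
    (σ : Equiv.Perm (Fin n)) : ContDiff ℝ ∞ (PK r k σ) := by
  unfold PK
  exact contDiff_prod (fun i _ => db_contDiff (hr i) _)

lemma db_prod {ι : Type*} [DecidableEq ι] {g : ι → (Fin n → ℂ) → ℂ} {u : Finset ι}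
    {z : Fin n → ℂ} (hg : ∀ i ∈ u, DifferentiableAt ℝ (g i) z) (j : Fin n) :
    db j (fun z => ∏ i ∈ u, g i z) z = ∑ i ∈ u, (∏ l ∈ u.erase i, g l z) * db j (g i) z := by
  unfold db
  rw [fderiv_finsetProd hg]
  simp only [sum_apply, smul_apply, smul_eq_mul, Finset.mul_sum]
  rw [← Finset.sum_add_distrib]
  apply Finset.sum_congr rfl
  intro i _
  ring

lemma piola {r : Fin n → (Fin n → ℂ) → ℂ} (hr : ∀ i, ContDiff ℝ ∞ (r i)) (k : Fin n)
    (z : Fin n → ℂ) :
    ∑ σ : Equiv.Perm (Fin n), ((Equiv.Perm.sign σ : ℤ) : ℂ) * db (σ k) (PK r k σ) z = 0 := by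
  have h1 : ∀ σ : Equiv.Perm (Fin n), db (σ k) (PK r k σ) z =
      ∑ i ∈ Finset.univ.erase k, (∏ l ∈ (Finset.univ.erase k).erase i, db (σ l) (r l) z) *
        db (σ k) (db (σ i) (r i)) z := by
    intro σ
    exact db_prod (fun i _ => ((db_contDiff (hr i) _).differentiable (by simp)) z) _
  simp only [h1, Finset.mul_sum]
  rw [Finset.sum_comm]
  apply Finset.sum_eq_zero
  intro i hi
  have hik : i ≠ k := Finset.ne_of_mem_erase hi
  set a : Equiv.Perm (Fin n) → ℂ := fun σ => ((Equiv.Perm.sign σ : ℤ) : ℂ) *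
    ((∏ l ∈ (Finset.univ.erase k).erase i, db (σ l) (r l) z) * db (σ k) (db (σ i) (r i)) z) with ha
  have h2 : ∀ σ, a (σ * Equiv.swap i k) = - a σ := by
    intro σ
    simp only [ha, Equiv.Perm.sign_mul, Equiv.Perm.sign_swap hik, Equiv.Perm.mul_apply,
      Equiv.swap_apply_left, Equiv.swap_apply_right]
    have h3 : ∏ l ∈ (Finset.univ.erase k).erase i, db (σ (Equiv.swap i k l)) (r l) z =
        ∏ l ∈ (Finset.univ.erase k).erase i, db (σ l) (r l) z := by
      apply Finset.prod_congr rfl
      intro l hl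
      rw [Equiv.swap_apply_of_ne_of_ne (Finset.ne_of_mem_erase hl)
        (Finset.ne_of_mem_erase (Finset.mem_of_mem_erase hl))]
    rw [h3, db_comm (hr i) (σ i) (σ k)]
    push_cast
    ring
  have h4 : ∑ σ, a σ = - ∑ σ, a σ := by
    rw [← Finset.sum_neg_distrib, ← Equiv.sum_comp (Equiv.mulRight (Equiv.swap i k)) a]
    apply Finset.sum_congr rfl
    intro σ _
    rw [← h2 σ]
    rfl
  exact self_eq_neg.1 h4

lemma db_hasCompactSupport {t : (Fin n → ℂ) → ℂ} (ht : HasCompactSupport t) (j : Fin n) :
    HasCompactSupport (db j t) := by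
  have := (ht.fderiv ℝ)
  exact this.comp_left (g := dbL j) (by simp)

lemma int_term {t : (Fin n → ℂ) → ℂ} (ht : ContDiff ℝ ∞ t) (hc : HasCompactSupport t)
    {p : (Fin n → ℂ) → ℂ} (hp : ContDiff ℝ ∞ p) (j : Fin n) :
    Integrable (fun z => db j t z * p z) := by
  apply Continuous.integrable_of_hasCompactSupport
  · exact (db_contDiff ht j).continuous.mul hp.continuous
  · exact (db_hasCompactSupport hc j).mul_right

lemma integrable_J_update {r : Fin n → (Fin n → ℂ) → ℂ} (hr : ∀ i, ContDiff ℝ ∞ (r i))
    (k : Fin n) {t : (Fin n → ℂ) → ℂ} (ht : ContDiff ℝ ∞ t) (hc : HasCompactSupport t) :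
    Integrable (J (Function.update r k t)) := by
  have : J (Function.update r k t) = fun z =>
      ∑ σ : Equiv.Perm (Fin n), ((Equiv.Perm.sign σ : ℤ) : ℂ) * (db (σ k) t z * PK r k σ z) := by
    funext z; exact J_update r k t z
  rw [this]
  apply integrable_finsetSum
  intro σ _
  exact (int_term ht hc (PK_contDiff hr k σ) _).const_mul _

lemma integral_J_update {r : Fin n → (Fin n → ℂ) → ℂ} (hr : ∀ i, ContDiff ℝ ∞ (r i))
    (k : Fin n) {t : (Fin n → ℂ) → ℂ} (ht : ContDiff ℝ ∞ t) (hc : HasCompactSupport t) :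
    ∫ z, J (Function.update r k t) z = 0 := by
  have h1 : ∀ z, J (Function.update r k t) z =
      ∑ σ : Equiv.Perm (Fin n), ((Equiv.Perm.sign σ : ℤ) : ℂ) *
        db (σ k) (fun z => t z * PK r k σ z) z := by
    intro z
    have h2 : ∀ σ : Equiv.Perm (Fin n), db (σ k) (fun z => t z * PK r k σ z) z =
        t z * db (σ k) (PK r k σ) z + db (σ k) t z * PK r k σ z := fun σ =>
      db_mul ((ht.differentiable (by simp)) z) (((PK_contDiff hr k σ).differentiable (by simp)) z) _
    simp only [h2, mul_add, Finset.sum_add_distrib]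
    rw [J_update]
    have h3 := piola hr k z
    have h4 : ∑ σ : Equiv.Perm (Fin n), ((Equiv.Perm.sign σ : ℤ) : ℂ) *
        (t z * db (σ k) (PK r k σ) z) = 0 := by
      have : ∑ σ : Equiv.Perm (Fin n), ((Equiv.Perm.sign σ : ℤ) : ℂ) *
        (t z * db (σ k) (PK r k σ) z) = t z * ∑ σ : Equiv.Perm (Fin n),
          ((Equiv.Perm.sign σ : ℤ) : ℂ) * db (σ k) (PK r k σ) z := by
        rw [Finset.mul_sum]
        apply Finset.sum_congr rfl
        intro σ _
        ring
      rw [this, h3, mul_zero]
    rw [h4, zero_add]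
  have hsm : ∀ σ : Equiv.Perm (Fin n), ContDiff ℝ ∞ (fun z => t z * PK r k σ z) :=
    fun σ => ht.mul (PK_contDiff hr k σ)
  have hcs : ∀ σ : Equiv.Perm (Fin n), HasCompactSupport (fun z => t z * PK r k σ z) :=
    fun σ => hc.mul_right
  simp_rw [h1]
  rw [integral_finsetSum]
  · apply Finset.sum_eq_zero
    intro σ _
    rw [integral_const_mul, integral_db (hsm σ) (hcs σ), mul_zero]
  · intro σ _
    apply Integrable.const_mul
    apply Continuous.integrable_of_hasCompactSupport
    · exact (db_contDiff (hsm σ) _).continuous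
    · exact db_hasCompactSupport (hcs σ) _

/-- the null Lagrangian property -/
theorem integral_J_sub {s s' : Fin n → (Fin n → ℂ) → ℂ} (hs : ∀ i, ContDiff ℝ ∞ (s i))
    (hs' : ∀ i, ContDiff ℝ ∞ (s' i)) (hc : ∀ i, HasCompactSupport (fun z => s' i z - s i z)) :
    Integrable (fun z => J s' z - J s z) ∧ ∫ z, (J s' z - J s z) = 0 := by
  have key : ∀ S : Finset (Fin n),
      Integrable (fun z => J (fun i => if i ∈ S then s' i else s i) z - J s z) ∧
        ∫ z, (J (fun i => if i ∈ S then s' i else s i) z - J s z) = 0 := by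
    intro S
    induction S using Finset.induction_on with
    | empty => simp
    | insert k S hk ih =>
      set r : Fin n → (Fin n → ℂ) → ℂ := fun i => if i ∈ S then s' i else s i with hr
      have hrs : ∀ i, ContDiff ℝ ∞ (r i) := by
        intro i
        simp only [hr]
        split_ifs
        · exact hs' i
        · exact hs i
      have e1 : (fun i => if i ∈ insert k S then s' i else s i) = Function.update r k (s' k) := by
        funext i
        by_cases h : i = k
        · subst h; simp
        · rw [Function.update_of_ne h]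
          simp [hr, h]
      have e2 : r = Function.update r k (s k) := by
        have : r k = s k := by simp [hr, hk]
        rw [← this, Function.update_eq_self]
      have hsub : ∀ z, J (Function.update r k (s' k)) z - J r z =
          J (Function.update r k (fun z => s' k z - s k z)) z := by
        intro z
        have e3 : J r z = J (Function.update r k (s k)) z := by rw [← e2]
        rw [e3, J_update, J_update, J_update, ← Finset.sum_sub_distrib]
        apply Finset.sum_congr rfl
        intro σ _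
        rw [db_sub (((hs' k).differentiable (by simp)) z) (((hs k).differentiable (by simp)) z)]
        ring
      have hsd : ContDiff ℝ ∞ (fun z => s' k z - s k z) := (hs' k).sub (hs k)
      have e4 : (fun z => J (fun i => if i ∈ insert k S then s' i else s i) z - J s z) =
          fun z => J (Function.update r k (fun z => s' k z - s k z)) z + (J r z - J s z) := by
        funext z
        rw [e1, ← hsub]
        ring
      rw [e4]
      refine ⟨(integrable_J_update hrs k hsd (hc k)).add ih.1, ?_⟩
      rw [integral_add (integrable_J_update hrs k hsd (hc k)) ih.1,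
        integral_J_update hrs k hsd (hc k), ih.2, add_zero]
  have := key Finset.univ
  simpa using this

end Pool.Agent.Helper503.Shilov
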