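import Mathlib
import Pool.Agent.Helper503.ShB

open Set Filter Topology MeasureTheory
open scoped ContDiff ComplexConjugate

namespace Pool.Agent.Helper503.Shilov

variable {n : ℕ}

/-! ### the relation kills the determinant -/

lemma db_coord (j i : Fin n) (c : ℂ) (z : Fin n → ℂ) :
    db j (fun z : Fin n → ℂ => z i - c) z = 0 := by
  have h : HasFDerivAt (fun z : Fin n → ℂ => z i - c)
      (ContinuousLinearMap.proj (R := ℝ) (φ := fun _ : Fin n => ℂ) i) z :=
    (ContinuousLinearMap.proj (R := ℝ) (φ := fun _ : Fin n => ℂ) i).hasFDerivAt.sub_const c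
  unfold db
  rw [h.fderiv]
  simp only [ContinuousLinearMap.proj_apply]
  by_cases hij : i = j
  · subst hij; simp
  · simp [Pi.single_eq_of_ne hij]

lemma db_sum {ι : Type*} {u : Finset ι} {g : ι → (Fin n → ℂ) → ℂ} {z : Fin n → ℂ}
    (hg : ∀ i ∈ u, DifferentiableAt ℝ (g i) z) (j : Fin n) :
    db j (fun z => ∑ i ∈ u, g i z) z = ∑ i ∈ u, db j (g i) z := by
  unfold db
  rw [fderiv_fun_sum hg]
  simp only [sum_apply, smul_eq_mul, Finset.mul_sum]
  rw [← Finset.sum_add_distrib]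

lemma J_zero_of_rel {s : Fin n → (Fin n → ℂ) → ℂ} (hs : ∀ i, ContDiff ℝ ∞ (s i))
    (l : Fin n → ℂ) {z : Fin n → ℂ}
    (h : ∀ᶠ y in 𝓝 z, ∑ i, (y i - l i) * s i y = 1) : J s z = 0 := by
  unfold J
  apply Matrix.exists_mulVec_eq_zero_iff.1
  refine ⟨fun i => z i - l i, ?_, ?_⟩
  · intro h0
    have h1 := h.self_of_nhds
    have h2 : ∀ i, z i - l i = 0 := fun i => congrFun h0 i
    simp [h2] at h1
  · funext j
    have hd : ∀ i, DifferentiableAt ℝ (s i) z := fun i => ((hs i).differentiable (by simp)) z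
    have hc : ∀ i, DifferentiableAt ℝ (fun y : Fin n → ℂ => y i - l i) z := by
      intro i; fun_prop
    have h1 : db j (fun y : Fin n → ℂ => ∑ i, (y i - l i) * s i y) z = 0 := by
      rw [db_congr (F' := fun _ => (1:ℂ)) h j, db_const]
    rw [db_sum (u := Finset.univ) (g := fun i y => (y i - l i) * s i y)
      (fun i _ => (hc i).fun_mul (hd i))] at h1
    have h2 : ∀ i, db j (fun y : Fin n → ℂ => (y i - l i) * s i y) z =
        (z i - l i) * db j (s i) z := by
      intro i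
      rw [db_mul (hc i) (hd i), db_coord, zero_mul, add_zero]
    simp only [h2] at h1
    simp only [Matrix.mulVec, dotProduct, Matrix.of_apply, Pi.zero_apply]
    rw [← h1]
    apply Finset.sum_congr rfl
    intro i _
    ring

/-! ### the model -/

noncomputable def eta (ε : ℝ) (t : ℝ) : ℝ := expNegInvGlue (1 - t / ε ^ 2)

lemma eta_contDiff (ε : ℝ) : ContDiff ℝ ∞ (eta ε) := by
  unfold eta
  exact expNegInvGlue.contDiff.comp (contDiff_const.sub (contDiff_id.div_const _))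

lemma eta_nonneg (ε t : ℝ) : 0 ≤ eta ε t := expNegInvGlue.nonneg _

lemma eta_antitone (ε : ℝ) : Antitone (eta ε) := by
  intro s t h
  unfold eta
  apply expNegInvGlue.monotone
  have : s / ε ^ 2 ≤ t / ε ^ 2 := div_le_div_of_nonneg_right h (sq_nonneg ε)
  linarith

lemma eta_zero_pos (ε : ℝ) : 0 < eta ε 0 := by
  unfold eta
  apply expNegInvGlue.pos_of_pos
  simp

lemma eta_eq_zero {ε : ℝ} (hε : 0 < ε) {t : ℝ} (ht : ε ^ 2 ≤ t) : eta ε t = 0 := by
  unfold eta
  apply expNegInvGlue.zero_of_nonpos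
  have : 1 ≤ t / ε ^ 2 := (one_le_div (pow_pos hε 2)).2 ht
  linarith

lemma mm_pos {ε : ℝ} (hε : 0 < ε) {t : ℝ} (ht : 0 ≤ t) : 0 < t + eta ε t := by
  rcases ht.eq_or_lt with h | h
  · rw [← h, zero_add]; exact eta_zero_pos ε
  · have := eta_nonneg ε t
    linarith

/-- the function `1 / (t + eta)` -/
noncomputable def tau (ε t : ℝ) : ℝ := (t + eta ε t)⁻¹

lemma deriv_eta_nonpos (ε t : ℝ) : deriv (eta ε) t ≤ 0 := (eta_antitone ε).deriv_nonpos

lemma eta_hasDerivAt (ε t : ℝ) : HasDerivAt (eta ε) (deriv (eta ε) t) t :=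
  (((eta_contDiff ε).differentiable (by simp)) t).hasDerivAt

/-- one factor of the model -/
noncomputable def pp (ε : ℝ) (w : ℂ) : ℂ :=
  conj w * (((Complex.normSq w + eta ε (Complex.normSq w))⁻¹ : ℝ) : ℂ)

noncomputable def qq (ε : ℝ) (w : ℂ) : ℝ :=
  eta ε (Complex.normSq w) * (Complex.normSq w + eta ε (Complex.normSq w))⁻¹

lemma normSq_contDiff : ContDiff ℝ ∞ (fun w : ℂ => Complex.normSq w) := by
  have : (fun w : ℂ => Complex.normSq w) = fun w => Complex.reCLM w * Complex.reCLM w +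
      Complex.imCLM w * Complex.imCLM w := by
    funext w; simp [Complex.normSq_apply]
  rw [this]
  exact (Complex.reCLM.contDiff.mul Complex.reCLM.contDiff).add
    (Complex.imCLM.contDiff.mul Complex.imCLM.contDiff)

lemma mm_contDiff (ε : ℝ) :
    ContDiff ℝ ∞ (fun w : ℂ => Complex.normSq w + eta ε (Complex.normSq w)) :=
  normSq_contDiff.add ((eta_contDiff ε).comp normSq_contDiff)

lemma mmi_contDiff {ε : ℝ} (hε : 0 < ε) :
    ContDiff ℝ ∞ (fun w : ℂ => (Complex.normSq w + eta ε (Complex.normSq w))⁻¹) :=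
  (mm_contDiff ε).inv (fun w => (mm_pos hε (Complex.normSq_nonneg w)).ne')

lemma pp_contDiff {ε : ℝ} (hε : 0 < ε) : ContDiff ℝ ∞ (pp ε) := by
  unfold pp
  exact (Complex.conjCLE.contDiff).mul (Complex.ofRealCLM.contDiff.comp (mmi_contDiff hε))

lemma qq_contDiff {ε : ℝ} (hε : 0 < ε) : ContDiff ℝ ∞ (qq ε) := by
  unfold qq
  exact ((eta_contDiff ε).comp normSq_contDiff).mul (mmi_contDiff hε)

lemma mul_pp {ε : ℝ} (hε : 0 < ε) (w : ℂ) : w * pp ε w = 1 - (qq ε w : ℂ) := by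
  have h := (mm_pos hε (Complex.normSq_nonneg w)).ne'
  unfold pp qq
  rw [← mul_assoc, Complex.mul_conj, ← Complex.ofReal_mul, ← Complex.ofReal_one,
    ← Complex.ofReal_sub]
  congr 1
  field_simp
  ring

lemma qq_nonneg {ε : ℝ} (hε : 0 < ε) (w : ℂ) : 0 ≤ qq ε w := by
  unfold qq
  exact mul_nonneg (eta_nonneg _ _) (inv_nonneg.2 (mm_pos hε (Complex.normSq_nonneg w)).le)

lemma qq_zero {ε : ℝ} (hε : 0 < ε) : qq ε 0 = 1 := by
  unfold qq
  simp only [map_zero, zero_add]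
  exact mul_inv_cancel₀ (eta_zero_pos ε).ne'

lemma qq_far {ε : ℝ} (hε : 0 < ε) {w : ℂ} (hw : ε ≤ ‖w‖) : qq ε w = 0 := by
  unfold qq
  rw [eta_eq_zero hε, zero_mul]
  rw [Complex.normSq_eq_norm_sq]
  gcongr

/-- the Cauchy-Riemann derivative of `pp` -/
noncomputable def dd (ε t : ℝ) : ℝ :=
  2 * (eta ε t - t * deriv (eta ε) t) * (t + eta ε t)⁻¹ ^ 2

lemma dd_nonneg (ε : ℝ) {t : ℝ} (ht : 0 ≤ t) : 0 ≤ dd ε t := by
  unfold dd
  have h1 := eta_nonneg ε t
  have h2 := deriv_eta_nonpos ε t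
  have h3 : 0 ≤ eta ε t - t * deriv (eta ε) t := by nlinarith
  positivity

lemma dd_zero_pos (ε : ℝ) : 0 < dd ε 0 := by
  unfold dd
  have := eta_zero_pos ε
  simp only [zero_mul, sub_zero, zero_add]
  positivity

lemma pp_dbar {ε : ℝ} (hε : 0 < ε) (w : ℂ) :
    fderiv ℝ (pp ε) w 1 + Complex.I • fderiv ℝ (pp ε) w Complex.I =
      (dd ε (Complex.normSq w) : ℂ) := by
  have hne := (mm_pos hε (Complex.normSq_nonneg w)).ne'
  set N : ℂ → ℝ := fun w => Complex.normSq w with hN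
  have h1 : HasFDerivAt N (fderiv ℝ N w) w := ((normSq_contDiff.differentiable (by simp)) w).hasFDerivAt
  have hN1 : ∀ v, fderiv ℝ N w v = 2 * (w.re * v.re + w.im * v.im) := by
    intro v
    have h2 : HasFDerivAt N ((w.re • Complex.reCLM + w.re • Complex.reCLM) +
        (w.im • Complex.imCLM + w.im • Complex.imCLM)) w := by
      have : N = fun w => Complex.reCLM w * Complex.reCLM w +
          Complex.imCLM w * Complex.imCLM w := by
        funext w; simp [hN, Complex.normSq_apply]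
      rw [this]
      exact (Complex.reCLM.hasFDerivAt.fun_mul Complex.reCLM.hasFDerivAt).fun_add
        (Complex.imCLM.hasFDerivAt.fun_mul Complex.imCLM.hasFDerivAt)
    rw [h2.fderiv]
    simp
    ring
  have h3 : HasFDerivAt (fun w => N w + eta ε (N w))
      (fderiv ℝ N w + (deriv (eta ε) (N w)) • fderiv ℝ N w) w :=
    h1.fun_add ((eta_hasDerivAt ε (N w)).comp_hasFDerivAt w h1)
  have h4 : HasFDerivAt (fun w => (N w + eta ε (N w))⁻¹)
      ((-((N w + eta ε (N w)) ^ 2)⁻¹) • (fderiv ℝ N w + (deriv (eta ε) (N w)) • fderiv ℝ N w)) w :=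
    (hasDerivAt_inv hne).comp_hasFDerivAt w h3
  have h5 : HasFDerivAt (fun w => (((N w + eta ε (N w))⁻¹ : ℝ) : ℂ))
      (Complex.ofRealCLM.comp ((-((N w + eta ε (N w)) ^ 2)⁻¹) •
        (fderiv ℝ N w + (deriv (eta ε) (N w)) • fderiv ℝ N w))) w :=
    Complex.ofRealCLM.hasFDerivAt.comp w h4
  have h6 : HasFDerivAt (fun w : ℂ => conj w) (Complex.conjCLE : ℂ →L[ℝ] ℂ) w :=
    Complex.conjCLE.hasFDerivAt
  have h7 := h6.fun_mul h5
  have h8 : fderiv ℝ (pp ε) w = _ := h7.fderiv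
  rw [h8]
  simp only [add_apply, smul_apply, ContinuousLinearMap.comp_apply, hN1, smul_eq_mul,
    Complex.ofRealCLM_apply, ContinuousLinearEquiv.coe_coe, Complex.conjCLE_apply]
  unfold dd
  have e1 : N w = w.re * w.re + w.im * w.im := Complex.normSq_apply w
  have e2 : Complex.normSq w = N w := rfl
  rw [e2]
  set D := deriv (eta ε) (N w)
  set H := eta ε (N w)
  have hne' : N w + H ≠ 0 := hne
  obtain ⟨r, hr⟩ : ∃ r, r = (N w + H)⁻¹ := ⟨_, rfl⟩
  have hr1 : r * (N w + H) = 1 := by rw [hr]; exact inv_mul_cancel₀ hne'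
  rw [← inv_pow, ← hr]
  clear_value D H
  clear h1 hN1 h3 h4 h5 h7 h8 hr hne hne'
  rw [e1] at hr1 ⊢
  apply Complex.ext
  · simp [-Complex.ofReal_add, -Complex.ofReal_mul]
    linear_combination (-2 * r) * hr1
  · simp [-Complex.ofReal_add, -Complex.ofReal_mul]
    ring

end Pool.Agent.Helper503.Shilov
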