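import Mathlib
import Pool.Agent.Helper503.ShC

open Set Filter Topology MeasureTheory
open scoped ContDiff ComplexConjugate

namespace Pool.Agent.Helper503.Shilov

variable {n : ℕ}

lemma db_comp_coord {g : ℂ → ℂ} (hg : Differentiable ℝ g) (j i : Fin n) (z : Fin n → ℂ) :
    db j (fun z : Fin n → ℂ => g (z i)) z =
      if j = i then fderiv ℝ g (z i) 1 + Complex.I • fderiv ℝ g (z i) Complex.I else 0 := by
  have h1 : HasFDerivAt (fun z : Fin n → ℂ => z i)
      (ContinuousLinearMap.proj (R := ℝ) (φ := fun _ : Fin n => ℂ) i) z :=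
    (ContinuousLinearMap.proj (R := ℝ) (φ := fun _ : Fin n => ℂ) i).hasFDerivAt
  have h : fderiv ℝ (fun z : Fin n → ℂ => g (z i)) z = _ :=
    (HasFDerivAt.comp z (hg (z i)).hasFDerivAt h1).fderiv
  unfold db
  rw [h]
  simp only [ContinuousLinearMap.comp_apply, ContinuousLinearMap.proj_apply]
  by_cases hij : j = i
  · subst hij; simp
  · rw [if_neg hij, Pi.single_eq_of_ne (Ne.symm hij), Pi.single_eq_of_ne (Ne.symm hij)]
    simp

/-- the model solution -/
noncomputable def s0 (ε : ℝ) (i : Fin n) (z : Fin n → ℂ) : ℂ :=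
  (∏ l ∈ Finset.univ.filter (fun l => l < i), (qq ε (z l) : ℂ)) * pp ε (z i)

lemma qqc_contDiff {ε : ℝ} (hε : 0 < ε) : ContDiff ℝ ∞ (fun w : ℂ => (qq ε w : ℂ)) :=
  Complex.ofRealCLM.contDiff.comp (qq_contDiff hε)

lemma coord_contDiff (i : Fin n) : ContDiff ℝ ∞ (fun z : Fin n → ℂ => z i) :=
  (ContinuousLinearMap.proj (R := ℝ) (φ := fun _ : Fin n => ℂ) i).contDiff

lemma s0_contDiff {ε : ℝ} (hε : 0 < ε) (i : Fin n) : ContDiff ℝ ∞ (s0 (n := n) ε i) := by
  unfold s0
  refine ContDiff.mul (contDiff_prod fun l _ => ?_) ((pp_contDiff hε).comp (coord_contDiff i))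
  exact (qqc_contDiff hε).comp (coord_contDiff l)

lemma s0_rel {ε : ℝ} (hε : 0 < ε) (z : Fin n → ℂ) :
    ∑ i, z i * s0 ε i z = 1 - ∏ i, (qq ε (z i) : ℂ) := by
  have h := Finset.prod_one_sub_ordered Finset.univ (fun i : Fin n => z i * pp ε (z i))
  have h1 : ∀ i, 1 - z i * pp ε (z i) = (qq ε (z i) : ℂ) := by
    intro i
    rw [mul_pp hε]
    ring
  simp only [h1] at h
  rw [h]
  rw [sub_sub_cancel]
  apply Finset.sum_congr rfl
  intro i _
  unfold s0
  ring

lemma s0_rel_far {ε : ℝ} (hε : 0 < ε) {z : Fin n → ℂ} (hz : ε < ‖z‖) :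
    ∑ i, z i * s0 ε i z = 1 := by
  rw [s0_rel hε]
  have : ∃ i, ε < ‖z i‖ := by
    by_contra hcon
    push Not at hcon
    have := (pi_norm_le_iff_of_nonneg hε.le).2 hcon
    linarith
  obtain ⟨i, hi⟩ := this
  rw [Finset.prod_eq_zero (Finset.mem_univ i), sub_zero]
  rw [qq_far hε hi.le, Complex.ofReal_zero]

lemma db_s0 {ε : ℝ} (hε : 0 < ε) {j i : Fin n} (hij : i ≤ j) (z : Fin n → ℂ) :
    db j (s0 ε i) z = (∏ l ∈ Finset.univ.filter (fun l => l < i), (qq ε (z l) : ℂ)) *
      (if j = i then (dd ε (Complex.normSq (z i)) : ℂ) else 0) := by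
  have hq : ∀ l : Fin n, Differentiable ℝ (fun z : Fin n → ℂ => (qq ε (z l) : ℂ)) := fun l =>
    ((qqc_contDiff hε).comp (coord_contDiff l)).differentiable (by simp)
  have hp : Differentiable ℝ (fun z : Fin n → ℂ => pp ε (z i)) :=
    ((pp_contDiff hε).comp (coord_contDiff i)).differentiable (by simp)
  have h1 : db j (fun z => ∏ l ∈ Finset.univ.filter (fun l => l < i), (qq ε (z l) : ℂ)) z = 0 := by
    rw [db_prod (g := fun l z => (qq ε (z l) : ℂ)) (fun l _ => (hq l) z)]
    apply Finset.sum_eq_zero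
    intro l hl
    rw [Finset.mem_filter] at hl
    rw [db_comp_coord (g := fun w => (qq ε w : ℂ)) ((qqc_contDiff hε).differentiable (by simp)),
      if_neg, mul_zero]
    intro h
    rw [h] at hij
    exact absurd hl.2 (not_lt.2 hij)
  have h2 : db j (s0 ε i) z = _ := db_mul (j := j)
    (F := fun z => ∏ l ∈ Finset.univ.filter (fun l => l < i), (qq ε (z l) : ℂ))
    (F' := fun z => pp ε (z i))
    ((contDiff_prod fun l _ => (qqc_contDiff hε).comp (coord_contDiff l)).differentiable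
      (by simp) z) (hp z)
  rw [h2, h1, zero_mul, add_zero, db_comp_coord ((pp_contDiff hε).differentiable (by simp))]
  congr 1
  split_ifs with h
  · exact pp_dbar hε (z i)
  · rfl

/-- the determinant of the model -/
noncomputable def j0 (ε : ℝ) (z : Fin n → ℂ) : ℝ :=
  ∏ i, ((∏ l ∈ Finset.univ.filter (fun l => l < i), qq ε (z l)) * dd ε (Complex.normSq (z i)))

lemma J_s0 {ε : ℝ} (hε : 0 < ε) (z : Fin n → ℂ) : J (s0 (n := n) ε) z = (j0 ε z : ℂ) := by
  unfold J
  rw [Matrix.det_of_isUpperTriangular]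
  · unfold j0
    push_cast
    apply Finset.prod_congr rfl
    intro i _
    rw [Matrix.of_apply, db_s0 hε le_rfl, if_pos rfl]
  · intro j i hij
    have hij' : i < j := hij
    rw [Matrix.of_apply, db_s0 hε hij'.le, if_neg hij'.ne', mul_zero]

lemma j0_nonneg {ε : ℝ} (hε : 0 < ε) (z : Fin n → ℂ) : 0 ≤ j0 ε z := by
  unfold j0
  apply Finset.prod_nonneg
  intro i _
  exact mul_nonneg (Finset.prod_nonneg fun l _ => qq_nonneg hε _)
    (dd_nonneg ε (Complex.normSq_nonneg _))

lemma j0_zero {ε : ℝ} (hε : 0 < ε) : j0 ε (0 : Fin n → ℂ) ≠ 0 := by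
  unfold j0
  apply (Finset.prod_pos _).ne'
  intro i _
  simp only [Pi.zero_apply, qq_zero hε, map_zero, Finset.prod_const_one, one_mul]
  exact dd_zero_pos ε

lemma J_contDiff {B : Type*} [NormedCommRing B] [NormedAlgebra ℂ B]
    {s : Fin n → (Fin n → ℂ) → B} (hs : ∀ i, ContDiff ℝ ∞ (s i)) : Continuous (J s) := by
  have : J s = fun z => ∑ σ : Equiv.Perm (Fin n), ((Equiv.Perm.sign σ : ℤ) : B) *
      ∏ i, db (σ i) (s i) z := by
    funext z; exact J_eq s z
  rw [this]
  apply continuous_finsetSum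
  intro σ _
  apply Continuous.mul continuous_const
  exact continuous_finsetProd _ fun i _ => (db_contDiff (hs i) _).continuous

lemma J_s0_far {ε : ℝ} (hε : 0 < ε) {z : Fin n → ℂ} (hz : ε < ‖z‖) : J (s0 (n := n) ε) z = 0 := by
  apply J_zero_of_rel (fun i => s0_contDiff hε i) 0
  have : ∀ᶠ y : Fin n → ℂ in 𝓝 z, ε < ‖y‖ := continuous_norm.continuousAt.eventually (lt_mem_nhds hz)
  filter_upwards [this] with y hy
  simpa using s0_rel_far hε hy

lemma J_s0_hasCompactSupport {ε : ℝ} (hε : 0 < ε) : HasCompactSupport (J (s0 (n := n) ε)) := by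
  apply HasCompactSupport.of_support_subset_isCompact (isCompact_closedBall (0 : Fin n → ℂ) ε)
  intro z hz
  rw [Metric.mem_closedBall, dist_zero_right]
  by_contra h
  push Not at h
  exact hz (J_s0_far hε h)

lemma integral_s0_ne {ε : ℝ} (hε : 0 < ε) : ∫ z, J (s0 (n := n) ε) z ≠ 0 := by
  have h1 : J (s0 (n := n) ε) = fun z => (j0 ε z : ℂ) := funext fun z => J_s0 hε z
  have hc : Continuous (j0 (n := n) ε) := by
    have h2 := J_contDiff (fun i => s0_contDiff (n := n) hε i)
    rw [h1] at h2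
    have h3 := Complex.continuous_re.comp h2
    exact h3.congr (fun z => by simp)
  have hs : HasCompactSupport (j0 (n := n) ε) := by
    have h2 := J_s0_hasCompactSupport (n := n) hε
    rw [h1] at h2
    have h3 := h2.comp_left (g := Complex.re) (by simp)
    have : (Complex.re ∘ fun z : Fin n → ℂ => (j0 ε z : ℂ)) = j0 ε := by
      funext z; simp
    rwa [this] at h3
  simp only [h1]
  have h5 : ∫ z : Fin n → ℂ, (j0 ε z : ℂ) = ((∫ z : Fin n → ℂ, j0 ε z : ℝ) : ℂ) :=
    integral_complex_ofReal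
  rw [h5]
  have := hc.integral_pos_of_hasCompactSupport_nonneg_nonzero (μ := volume) hs
    (fun z => j0_nonneg hε z) (j0_zero hε)
  exact_mod_cast this.ne'

lemma db_shift {G : Type*} [NormedAddCommGroup G] [NormedSpace ℂ G] (F : (Fin n → ℂ) → G)
    (a : Fin n → ℂ) (j : Fin n) (z : Fin n → ℂ) :
    db j (fun z => F (z - a)) z = db j F (z - a) := by
  unfold db
  rw [fderiv_comp_sub]

lemma J_shift {B : Type*} [NormedCommRing B] [NormedAlgebra ℂ B]
    (s : Fin n → (Fin n → ℂ) → B) (a z : Fin n → ℂ) :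
    J (fun i z => s i (z - a)) z = J s (z - a) := by
  unfold J
  congr 1
  ext j i
  exact db_shift (s i) a j z

end Pool.Agent.Helper503.Shilov
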