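import Mathlib
import Pool.Agent.Helper503.ShD

open Set Filter Topology MeasureTheory
open scoped ContDiff ComplexConjugate

namespace Pool.Agent.Helper503.Shilov

variable {n : ℕ}

section

variable {d ε : ℝ} {g : (Fin n → ℂ) → ℝ} {f sg : (Fin n → ℂ) → ℂ} {s : Fin n → (Fin n → ℂ) → ℂ}
  {l : Fin n → ℂ}

lemma J_congr {s s' : Fin n → (Fin n → ℂ) → ℂ} {z : Fin n → ℂ}
    (h : ∀ᶠ y in 𝓝 z, ∀ i, s i y = s' i y) : J s z = J s' z := by
  unfold J
  congr 1
  ext j i
  exact db_congr (h.mono fun y hy => hy i) j

/-- the computation off the chosen part -/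
theorem scalar_off (hd : 0 < d) (hε : 0 < ε) (hg : Continuous g)
    (hf : ContDiff ℝ ∞ f) (hfc : HasCompactSupport f) (hf1 : ∀ z, g z ≤ 2 * d → f z = 1)
    (hf0 : ∀ z, 3 * d ≤ g z → f z = 0)
    (hsg : ContDiff ℝ ∞ sg) (hsg1 : ∀ z, d ≤ g z → g z ≤ 4 * d → sg z = 1)
    (hs : ∀ i, ContDiff ℝ ∞ (s i)) (hrel : ∀ z, ∑ i, (z i - l i) * s i z = sg z)
    (hl : ∀ z, g z ≤ 3 * d → ε < ‖z - l‖) :
    ∫ z, f z * J s z = 0 := by
  set s' : Fin n → (Fin n → ℂ) → ℂ := fun i z => s i z + f z * (1 - sg z) * s0 ε i (z - l) with hs'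
  have hs0 : ∀ i, ContDiff ℝ ∞ (fun z : Fin n → ℂ => s0 ε i (z - l)) := fun i =>
    (s0_contDiff hε i).comp (contDiff_id.sub contDiff_const)
  have hs's : ∀ i, ContDiff ℝ ∞ (s' i) := fun i =>
    (hs i).add ((hf.mul (contDiff_const.sub hsg)).mul (hs0 i))
  have hrel' : ∀ z, g z < 2 * d → ∑ i, (z i - l i) * s' i z = 1 := by
    intro z hz
    have h1 := s0_rel_far hε (hl z (by linarith))
    simp only [Pi.sub_apply] at h1
    have h2 : ∑ i, (z i - l i) * s' i z = ∑ i, (z i - l i) * s i z +
        f z * (1 - sg z) * ∑ i, (z i - l i) * s0 ε i (z - l) := by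
      rw [Finset.mul_sum, ← Finset.sum_add_distrib]
      apply Finset.sum_congr rfl
      intro i _
      simp only [hs']
      ring
    rw [h2, h1, hrel, hf1 z hz.le]
    ring
  have key : ∀ z, f z * J s z = J s z - J s' z := by
    intro z
    rcases lt_or_ge (g z) (2 * d) with h | h
    · have h1 : J s' z = 0 := by
        apply J_zero_of_rel hs's l
        filter_upwards [hg.continuousAt.eventually (gt_mem_nhds h)] with y hy using hrel' y hy
      rw [h1, hf1 z h.le]; ring
    · rcases lt_or_ge (g z) (4 * d) with h4 | h4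
      · have e1 : ∀ᶠ y in 𝓝 z, sg y = 1 := by
          filter_upwards [hg.continuousAt.eventually (gt_mem_nhds h4),
            hg.continuousAt.eventually (lt_mem_nhds (show d < g z by linarith))] with y h5 h6
          exact hsg1 y (le_of_lt h6) (le_of_lt h5)
        have h1 : J s z = 0 := by
          apply J_zero_of_rel hs l
          filter_upwards [e1] with y hy
          rw [hrel, hy]
        have h2 : J s' z = J s z := by
          apply J_congr
          filter_upwards [e1] with y hy i
          simp only [hs', hy]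
          ring
        rw [h2, h1]; ring
      · have h2 : J s' z = J s z := by
          apply J_congr
          filter_upwards [hg.continuousAt.eventually (lt_mem_nhds (show 3 * d < g z by linarith))]
            with y hy i
          simp only [hs', hf0 y (le_of_lt hy)]
          ring
        rw [h2, hf0 z (by linarith)]; ring
  simp only [key]
  have hcs : ∀ i, HasCompactSupport (fun z => s i z - s' i z) := by
    intro i
    have : (fun z => s i z - s' i z) = fun z => f z * (-(1 - sg z) * s0 ε i (z - l)) := by
      funext z; simp only [hs']; ring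
    rw [this]
    exact hfc.mul_right
  exact (integral_J_sub hs's hs hcs).2

/-- the computation on the chosen part -/
theorem scalar_on (hd : 0 < d) (hε : 0 < ε) (hεd : ε < d) (hg : Continuous g)
    (hf : ContDiff ℝ ∞ f) (hfc : HasCompactSupport f) (hf1 : ∀ z, g z ≤ 2 * d → f z = 1)
    (hf0 : ∀ z, 3 * d ≤ g z → f z = 0)
    (hsg : ContDiff ℝ ∞ sg) (hsg1 : ∀ z, d ≤ g z → g z ≤ 4 * d → sg z = 1)
    (hs : ∀ i, ContDiff ℝ ∞ (s i)) (hrel : ∀ z, ∑ i, (z i - l i) * s i z = sg z)
    (hl : ∀ z, g z ≤ ‖z - l‖) :
    ∫ z, f z * J s z = ∫ z, J (s0 (n := n) ε) z := by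
  obtain ⟨b⟩ : Nonempty {b : ContDiffBump l // b.rIn = d ∧ b.rOut = 3 * d / 2} :=
    ⟨⟨⟨d, 3 * d / 2, hd, by linarith⟩, rfl, rfl⟩⟩
  obtain ⟨b, hb1, hb2⟩ := b
  set th : (Fin n → ℂ) → ℂ := fun z => (b z : ℂ) with hth
  have hthc : ContDiff ℝ ∞ th := Complex.ofRealCLM.contDiff.comp b.contDiff
  have hths : HasCompactSupport th := b.hasCompactSupport.comp_left (g := fun r : ℝ => (r : ℂ)) (by simp)
  have hth1 : ∀ z, ‖z - l‖ ≤ d → th z = 1 := by
    intro z hz
    simp only [hth]
    rw [b.one_of_mem_closedBall (by rw [Metric.mem_closedBall, dist_eq_norm, hb1]; exact hz)]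
    simp
  have hth0 : ∀ z, 3 * d / 2 ≤ ‖z - l‖ → th z = 0 := by
    intro z hz
    simp only [hth]
    rw [b.zero_of_le_dist (by rw [dist_eq_norm, hb2]; exact hz)]
    simp
  set sl : Fin n → (Fin n → ℂ) → ℂ := fun i z => s0 ε i (z - l) with hsl
  set s' : Fin n → (Fin n → ℂ) → ℂ := fun i z =>
    s i z + (f z * ((1 - th z) * (1 - sg z) * sl i z) + th z * (sl i z - s i z)) with hs'
  have hs0 : ∀ i, ContDiff ℝ ∞ (sl i) := fun i =>
    (s0_contDiff hε i).comp (contDiff_id.sub contDiff_const)
  have hs's : ∀ i, ContDiff ℝ ∞ (s' i) := fun i =>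
    (hs i).add ((hf.mul (((contDiff_const.sub hthc).mul (contDiff_const.sub hsg)).mul (hs0 i))).add
      (hthc.mul ((hs0 i).sub (hs i))))
  have hsl1 : ∀ z, ε < ‖z - l‖ → ∑ i, (z i - l i) * sl i z = 1 := fun z hz => s0_rel_far hε hz
  have hJsl : ∀ z, ε < ‖z - l‖ → J sl z = 0 := by
    intro z hz
    rw [hsl, J_shift]
    exact J_s0_far hε hz
  have hcn : Continuous (fun z : Fin n → ℂ => ‖z - l‖) := (continuous_id.sub continuous_const).norm
  have hrel' : ∀ z, g z < 2 * d → ε < ‖z - l‖ → ∑ i, (z i - l i) * s' i z = 1 := by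
    intro z hz hz2
    have h2 : ∑ i, (z i - l i) * s' i z = ∑ i, (z i - l i) * s i z +
        (f z * ((1 - th z) * (1 - sg z)) * (∑ i, (z i - l i) * sl i z) +
          th z * (∑ i, (z i - l i) * sl i z - ∑ i, (z i - l i) * s i z)) := by
      rw [← Finset.sum_sub_distrib, Finset.mul_sum, Finset.mul_sum, ← Finset.sum_add_distrib,
        ← Finset.sum_add_distrib]
      apply Finset.sum_congr rfl
      intro i _
      simp only [hs']
      ring
    rw [h2, hsl1 z hz2, hrel, hf1 z hz.le]
    ring
  have key : ∀ z, f z * J s z = (J s z - J s' z) + J sl z := by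
    intro z
    rcases lt_or_ge ‖z - l‖ d with hzd | hzd
    · have h1 : J s' z = J sl z := by
        apply J_congr
        filter_upwards [hcn.continuousAt.eventually (gt_mem_nhds hzd)] with y hy i
        have hy' : ‖y - l‖ < d := hy
        simp only [hs', hth1 y hy'.le]
        ring
      rw [h1, hf1 z (by have := hl z; linarith)]
      ring
    · have hze : ε < ‖z - l‖ := by linarith
      rw [hJsl z hze]
      rcases lt_or_ge (g z) (2 * d) with h | h
      · have h1 : J s' z = 0 := by
          apply J_zero_of_rel hs's l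
          filter_upwards [hg.continuousAt.eventually (gt_mem_nhds h),
            hcn.continuousAt.eventually (lt_mem_nhds hze)] with y hy hy2 using hrel' y hy hy2
        rw [h1, hf1 z h.le]; ring
      · have hz3 : 3 * d / 2 < ‖z - l‖ := by have := hl z; linarith
        have e2 := hcn.continuousAt.eventually (lt_mem_nhds hz3)
        rcases lt_or_ge (g z) (4 * d) with h4 | h4
        · have e1 : ∀ᶠ y in 𝓝 z, sg y = 1 := by
            filter_upwards [hg.continuousAt.eventually (gt_mem_nhds h4),
              hg.continuousAt.eventually (lt_mem_nhds (show d < g z by linarith))] with y h5 h6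
            exact hsg1 y (le_of_lt h6) (le_of_lt h5)
          have h1 : J s z = 0 := by
            apply J_zero_of_rel hs l
            filter_upwards [e1] with y hy
            rw [hrel, hy]
          have h2 : J s' z = J s z := by
            apply J_congr
            filter_upwards [e1, e2] with y hy hy2 i
            simp only [hs', hy, hth0 y (le_of_lt hy2)]
            ring
          rw [h2, h1]; ring
        · have h2 : J s' z = J s z := by
            apply J_congr
            filter_upwards [hg.continuousAt.eventually (lt_mem_nhds (show 3 * d < g z by linarith)),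
              e2] with y hy hy2 i
            simp only [hs', hf0 y (le_of_lt hy), hth0 y (le_of_lt hy2)]
            ring
          rw [h2, hf0 z (by linarith)]; ring
  simp only [key]
  have hcs : ∀ i, HasCompactSupport (fun z => s i z - s' i z) := by
    intro i
    have : (fun z => s i z - s' i z) = fun z => f z * (-((1 - th z) * (1 - sg z) * sl i z)) +
        th z * (-(sl i z - s i z)) := by
      funext z; simp only [hs']; ring
    rw [this]
    exact (hfc.mul_right).add (hths.mul_right)
  have hN := integral_J_sub hs's hs hcs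
  have hJ : J sl = fun z => J (s0 (n := n) ε) (z - l) := by
    funext z; rw [hsl, J_shift]
  have hint : Integrable (J sl) := by
    rw [hJ]
    apply Integrable.comp_sub_right
    exact (J_contDiff (fun i => s0_contDiff hε i)).integrable_of_hasCompactSupport
      (J_s0_hasCompactSupport hε)
  rw [integral_add hN.1 hint, hN.2, zero_add, hJ]
  exact integral_sub_right_eq_self _ l

end

end Pool.Agent.Helper503.Shilov
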