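import Mathlib
import Pool.Agent.Helper503.ShE

open Set Filter Topology MeasureTheory
open scoped ContDiff ComplexConjugate Manifold

namespace Pool.Agent.Helper503.Shilov

variable {n : ℕ} {A : Type*} [NormedCommRing A] [NormedAlgebra ℂ A] [CompleteSpace A]

open WeakDual

/-- characters vanishing on the ideal -/
def hull (I : Ideal A) : Set (characterSpace ℂ A) := {χ | ∀ x ∈ I, χ x = 0}

lemma exists_b (I : Ideal A) (a : Fin n → A) (z0 : Fin n → ℂ)
    (h : ∀ χ ∈ hull I, ¬ ∀ i, χ (a i) = z0 i) :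
    ∃ b : Fin n → A, ∑ i, (algebraMap ℂ A (z0 i) - a i) * b i - 1 ∈ I := by
  set K : Ideal A := I ⊔ Ideal.span (Set.range fun i => algebraMap ℂ A (z0 i) - a i) with hK
  by_cases hT : K = ⊤
  · have h1 : (1 : A) ∈ K := by rw [hT]; trivial
    rw [hK, Submodule.mem_sup] at h1
    obtain ⟨x, hx, y, hy, hxy⟩ := h1
    rw [Ideal.mem_span_range_iff_exists_fun] at hy
    obtain ⟨c, hc⟩ := hy
    refine ⟨c, ?_⟩
    have : ∑ i, (algebraMap ℂ A (z0 i) - a i) * c i - 1 = - x := by
      have h2 : ∑ i, (algebraMap ℂ A (z0 i) - a i) * c i = y := by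
        rw [← hc]
        apply Finset.sum_congr rfl
        intro i _
        ring
      rw [h2, ← hxy]; ring
    rw [this]
    exact neg_mem hx
  · exfalso
    obtain ⟨M, hM, hKM⟩ := K.exists_le_maximal hT
    have hI : I ≤ M := le_sup_left.trans hKM
    have hS : Ideal.span (Set.range fun i => algebraMap ℂ A (z0 i) - a i) ≤ M :=
      le_sup_right.trans hKM
    apply h M.toCharacterSpace
    · intro x hx
      exact M.toCharacterSpace_apply_eq_zero_of_mem (hI hx)
    · intro i
      have h1 : algebraMap ℂ A (z0 i) - a i ∈ M := hS (Ideal.subset_span ⟨i, rfl⟩)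
      have h2 := M.toCharacterSpace_apply_eq_zero_of_mem h1
      rw [map_sub, AlgHomClass.commutes] at h2
      exact (sub_eq_zero.1 h2).symm

/-- the local solutions -/
def Sol (I : Ideal A) (a : Fin n → A) (S : Set (Fin n → ℂ)) : Prop :=
  ∃ (u : Fin n → (Fin n → ℂ) → A) (sg : (Fin n → ℂ) → ℂ), (∀ i, ContDiff ℝ ∞ (u i)) ∧
    ContDiff ℝ ∞ sg ∧
    (∀ z, ∑ i, (algebraMap ℂ A (z i) - a i) * u i z - algebraMap ℂ A (sg z) ∈ I) ∧
    ∀ z ∈ S, sg z = 1

omit [CompleteSpace A] in
lemma Sol.empty (I : Ideal A) (a : Fin n → A) : Sol I a ∅ := by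
  refine ⟨fun _ _ => 0, fun _ => 0, fun _ => contDiff_const, contDiff_const, ?_, ?_⟩
  · intro z; simp
  · intro z hz; exact absurd hz (notMem_empty z)

omit [CompleteSpace A] in
lemma Sol.mono {I : Ideal A} {a : Fin n → A} {S T : Set (Fin n → ℂ)} (h : S ⊆ T)
    (hT : Sol I a T) : Sol I a S := by
  obtain ⟨u, sg, h1, h2, h3, h4⟩ := hT
  exact ⟨u, sg, h1, h2, h3, fun z hz => h4 z (h hz)⟩

omit [CompleteSpace A] in
lemma Sol.union {I : Ideal A} {a : Fin n → A} {S T : Set (Fin n → ℂ)} (hS : Sol I a S)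
    (hT : Sol I a T) : Sol I a (S ∪ T) := by
  obtain ⟨u, sg, h1, h2, h3, h4⟩ := hS
  obtain ⟨v, tg, k1, k2, k3, k4⟩ := hT
  refine ⟨fun i z => u i z + (1 - sg z) • v i z, fun z => sg z + (1 - sg z) * tg z, ?_, ?_, ?_, ?_⟩
  · intro i
    exact (h1 i).add ((contDiff_const.sub h2).smul (k1 i))
  · exact h2.add ((contDiff_const.sub h2).mul k2)
  · intro z
    have : ∑ i, (algebraMap ℂ A (z i) - a i) * (u i z + (1 - sg z) • v i z) -
        algebraMap ℂ A (sg z + (1 - sg z) * tg z) =
        (∑ i, (algebraMap ℂ A (z i) - a i) * u i z - algebraMap ℂ A (sg z)) +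
          algebraMap ℂ A (1 - sg z) *
            (∑ i, (algebraMap ℂ A (z i) - a i) * v i z - algebraMap ℂ A (tg z)) := by
      simp only [Algebra.smul_def, mul_add, Finset.sum_add_distrib, map_add, map_mul, mul_sub,
        Finset.mul_sum]
      have : ∑ i, (algebraMap ℂ A (z i) - a i) * (algebraMap ℂ A (1 - sg z) * v i z) =
          ∑ i, algebraMap ℂ A (1 - sg z) * ((algebraMap ℂ A (z i) - a i) * v i z) := by
        apply Finset.sum_congr rfl
        intro i _
        ring
      rw [this]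
      ring
    rw [this]
    exact add_mem (h3 z) (I.mul_mem_left _ (k3 z))
  · rintro z (hz | hz)
    · show sg z + (1 - sg z) * tg z = 1
      rw [h4 z hz]; ring
    · show sg z + (1 - sg z) * tg z = 1
      rw [k4 z hz]; ring

lemma Sol.local {I : Ideal A} {a : Fin n → A} {z0 : Fin n → ℂ}
    (h : ∀ χ ∈ hull I, ¬ ∀ i, χ (a i) = z0 i) : ∃ T ∈ 𝓝 z0, Sol I a T := by
  obtain ⟨b, hb⟩ := exists_b I a z0 h
  set q : (Fin n → ℂ) → A := fun z => 1 + ∑ i, (z i - z0 i) • b i with hq
  have hqc : ContDiff ℝ ∞ q := by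
    apply contDiff_const.add
    apply ContDiff.sum
    intro i _
    exact ((coord_contDiff i).sub contDiff_const).smul contDiff_const
  have hq0 : q z0 = 1 := by simp [hq]
  have hev : ∀ᶠ z in 𝓝 z0, IsUnit (q z) := by
    have h1 : Tendsto q (𝓝 z0) (𝓝 (1:A)) := by
      have := hqc.continuous.continuousAt (x := z0)
      unfold ContinuousAt at this
      rwa [hq0] at this
    have h2 : {x : A | IsUnit x} ∈ 𝓝 (1:A) := by
      exact Units.isOpen.mem_nhds isUnit_one
    exact h1 h2
  obtain ⟨r, hr, hru⟩ := Metric.eventually_nhds_iff.1 hev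
  obtain ⟨⟨β, hβ1, hβ2⟩⟩ : Nonempty {β : ContDiffBump z0 // β.rIn = r / 3 ∧ β.rOut = r / 2} :=
    ⟨⟨⟨r / 3, r / 2, by linarith, by linarith⟩, rfl, rfl⟩⟩
  refine ⟨Metric.closedBall z0 (r / 3), Metric.closedBall_mem_nhds _ (by linarith), ?_⟩
  refine ⟨fun i z => (β z : ℂ) • (b i * Ring.inverse (q z)), fun z => (β z : ℂ), ?_, ?_, ?_, ?_⟩
  · intro i
    rw [contDiff_iff_contDiffAt]
    intro z
    by_cases hz : dist z z0 < r
    · obtain ⟨x, hx⟩ := hru hz
      have h1 : ContDiffAt ℝ ∞ Ring.inverse (q z) := by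
        rw [← hx]; exact contDiffAt_ringInverse ℝ x
      have h2 : ContDiffAt ℝ ∞ (fun z => Ring.inverse (q z)) z := h1.comp z hqc.contDiffAt
      exact (Complex.ofRealCLM.contDiff.comp β.contDiff).contDiffAt.smul
        (contDiffAt_const.mul h2)
    · have h1 : ∀ᶠ y in 𝓝 z, r / 2 < dist y z0 := by
        have : r / 2 < dist z z0 := by linarith
        exact (continuous_id.dist continuous_const).continuousAt.eventually (lt_mem_nhds this)
      refine (contDiffAt_const (c := (0:A))).congr_of_eventuallyEq ?_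
      filter_upwards [h1] with y hy
      rw [β.zero_of_le_dist (by rw [hβ2]; exact hy.le)]
      simp
  · exact Complex.ofRealCLM.contDiff.comp β.contDiff
  · intro z
    by_cases hz : dist z z0 < r
    · have hu := hru hz
      have h1 : ∑ i, (algebraMap ℂ A (z i) - a i) * b i =
          q z + (∑ i, (algebraMap ℂ A (z0 i) - a i) * b i - 1) := by
        have : q z = 1 + ∑ i, (algebraMap ℂ A (z i) - algebraMap ℂ A (z0 i)) * b i := by
          simp only [hq, Algebra.smul_def, map_sub]
        rw [this]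
        have h2 : ∑ i, (algebraMap ℂ A (z i) - a i) * b i =
            ∑ i, (algebraMap ℂ A (z i) - algebraMap ℂ A (z0 i)) * b i +
              ∑ i, (algebraMap ℂ A (z0 i) - a i) * b i := by
          rw [← Finset.sum_add_distrib]
          apply Finset.sum_congr rfl
          intro i _
          ring
        rw [h2]; ring
      have h2 : ∑ i, (algebraMap ℂ A (z i) - a i) * ((β z : ℂ) • (b i * Ring.inverse (q z))) =
          algebraMap ℂ A (β z : ℂ) * Ring.inverse (q z) *
            ∑ i, (algebraMap ℂ A (z i) - a i) * b i := by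
        rw [Finset.mul_sum]
        apply Finset.sum_congr rfl
        intro i _
        rw [Algebra.smul_def]
        ring
      rw [h2, h1]
      have h3 : algebraMap ℂ A (β z : ℂ) * Ring.inverse (q z) *
          (q z + (∑ i, (algebraMap ℂ A (z0 i) - a i) * b i - 1)) - algebraMap ℂ A (β z : ℂ) =
          (algebraMap ℂ A (β z : ℂ) * Ring.inverse (q z)) *
            (∑ i, (algebraMap ℂ A (z0 i) - a i) * b i - 1) +
          algebraMap ℂ A (β z : ℂ) * (Ring.inverse (q z) * q z - 1) := by ring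
      rw [h3, Ring.inverse_mul_cancel _ hu, sub_self, mul_zero, add_zero]
      exact I.mul_mem_left _ hb
    · have h0 : β z = 0 := β.zero_of_le_dist (by rw [hβ2]; linarith)
      simp [h0]
  · intro z hz
    beta_reduce
    rw [β.one_of_mem_closedBall (by rw [hβ1]; exact hz)]
    simp

lemma Sol.compact {I : Ideal A} {a : Fin n → A} {C : Set (Fin n → ℂ)} (hC : IsCompact C)
    (h : ∀ z ∈ C, ∀ χ ∈ hull I, ¬ ∀ i, χ (a i) = z i) : Sol I a C := by
  refine hC.induction_on (p := Sol I a) (Sol.empty I a) (fun S T h hT => hT.mono h)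
    (fun S T hS hT => hS.union hT) ?_
  intro z hz
  obtain ⟨T, hT, hs⟩ := Sol.local (h z hz)
  exact ⟨T, nhdsWithin_le_nhds hT, hs⟩

end Pool.Agent.Helper503.Shilov
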