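import Mathlib
import Pool.Agent.Helper503.ShF

open Set Filter Topology MeasureTheory
open scoped ContDiff ComplexConjugate Manifold

namespace Pool.Agent.Helper503.Shilov

variable {A : Type*} [NormedCommRing A] [NormedAlgebra ℂ A] [CompleteSpace A]

open WeakDual

omit [CompleteSpace A] in
lemma eval_cont (a : A) : Continuous (fun χ : characterSpace ℂ A => χ a) :=
  (WeakDual.eval_continuous a).comp continuous_subtype_val

omit [CompleteSpace A] in
lemma separate {V U : Set (characterSpace ℂ A)} (hV : IsCompact V) (hU : IsCompact U)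
    (hd : Disjoint V U) :
    ∃ (n : ℕ) (a : Fin n → A), ∀ χ ∈ V, ∀ ψ ∈ U, ∃ i, χ (a i) ≠ ψ (a i) := by
  have h1 : (V ×ˢ U) ⊆ ⋃ a : A, {p : characterSpace ℂ A × characterSpace ℂ A | p.1 a ≠ p.2 a} := by
    rintro ⟨χ, ψ⟩ ⟨h1, h2⟩
    have hne : χ ≠ ψ := fun h => Set.disjoint_left.1 hd h1 (h ▸ h2)
    by_contra hcon
    apply hne
    simp only [mem_iUnion, mem_ofPred_eq, not_exists, not_not] at hcon
    exact CharacterSpace.ext hcon
  obtain ⟨t, ht⟩ := (hV.prod hU).elim_finite_subcover _ (fun a => by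
    exact isOpen_ne_fun ((eval_cont a).comp continuous_fst) ((eval_cont a).comp continuous_snd)) h1
  refine ⟨t.card, fun i => (t.equivFin.symm i : A), ?_⟩
  intro χ hχ ψ hψ
  have h2 := ht (show (χ, ψ) ∈ V ×ˢ U from ⟨hχ, hψ⟩)
  simp only [mem_iUnion, mem_ofPred_eq, exists_prop] at h2
  obtain ⟨a, ha, hne⟩ := h2
  refine ⟨t.equivFin ⟨a, ha⟩, ?_⟩
  simpa using hne

omit [CompleteSpace A] in
lemma char_J {n : ℕ} (χ : characterSpace ℂ A) {u : Fin n → (Fin n → ℂ) → A}
    (hu : ∀ i, ContDiff ℝ ∞ (u i)) (z : Fin n → ℂ) :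
    χ (J u z) = J (fun i z => χ (u i z)) z := by
  unfold J
  have h1 : χ ((Matrix.of fun j i => db j (u i) z).det) =
      ((CharacterSpace.toAlgHom χ : A →+* ℂ).mapMatrix (Matrix.of fun j i => db j (u i) z)).det := by
    rw [← RingHom.map_det]; rfl
  rw [h1]
  congr 1
  ext j i
  have h2 := db_comp (CharacterSpace.toCLM χ) (((hu i).differentiable (by simp)) z) j
  exact h2.symm

/-- existence of an element of a commutative Banach algebra whose Gelfand transform is the
indicator of a relatively clopen part of the hull of an ideal -/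
theorem shilov (I : Ideal A) (V : Set (characterSpace ℂ A)) (hVH : V ⊆ hull I)
    (hV : IsClosed V) (hU : IsClosed (hull I \ V)) :
    ∃ k : A, (∀ χ ∈ V, χ k = 1) ∧ ∀ χ ∈ hull I \ V, χ k = 0 := by
  set U := hull I \ V with hUdef
  rcases V.eq_empty_or_nonempty with hVe | hVne
  · refine ⟨0, ?_, ?_⟩
    · rw [hVe]; intro χ hχ; exact absurd hχ (notMem_empty _)
    · intro χ _; exact map_zero χ
  obtain ⟨n, a, ha⟩ := separate (A := A) hV.isCompact hU.isCompact disjoint_sdiff_right
  set Φ : characterSpace ℂ A → (Fin n → ℂ) := fun χ i => χ (a i) with hΦ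
  have hΦc : Continuous Φ := continuous_pi fun i => eval_cont (a i)
  have hKV : IsCompact (Φ '' V) := hV.isCompact.image hΦc
  have hKU : IsCompact (Φ '' U) := hU.isCompact.image hΦc
  have hdisj : Disjoint (Φ '' U) (Φ '' V) := by
    rw [Set.disjoint_left]
    rintro _ ⟨ψ, hψ, rfl⟩ ⟨χ, hχ, h⟩
    obtain ⟨i, hi⟩ := ha χ hχ ψ hψ
    exact hi (congrFun h i)
  obtain ⟨r, hr, hrd⟩ := Metric.exists_pos_forall_lt_edist hKU hKV.isClosed hdisj
  set g : (Fin n → ℂ) → ℝ := fun z => Metric.infDist z (Φ '' V) with hg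
  have hgc : Continuous g := Metric.continuous_infDist_pt _
  have hKVne : (Φ '' V).Nonempty := hVne.image _
  set d : ℝ := r / 8 with hd
  have hr' : (0:ℝ) < r := by exact_mod_cast hr
  have hd0 : 0 < d := by positivity
  have hgU : ∀ ψ ∈ U, 4 * d < g (Φ ψ) := by
    intro ψ hψ
    obtain ⟨y, hy, hy2⟩ := hKV.exists_infDist_eq_dist hKVne (Φ ψ)
    have h1 := hrd (Φ ψ) ⟨ψ, hψ, rfl⟩ y hy
    rw [edist_dist] at h1
    have h2 : (r : ℝ) < dist (Φ ψ) y := by
      have h3 : ENNReal.ofReal (r : ℝ) < ENNReal.ofReal (dist (Φ ψ) y) := by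
        rwa [ENNReal.ofReal_coe_nnreal]
      exact (ENNReal.ofReal_lt_ofReal_iff_of_nonneg hr'.le).1 h3
    simp only [hg]
    rw [hy2, hd]
    linarith
  have hgV : ∀ χ ∈ V, g (Φ χ) = 0 := by
    intro χ hχ
    exact Metric.infDist_zero_of_mem ⟨χ, hχ, rfl⟩
  have hcomp : ∀ c : ℝ, IsCompact {z | g z ≤ c} := by
    intro c
    apply Metric.isCompact_of_isClosed_isBounded
    · exact isClosed_le hgc continuous_const
    · obtain ⟨M, hM⟩ := hKV.isBounded.exists_norm_le
      rw [isBounded_iff_forall_norm_le]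
      refine ⟨M + c, ?_⟩
      intro z hz
      obtain ⟨y, hy, hy2⟩ := hKV.exists_infDist_eq_dist hKVne z
      have h1 : dist z y ≤ c := by rw [← hy2]; exact hz
      have h2 := hM y hy
      rw [dist_eq_norm] at h1
      have h3 : ‖z‖ ≤ ‖y‖ + ‖z - y‖ := by
        have := norm_add_le y (z - y)
        rwa [add_sub_cancel] at this
      linarith
  set C : Set (Fin n → ℂ) := {z | d ≤ g z ∧ g z ≤ 4 * d} with hC
  have hCc : IsCompact C := by
    have : C = {z | g z ≤ 4 * d} ∩ {z | d ≤ g z} := by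
      ext z; simp only [hC, mem_ofPred_eq, mem_inter_iff]; exact and_comm
    rw [this]
    exact (hcomp _).inter_right (isClosed_le continuous_const hgc)
  have hSol : Sol I a C := by
    apply Sol.compact hCc
    intro z hz χ hχ hcon
    have hz' : z = Φ χ := (funext hcon).symm
    by_cases hχV : χ ∈ V
    · have := hgV χ hχV
      rw [← hz'] at this
      have := hz.1
      linarith
    · have := hgU χ ⟨hχ, hχV⟩
      rw [← hz'] at this
      have := hz.2
      linarith
  obtain ⟨u, sg, hu, hsg, hrel, hsg1⟩ := hSol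
  obtain ⟨f0, hf0, hf1, -⟩ := exists_contMDiffMap_zero_one_of_isClosed (n := (⊤ : ℕ∞)) 𝓘(ℝ, Fin n → ℂ)
    (s := {z | 3 * d ≤ g z}) (t := {z | g z ≤ 2 * d})
    (isClosed_le continuous_const hgc) (isClosed_le hgc continuous_const) (by
      rw [Set.disjoint_left]
      intro z h1 h2
      simp only [mem_ofPred_eq] at h1 h2
      linarith)
  set f : (Fin n → ℂ) → ℂ := fun z => (f0 z : ℂ) with hf
  have hfc : ContDiff ℝ ∞ f := Complex.ofRealCLM.contDiff.comp f0.contMDiff.contDiff
  have hfs : HasCompactSupport f := by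
    apply HasCompactSupport.of_support_subset_isCompact (hcomp (3 * d))
    intro z hz
    by_contra hcon
    simp only [mem_ofPred_eq, not_le] at hcon
    apply hz
    have := hf0 (show z ∈ {z | 3 * d ≤ g z} from hcon.le)
    simp only [hf, this]
    simp
  have hf1' : ∀ z, g z ≤ 2 * d → f z = 1 := by
    intro z hz
    have := hf1 (show z ∈ {z | g z ≤ 2 * d} from hz)
    simp only [hf, this]
    simp
  have hf0' : ∀ z, 3 * d ≤ g z → f z = 0 := by
    intro z hz
    have := hf0 (show z ∈ {z | 3 * d ≤ g z} from hz)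
    simp only [hf, this]
    simp
  set c : ℂ := ∫ z, J (s0 (n := n) (d / 2)) z with hc
  have hc0 : c ≠ 0 := integral_s0_ne (by positivity)
  have hint : Integrable (fun z => f z • J u z) := by
    apply Continuous.integrable_of_hasCompactSupport
    · exact hfc.continuous.smul (J_contDiff hu)
    · exact hfs.smul_right
  have hval : ∀ χ : characterSpace ℂ A, χ (∫ z, f z • J u z) =
      ∫ z, f z * J (fun i z => χ (u i z)) z := by
    intro χ
    have h1 := (CharacterSpace.toCLM χ).integral_comp_comm hint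
    have h2 : χ (∫ z, f z • J u z) = CharacterSpace.toCLM χ (∫ z, f z • J u z) := rfl
    rw [h2, ← h1]
    congr 1
    funext z
    have h3 : CharacterSpace.toCLM χ (f z • J u z) = χ (f z • J u z) := rfl
    rw [h3, map_smul, char_J χ hu, smul_eq_mul]
  have hchar : ∀ χ ∈ hull I, (∀ i, ContDiff ℝ ∞ (fun z => χ (u i z))) ∧
      ∀ z, ∑ i, (z i - Φ χ i) * χ (u i z) = sg z := by
    intro χ hχ
    constructor
    · intro i
      exact (CharacterSpace.toCLM χ |>.restrictScalars ℝ).contDiff.comp (hu i)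
    · intro z
      have h1 := hχ _ (hrel z)
      rw [map_sub, map_sum, AlgHomClass.commutes, sub_eq_zero] at h1
      simp only [map_mul, map_sub, AlgHomClass.commutes] at h1
      exact h1
  refine ⟨c⁻¹ • ∫ z, f z • J u z, ?_, ?_⟩
  · intro χ hχ
    obtain ⟨h1, h2⟩ := hchar χ (hVH hχ)
    rw [map_smul, hval, scalar_on hd0 (ε := d / 2) (by positivity) (by linarith) hgc hfc hfs hf1' hf0'
      hsg (fun z h3 h4 => hsg1 z ⟨h3, h4⟩) h1 h2 ?_, smul_eq_mul]
    · exact inv_mul_cancel₀ hc0
    · intro z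
      have := Metric.infDist_le_dist_of_mem (x := z) (show Φ χ ∈ Φ '' V from ⟨χ, hχ, rfl⟩)
      rwa [dist_eq_norm] at this
  · intro χ hχ
    obtain ⟨h1, h2⟩ := hchar χ hχ.1
    rw [map_smul, hval, scalar_off hd0 (ε := d / 2) (by positivity) hgc hfc hfs hf1' hf0'
      hsg (fun z h3 h4 => hsg1 z ⟨h3, h4⟩) h1 h2 ?_, smul_zero]
    intro z hz
    have h3 := hgU χ hχ
    have h4 : g (Φ χ) ≤ g z + dist (Φ χ) z := Metric.infDist_le_infDist_add_dist
    rw [dist_comm, dist_eq_norm] at h4
    linarith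

end Pool.Agent.Helper503.Shilov
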