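import Mathlib

open Set Filter Topology
open scoped Manifold

namespace Pool.Agent.Helper503.Surf

/-! ### radii and exponents -/

noncomputable def rad (n : ℕ) : ℝ := 1 - (1 / 2) ^ (n + 1)

lemma rad_pos (n : ℕ) : 0 < rad n := by
  unfold rad
  have h : (1 / 2 : ℝ) ^ (n + 1) ≤ (1 / 2) ^ 1 :=
    pow_le_pow_of_le_one (by norm_num) (by norm_num) (by omega)
  norm_num at h ⊢
  linarith

lemma rad_lt_one (n : ℕ) : rad n < 1 := by
  unfold rad
  have : (0:ℝ) < (1 / 2) ^ (n + 1) := by positivity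
  linarith

lemma rad_strictMono : StrictMono rad := by
  apply strictMono_nat_of_lt_succ
  intro n
  unfold rad
  have : (0:ℝ) < (1 / 2) ^ (n + 1) := by positivity
  rw [pow_succ _ (n + 1)]
  linarith

lemma rad_tendsto : Tendsto rad atTop (𝓝 1) := by
  have : Tendsto (fun n : ℕ => (1 / 2 : ℝ) ^ (n + 1)) atTop (𝓝 0) :=
    (tendsto_pow_atTop_nhds_zero_of_lt_one (by norm_num) (by norm_num)).comp (tendsto_add_atTop_nat 1)
  have h2 := this.const_sub 1
  rw [sub_zero] at h2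
  exact h2

noncomputable def rho (j : ℕ) : ℝ := rad (2 * j)
noncomputable def rr (j : ℕ) : ℝ := rad (2 * j + 1)

lemma rho_pos (j : ℕ) : 0 < rho j := rad_pos _
lemma rho_lt_rr (j : ℕ) : rho j < rr j := rad_strictMono (by omega)
lemma rr_lt_rho {i j : ℕ} (h : i < j) : rr i < rho j := rad_strictMono (by omega)
lemma rho_strictMono : StrictMono rho := fun _ _ h => rad_strictMono (by omega)
lemma rr_strictMono : StrictMono rr := fun _ _ h => rad_strictMono (by omega)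
lemma rho_lt_one (j : ℕ) : rho j < 1 := rad_lt_one _
lemma rr_lt_one (j : ℕ) : rr j < 1 := rad_lt_one _
lemma rr_pos (j : ℕ) : 0 < rr j := rad_pos _

lemma exists_rr {x : ℝ} (hx : x < 1) : ∃ i, x < rr i := by
  have h : Tendsto rr atTop (𝓝 1) := by
    refine rad_tendsto.comp ?_
    exact tendsto_atTop_mono (fun n => show n ≤ 2 * n + 1 by omega) tendsto_id
  exact (h.eventually (lt_mem_nhds hx)).exists

lemma exists_N (j : ℕ) : ∃ N : ℕ, 1 ≤ N ∧ 1 + 16 ^ j ≤ (rr j / rho j) ^ N ∧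
    ∀ i < j, (rr i / rho j) ^ N ≤ (1 / 2) ^ j := by
  have h1 : Tendsto (fun n : ℕ => (rr j / rho j) ^ n) atTop atTop :=
    tendsto_pow_atTop_atTop_of_one_lt ((one_lt_div (rho_pos j)).2 (rho_lt_rr j))
  have h2 : ∀ i < j, Tendsto (fun n : ℕ => (rr i / rho j) ^ n) atTop (𝓝 0) := by
    intro i hi
    apply tendsto_pow_atTop_nhds_zero_of_lt_one
    · exact (div_pos (rr_pos i) (rho_pos j)).le
    · exact (div_lt_one (rho_pos j)).2 (rr_lt_rho hi)
  have e1 : ∀ᶠ n : ℕ in atTop, 1 + 16 ^ j ≤ (rr j / rho j) ^ n := h1.eventually_ge_atTop _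
  have e2 : ∀ᶠ n : ℕ in atTop, ∀ i ∈ Finset.range j, (rr i / rho j) ^ n ≤ (1 / 2 : ℝ) ^ j := by
    rw [Filter.eventually_all_finset]
    intro i hi
    have := (h2 i (Finset.mem_range.1 hi)).eventually (gt_mem_nhds (show (0:ℝ) < (1 / 2) ^ j by positivity))
    exact this.mono fun n hn => hn.le
  obtain ⟨n, hn1, hn2, hn3⟩ := (e1.and (e2.and (eventually_ge_atTop 1))).exists
  exact ⟨n, hn3, hn1, fun i hi => hn2 i (Finset.mem_range.2 hi)⟩

noncomputable def NN (j : ℕ) : ℕ := Classical.choose (exists_N j)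
lemma NN_pos (j : ℕ) : 1 ≤ NN j := (Classical.choose_spec (exists_N j)).1
lemma NN_big (j : ℕ) : 1 + 16 ^ j ≤ (rr j / rho j) ^ NN j := (Classical.choose_spec (exists_N j)).2.1
lemma NN_small {i j : ℕ} (h : i < j) : (rr i / rho j) ^ NN j ≤ (1 / 2) ^ j :=
  (Classical.choose_spec (exists_N j)).2.2 i h

noncomputable def cc (j : ℕ) (z : ℂ) : ℂ := (z / rho j) ^ NN j
noncomputable def PP (j : ℕ) (z : ℂ) : ℂ := 1 - cc j z

lemma norm_cc (j : ℕ) (z : ℂ) : ‖cc j z‖ = (‖z‖ / rho j) ^ NN j := by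
  unfold cc
  rw [norm_pow, norm_div, Complex.norm_real, Real.norm_of_nonneg (rho_pos j).le]

lemma cc_small {i j : ℕ} (h : i < j) {z : ℂ} (hz : ‖z‖ ≤ rr i) : ‖cc j z‖ ≤ (1 / 2) ^ j := by
  rw [norm_cc]
  refine le_trans ?_ (NN_small h)
  have := rho_pos j
  gcongr

lemma cc_lt_one {j : ℕ} {z : ℂ} (hz : ‖z‖ < rho j) : ‖cc j z‖ < 1 := by
  rw [norm_cc]
  apply pow_lt_one₀ (div_nonneg (norm_nonneg _) (rho_pos j).le)
  · rwa [div_lt_one (rho_pos j)]
  · have := NN_pos j; omega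

lemma cc_zero (j : ℕ) : cc j 0 = 0 := by
  unfold cc
  rw [zero_div, zero_pow]
  have := NN_pos j; omega

lemma PP_zero (j : ℕ) : PP j 0 = 1 := by simp [PP, cc_zero]

lemma PP_big {k j : ℕ} (h : j ≤ k) {z : ℂ} (hz : ‖z‖ = rr k) : 16 ^ j ≤ ‖PP j z‖ := by
  have h1 : 1 + 16 ^ j ≤ ‖cc j z‖ := by
    rw [norm_cc, hz]
    refine (NN_big j).trans ?_
    have := rr_strictMono.monotone h
    have h3 := rho_pos j
    have h4 := rr_pos j
    gcongr
  have h2 : ‖cc j z‖ ≤ ‖(1:ℂ)‖ + ‖PP j z‖ := by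
    have : cc j z = 1 - PP j z := by simp [PP]
    rw [this]
    exact norm_sub_le _ _
  rw [norm_one] at h2
  linarith

lemma PP_bdd (j : ℕ) : ∃ M : ℝ, 0 ≤ M ∧ ∀ z : ℂ, ‖z‖ < 1 → ‖PP j z‖ ≤ M := by
  refine ⟨1 + (1 / rho j) ^ NN j, by have := rho_pos j; positivity, ?_⟩
  intro z hz
  unfold PP
  refine (norm_sub_le _ _).trans ?_
  rw [norm_one, norm_cc]
  have := rho_pos j
  gcongr

lemma PP_re_pos {j : ℕ} {z : ℂ} (hz : ‖z‖ < rho j) : 0 < (PP j z).re := by
  have h := cc_lt_one hz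
  have h1 := Complex.abs_re_le_norm (cc j z)
  have h2 := le_abs_self (cc j z).re
  simp only [PP, Complex.sub_re, Complex.one_re]
  linarith

lemma PP_differentiable (j : ℕ) : Differentiable ℂ (PP j) := by
  unfold PP cc
  fun_prop

lemma PP_ne_zero_of_ne {j : ℕ} {z : ℂ} (hz : PP j z = 0) : ‖z‖ = rho j := by
  have h1 : cc j z = 1 := by
    have : 1 - cc j z = 0 := hz
    linear_combination -this
  have h2 : (‖z‖ / rho j) ^ NN j = 1 := by rw [← norm_cc, h1, norm_one]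
  have h3 : ‖z‖ / rho j = 1 := by
    have h4 : 0 ≤ ‖z‖ / rho j := div_nonneg (norm_nonneg _) (rho_pos j).le
    have h5 := NN_pos j
    exact (pow_eq_one_iff_of_nonneg h4 (by omega)).1 h2
  rwa [div_eq_one_iff_eq (rho_pos j).ne'] at h3

/-- equicontinuity -/
lemma PP_equi {z0 : ℂ} (hz0 : ‖z0‖ < 1) {ε : ℝ} (hε : 0 < ε) :
    ∀ᶠ z in 𝓝 z0, ∀ j, ‖PP j z - PP j z0‖ < ε := by
  obtain ⟨i, hi⟩ := exists_rr hz0
  obtain ⟨J, hJ⟩ : ∃ J : ℕ, (1 / 2 : ℝ) ^ J < ε / 2 := exists_pow_lt_of_lt_one (by linarith) (by norm_num)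
  have e1 : ∀ᶠ z : ℂ in 𝓝 z0, ‖z‖ < rr i := continuous_norm.continuousAt.eventually (gt_mem_nhds hi)
  have e2 : ∀ᶠ z : ℂ in 𝓝 z0, ∀ j ∈ Finset.range (max J (i + 1)), ‖PP j z - PP j z0‖ < ε := by
    rw [Filter.eventually_all_finset]
    intro j _
    have hc : ContinuousAt (fun z => ‖PP j z - PP j z0‖) z0 :=
      ((PP_differentiable j).continuous.continuousAt.sub continuousAt_const).norm
    refine hc.eventually (gt_mem_nhds ?_)
    simpa using hε
  filter_upwards [e1, e2] with z h1 h2 j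
  by_cases hj : j < max J (i + 1)
  · exact h2 j (Finset.mem_range.2 hj)
  · push Not at hj
    have hij : i < j := lt_of_lt_of_le (Nat.lt_succ_self i) ((le_max_right _ _).trans hj)
    have hJj : J ≤ j := (le_max_left _ _).trans hj
    have h3 := cc_small hij h1.le
    have h4 := cc_small hij hi.le
    have h5 : (1 / 2 : ℝ) ^ j ≤ (1 / 2) ^ J := pow_le_pow_of_le_one (by norm_num) (by norm_num) hJj
    have h6 : PP j z - PP j z0 = cc j z0 - cc j z := by simp [PP]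
    rw [h6]
    refine (norm_sub_le _ _).trans_lt ?_
    linarith

lemma PP_lower {z0 : ℂ} (hz0 : ‖z0‖ < 1) (h : ∀ j, PP j z0 ≠ 0) :
    ∃ m : ℝ, 0 < m ∧ ∀ j, m ≤ ‖PP j z0‖ := by
  obtain ⟨i, hi⟩ := exists_rr hz0
  have hfin : ∀ K : ℕ, ∃ m : ℝ, 0 < m ∧ ∀ j < K, m ≤ ‖PP j z0‖ := by
    intro K
    induction K with
    | zero => exact ⟨1, one_pos, fun j hj => absurd hj (Nat.not_lt_zero _)⟩
    | succ K ih =>
      obtain ⟨m, hm, hmK⟩ := ih
      refine ⟨min m ‖PP K z0‖, lt_min hm (norm_pos_iff.2 (h K)), ?_⟩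
      intro j hj
      rcases Nat.lt_succ_iff_lt_or_eq.1 hj with hj | rfl
      · exact (min_le_left _ _).trans (hmK j hj)
      · exact min_le_right _ _
  obtain ⟨m, hm, hmi⟩ := hfin (i + 2)
  refine ⟨min m (1 / 2), lt_min hm (by norm_num), ?_⟩
  intro j
  by_cases hj : j < i + 2
  · exact (min_le_left _ _).trans (hmi j hj)
  · push Not at hj
    have h1 := cc_small (show i < j by omega) hi.le
    have h2 : (1 / 2 : ℝ) ^ j ≤ (1 / 2) ^ 1 :=
      pow_le_pow_of_le_one (by norm_num) (by norm_num) (by omega)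
    have h3 : ‖(1:ℂ)‖ ≤ ‖PP j z0‖ + ‖cc j z0‖ := by
      have : (1:ℂ) = PP j z0 + cc j z0 := by simp [PP]
      nth_rewrite 1 [this]
      exact norm_add_le _ _
    rw [norm_one] at h3
    refine (min_le_right _ _).trans ?_
    norm_num at h2 ⊢
    linarith

/-! ### square roots -/

noncomputable def sq (a : ℂ) : ℂ := Complex.exp (Complex.log a / 2)

lemma sq_sq {a : ℂ} (ha : a ≠ 0) : sq a ^ 2 = a := by
  unfold sq
  rw [← Complex.exp_nat_mul]
  have : ((2 : ℕ) : ℂ) * (Complex.log a / 2) = Complex.log a := by push_cast; ring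
  rw [this, Complex.exp_log ha]

lemma sq_ne_zero (a : ℂ) : sq a ≠ 0 := Complex.exp_ne_zero _

lemma sq_re_pos {a : ℂ} (ha : a ∈ Complex.slitPlane) : 0 < (sq a).re := by
  unfold sq
  rw [Complex.exp_re]
  apply mul_pos (Real.exp_pos _)
  apply Real.cos_pos_of_mem_Ioo
  have h1 := Complex.neg_pi_lt_arg a
  have h2 : Complex.arg a < Real.pi := by
    rcases lt_or_eq_of_le (Complex.arg_le_pi a) with h | h
    · exact h
    · exact absurd h (Complex.mem_slitPlane_iff_arg.1 ha).1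
  have : (Complex.log a / 2).im = Complex.arg a / 2 := by
    rw [show (2:ℂ) = ((2:ℝ) : ℂ) by norm_num, Complex.div_ofReal_im, Complex.log_im]
  rw [this]
  constructor <;> linarith

lemma sq_differentiableAt {a : ℂ} (ha : a ∈ Complex.slitPlane) : DifferentiableAt ℂ sq a := by
  unfold sq
  exact ((Complex.differentiableAt_log ha).div_const 2).cexp

lemma slit_of_near {a : ℂ} (ha : ‖a - 1‖ < 1) : a ∈ Complex.slitPlane := by
  have := Complex.mem_slitPlane_of_norm_lt_one ha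
  simpa using this

lemma root_unique {u v : ℂ} (h : u ^ 2 = v ^ 2) (hu : 0 < u.re) (hv : 0 < v.re) : u = v := by
  rcases sq_eq_sq_iff_eq_or_eq_neg.1 h with h | h
  · exact h
  · rw [h, Complex.neg_re] at hu
    linarith

lemma root_diff {u v : ℂ} (hu : 0 < u.re) (hv : 1 / 2 ≤ v.re) :
    ‖u - v‖ ≤ 2 * ‖u ^ 2 - v ^ 2‖ := by
  have h1 : u ^ 2 - v ^ 2 = (u - v) * (u + v) := by ring
  rw [h1, norm_mul]
  have h2 : 1 / 2 ≤ ‖u + v‖ := by
    have := Complex.re_le_norm (u + v)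
    rw [Complex.add_re] at this
    linarith
  nlinarith [norm_nonneg (u - v)]

lemma root_re_ge {u : ℂ} (hu : 0 < u.re) (h : ‖u ^ 2 - 1‖ ≤ 1 / 2) : 1 / 2 ≤ u.re := by
  have h1 : u ^ 2 - 1 = (u - 1) * (u + 1) := by ring
  rw [h1, norm_mul] at h
  have h2 : 1 ≤ ‖u + 1‖ := by
    have := Complex.re_le_norm (u + 1)
    rw [Complex.add_re, Complex.one_re] at this
    linarith
  have h3 : ‖u - 1‖ ≤ 1 / 2 := by nlinarith [norm_nonneg (u - 1)]
  have h4 := Complex.abs_re_le_norm (u - 1)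
  rw [Complex.sub_re, Complex.one_re] at h4
  have h5 := (abs_le.1 (h4.trans h3)).1
  linarith

lemma cone_of {w : ℂ} (h : 0 < (w ^ 2).re) (hw : 0 < w.re) : |w.im| < w.re := by
  have h1 : (w ^ 2).re = w.re ^ 2 - w.im ^ 2 := by
    rw [pow_two, Complex.mul_re]; ring
  rw [h1] at h
  have h2 : w.im ^ 2 < w.re ^ 2 := by linarith
  rw [abs_lt]
  constructor <;> nlinarith

lemma sign_lemma {w w' : ℂ} (h : 0 < (w ^ 2).re) (h' : 0 < (w' ^ 2).re) (hw : 0 < w.re)
    (hr : 0 < (w' / w).re) : 0 < w'.re := by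
  by_contra hcon
  push Not at hcon
  have hne : w'.re ≠ 0 := by
    intro h0
    have h1 : (w' ^ 2).re = w'.re ^ 2 - w'.im ^ 2 := by
      rw [pow_two, Complex.mul_re]; ring
    rw [h1, h0] at h'
    nlinarith [sq_nonneg w'.im]
  have hlt : 0 < (-w').re := by
    rw [Complex.neg_re]
    have := lt_of_le_of_ne hcon hne
    linarith
  have c1 := cone_of h hw
  have c2 := cone_of (w := -w') (by simpa using h') hlt
  have h2 : (w' / w).re = (w'.re * w.re + w'.im * w.im) / Complex.normSq w := by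
    rw [Complex.div_re]; ring
  have h3 : 0 < Complex.normSq w := by
    rw [Complex.normSq_pos]
    intro h0; rw [h0] at hw; simp at hw
  rw [h2, lt_div_iff₀ h3, zero_mul] at hr
  rw [Complex.neg_im, Complex.neg_re, abs_neg] at c2
  have h4 : w'.im * w.im ≤ |w'.im| * |w.im| := by
    rw [← abs_mul]; exact le_abs_self _
  nlinarith [abs_nonneg w.im, abs_nonneg w'.im]


end Pool.Agent.Helper503.Surf
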