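import Mathlib
import Pool.Agent.Helper503.SurfAB

open Set Filter Topology
open scoped Manifold UniformConvergence

namespace Pool.Agent.Helper503.Surf

/-! ### the surface -/

/-- points of the (possibly disconnected) covering surface -/
structure Pt where
  z : ℂ
  w : ℕ → ℂ
  z_lt : ‖z‖ < 1
  w_sq : ∀ j, w j ^ 2 = PP j z
  w_ne : ∀ j, w j ≠ 0
  w_pos : ∀ᶠ j in atTop, 0 < (w j).re

namespace Pt

lemma P_ne (x : Pt) (j : ℕ) : PP j x.z ≠ 0 := by
  rw [← x.w_sq j]; exact pow_ne_zero _ (x.w_ne j)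

lemma ext' {x y : Pt} (h1 : x.z = y.z) (h2 : ∀ j, x.w j = y.w j) : x = y := by
  have h3 : x.w = y.w := funext h2
  cases x; cases y
  simp only at h1 h3
  subst h1 h3
  rfl

noncomputable def emb (x : Pt) : ℂ × (ℕ →ᵤ ℂ) := (x.z, UniformFun.ofFun x.w)

noncomputable instance : TopologicalSpace Pt := TopologicalSpace.induced emb inferInstance

lemma emb_injective : Function.Injective emb := by
  intro x y h
  have h1 := congrArg Prod.fst h
  have h2 := congrArg Prod.snd h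
  refine ext' h1 (fun j => ?_)
  have h3 : x.w = y.w := UniformFun.ofFun.injective h2
  rw [h3]

instance : T2Space Pt := T2Space.of_injective_continuous emb_injective continuous_induced_dom

lemma tendsto_iff {ι : Type*} {f : ι → Pt} {l : Filter ι} {x : Pt} :
    Tendsto f l (𝓝 x) ↔ Tendsto (fun i => (f i).z) l (𝓝 x.z) ∧
      TendstoUniformly (fun i => (f i).w) x.w l := by
  rw [nhds_induced, tendsto_comap_iff, Prod.tendsto_iff, UniformFun.tendsto_iff_tendstoUniformly]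
  rfl

lemma continuous_z : Continuous z := by
  rw [continuous_iff_continuousAt]
  intro x
  exact (tendsto_iff.1 tendsto_id).1

lemma ev_close (x : Pt) {δ : ℝ} (hδ : 0 < δ) : ∀ᶠ y in 𝓝 x, ∀ j, ‖y.w j - x.w j‖ < δ := by
  have h := (tendsto_iff.1 (tendsto_id (α := Pt) (x := 𝓝 x))).2
  rw [Metric.tendstoUniformly_iff] at h
  filter_upwards [h δ hδ] with y hy j
  have := hy j
  rw [dist_comm, dist_eq_norm] at this
  exact this

lemma w_lower (x : Pt) : ∃ μ : ℝ, 0 < μ ∧ ∀ j, μ ≤ ‖x.w j‖ := by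
  obtain ⟨m, hm, h⟩ := PP_lower x.z_lt x.P_ne
  refine ⟨Real.sqrt m, Real.sqrt_pos.2 hm, fun j => ?_⟩
  rw [Real.sqrt_le_left (norm_nonneg _), ← norm_pow, x.w_sq]
  exact h j

lemma exists_eps (x : Pt) : ∃ ε : ℝ, 0 < ε ∧ ∀ v : ℂ, ‖v - x.z‖ < ε →
    ‖v‖ < 1 ∧ ∀ j, ‖PP j v / PP j x.z - 1‖ ≤ 1 / 2 := by
  obtain ⟨m, hm, h⟩ := PP_lower x.z_lt x.P_ne
  have e1 := PP_equi x.z_lt (show 0 < m / 2 by positivity)
  have e2 : ∀ᶠ v : ℂ in 𝓝 x.z, ‖v‖ < 1 := continuous_norm.continuousAt.eventually (gt_mem_nhds x.z_lt)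
  obtain ⟨ε, hε, hb⟩ := Metric.eventually_nhds_iff.1 (e1.and e2)
  refine ⟨ε, hε, fun v hv => ?_⟩
  obtain ⟨h1, h2⟩ := hb (by rwa [dist_eq_norm])
  refine ⟨h2, fun j => ?_⟩
  have h3 : PP j v / PP j x.z - 1 = (PP j v - PP j x.z) / PP j x.z := by
    rw [sub_div, div_self (x.P_ne j)]
  rw [h3, norm_div, div_le_iff₀ (norm_pos_iff.2 (x.P_ne j))]
  have h4 := h1 j
  have h5 := h j
  linarith

noncomputable def eps (x : Pt) : ℝ := Classical.choose (exists_eps x)
lemma eps_pos (x : Pt) : 0 < eps x := (Classical.choose_spec (exists_eps x)).1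
lemma eps_lt_one (x : Pt) {v : ℂ} (hv : ‖v - x.z‖ < eps x) : ‖v‖ < 1 :=
  ((Classical.choose_spec (exists_eps x)).2 v hv).1
lemma eps_near (x : Pt) {v : ℂ} (hv : ‖v - x.z‖ < eps x) (j : ℕ) :
    ‖PP j v / PP j x.z - 1‖ ≤ 1 / 2 :=
  ((Classical.choose_spec (exists_eps x)).2 v hv).2 j

lemma eps_slit (x : Pt) {v : ℂ} (hv : ‖v - x.z‖ < eps x) (j : ℕ) :
    PP j v / PP j x.z ∈ Complex.slitPlane :=
  slit_of_near ((eps_near x hv j).trans_lt (by norm_num))

lemma ev_rho {r : ℝ} (hr : r < 1) : ∀ᶠ j in atTop, r < rho j := by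
  obtain ⟨i, hi⟩ := exists_rr hr
  filter_upwards [eventually_gt_atTop i] with j hj
  exact hi.trans (rr_lt_rho hj)

lemma sec_prop (x : Pt) {v : ℂ} (hv : ‖v - x.z‖ < eps x) :
    ‖v‖ < 1 ∧ (∀ j, (x.w j * sq (PP j v / PP j x.z)) ^ 2 = PP j v) ∧
      (∀ j, x.w j * sq (PP j v / PP j x.z) ≠ 0) ∧
      ∀ᶠ j in atTop, 0 < (x.w j * sq (PP j v / PP j x.z)).re := by
  have hsq : ∀ j, (x.w j * sq (PP j v / PP j x.z)) ^ 2 = PP j v := by
    intro j
    have h1 : PP j v / PP j x.z ≠ 0 := Complex.slitPlane_ne_zero (eps_slit x hv j)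
    rw [mul_pow, sq_sq h1, x.w_sq, mul_div_cancel₀ _ (x.P_ne j)]
  refine ⟨eps_lt_one x hv, hsq, fun j => mul_ne_zero (x.w_ne j) (sq_ne_zero _), ?_⟩
  filter_upwards [x.w_pos, ev_rho x.z_lt, ev_rho (eps_lt_one x hv)] with j h1 h2 h3
  apply sign_lemma (w := x.w j) _ _ h1
  · rw [mul_div_cancel_left₀ _ (x.w_ne j)]
    exact sq_re_pos (eps_slit x hv j)
  · rw [x.w_sq]; exact PP_re_pos h2
  · rw [hsq]; exact PP_re_pos h3

open Classical in
/-- the local section through `x` -/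
noncomputable def sec (x : Pt) (v : ℂ) : Pt :=
  if h : ‖v - x.z‖ < eps x then
    ⟨v, fun j => x.w j * sq (PP j v / PP j x.z), (sec_prop x h).1, (sec_prop x h).2.1,
      (sec_prop x h).2.2.1, (sec_prop x h).2.2.2⟩ else x

lemma sec_z (x : Pt) {v : ℂ} (hv : ‖v - x.z‖ < eps x) : (sec x v).z = v := by
  unfold sec; rw [dif_pos hv]

lemma sec_w (x : Pt) {v : ℂ} (hv : ‖v - x.z‖ < eps x) (j : ℕ) :
    (sec x v).w j = x.w j * sq (PP j v / PP j x.z) := by
  unfold sec; rw [dif_pos hv]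

lemma self_lt (x : Pt) : ‖x.z - x.z‖ < eps x := by simpa using eps_pos x

lemma sq_one : sq 1 = 1 := by simp [sq]

lemma sec_self (x : Pt) : sec x x.z = x := by
  apply ext'
  · exact sec_z x (self_lt x)
  · intro j
    rw [sec_w x (self_lt x), div_self (x.P_ne j), sq_one, mul_one]

/-- the neighbourhood of `x` on which `z` is a chart -/
def nb (x : Pt) : Set Pt := {y | ‖y.z - x.z‖ < eps x ∧ ∀ j, 0 < (y.w j / x.w j).re}

lemma ratio_sq (x : Pt) (y : Pt) (j : ℕ) : (y.w j / x.w j) ^ 2 = PP j y.z / PP j x.z := by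
  rw [div_pow, x.w_sq, y.w_sq]

lemma nb_half {x y : Pt} (hy : y ∈ nb x) (j : ℕ) : 1 / 2 ≤ (y.w j / x.w j).re := by
  apply root_re_ge (hy.2 j)
  rw [ratio_sq]
  exact eps_near x hy.1 j

lemma isOpen_nb (x : Pt) : IsOpen (nb x) := by
  rw [isOpen_iff_mem_nhds]
  intro y hy
  obtain ⟨μ, hμ, hμj⟩ := w_lower x
  have e1 := ev_close y (show 0 < μ / 4 by positivity)
  have e2 : ∀ᶠ y' in 𝓝 y, ‖y'.z - x.z‖ < eps x := by
    have : Continuous (fun y' : Pt => ‖y'.z - x.z‖) := (continuous_z.sub continuous_const).norm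
    exact this.continuousAt.eventually (gt_mem_nhds hy.1)
  filter_upwards [e1, e2] with y' h1 h2
  refine ⟨h2, fun j => ?_⟩
  have h3 := nb_half hy j
  have h4 : ‖y'.w j / x.w j - y.w j / x.w j‖ ≤ 1 / 4 := by
    rw [← sub_div, norm_div, div_le_iff₀ (norm_pos_iff.2 (x.w_ne j))]
    have := h1 j
    have := hμj j
    linarith
  have h5 := (abs_le.1 ((Complex.abs_re_le_norm _).trans h4)).1
  rw [Complex.sub_re] at h5
  linarith

lemma sec_mem_nb (x : Pt) {v : ℂ} (hv : ‖v - x.z‖ < eps x) : sec x v ∈ nb x := by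
  refine ⟨?_, fun j => ?_⟩
  · rw [sec_z x hv]; exact hv
  · rw [sec_w x hv, mul_div_cancel_left₀ _ (x.w_ne j)]
    exact sq_re_pos (eps_slit x hv j)

lemma sec_of_mem {x y : Pt} (hy : y ∈ nb x) : sec x y.z = y := by
  apply ext'
  · exact sec_z x hy.1
  · intro j
    rw [sec_w x hy.1]
    have h1 : sq (PP j y.z / PP j x.z) = y.w j / x.w j := by
      apply root_unique _ (sq_re_pos (eps_slit x hy.1 j)) (hy.2 j)
      rw [ratio_sq, sq_sq (Complex.slitPlane_ne_zero (eps_slit x hy.1 j))]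
    rw [h1, mul_div_cancel₀ _ (x.w_ne j)]

lemma sec_continuousOn (x : Pt) : ContinuousOn (sec x) (Metric.ball x.z (eps x)) := by
  intro v hv
  rw [Metric.mem_ball, dist_eq_norm] at hv
  unfold ContinuousWithinAt
  have hmem : ∀ᶠ v' in 𝓝[Metric.ball x.z (eps x)] v, ‖v' - x.z‖ < eps x := by
    filter_upwards [self_mem_nhdsWithin] with v' hv'
    rwa [Metric.mem_ball, dist_eq_norm] at hv'
  rw [tendsto_iff]
  constructor
  · rw [sec_z x hv]
    refine Tendsto.congr' ?_ (tendsto_id.mono_left nhdsWithin_le_nhds)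
    filter_upwards [hmem] with v' hv'
    rw [sec_z x hv']; rfl
  · rw [Metric.tendstoUniformly_iff]
    intro ε hε
    obtain ⟨μ, hμ, hμj⟩ := w_lower x
    have e1 := (PP_equi (eps_lt_one x hv) (show 0 < ε * μ / 2 by positivity)).filter_mono
      (nhdsWithin_le_nhds (s := Metric.ball x.z (eps x)))
    filter_upwards [hmem, e1] with v' hv' h1 j
    rw [dist_eq_norm, sec_w x hv, sec_w x hv', ← mul_sub, norm_mul]
    have h2 : 1 / 2 ≤ (sq (PP j v' / PP j x.z)).re := by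
      apply root_re_ge (sq_re_pos (eps_slit x hv' j))
      rw [sq_sq (Complex.slitPlane_ne_zero (eps_slit x hv' j))]
      exact eps_near x hv' j
    have h3 := root_diff (sq_re_pos (eps_slit x hv j)) h2
    rw [sq_sq (Complex.slitPlane_ne_zero (eps_slit x hv j)),
      sq_sq (Complex.slitPlane_ne_zero (eps_slit x hv' j)), ← sub_div, norm_div] at h3
    have hP : ‖PP j x.z‖ = ‖x.w j‖ ^ 2 := by rw [← norm_pow, x.w_sq]
    rw [hP] at h3
    have hw : 0 < ‖x.w j‖ := norm_pos_iff.2 (x.w_ne j)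
    have h4 : ‖PP j v - PP j v'‖ < ε * μ / 2 := by
      rw [norm_sub_rev]; exact h1 j
    calc ‖x.w j‖ * ‖sq (PP j v / PP j x.z) - sq (PP j v' / PP j x.z)‖
        ≤ ‖x.w j‖ * (2 * (‖PP j v - PP j v'‖ / ‖x.w j‖ ^ 2)) := by gcongr
      _ = 2 * ‖PP j v - PP j v'‖ / ‖x.w j‖ := by field_simp
      _ < ε := by
        rw [div_lt_iff₀ hw]
        have := hμj j
        nlinarith

/-- the chart at `x` -/
noncomputable def chart (x : Pt) : OpenPartialHomeomorph Pt ℂ where
  toFun := z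
  invFun := sec x
  source := nb x
  target := Metric.ball x.z (eps x)
  map_source' := fun y hy => by rw [Metric.mem_ball, dist_eq_norm]; exact hy.1
  map_target' := fun v hv => by
    rw [Metric.mem_ball, dist_eq_norm] at hv
    exact sec_mem_nb x hv
  left_inv' := fun y hy => sec_of_mem hy
  right_inv' := fun v hv => by
    rw [Metric.mem_ball, dist_eq_norm] at hv
    exact sec_z x hv
  open_source := isOpen_nb x
  open_target := Metric.isOpen_ball
  continuousOn_toFun := continuous_z.continuousOn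
  continuousOn_invFun := sec_continuousOn x

lemma mem_nb_self (x : Pt) : x ∈ nb x := by
  refine ⟨self_lt x, fun j => ?_⟩
  rw [div_self (x.w_ne j)]
  simp

noncomputable instance : ChartedSpace ℂ Pt where
  atlas := Set.range chart
  chartAt := chart
  mem_chart_source := mem_nb_self
  chart_mem_atlas := fun x => ⟨x, rfl⟩

instance : IsManifold 𝓘(ℂ) ⊤ Pt := by
  apply isManifold_of_contDiffOn
  rintro e e' ⟨x, rfl⟩ ⟨y, rfl⟩
  refine ContDiffOn.congr contDiffOn_id ?_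
  intro v hv
  simp only [mfld_simps] at hv ⊢
  have h1 : v ∈ Metric.ball x.z (eps x) := hv.1
  rw [Metric.mem_ball, dist_eq_norm] at h1
  exact sec_z x h1

end Pt

end Pool.Agent.Helper503.Surf
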