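import Mathlib
import Pool.Agent.Helper503.SurfC

open Set Filter Topology
open scoped Manifold

namespace Pool.Agent.Helper503.Surf

namespace Pt

/-- holomorphy in terms of the local sections -/
def Hol (f : Pt → ℂ) : Prop := ∀ x : Pt, DifferentiableAt ℂ (fun v => f (sec x v)) x.z

lemma Hol.continuous {f : Pt → ℂ} (hf : Hol f) : Continuous f := by
  rw [continuous_iff_continuousAt]
  intro x
  have h1 : ContinuousAt (fun y : Pt => f (sec x y.z)) x :=
    ContinuousAt.comp (f := Pt.z) (g := fun v => f (sec x v)) (hf x).continuousAt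
      continuous_z.continuousAt
  refine h1.congr ?_
  filter_upwards [(isOpen_nb x).mem_nhds (mem_nb_self x)] with y hy
  rw [sec_of_mem hy]

lemma hol_iff_at (f : Pt → ℂ) (x : Pt) : MDifferentiableAt 𝓘(ℂ) 𝓘(ℂ) f x ↔
    ContinuousAt f x ∧ DifferentiableAt ℂ (fun v => f (sec x v)) x.z := by
  rw [mdifferentiableAt_iff]
  have h1 : writtenInExtChartAt 𝓘(ℂ) 𝓘(ℂ) x f = fun v => f (sec x v) := by
    funext v
    simp only [writtenInExtChartAt, mfld_simps]
    rfl
  have h2 : (extChartAt 𝓘(ℂ) x) x = x.z := by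
    simp only [mfld_simps]
    rfl
  rw [h1, h2]
  simp only [modelWithCornersSelf_coe, range_id, differentiableWithinAt_univ]

lemma hol_iff (f : Pt → ℂ) : MDifferentiable 𝓘(ℂ) 𝓘(ℂ) f ↔ Hol f := by
  constructor
  · intro h x
    exact ((hol_iff_at f x).1 (h x)).2
  · intro h x
    exact (hol_iff_at f x).2 ⟨h.continuous.continuousAt, h x⟩

lemma ev_ball (x : Pt) : ∀ᶠ v in 𝓝 x.z, ‖v - x.z‖ < eps x := by
  have := Metric.ball_mem_nhds x.z (eps_pos x)
  filter_upwards [this] with v hv
  rwa [Metric.mem_ball, dist_eq_norm] at hv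

lemma hol_z : Hol Pt.z := by
  intro x
  have : (fun v => (sec x v).z) =ᶠ[𝓝 x.z] fun v => v := by
    filter_upwards [ev_ball x] with v hv using sec_z x hv
  exact differentiableAt_id.congr_of_eventuallyEq this

lemma hol_w (j : ℕ) : Hol (fun x => x.w j) := by
  intro x
  have : (fun v => (sec x v).w j) =ᶠ[𝓝 x.z] fun v => x.w j * sq (PP j v / PP j x.z) := by
    filter_upwards [ev_ball x] with v hv using sec_w x hv j
  refine DifferentiableAt.congr_of_eventuallyEq ?_ this
  apply DifferentiableAt.const_mul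
  have h1 : DifferentiableAt ℂ (fun v => PP j v / PP j x.z) x.z :=
    ((PP_differentiable j) x.z).div_const _
  exact DifferentiableAt.comp x.z (g := sq) (f := fun v => PP j v / PP j x.z)
    (sq_differentiableAt (eps_slit x (self_lt x) j)) h1

/-- sign change of the `k`-th coordinate -/
def flip (k : ℕ) (x : Pt) : Pt where
  z := x.z
  w := fun j => if j = k then - x.w j else x.w j
  z_lt := x.z_lt
  w_sq := by
    intro j
    by_cases h : j = k
    · simp only [h, if_true]; rw [neg_sq, x.w_sq]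
    · simp only [h, if_false]; exact x.w_sq j
  w_ne := by
    intro j
    by_cases h : j = k
    · simp only [h, if_true]; exact neg_ne_zero.2 (x.w_ne k)
    · simp only [h, if_false]; exact x.w_ne j
  w_pos := by
    filter_upwards [x.w_pos, eventually_gt_atTop k] with j h1 h2
    have h : j ≠ k := by omega
    simp only [h, if_false]
    exact h1

@[simp] lemma flip_z (k : ℕ) (x : Pt) : (flip k x).z = x.z := rfl
lemma flip_w_self (k : ℕ) (x : Pt) : (flip k x).w k = - x.w k := by simp [flip]
lemma flip_w_ne {k j : ℕ} (h : j ≠ k) (x : Pt) : (flip k x).w j = x.w j := by simp [flip, h]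
lemma norm_flip_w (k j : ℕ) (x : Pt) : ‖(flip k x).w j‖ = ‖x.w j‖ := by
  by_cases h : j = k
  · subst h; rw [flip_w_self, norm_neg]
  · rw [flip_w_ne h]

lemma flip_flip (k : ℕ) (x : Pt) : flip k (flip k x) = x := by
  refine ext' (by rfl) ?_
  intro j
  by_cases h : j = k
  · subst h; rw [flip_w_self, flip_w_self, neg_neg]
  · rw [flip_w_ne h, flip_w_ne h]

lemma flip_comm (k l : ℕ) (x : Pt) : flip k (flip l x) = flip l (flip k x) := by
  refine ext' (by rfl) ?_
  intro j
  by_cases hk : j = k
  · by_cases hl : j = l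
    · subst hk; subst hl; rfl
    · subst hk
      rw [flip_w_self, flip_w_ne hl, flip_w_ne hl, flip_w_self]
  · by_cases hl : j = l
    · subst hl
      rw [flip_w_self, flip_w_ne hk, flip_w_ne hk, flip_w_self]
    · rw [flip_w_ne hk, flip_w_ne hl, flip_w_ne hl, flip_w_ne hk]

lemma eps_flip (k : ℕ) (x : Pt) : eps (flip k x) = eps x := rfl

lemma sec_flip (k : ℕ) (x : Pt) {v : ℂ} (hv : ‖v - x.z‖ < eps x) :
    sec (flip k x) v = flip k (sec x v) := by
  apply ext'
  · rw [sec_z (flip k x) hv, flip_z, sec_z x hv]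
  · intro j
    rw [sec_w (flip k x) hv]
    by_cases h : j = k
    · subst h; rw [flip_w_self, flip_w_self, sec_w x hv]; simp
    · rw [flip_w_ne h, flip_w_ne h, sec_w x hv]; simp

lemma Hol.flip {f : Pt → ℂ} (hf : Hol f) (k : ℕ) : Hol (fun x => f (Pt.flip k x)) := by
  intro x
  have h1 := hf (Pt.flip k x)
  refine DifferentiableAt.congr_of_eventuallyEq h1 ?_
  filter_upwards [ev_ball x] with v hv
  rw [sec_flip k x hv]

/-! ### the pieces -/

def Piece (k : ℕ) : Set Pt := {x | ‖x.z‖ < rho (k + 1) ∧ ∀ j, k < j → 0 < (x.w j).re}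

lemma flip_piece {k j : ℕ} (hj : j ≤ k) {x : Pt} (hx : x ∈ Piece k) : flip j x ∈ Piece k := by
  refine ⟨hx.1, fun i hi => ?_⟩
  rw [flip_w_ne (by omega)]
  exact hx.2 i hi

lemma inv_eq {k : ℕ} {F : Pt → ℂ} (hinv : ∀ j ≤ k, ∀ x, F (flip j x) = F x) {x y : Pt}
    (hx : x ∈ Piece k) (hy : y ∈ Piece k) (hz : x.z = y.z) : F x = F y := by
  have key : ∀ m ≤ k + 1, ∀ x y : Pt, x.z = y.z → (∀ j, m ≤ j → x.w j = y.w j) → F x = F y := by
    intro m
    induction m with
    | zero =>
      intro _ x y h1 h2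
      rw [ext' h1 (fun j => h2 j (Nat.zero_le j))]
    | succ m ih =>
      intro hm x y h1 h2
      by_cases h : x.w m = y.w m
      · apply ih (by omega) x y h1
        intro j hj
        rcases Nat.eq_or_lt_of_le hj with rfl | hj
        · exact h
        · exact h2 j hj
      · have h3 : x.w m = - y.w m := by
          have : x.w m ^ 2 = y.w m ^ 2 := by rw [x.w_sq, y.w_sq, h1]
          rcases sq_eq_sq_iff_eq_or_eq_neg.1 this with h4 | h4
          · exact absurd h4 h
          · exact h4
        rw [← hinv m (by omega) x]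
        apply ih (by omega) (flip m x) y h1
        intro j hj
        rcases Nat.eq_or_lt_of_le hj with rfl | hj
        · rw [flip_w_self, h3, neg_neg]
        · rw [flip_w_ne (by omega)]
          exact h2 j hj
  apply key (k + 1) le_rfl x y hz
  intro j hj
  apply root_unique _ (hx.2 j (by omega)) (hy.2 j (by omega))
  rw [x.w_sq, y.w_sq, hz]

/-- the canonical point over `v` -/
noncomputable def can (v : ℂ) (h1 : ‖v‖ < 1) (h2 : ∀ j, PP j v ≠ 0) : Pt where
  z := v
  w := fun j => sq (PP j v)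
  z_lt := h1
  w_sq := fun j => sq_sq (h2 j)
  w_ne := fun j => sq_ne_zero _
  w_pos := by
    filter_upwards [ev_rho h1] with j hj
    exact sq_re_pos (Or.inl (PP_re_pos hj))

lemma can_piece {k : ℕ} {v : ℂ} (h1 : ‖v‖ < 1) (h2 : ∀ j, PP j v ≠ 0) (h : ‖v‖ < rho (k + 1)) :
    can v h1 h2 ∈ Piece k := by
  refine ⟨h, fun j hj => ?_⟩
  apply sq_re_pos
  apply Or.inl
  apply PP_re_pos
  exact h.trans_le (rho_strictMono.monotone (by omega))

end Pt

end Pool.Agent.Helper503.Surf
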