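import Mathlib
import Pool.Agent.Helper503.SurfD

open Set Filter Topology
open scoped Manifold

namespace Pool.Agent.Helper503.Surf

namespace Pt

lemma PP_hasDerivAt (j : ℕ) (v : ℂ) :
    HasDerivAt (PP j) (-(NN j * (v / rho j) ^ (NN j - 1) * (1 / rho j))) v := by
  have h1 : HasDerivAt (fun v : ℂ => v / rho j) (1 / rho j) v := (hasDerivAt_id v).div_const _
  have h2 := (h1.fun_pow (NN j)).const_sub 1
  exact h2

lemma PP_deriv_ne {j : ℕ} {v : ℂ} (h : PP j v = 0) :
    (-(NN j * (v / rho j) ^ (NN j - 1) * (1 / rho j)) : ℂ) ≠ 0 := by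
  have h1 : ‖v‖ = rho j := PP_ne_zero_of_ne h
  have h2 : (rho j : ℂ) ≠ 0 := by exact_mod_cast (rho_pos j).ne'
  have h3 : v ≠ 0 := by
    intro h0
    rw [h0, norm_zero] at h1
    exact (rho_pos j).ne h1
  have h4 : (NN j : ℂ) ≠ 0 := by
    have := NN_pos j
    exact_mod_cast (by omega : NN j ≠ 0)
  apply neg_ne_zero.2
  apply mul_ne_zero
  · apply mul_ne_zero h4
    exact pow_ne_zero _ (div_ne_zero h3 h2)
  · exact one_div_ne_zero h2

/-- regular values -/
def Reg (v : ℂ) : Prop := ∀ j, PP j v ≠ 0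

lemma reg_open {v : ℂ} (h1 : ‖v‖ < 1) (h2 : Reg v) : ∀ᶠ u in 𝓝 v, ‖u‖ < 1 ∧ Reg u := by
  filter_upwards [ev_ball (can v h1 h2)] with u hu
  refine ⟨eps_lt_one _ hu, ?_⟩
  have := (sec (can v h1 h2) u).P_ne
  rw [sec_z _ hu] at this
  exact this

lemma reg_punctured {v : ℂ} (h1 : ‖v‖ < 1) : ∀ᶠ u in 𝓝[≠] v, ‖u‖ < 1 ∧ Reg u := by
  by_cases h2 : Reg v
  · exact (reg_open h1 h2).filter_mono nhdsWithin_le_nhds
  · unfold Reg at h2
    push Not at h2
    obtain ⟨j0, hj0⟩ := h2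
    have hn : ‖v‖ = rho j0 := PP_ne_zero_of_ne hj0
    have hother : ∀ j, j ≠ j0 → PP j v ≠ 0 := by
      intro j hj hz
      have := PP_ne_zero_of_ne hz
      rw [hn] at this
      exact hj (rho_strictMono.injective this).symm
    -- for `j > j0` the real part is positive near `v`; finitely many others
    have e1 : ∀ᶠ u in 𝓝 v, ∀ j ∈ Finset.range (j0 + 1), j ≠ j0 → PP j u ≠ 0 := by
      rw [Filter.eventually_all_finset]
      intro j _
      by_cases hj : j = j0
      · exact Eventually.of_forall fun u h => absurd hj h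
      · have := (PP_differentiable j).continuous.continuousAt.eventually_ne (hother j hj)
        filter_upwards [this] with u hu _ using hu
    have e2 : ∀ᶠ u in 𝓝 v, ‖u‖ < rho (j0 + 1) :=
      continuous_norm.continuousAt.eventually (gt_mem_nhds (by
        change ‖v‖ < rho (j0 + 1); rw [hn]; exact rho_strictMono (Nat.lt_succ_self _)))
    have e3 : ∀ᶠ u in 𝓝[≠] v, PP j0 u ≠ 0 :=
      (PP_hasDerivAt j0 v).eventually_ne (PP_deriv_ne hj0)
    filter_upwards [e1.filter_mono nhdsWithin_le_nhds, e2.filter_mono nhdsWithin_le_nhds, e3] with u h3 h4 h5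
    refine ⟨h4.trans (rho_lt_one _), fun j => ?_⟩
    rcases lt_trichotomy j j0 with h | h | h
    · exact h3 j (Finset.mem_range.2 (by omega)) h.ne
    · rw [h]; exact h5
    · intro hz
      have h6 := PP_re_pos (h4.trans_le (rho_strictMono.monotone (show j0 + 1 ≤ j by omega)))
      rw [hz] at h6
      simp at h6

open Classical in
noncomputable def phi (F : Pt → ℂ) (v : ℂ) : ℂ :=
  if h : ‖v‖ < 1 ∧ Reg v then F (can v h.1 h.2) else 0

lemma phi_eq (F : Pt → ℂ) {v : ℂ} (h1 : ‖v‖ < 1) (h2 : Reg v) : phi F v = F (can v h1 h2) := by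
  unfold phi; rw [dif_pos ⟨h1, h2⟩]

lemma phi_not (F : Pt → ℂ) {v : ℂ} (h : ¬ Reg v) : phi F v = 0 := by
  unfold phi; rw [dif_neg (fun h' => h h'.2)]

variable {k : ℕ} {F : Pt → ℂ}

lemma phi_point (hinv : ∀ j ≤ k, ∀ x, F (flip j x) = F x) {x : Pt} (hx : x ∈ Piece k) :
    phi F x.z = F x := by
  rw [phi_eq F x.z_lt x.P_ne]
  exact inv_eq hinv (can_piece _ _ hx.1) hx rfl

lemma phi_diff (hF : Hol F) (hinv : ∀ j ≤ k, ∀ x, F (flip j x) = F x) {v : ℂ}
    (h1 : ‖v‖ < rho (k + 1)) (h2 : Reg v) : DifferentiableAt ℂ (phi F) v := by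
  have h1' : ‖v‖ < 1 := h1.trans (rho_lt_one _)
  have hx := can_piece h1' h2 h1
  refine DifferentiableAt.congr_of_eventuallyEq (hF (can v h1' h2)) ?_
  have e2 : ∀ᶠ u in 𝓝 v, ‖u‖ < rho (k + 1) := continuous_norm.continuousAt.eventually (gt_mem_nhds h1)
  filter_upwards [ev_ball (can v h1' h2), e2] with u hu hu2
  have hp : sec (can v h1' h2) u ∈ Piece k := by
    refine ⟨by rw [sec_z _ hu]; exact hu2, fun j hj => ?_⟩
    have hj' : rho (k + 1) ≤ rho j := rho_strictMono.monotone (by omega)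
    apply sign_lemma (w := (can v h1' h2).w j) _ _ (hx.2 j hj) ((sec_mem_nb _ hu).2 j)
    · rw [w_sq]; exact PP_re_pos (h1.trans_le hj')
    · rw [w_sq, sec_z _ hu]; exact PP_re_pos (hu2.trans_le hj')
  have := phi_point hinv hp
  rw [sec_z _ hu] at this
  exact this

/-- the growth condition at a branch value -/
lemma phi_littleO (C : ℝ) (hC : ∀ x ∈ Piece k, ‖F x‖ * ∏ j ∈ Finset.range (k + 1), ‖x.w j‖ ≤ C)
    {v : ℂ} (h1 : ‖v‖ < rho (k + 1)) (h2 : ¬ Reg v) :
    Tendsto (fun u => phi F u * (u - v)) (𝓝[≠] v) (𝓝 0) := by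
  have h2' := h2
  unfold Reg at h2
  push Not at h2
  obtain ⟨j0, hj0⟩ := h2
  have hn : ‖v‖ = rho j0 := PP_ne_zero_of_ne hj0
  have hj0k : j0 ≤ k := by
    rw [hn] at h1
    have := rho_strictMono.lt_iff_lt.1 h1
    omega
  have hother : ∀ j, j ≠ j0 → PP j v ≠ 0 := by
    intro j hj hz
    have := PP_ne_zero_of_ne hz
    rw [hn] at this
    exact hj (rho_strictMono.injective this).symm
  set q : ℂ → ℂ := fun u => ∏ j ∈ (Finset.range (k + 1)).erase j0, PP j u with hq
  have hqc : Tendsto q (𝓝[≠] v) (𝓝 (q v)) := by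
    have : Continuous q := continuous_finsetProd _ fun j _ => (PP_differentiable j).continuous
    exact this.continuousAt.tendsto.mono_left nhdsWithin_le_nhds
  have hq0 : q v ≠ 0 := by
    rw [hq]
    exact Finset.prod_ne_zero_iff.2 fun j hj => hother j (Finset.ne_of_mem_erase hj)
  have hsl : Tendsto (fun u => PP j0 u / (u - v)) (𝓝[≠] v)
      (𝓝 (-(NN j0 * (v / rho j0) ^ (NN j0 - 1) * (1 / rho j0)))) := by
    have h3 := hasDerivAt_iff_tendsto_slope.1 (PP_hasDerivAt j0 v)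
    refine h3.congr (fun u => ?_)
    rw [slope_def_field, hj0, sub_zero]
  have hlim : Tendsto (fun u => (u - v) * ((PP j0 u / (u - v))⁻¹ * (q u)⁻¹)) (𝓝[≠] v)
      (𝓝 (0 * ((-(NN j0 * (v / rho j0) ^ (NN j0 - 1) * (1 / rho j0)) : ℂ)⁻¹ * (q v)⁻¹))) := by
    refine Tendsto.mul ?_ ((hsl.inv₀ (PP_deriv_ne hj0)).mul (hqc.inv₀ hq0))
    have : Tendsto (fun u : ℂ => u - v) (𝓝 v) (𝓝 (v - v)) :=
      (continuous_id.sub continuous_const).continuousAt.tendsto
    rw [sub_self] at this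
    exact this.mono_left nhdsWithin_le_nhds
  rw [zero_mul] at hlim
  have hlim2 : Tendsto (fun u => C ^ 2 * ‖(u - v) * ((PP j0 u / (u - v))⁻¹ * (q u)⁻¹)‖) (𝓝[≠] v)
      (𝓝 0) := by
    have := (hlim.norm).const_mul (C ^ 2)
    simpa using this
  -- squeeze the square
  have hsq : Tendsto (fun u => ‖phi F u * (u - v)‖ ^ 2) (𝓝[≠] v) (𝓝 0) := by
    refine squeeze_zero' (Eventually.of_forall fun u => by positivity) ?_ hlim2
    have e1 : ∀ᶠ u in 𝓝 v, ‖u‖ < rho (k + 1) :=
      continuous_norm.continuousAt.eventually (gt_mem_nhds h1)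
    filter_upwards [reg_punctured (h1.trans (rho_lt_one _)), e1.filter_mono nhdsWithin_le_nhds,
      self_mem_nhdsWithin] with u hu hu2 hu3
    have hne : u - v ≠ 0 := sub_ne_zero.2 hu3
    have hxp := can_piece hu.1 hu.2 hu2
    have hCx := hC _ hxp
    rw [← phi_eq F hu.1 hu.2] at hCx
    have hprod : (∏ j ∈ Finset.range (k + 1), ‖(can u hu.1 hu.2).w j‖) ^ 2
        = ‖PP j0 u‖ * ‖q u‖ := by
      rw [← Finset.prod_pow, hq, norm_prod,
        Finset.mul_prod_erase (Finset.range (k + 1)) (fun j => ‖PP j u‖)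
          (Finset.mem_range.2 (by omega))]
      apply Finset.prod_congr rfl
      intro j _
      rw [← norm_pow, w_sq]
      rfl
    have hpos : 0 ≤ ‖phi F u‖ * ∏ j ∈ Finset.range (k + 1), ‖(can u hu.1 hu.2).w j‖ := by
      apply mul_nonneg (norm_nonneg _)
      exact Finset.prod_nonneg fun j _ => norm_nonneg _
    have h5 : ‖phi F u‖ ^ 2 * (‖PP j0 u‖ * ‖q u‖) ≤ C ^ 2 := by
      rw [← hprod, ← mul_pow]
      exact pow_le_pow_left₀ hpos hCx 2
    have hP : 0 < ‖PP j0 u‖ := norm_pos_iff.2 (hu.2 j0)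
    have hQ : 0 < ‖q u‖ := by
      rw [norm_pos_iff, hq]
      exact Finset.prod_ne_zero_iff.2 fun j _ => hu.2 j
    have hU : 0 < ‖u - v‖ := norm_pos_iff.2 hne
    rw [norm_mul, norm_mul, norm_mul, norm_inv, norm_inv, norm_div, mul_pow]
    have h6 : C ^ 2 * (‖u - v‖ * ((‖PP j0 u‖ / ‖u - v‖)⁻¹ * ‖q u‖⁻¹)) =
        C ^ 2 * ‖u - v‖ ^ 2 / (‖PP j0 u‖ * ‖q u‖) := by
      field_simp
    rw [h6, le_div_iff₀ (mul_pos hP hQ)]
    nlinarith [sq_nonneg ‖u - v‖]
  have h7 : Tendsto (fun u => ‖phi F u * (u - v)‖) (𝓝[≠] v) (𝓝 0) := by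
    have := hsq.sqrt
    rw [Real.sqrt_zero] at this
    exact this.congr (fun u => Real.sqrt_sq (norm_nonneg _))
  exact tendsto_zero_iff_norm_tendsto_zero.2 h7

open Classical in
noncomputable def phit (F : Pt → ℂ) (v : ℂ) : ℂ :=
  if Reg v then phi F v else limUnder (𝓝[≠] v) (phi F)

lemma phit_diff (hF : Hol F) (hinv : ∀ j ≤ k, ∀ x, F (flip j x) = F x)
    (C : ℝ) (hC : ∀ x ∈ Piece k, ‖F x‖ * ∏ j ∈ Finset.range (k + 1), ‖x.w j‖ ≤ C)
    {v : ℂ} (h1 : ‖v‖ < rho (k + 1)) : DifferentiableAt ℂ (phit F) v := by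
  have h1' : ‖v‖ < 1 := h1.trans (rho_lt_one _)
  by_cases h2 : Reg v
  · refine (phi_diff hF hinv h1 h2).congr_of_eventuallyEq ?_
    filter_upwards [reg_open h1' h2] with u hu
    simp only [phit, if_pos hu.2]
  · -- removable singularity
    have e1 : ∀ᶠ u in 𝓝 v, ‖u‖ < rho (k + 1) :=
      continuous_norm.continuousAt.eventually (gt_mem_nhds h1)
    have e2 : ∀ᶠ u in 𝓝 v, u ≠ v → ‖u‖ < 1 ∧ Reg u := eventually_nhdsWithin_iff.1 (reg_punctured h1')
    set s : Set ℂ := {u | ‖u‖ < rho (k + 1) ∧ (u ≠ v → ‖u‖ < 1 ∧ Reg u)} with hs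
    have hs' : s ∈ 𝓝 v := e1.and e2
    have hd : DifferentiableOn ℂ (phi F) (s \ {v}) := by
      intro u hu
      exact (phi_diff hF hinv hu.1.1 (hu.1.2 hu.2).2).differentiableWithinAt
    have ho : (fun z => phi F z - phi F v) =o[𝓝[≠] v] fun z => (z - v)⁻¹ := by
      rw [phi_not F h2]
      rw [Asymptotics.isLittleO_iff_tendsto']
      · simpa [div_inv_eq_mul] using phi_littleO C hC h1 h2
      · filter_upwards [self_mem_nhdsWithin] with u hu hu0
        exact absurd (inv_eq_zero.1 hu0) (sub_ne_zero.2 hu)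
    have h3 := Complex.differentiableOn_update_limUnder_of_isLittleO hs' hd ho
    have h4 := h3.differentiableAt hs'
    refine h4.congr_of_eventuallyEq ?_
    filter_upwards [e2] with u hu
    by_cases huv : u = v
    · subst huv
      simp [phit, h2]
    · simp [phit, (hu huv).2, Function.update_of_ne huv]

/-- base case of the estimate -/
lemma base_estimate (hF : Hol F) (hinv : ∀ j ≤ k, ∀ x, F (flip j x) = F x)
    (C : ℝ) (hC : ∀ x ∈ Piece k, ‖F x‖ * ∏ j ∈ Finset.range (k + 1), ‖x.w j‖ ≤ C)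
    (B : ℝ) (hB : ∀ x ∈ Piece k, ‖x.z‖ = rr k → ‖F x‖ ≤ B)
    {x : Pt} (hx : x ∈ Piece k) (hxr : ‖x.z‖ ≤ rr k) : ‖F x‖ ≤ B := by
  have hrr : rr k < rho (k + 1) := rr_lt_rho (Nat.lt_succ_self k)
  have hd : DiffContOnCl ℂ (phit F) (Metric.ball 0 (rr k)) := by
    apply DifferentiableOn.diffContOnCl
    rw [closure_ball _ (rr_pos k).ne']
    intro u hu
    rw [Metric.mem_closedBall, dist_zero_right] at hu
    exact (phit_diff hF hinv C hC (hu.trans_lt hrr)).differentiableWithinAt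
  have hbd : ∀ u ∈ frontier (Metric.ball (0:ℂ) (rr k)), ‖phit F u‖ ≤ B := by
    intro u hu
    rw [frontier_ball _ (rr_pos k).ne', mem_sphere_zero_iff_norm] at hu
    have hreg : Reg u := by
      intro j
      by_cases hj : j ≤ k
      · have := PP_big hj hu
        intro h0
        rw [h0, norm_zero] at this
        have h16 : (0:ℝ) < 16 ^ j := by positivity
        linarith
      · intro h0
        have := PP_ne_zero_of_ne h0
        rw [hu] at this
        have h3 := rr_lt_rho (show k < j by omega)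
        linarith
    have hu1 : ‖u‖ < 1 := by rw [hu]; exact rr_lt_one k
    simp only [phit, if_pos hreg]
    rw [phi_eq F hu1 hreg]
    apply hB _ (can_piece _ _ (by rw [hu]; exact hrr))
    exact hu
  have hz : x.z ∈ closure (Metric.ball (0:ℂ) (rr k)) := by
    rw [closure_ball _ (rr_pos k).ne', Metric.mem_closedBall, dist_zero_right]
    exact hxr
  have h3 := Complex.norm_le_of_forall_mem_frontier_norm_le Metric.isBounded_ball hd hbd hz
  have h4 : phit F x.z = F x := by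
    have hreg : Reg x.z := x.P_ne
    simp only [phit, if_pos hreg]
    exact phi_point hinv hx
  rwa [h4] at h3

end Pt

end Pool.Agent.Helper503.Surf
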