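import Mathlib
import Pool.Agent.Helper503.SurfE

open Set Filter Topology
open scoped Manifold

namespace Pool.Agent.Helper503.Surf

namespace Pt

lemma w_ge {k j : ℕ} (hj : j ≤ k) {x : Pt} (hx : ‖x.z‖ = rr k) : (4 : ℝ) ^ j ≤ ‖x.w j‖ := by
  have h1 := PP_big hj hx
  rw [← x.w_sq, norm_pow] at h1
  have h2 : ((4 : ℝ) ^ j) ^ 2 ≤ ‖x.w j‖ ^ 2 := by
    have : ((4 : ℝ) ^ j) ^ 2 = 16 ^ j := by
      rw [← pow_mul, mul_comm, pow_mul]; norm_num
    rw [this]; exact h1
  exact (pow_le_pow_iff_left₀ (by positivity) (norm_nonneg _) two_ne_zero).1 h2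

lemma w_bdd (j : ℕ) : ∃ M : ℝ, 0 ≤ M ∧ ∀ x : Pt, ‖x.w j‖ ≤ M := by
  obtain ⟨M, hM0, hM⟩ := PP_bdd j
  refine ⟨1 + M, by linarith, fun x => ?_⟩
  have h1 := hM x.z x.z_lt
  rw [← x.w_sq, norm_pow] at h1
  nlinarith [sq_nonneg (‖x.w j‖ - 1), norm_nonneg (x.w j)]

lemma Hol.add {f g : Pt → ℂ} (hf : Hol f) (hg : Hol g) : Hol (fun x => f x + g x) :=
  fun x => (hf x).add (hg x)
lemma Hol.sub {f g : Pt → ℂ} (hf : Hol f) (hg : Hol g) : Hol (fun x => f x - g x) :=
  fun x => (hf x).sub (hg x)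
lemma Hol.mul {f g : Pt → ℂ} (hf : Hol f) (hg : Hol g) : Hol (fun x => f x * g x) :=
  fun x => (hf x).mul (hg x)
lemma Hol.const (c : ℂ) : Hol (fun _ => c) := fun _ => differentiableAt_const c
lemma Hol.div_w {f : Pt → ℂ} (hf : Hol f) (j : ℕ) : Hol (fun x => f x / x.w j) := by
  intro x
  refine DifferentiableAt.div (hf x) (hol_w j x) ?_
  rw [sec_self]
  exact x.w_ne j

theorem estimate (k : ℕ) (T : Finset ℕ) : (∀ j ∈ T, j ≤ k) → ∀ F : Pt → ℂ, Hol F →
    (∀ j ≤ k, j ∉ T → ∀ x, F (flip j x) = F x) →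
    (∃ C, ∀ x ∈ Piece k, ‖F x‖ * ∏ j ∈ Finset.range (k + 1) \ T, ‖x.w j‖ ≤ C) →
    ∀ B, (∀ x ∈ Piece k, ‖x.z‖ = rr k → ‖F x‖ ≤ B) →
    ∀ x ∈ Piece k, ‖x.z‖ ≤ rr k → ‖F x‖ ≤ B * ∏ j ∈ T, (1 + ‖x.w j‖ / 4 ^ j) := by
  induction T using Finset.induction_on with
  | empty =>
    intro _ F hF hinv hC B hB x hx hxr
    obtain ⟨C, hC⟩ := hC
    rw [Finset.prod_empty, mul_one]
    exact base_estimate hF (fun j hj x => hinv j hj (Finset.notMem_empty _) x) C
      (by simpa using hC) B hB hx hxr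
  | insert j T hjT ih =>
    intro hT F hF hinv hC B hB x hx hxr
    obtain ⟨C, hC⟩ := hC
    have hjk : j ≤ k := hT j (Finset.mem_insert_self _ _)
    have hT' : ∀ i ∈ T, i ≤ k := fun i hi => hT i (Finset.mem_insert_of_mem hi)
    obtain ⟨M, hM0, hM⟩ := w_bdd j
    set Fp : Pt → ℂ := fun x => (F x + F (flip j x)) * (1 / 2) with hFp
    set Fm : Pt → ℂ := fun x => (F x - F (flip j x)) * (1 / 2) / x.w j with hFm
    have hFpH : Hol Fp := (hF.add (hF.flip j)).mul (Hol.const _)
    have hFmH : Hol Fm := ((hF.sub (hF.flip j)).mul (Hol.const _)).div_w j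
    have hsplit : Finset.range (k + 1) \ T = insert j (Finset.range (k + 1) \ insert j T) := by
      ext i
      simp only [Finset.mem_sdiff, Finset.mem_range, Finset.mem_insert, not_or]
      constructor
      · rintro ⟨h1, h2⟩
        by_cases h : i = j
        · exact Or.inl h
        · exact Or.inr ⟨h1, h, h2⟩
      · rintro (h | ⟨h1, h2, h3⟩)
        · subst h; exact ⟨by omega, hjT⟩
        · exact ⟨h1, h3⟩
    have hprod : ∀ x : Pt, ∏ i ∈ Finset.range (k + 1) \ T, ‖x.w i‖ =
        ‖x.w j‖ * ∏ i ∈ Finset.range (k + 1) \ insert j T, ‖x.w i‖ := by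
      intro x
      rw [hsplit, Finset.prod_insert]
      simp
    have hflipprod : ∀ x : Pt, ∏ i ∈ Finset.range (k + 1) \ insert j T, ‖(flip j x).w i‖ =
        ∏ i ∈ Finset.range (k + 1) \ insert j T, ‖x.w i‖ :=
      fun x => Finset.prod_congr rfl fun i _ => norm_flip_w j i x
    have hsum : ∀ x ∈ Piece k, (‖F x‖ + ‖F (flip j x)‖) *
        ∏ i ∈ Finset.range (k + 1) \ insert j T, ‖x.w i‖ ≤ 2 * C := by
      intro x hx
      have h1 := hC x hx
      have h2 := hC _ (flip_piece hjk hx)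
      rw [hflipprod] at h2
      rw [add_mul]; linarith
    have hpnn : ∀ x : Pt, 0 ≤ ∏ i ∈ Finset.range (k + 1) \ insert j T, ‖x.w i‖ :=
      fun x => Finset.prod_nonneg fun i _ => norm_nonneg _
    -- invariance
    have hinvFp : ∀ i ≤ k, i ∉ T → ∀ x, Fp (flip i x) = Fp x := by
      intro i hi hiT x
      by_cases h : i = j
      · subst h
        simp only [hFp, flip_flip]
        ring
      · have hi' : i ∉ insert j T := by
          rw [Finset.mem_insert]; push Not; exact ⟨h, hiT⟩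
        simp only [hFp]
        rw [hinv i hi hi', flip_comm j i, hinv i hi hi']
    have hinvFm : ∀ i ≤ k, i ∉ T → ∀ x, Fm (flip i x) = Fm x := by
      intro i hi hiT x
      by_cases h : i = j
      · subst h
        simp only [hFm, flip_flip, flip_w_self]
        have := x.w_ne i
        field_simp
        ring
      · have hi' : i ∉ insert j T := by
          rw [Finset.mem_insert]; push Not; exact ⟨h, hiT⟩
        simp only [hFm]
        rw [hinv i hi hi', flip_comm j i, hinv i hi hi', flip_w_ne (Ne.symm h)]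
    -- norms
    have hnp : ∀ x, ‖Fp x‖ ≤ (‖F x‖ + ‖F (flip j x)‖) / 2 := by
      intro x
      simp only [hFp, norm_mul]
      have := norm_add_le (F x) (F (flip j x))
      norm_num
      linarith
    have hnm : ∀ x, ‖Fm x‖ ≤ (‖F x‖ + ‖F (flip j x)‖) / 2 / ‖x.w j‖ := by
      intro x
      simp only [hFm, norm_mul, norm_div]
      have := norm_sub_le (F x) (F (flip j x))
      have hw : 0 < ‖x.w j‖ := norm_pos_iff.2 (x.w_ne j)
      gcongr
      norm_num
      linarith
    have h1 := ih hT' Fp hFpH hinvFp ⟨C * M, ?_⟩ B ?_ x hx hxr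
    have h2 := ih hT' Fm hFmH hinvFm ⟨C, ?_⟩ (B / 4 ^ j) ?_ x hx hxr
    · have h3 : F x = Fp x + x.w j * Fm x := by
        simp only [hFp, hFm]
        rw [mul_div_cancel₀ _ (x.w_ne j)]
        ring
      have h4 : ‖F x‖ ≤ ‖Fp x‖ + ‖x.w j‖ * ‖Fm x‖ := by
        rw [h3, ← norm_mul]; exact norm_add_le _ _
      rw [Finset.prod_insert hjT]
      set Q := ∏ i ∈ T, (1 + ‖x.w i‖ / 4 ^ i) with hQ
      calc ‖F x‖ ≤ ‖Fp x‖ + ‖x.w j‖ * ‖Fm x‖ := h4
        _ ≤ B * Q + ‖x.w j‖ * (B / 4 ^ j * Q) := by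
          gcongr
        _ = B * ((1 + ‖x.w j‖ / 4 ^ j) * Q) := by ring
    · intro x hx
      rw [hprod]
      have hw : 0 < ‖x.w j‖ := norm_pos_iff.2 (x.w_ne j)
      calc ‖Fm x‖ * (‖x.w j‖ * ∏ i ∈ Finset.range (k + 1) \ insert j T, ‖x.w i‖)
          ≤ ((‖F x‖ + ‖F (flip j x)‖) / 2 / ‖x.w j‖) *
            (‖x.w j‖ * ∏ i ∈ Finset.range (k + 1) \ insert j T, ‖x.w i‖) := by
            have := hpnn x
            gcongr
            exact hnm x
        _ = ((‖F x‖ + ‖F (flip j x)‖) * ∏ i ∈ Finset.range (k + 1) \ insert j T, ‖x.w i‖) / 2 := by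
            field_simp
        _ ≤ C := by have := hsum x hx; linarith
    · intro x hx hxr
      have h5 := hB x hx hxr
      have h6 := hB (flip j x) (flip_piece hjk hx) hxr
      have h7 := w_ge hjk hxr
      have h8 : (0:ℝ) < 4 ^ j := by positivity
      have hB0 : 0 ≤ B := (norm_nonneg _).trans h5
      calc ‖Fm x‖ ≤ (‖F x‖ + ‖F (flip j x)‖) / 2 / ‖x.w j‖ := hnm x
        _ ≤ B / 4 ^ j := by
          gcongr
          linarith
    · intro x hx
      rw [hprod]
      calc ‖Fp x‖ * (‖x.w j‖ * ∏ i ∈ Finset.range (k + 1) \ insert j T, ‖x.w i‖)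
          ≤ ((‖F x‖ + ‖F (flip j x)‖) / 2) *
            (‖x.w j‖ * ∏ i ∈ Finset.range (k + 1) \ insert j T, ‖x.w i‖) := by
            have := hpnn x
            gcongr
            exact hnp x
        _ = ((‖F x‖ + ‖F (flip j x)‖) * ∏ i ∈ Finset.range (k + 1) \ insert j T, ‖x.w i‖) / 2
            * ‖x.w j‖ := by ring
        _ ≤ C * M := by
            have h5 := hsum x hx
            have h6 := hM x
            have h7 : 0 ≤ (‖F x‖ + ‖F (flip j x)‖) *
              ∏ i ∈ Finset.range (k + 1) \ insert j T, ‖x.w i‖ := by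
              have := hpnn x
              positivity
            have h8 : 0 ≤ C := by linarith
            gcongr
            linarith
    · intro x hx hxr
      have h5 := hB x hx hxr
      have h6 := hB (flip j x) (flip_piece hjk hx) hxr
      have := hnp x
      linarith

/-- the base point -/
noncomputable def base : Pt where
  z := 0
  w := fun _ => 1
  z_lt := by simp
  w_sq := by intro j; simp [PP_zero]
  w_ne := by intro j; simp
  w_pos := Eventually.of_forall fun j => by simp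

lemma base_piece (k : ℕ) : base ∈ Piece k := by
  refine ⟨?_, fun j _ => ?_⟩
  · simpa [base] using rho_pos (k + 1)
  · simp [base]

lemma flip_close {f : Pt → ℂ} (hf : Hol f) {M : ℝ} (hM : ∀ x, ‖f x‖ ≤ M) (k : ℕ) :
    ‖f base - f (flip k base)‖ ≤ 2 * M * (1 / 2) ^ k := by
  have hM0 : 0 ≤ M := (norm_nonneg _).trans (hM base)
  set F : Pt → ℂ := fun x => (f x - f (flip k x)) / x.w k with hFd
  have hF : Hol F := (hf.sub (hf.flip k)).div_w k
  have hn : ∀ x, ‖f x - f (flip k x)‖ ≤ 2 * M := by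
    intro x
    have := norm_sub_le (f x) (f (flip k x))
    have h1 := hM x
    have h2 := hM (flip k x)
    linarith
  have h1 := estimate k (Finset.range k) (fun j hj => (Finset.mem_range.1 hj).le) F hF ?_ ?_
    (2 * M / 4 ^ k) ?_ base (base_piece k) (by simpa [base] using (rr_pos k).le)
  · have h2 : F base = f base - f (flip k base) := by simp [hFd, base]
    rw [h2] at h1
    refine h1.trans ?_
    have h3 : ∏ j ∈ Finset.range k, (1 + ‖base.w j‖ / 4 ^ j) ≤ 2 ^ k := by
      calc ∏ j ∈ Finset.range k, (1 + ‖base.w j‖ / 4 ^ j) ≤ ∏ j ∈ Finset.range k, (2:ℝ) := by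
            apply Finset.prod_le_prod
            · intro j _; positivity
            · intro j _
              have h4 : ‖base.w j‖ = 1 := by simp [base]
              rw [h4]
              have h5 : (1:ℝ) / 4 ^ j ≤ 1 := by
                rw [div_le_one (by positivity)]
                exact one_le_pow₀ (by norm_num)
              linarith
        _ = 2 ^ k := by simp
    calc 2 * M / 4 ^ k * ∏ j ∈ Finset.range k, (1 + ‖base.w j‖ / 4 ^ j)
        ≤ 2 * M / 4 ^ k * 2 ^ k := by gcongr
      _ = 2 * M * (1 / 2) ^ k := by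
        have : (4:ℝ) ^ k = 2 ^ k * 2 ^ k := by rw [← mul_pow]; norm_num
        rw [this, one_div, inv_pow]
        field_simp
  · intro j hj hjk x
    have : j = k := by
      rw [Finset.mem_range] at hjk; omega
    subst this
    simp only [hFd, flip_flip, flip_w_self]
    have := x.w_ne j
    field_simp
    ring
  · refine ⟨2 * M, fun x _ => ?_⟩
    have h2 : Finset.range (k + 1) \ Finset.range k = {k} := by
      ext i; simp only [Finset.mem_sdiff, Finset.mem_range, Finset.mem_singleton]; omega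
    rw [h2, Finset.prod_singleton]
    have hw : 0 < ‖x.w k‖ := norm_pos_iff.2 (x.w_ne k)
    simp only [hFd, norm_div]
    rw [div_mul_cancel₀ _ hw.ne']
    exact hn x
  · intro x _ hxr
    simp only [hFd, norm_div]
    have h7 := w_ge le_rfl hxr
    have h8 : (0:ℝ) < 4 ^ k := by positivity
    have h9 := hn x
    gcongr

theorem flip_tendsto {f : Pt → ℂ} (hf : Hol f) (hb : ∃ M : ℝ, ∀ x, ‖f x‖ ≤ M) :
    Tendsto (fun k => f (flip k base)) atTop (𝓝 (f base)) := by
  obtain ⟨M, hM⟩ := hb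
  rw [tendsto_iff_norm_sub_tendsto_zero]
  have h1 : Tendsto (fun k : ℕ => 2 * M * (1 / 2 : ℝ) ^ k) atTop (𝓝 0) := by
    have := (tendsto_pow_atTop_nhds_zero_of_lt_one (r := (1 / 2 : ℝ)) (by norm_num)
      (by norm_num)).const_mul (2 * M)
    simpa using this
  refine squeeze_zero (fun k => norm_nonneg _) (fun k => ?_) h1
  rw [norm_sub_rev]
  exact flip_close hf hM k

/-- the points `flip k base` do not converge to `base` in the surface -/
lemma flip_not_tendsto (g : ℕ → ℕ) :
    ¬ Tendsto (fun k => flip (g k) base) atTop (𝓝 base) := by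
  intro h
  have h1 := h.eventually (ev_close base one_pos)
  obtain ⟨k, hk⟩ := h1.exists
  have := hk (g k)
  rw [flip_w_self] at this
  simp [base] at this
  norm_num at this

end Pt

end Pool.Agent.Helper503.Surf
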