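import Mathlib
import Pool.Agent.Helper503.SurfF

open Set Filter Topology
open scoped Manifold

namespace Pool.Agent.Helper503.Surf

namespace Pt

instance : LocallyConnectedSpace Pt := ChartedSpace.locallyConnectedSpace ℂ Pt

/-- the connected Riemann surface: the component of the base point -/
def R : TopologicalSpace.Opens Pt := ⟨connectedComponent base, isOpen_connectedComponent⟩

lemma base_mem : base ∈ R := mem_connectedComponent

instance : ConnectedSpace R := by
  apply isConnected_iff_connectedSpace.1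
  exact isConnected_connectedComponent

open Classical in
noncomputable def extendZero (f : R → ℂ) (x : Pt) : ℂ := if h : x ∈ R then f ⟨x, h⟩ else 0

lemma extendZero_mem (f : R → ℂ) {x : Pt} (h : x ∈ R) : extendZero f x = f ⟨x, h⟩ := by
  unfold extendZero; rw [dif_pos h]

lemma extendZero_not (f : R → ℂ) {x : Pt} (h : x ∉ R) : extendZero f x = 0 := by
  unfold extendZero; rw [dif_neg h]

lemma mdiff_subtype {f : Pt → ℂ} {x : R} :
    MDifferentiableAt 𝓘(ℂ) 𝓘(ℂ) (fun y : R => f y) x ↔ MDifferentiableAt 𝓘(ℂ) 𝓘(ℂ) f x.1 :=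
  (differentiableWithinAt_localInvariantProp.liftPropAt_iff_comp_subtype_val _ _).symm

lemma extendZero_hol {f : R → ℂ} (hf : MDifferentiable 𝓘(ℂ) 𝓘(ℂ) f) : Hol (extendZero f) := by
  rw [← hol_iff]
  intro x
  by_cases h : x ∈ R
  · have h1 : MDifferentiableAt 𝓘(ℂ) 𝓘(ℂ) (fun y : R => extendZero f y) (⟨x, h⟩ : R) := by
      have : (fun y : R => extendZero f y) = f := by
        funext y; exact extendZero_mem f y.2
      rw [this]
      exact hf _
    exact mdiff_subtype.1 h1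
  · have h2 : extendZero f =ᶠ[𝓝 x] fun _ => (0:ℂ) := by
      have : (R : Set Pt)ᶜ ∈ 𝓝 x := by
        apply IsOpen.mem_nhds _ h
        exact isClosed_connectedComponent.isOpen_compl
      filter_upwards [this] with y hy using extendZero_not f hy
    exact (mdifferentiableAt_const).congr_of_eventuallyEq h2

lemma extendZero_bdd {f : R → ℂ} (hf : ∃ C : ℝ, ∀ z, ‖f z‖ ≤ C) :
    ∃ M : ℝ, ∀ x, ‖extendZero f x‖ ≤ M := by
  obtain ⟨C, hC⟩ := hf
  refine ⟨max C 0, fun x => ?_⟩
  by_cases h : x ∈ R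
  · rw [extendZero_mem f h]; exact (hC _).trans (le_max_left _ _)
  · rw [extendZero_not f h, norm_zero]; exact le_max_right _ _

lemma ev_flip_mem : ∀ᶠ k in atTop, flip k base ∈ R := by
  have h1 : MDifferentiable 𝓘(ℂ) 𝓘(ℂ) (fun _ : R => (1:ℂ)) := mdifferentiable_const
  have h2 := flip_tendsto (extendZero_hol h1) (extendZero_bdd ⟨1, fun _ => by simp⟩)
  rw [extendZero_mem _ base_mem] at h2
  have h3 := h2.eventually_ne (one_ne_zero)
  filter_upwards [h3] with k hk
  by_contra h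
  exact hk (extendZero_not _ h)

theorem main :
    ¬ (∀ (R : Type) [TopologicalSpace R] [T2Space R] [ConnectedSpace R] [ChartedSpace ℂ R]
      [IsManifold 𝓘(ℂ) ⊤ R],
      (∀ x y : R, x ≠ y → ∃ f : R → ℂ, MDifferentiable 𝓘(ℂ) 𝓘(ℂ) f ∧
          (∃ C : ℝ, ∀ z, ‖f z‖ ≤ C) ∧ f x ≠ f y) →
      Topology.IsEmbedding
          (fun (x : R) (f : {f : R → ℂ // MDifferentiable 𝓘(ℂ) 𝓘(ℂ) f ∧ ∃ C : ℝ, ∀ z, ‖f z‖ ≤ C}) => f.1 x)) := by
  intro H
  have hsep : ∀ x y : R, x ≠ y → ∃ f : R → ℂ, MDifferentiable 𝓘(ℂ) 𝓘(ℂ) f ∧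
      (∃ C : ℝ, ∀ z, ‖f z‖ ≤ C) ∧ f x ≠ f y := by
    intro x y hxy
    have hval : MDifferentiable 𝓘(ℂ) 𝓘(ℂ) (fun y : R => (y : Pt).z) := by
      intro y
      exact mdiff_subtype.2 ((hol_iff _).2 hol_z y.1)
    have hw : ∀ j, MDifferentiable 𝓘(ℂ) 𝓘(ℂ) (fun y : R => (y : Pt).w j) := by
      intro j y
      exact (mdiff_subtype (f := fun p : Pt => p.w j)).2 ((hol_iff _).2 (hol_w j) y.1)
    by_cases hz : (x : Pt).z = (y : Pt).z
    · have : ∃ j, (x : Pt).w j ≠ (y : Pt).w j := by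
        by_contra hcon
        push Not at hcon
        exact hxy (Subtype.ext (ext' hz hcon))
      obtain ⟨j, hj⟩ := this
      obtain ⟨M, -, hM⟩ := w_bdd j
      exact ⟨_, hw j, ⟨M, fun p => hM p.1⟩, hj⟩
    · exact ⟨_, hval, ⟨1, fun p => p.1.z_lt.le⟩, hz⟩
  have hemb := H R hsep
  obtain ⟨K, hK⟩ := eventually_atTop.1 ev_flip_mem
  set y : ℕ → R := fun k => ⟨flip (k + K) base, hK _ (by omega)⟩ with hy
  have h1 : Tendsto y atTop (𝓝 (⟨base, base_mem⟩ : R)) := by
    rw [hemb.tendsto_nhds_iff]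
    rw [tendsto_pi_nhds]
    rintro ⟨f, hf, hfb⟩
    have h2 := (flip_tendsto (extendZero_hol hf) (extendZero_bdd hfb)).comp (tendsto_add_atTop_nat K)
    rw [extendZero_mem _ base_mem] at h2
    refine h2.congr (fun k => ?_)
    simp only [Function.comp]
    rw [extendZero_mem _ (hK _ (by omega))]
  have h3 : Tendsto (fun k => ((y k : R) : Pt)) atTop (𝓝 base) :=
    (continuous_subtype_val.tendsto _).comp h1
  exact flip_not_tendsto _ h3

end Pt

end Pool.Agent.Helper503.Surf
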