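import Mathlib
import Pool.Agent.Helper503.SurfG

open Set Filter Topology
open scoped Manifold

namespace Pool.Agent.Helper503.Surf

namespace Pt

lemma Hol.differentiableAt_sec {f : Pt → ℂ} (hf : Hol f) (x : Pt) {v : ℂ}
    (hv : ‖v - x.z‖ < eps x) : DifferentiableAt ℂ (fun v => f (sec x v)) v := by
  have hball : Metric.ball x.z (eps x) ∈ 𝓝 v := by
    apply Metric.isOpen_ball.mem_nhds
    rwa [Metric.mem_ball, dist_eq_norm]
  have h1 : ∀ᶠ v' in 𝓝 v, sec (sec x v) v' = sec x v' := by
    have hc : ContinuousAt (sec x) v := (sec_continuousOn x).continuousAt hball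
    have h3 : ∀ᶠ v' in 𝓝 v, sec x v' ∈ nb (sec x v) :=
      hc.preimage_mem_nhds ((isOpen_nb (sec x v)).mem_nhds (mem_nb_self _))
    filter_upwards [h3, hball] with v' h1 h2
    have h4 := sec_of_mem h1
    rw [Metric.mem_ball, dist_eq_norm] at h2
    rwa [sec_z x h2] at h4
  have h2 := hf (sec x v)
  rw [sec_z x hv] at h2
  exact h2.congr_of_eventuallyEq (h1.mono fun v' h => by simp only [h])

/-! ### sheets over the small disc -/

lemma PP_re_pos' {v : ℂ} (hv : ‖v‖ < rho 0) (j : ℕ) : 0 < (PP j v).re :=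
  PP_re_pos (hv.trans_le (rho_strictMono.monotone (Nat.zero_le j)))

lemma PP_ne' {v : ℂ} (hv : ‖v‖ < rho 0) (j : ℕ) : PP j v ≠ 0 := by
  intro h
  have := PP_re_pos' hv j
  rw [h] at this
  simp at this

lemma PP_slit' {v : ℂ} (hv : ‖v‖ < rho 0) (j : ℕ) : PP j v ∈ Complex.slitPlane :=
  Or.inl (PP_re_pos' hv j)

/-- the sign of the `j`-th coordinate -/
noncomputable def sgn (x : Pt) (j : ℕ) : ℂ := x.w j / sq (PP j x.z)

lemma sgn_sq (x : Pt) (j : ℕ) : sgn x j ^ 2 = 1 := by
  unfold sgn
  rw [div_pow, x.w_sq, sq_sq (x.P_ne j), div_self (x.P_ne j)]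

lemma sgn_ne (x : Pt) (j : ℕ) : sgn x j ≠ 0 := by
  intro h
  have := sgn_sq x j
  rw [h] at this
  norm_num at this

lemma sgn_ev (x : Pt) : ∀ᶠ j in atTop, sgn x j = 1 := by
  filter_upwards [x.w_pos, ev_rho x.z_lt] with j h1 h2
  have : x.w j = sq (PP j x.z) := by
    apply root_unique _ h1 (sq_re_pos (Or.inl (PP_re_pos h2)))
    rw [x.w_sq, sq_sq (x.P_ne j)]
  unfold sgn
  rw [this, div_self (sq_ne_zero _)]

open Classical in
/-- the sheet through `x` over the disc of radius `rho 0` -/
noncomputable def sheet (x : Pt) (v : ℂ) : Pt :=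
  if h : ‖v‖ < rho 0 then
    { z := v
      w := fun j => sgn x j * sq (PP j v)
      z_lt := h.trans (rho_lt_one 0)
      w_sq := fun j => by rw [mul_pow, sgn_sq, one_mul, sq_sq (PP_ne' h j)]
      w_ne := fun j => mul_ne_zero (sgn_ne x j) (sq_ne_zero _)
      w_pos := by
        filter_upwards [sgn_ev x] with j hj
        rw [hj, one_mul]
        exact sq_re_pos (PP_slit' h j) }
  else x

lemma sheet_z (x : Pt) {v : ℂ} (hv : ‖v‖ < rho 0) : (sheet x v).z = v := by
  unfold sheet; rw [dif_pos hv]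

lemma sheet_w (x : Pt) {v : ℂ} (hv : ‖v‖ < rho 0) (j : ℕ) :
    (sheet x v).w j = sgn x j * sq (PP j v) := by
  unfold sheet; rw [dif_pos hv]

lemma sheet_self {x : Pt} (hx : ‖x.z‖ < rho 0) : sheet x x.z = x := by
  apply ext'
  · exact sheet_z x hx
  · intro j
    rw [sheet_w x hx]
    unfold sgn
    rw [div_mul_cancel₀ _ (sq_ne_zero _)]

lemma sec_sheet (x : Pt) {v v' : ℂ} (hv : ‖v‖ < rho 0) (hv' : ‖v'‖ < rho 0)
    (h : ‖v' - v‖ < eps (sheet x v)) : sec (sheet x v) v' = sheet x v' := by
  have h' : ‖v' - (sheet x v).z‖ < eps (sheet x v) := by rwa [sheet_z x hv]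
  apply ext'
  · rw [sec_z _ h', sheet_z x hv']
  · intro j
    have hs := eps_slit (sheet x v) h' j
    rw [sec_w _ h', sheet_w x hv, sheet_w x hv', sheet_z x hv, mul_assoc]
    rw [sheet_z x hv] at hs
    congr 1
    have hsq : (sq (PP j v) * sq (PP j v' / PP j v)) ^ 2 = PP j v' := by
      rw [mul_pow, sq_sq (PP_ne' hv j), sq_sq (Complex.slitPlane_ne_zero hs),
        mul_div_cancel₀ _ (PP_ne' hv j)]
    apply root_unique
    · rw [hsq, sq_sq (PP_ne' hv' j)]
    · apply sign_lemma (w := sq (PP j v))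
      · rw [sq_sq (PP_ne' hv j)]; exact PP_re_pos' hv j
      · rw [hsq]; exact PP_re_pos' hv' j
      · exact sq_re_pos (PP_slit' hv j)
      · rw [mul_div_cancel_left₀ _ (sq_ne_zero _)]
        exact sq_re_pos hs
    · exact sq_re_pos (PP_slit' hv' j)

lemma ev_small {v : ℂ} (hv : ‖v‖ < rho 0) : ∀ᶠ u in 𝓝 v, ‖u‖ < rho 0 :=
  continuous_norm.continuousAt.eventually (gt_mem_nhds hv)

lemma ev_sec_sheet (x : Pt) {v : ℂ} (hv : ‖v‖ < rho 0) :
    ∀ᶠ v' in 𝓝 v, sec (sheet x v) v' = sheet x v' := by
  have h1 := ev_ball (sheet x v)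
  rw [sheet_z x hv] at h1
  filter_upwards [h1, ev_small hv] with v' h2 h3
  exact sec_sheet x hv h3 h2

lemma Hol.differentiableAt_sheet {f : Pt → ℂ} (hf : Hol f) (x : Pt) {v : ℂ} (hv : ‖v‖ < rho 0) :
    DifferentiableAt ℂ (fun v => f (sheet x v)) v := by
  have h2 := hf (sheet x v)
  rw [sheet_z x hv] at h2
  refine h2.congr_of_eventuallyEq ?_
  filter_upwards [ev_sec_sheet x hv] with v' h
  rw [h]

/-! ### division -/

open Classical in
/-- the quotient, with the limit value at the zeros of the denominator -/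
noncomputable def quo (F H : Pt → ℂ) (x : Pt) : ℂ :=
  if H x = 0 then deriv (fun v => F (sec x v)) x.z / deriv (fun v => H (sec x v)) x.z
  else F x / H x

lemma quo_hol {F H : Pt → ℂ} (hF : Hol F) (hH : Hol H) (h0 : ∀ x, H x = 0 → F x = 0)
    (hd : ∀ x, H x = 0 → deriv (fun v => H (sec x v)) x.z ≠ 0) : Hol (quo F H) := by
  intro x
  have hball : Metric.ball x.z (eps x) ∈ 𝓝 x.z := Metric.ball_mem_nhds _ (eps_pos x)
  have hFs : DifferentiableOn ℂ (fun v => F (sec x v)) (Metric.ball x.z (eps x)) := by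
    intro v hv
    rw [Metric.mem_ball, dist_eq_norm] at hv
    exact (hF.differentiableAt_sec x hv).differentiableWithinAt
  have hHs : DifferentiableOn ℂ (fun v => H (sec x v)) (Metric.ball x.z (eps x)) := by
    intro v hv
    rw [Metric.mem_ball, dist_eq_norm] at hv
    exact (hH.differentiableAt_sec x hv).differentiableWithinAt
  by_cases hx : H x = 0
  · have hd' := hd x hx
    have h1 : DifferentiableAt ℂ (dslope (fun v => F (sec x v)) x.z) x.z :=
      ((Complex.differentiableOn_dslope hball).2 hFs).differentiableAt hball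
    have h2 : DifferentiableAt ℂ (dslope (fun v => H (sec x v)) x.z) x.z :=
      ((Complex.differentiableOn_dslope hball).2 hHs).differentiableAt hball
    have h3 : dslope (fun v => H (sec x v)) x.z x.z ≠ 0 := by
      rw [dslope_same]; exact hd'
    refine (h1.div h2 h3).congr_of_eventuallyEq ?_
    have hda : HasDerivAt (fun v => H (sec x v)) (deriv (fun v => H (sec x v)) x.z) x.z :=
      (hH x).hasDerivAt
    have hev : ∀ᶠ v in 𝓝[≠] x.z, H (sec x v) ≠ 0 := hda.eventually_ne hd'
    rw [eventually_nhdsWithin_iff] at hev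
    filter_upwards [hev, hball] with v hv hvb
    rw [Metric.mem_ball, dist_eq_norm] at hvb
    by_cases hvx : v = x.z
    · subst hvx
      simp only [Pi.div_apply, dslope_same, sec_self]
      unfold quo
      rw [if_pos hx]
    · have hne := hv hvx
      simp only [Pi.div_apply]
      rw [dslope_of_ne _ hvx, dslope_of_ne _ hvx, slope_def_field, slope_def_field, sec_self, hx,
        h0 x hx, sub_zero, sub_zero]
      unfold quo
      rw [if_neg hne]
      have : v - x.z ≠ 0 := sub_ne_zero.2 hvx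
      field_simp
  · have hc : ContinuousAt (fun v => H (sec x v)) x.z := (hH x).continuousAt
    have hne : ∀ᶠ v in 𝓝 x.z, H (sec x v) ≠ 0 := by
      apply hc.eventually_ne
      rw [sec_self]; exact hx
    have h3 : DifferentiableAt ℂ (fun v => F (sec x v) / H (sec x v)) x.z := by
      apply DifferentiableAt.fun_div (hF x) (hH x)
      rw [sec_self]; exact hx
    refine h3.congr_of_eventuallyEq ?_
    filter_upwards [hne] with v hv
    unfold quo
    rw [if_neg hv]

/-- the division lemma -/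
theorem division {F G : Pt → ℂ} (hF : Hol F) (hG : Hol G) {M B δ : ℝ} (hM : ∀ x, ‖F x‖ ≤ M)
    (hB : ∀ x, ‖G x‖ ≤ B) {c e : ℂ} (hδ : 0 < δ) (hc : ‖c‖ + 2 * δ ≤ rho 0)
    (he : ‖e‖ * B ≤ δ / 4) (h0 : ∀ x, x.z + e * G x - c = 0 → F x = 0) :
    Hol (quo F (fun x => x.z + e * G x - c)) ∧
      ∀ x, ‖quo F (fun x => x.z + e * G x - c) x‖ ≤ M / (δ / 4) := by
  set H : Pt → ℂ := fun x => x.z + e * G x - c with hHd
  have hH : Hol H := (hol_z.add ((Hol.const e).mul hG)).sub (Hol.const c)
  have hM0 : 0 ≤ M := (norm_nonneg _).trans (hM base)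
  have hB0 : 0 ≤ B := (norm_nonneg _).trans (hB base)
  have heG : ∀ x, ‖e * G x‖ ≤ δ / 4 := by
    intro x
    rw [norm_mul]
    exact (mul_le_mul_of_nonneg_left (hB x) (norm_nonneg e)).trans he
  have hnear : ∀ {v : ℂ}, ‖v - c‖ < 2 * δ → ‖v‖ < rho 0 := by
    intro v hv
    have : ‖v‖ ≤ ‖c‖ + ‖v - c‖ := by
      have := norm_add_le c (v - c)
      rwa [add_sub_cancel] at this
    linarith
  have hd : ∀ x, H x = 0 → deriv (fun v => H (sec x v)) x.z ≠ 0 := by
    intro x hx
    have h1 : x.z - c = -(e * G x) := by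
      have : x.z + e * G x - c = 0 := hx
      linear_combination this
    have h2 : ‖x.z - c‖ ≤ δ / 4 := by rw [h1, norm_neg]; exact heG x
    have hxr : ‖x.z‖ < rho 0 := hnear (by linarith)
    have hin : ∀ v ∈ Metric.closedBall x.z (δ / 2), ‖v‖ < rho 0 := by
      intro v hv
      rw [Metric.mem_closedBall, dist_eq_norm] at hv
      apply hnear
      have := norm_add_le (v - x.z) (x.z - c)
      rw [sub_add_sub_cancel] at this
      linarith
    have hdc : DiffContOnCl ℂ (fun v => G (sheet x v)) (Metric.ball x.z (δ / 2)) := by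
      apply DifferentiableOn.diffContOnCl
      intro v hv
      rw [closure_ball _ (by positivity)] at hv
      exact (hG.differentiableAt_sheet x (hin v hv)).differentiableWithinAt
    have h3 := Complex.norm_deriv_le_of_forall_mem_sphere_norm_le (C := B) (by positivity) hdc
      (fun z _ => hB _)
    have h4 : deriv (fun v => H (sec x v)) x.z = 1 + e * deriv (fun v => G (sheet x v)) x.z := by
      have h5 : (fun v => H (sec x v)) =ᶠ[𝓝 x.z] fun v => v + e * G (sheet x v) - c := by
        have h6 := ev_sec_sheet x hxr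
        rw [sheet_self hxr] at h6
        filter_upwards [h6, ev_ball x] with v h7 h8
        simp only [hHd]
        rw [sec_z x h8, h7]
      rw [h5.deriv_eq]
      have h9 : DifferentiableAt ℂ (fun v => G (sheet x v)) x.z := hG.differentiableAt_sheet x hxr
      exact (((hasDerivAt_id x.z).add (h9.hasDerivAt.const_mul e)).sub_const c).deriv
    rw [h4]
    intro h5
    have h6 : ‖e * deriv (fun v => G (sheet x v)) x.z‖ = 1 := by
      have : e * deriv (fun v => G (sheet x v)) x.z = -1 := by linear_combination h5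
      rw [this]; simp
    rw [norm_mul] at h6
    have h7 : ‖e‖ * ‖deriv (fun v => G (sheet x v)) x.z‖ ≤ ‖e‖ * (B / (δ / 2)) := by gcongr
    have h8 : ‖e‖ * (B / (δ / 2)) ≤ 1 / 2 := by
      rw [← mul_div_assoc, div_le_iff₀ (by positivity)]
      linarith
    linarith
  have hol := quo_hol hF hH h0 hd
  refine ⟨hol, ?_⟩
  have hfar : ∀ x : Pt, δ / 2 ≤ ‖x.z - c‖ → ‖quo F H x‖ ≤ M / (δ / 4) := by
    intro x hx
    have h1 : δ / 4 ≤ ‖H x‖ := by
      have h2 : ‖x.z - c‖ ≤ ‖H x‖ + ‖e * G x‖ := by
        have h3 : x.z - c = H x - e * G x := by simp only [hHd]; ring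
        rw [h3]
        exact norm_sub_le _ _
      have := heG x
      linarith
    have h2 : H x ≠ 0 := by
      intro h
      rw [h, norm_zero] at h1
      linarith
    unfold quo
    rw [if_neg h2, norm_div]
    exact div_le_div₀ hM0 (hM x) (by positivity) h1
  intro x
  rcases le_or_gt (δ / 2) ‖x.z - c‖ with hx | hx
  · exact hfar x hx
  · have hxr : ‖x.z‖ < rho 0 := hnear (by linarith)
    have hin : ∀ v ∈ Metric.closedBall c (δ / 2), ‖v‖ < rho 0 := by
      intro v hv
      rw [Metric.mem_closedBall, dist_eq_norm] at hv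
      exact hnear (by linarith)
    have hdc : DiffContOnCl ℂ (fun v => quo F H (sheet x v)) (Metric.ball c (δ / 2)) := by
      apply DifferentiableOn.diffContOnCl
      intro v hv
      rw [closure_ball _ (by positivity)] at hv
      exact (hol.differentiableAt_sheet x (hin v hv)).differentiableWithinAt
    have h1 := Complex.norm_le_of_forall_mem_frontier_norm_le (z := x.z) (C := M / (δ / 4))
      Metric.isBounded_ball hdc ?_ ?_
    · rwa [sheet_self hxr] at h1
    · intro v hv
      rw [frontier_ball _ (by positivity), mem_sphere_iff_norm] at hv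
      apply hfar
      have hvr : ‖v‖ < rho 0 := hnear (by linarith)
      rw [sheet_z x hvr, hv]
    · apply subset_closure
      rwa [Metric.mem_ball, dist_eq_norm]

end Pt

end Pool.Agent.Helper503.Surf
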