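import Mathlib
import Pool.Agent.Helper503.SurfH
import Pool.Agent.Helper503.HInf
import Pool.Agent.Helper503.ShG

open Set Filter Topology WeakDual
open scoped Manifold

namespace Pool.Agent.Helper503.Surf

namespace Pt

open Pool.Agent.Helper503.HInf Pool.Agent.Helper503.Shilov

noncomputable abbrev HR := HA R

lemma ext_hol (f : HR) : Hol (extendZero (fun x => f.1 x)) := extendZero_hol f.2

lemma ext_bdd (f : HR) (x : Pt) : ‖extendZero (fun x => f.1 x) x‖ ≤ ‖f.1‖ := by
  by_cases h : x ∈ R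
  · rw [extendZero_mem _ h]; exact f.1.norm_coe_le_norm _
  · rw [extendZero_not _ h, norm_zero]; exact norm_nonneg _

/-- restriction of a bounded holomorphic function -/
noncomputable def res (f : Pt → ℂ) (hf : Hol f) (hb : ∃ C : ℝ, ∀ x, ‖f x‖ ≤ C) : HR :=
  HInf.mk ⟨fun y : R => f y, fun y => mdiff_subtype.2 ((hol_iff f).2 hf y.1),
    hb.imp fun _ h x => h x.1⟩

lemma res_apply (f : Pt → ℂ) (hf : Hol f) (hb : ∃ C : ℝ, ∀ x, ‖f x‖ ≤ C) (x : R) :
    (res f hf hb).1 x = f x := rfl

/-- the coordinate -/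
noncomputable def zA : HR := res Pt.z hol_z ⟨1, fun p => p.z_lt.le⟩

lemma zA_apply (x : R) : zA.1 x = x.1.z := rfl

noncomputable def wA (j : ℕ) : HR := res (fun p => p.w j) (hol_w j) ((w_bdd j).imp fun _ h => h.2)

lemma wA_apply (j : ℕ) (x : R) : (wA j).1 x = x.1.w j := rfl

lemma ev_injective : Function.Injective (ev : R → characterSpace ℂ HR) := by
  intro x y h
  have h1 : ∀ f : HR, f.1 x = f.1 y := by
    intro f
    rw [← ev_apply, ← ev_apply, h]
  apply Subtype.ext
  exact ext' (h1 zA) (fun j => h1 (wA j))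

lemma division_R (f g : HR) {δ : ℝ} {c e : ℂ} (hδ : 0 < δ) (hc : ‖c‖ + 2 * δ ≤ rho 0)
    (he : ‖e‖ * ‖g.1‖ ≤ δ / 4)
    (h0 : ∀ x : R, (zA + e • g).1 x = c → f.1 x = 0) :
    ∃ q : HR, f = (zA + e • g - algebraMap ℂ HR c) * q := by
  have h0' : ∀ x : Pt, x.z + e * extendZero (fun x => g.1 x) x - c = 0 →
      extendZero (fun x => f.1 x) x = 0 := by
    intro x hx
    by_cases h : x ∈ R
    · rw [extendZero_mem _ h] at hx ⊢
      apply h0 ⟨x, h⟩
      show x.z + e * g.1 ⟨x, h⟩ = c
      linear_combination hx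
    · rw [extendZero_not _ h]
  obtain ⟨h1, h2⟩ := division (ext_hol f) (ext_hol g) (ext_bdd f) (ext_bdd g) hδ hc he h0'
  refine ⟨res _ h1 ⟨_, h2⟩, ?_⟩
  apply HA_ext
  intro x
  show f.1 x = (x.1.z + e * g.1 x - c) * quo _ _ x.1
  have e1 : extendZero (fun x => f.1 x) x.1 = f.1 x := extendZero_mem _ x.2
  have e2 : extendZero (fun x => g.1 x) x.1 = g.1 x := extendZero_mem _ x.2
  unfold quo
  split_ifs with h
  · simp only [e2] at h
    rw [h, zero_mul, ← e1]
    exact h0' x.1 (by rw [e2]; exact h)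
  · simp only [e2] at h
    simp only [e1, e2]
    rw [mul_div_cancel₀ _ h]

/-! ### the curve -/

lemma base_z : base.z = 0 := rfl

lemma base_lt {v : ℂ} (hv : ‖v‖ < eps base) : ‖v - base.z‖ < eps base := by
  rw [base_z, sub_zero]; exact hv

lemma sec_mem_R {v : ℂ} (hv : ‖v‖ < eps base) : sec base v ∈ R := by
  have h1 : IsPreconnected (sec base '' Metric.ball base.z (eps base)) :=
    (Metric.isPreconnected_ball).image _ (sec_continuousOn base)
  have h2 : base ∈ sec base '' Metric.ball base.z (eps base) :=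
    ⟨base.z, Metric.mem_ball_self (eps_pos base), sec_self base⟩
  apply h1.subset_connectedComponent h2
  exact ⟨v, by rw [Metric.mem_ball, dist_eq_norm]; exact base_lt hv, rfl⟩

/-- the radius of the curve -/
noncomputable def rc : ℝ := min (eps base) (rho 0) / 2

lemma rc_pos : 0 < rc := half_pos (lt_min (eps_pos base) (rho_pos 0))
lemma rc_lt_eps : rc < eps base := by
  have h1 := min_le_left (eps base) (rho 0)
  have h2 := lt_min (eps_pos base) (rho_pos 0)
  unfold rc; linarith
lemma rc_lt_rho : rc < rho 0 := by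
  have h1 := min_le_right (eps base) (rho 0)
  have h2 := lt_min (eps_pos base) (rho_pos 0)
  unfold rc; linarith

lemma norm_rc (t : Circle) : ‖(rc : ℂ) * (t : ℂ)‖ = rc := by
  rw [norm_mul, Complex.norm_real, Circle.norm_coe, mul_one, Real.norm_of_nonneg rc_pos.le]

/-- the curve -/
noncomputable def gam (t : Circle) : R := ⟨sec base (rc * t), sec_mem_R (by
  rw [norm_rc]; exact rc_lt_eps)⟩

lemma rc_ball (t : Circle) : ‖(rc : ℂ) * (t : ℂ) - base.z‖ < eps base :=
  base_lt (by rw [norm_rc]; exact rc_lt_eps)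

lemma gam_z (t : Circle) : (gam t).1.z = rc * t := sec_z base (rc_ball t)

lemma gam_continuous : Continuous gam := by
  apply Continuous.subtype_mk
  apply (sec_continuousOn base).comp_continuous
  · exact continuous_const.mul continuous_subtype_val
  · intro t
    rw [Metric.mem_ball, dist_eq_norm]
    exact rc_ball t

lemma gam_injective : Function.Injective gam := by
  intro s t h
  have h1 : (rc : ℂ) * s = rc * t := by rw [← gam_z, ← gam_z, h]
  have h2 : (rc : ℂ) ≠ 0 := by exact_mod_cast rc_pos.ne'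
  exact Circle.ext (mul_left_cancel₀ h2 h1)

/-- the neighbourhood of the base point -/
def NB : Set R := {x | x.1 ∈ nb base}

lemma NB_open : IsOpen NB := (isOpen_nb base).preimage continuous_subtype_val

lemma NB_eq {x : R} (hx : x ∈ NB) : x.1 = sec base x.1.z := (sec_of_mem hx).symm

lemma NB_lt {x : R} (hx : x ∈ NB) : ‖x.1.z‖ < eps base := by
  have := hx.1
  rwa [base_z, sub_zero] at this

lemma mem_range_gam {x : R} (hx : x ∈ NB) (h : ‖x.1.z‖ = rc) : x ∈ Set.range gam := by
  have h2 : (rc : ℂ) ≠ 0 := by exact_mod_cast rc_pos.ne'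
  have h3 : ‖x.1.z / rc‖ = 1 := by
    rw [norm_div, h, Complex.norm_real, Real.norm_of_nonneg rc_pos.le, div_self rc_pos.ne']
  refine ⟨⟨x.1.z / rc, mem_sphere_zero_iff_norm.2 h3⟩, ?_⟩
  apply Subtype.ext
  show sec base (rc * (x.1.z / rc)) = x.1
  rw [mul_div_cancel₀ _ h2]
  exact (NB_eq hx).symm

lemma range_gam_NB {x : R} (h : x ∈ Set.range gam) : x ∈ NB ∧ ‖x.1.z‖ = rc := by
  obtain ⟨t, rfl⟩ := h
  refine ⟨sec_mem_nb base (rc_ball t), ?_⟩
  rw [gam_z, norm_rc]

/-- the inner disc -/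
def Dl : Set R := {x | x ∈ NB ∧ ‖x.1.z‖ < rc}

/-- the collar -/
def Cl : Set R := {x | x ∈ NB ∧ rc < ‖x.1.z‖}

/-- the base point of the surface -/
noncomputable def bR : R := ⟨base, base_mem⟩

lemma bR_Dl : bR ∈ Dl := by
  refine ⟨mem_nb_self base, ?_⟩
  show ‖base.z‖ < rc
  rw [base_z, norm_zero]; exact rc_pos

open Classical in
/-- the section with values in the surface -/
noncomputable def secR (v : ℂ) : R := if h : ‖v‖ < eps base then ⟨sec base v, sec_mem_R h⟩ else bR

lemma secR_val {v : ℂ} (h : ‖v‖ < eps base) : (secR v).1 = sec base v := by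
  unfold secR; rw [dif_pos h]

lemma secR_z {v : ℂ} (h : ‖v‖ < eps base) : (secR v).1.z = v := by
  rw [secR_val h]; exact sec_z base (base_lt h)

lemma secR_NB {v : ℂ} (h : ‖v‖ < eps base) : secR v ∈ NB := by
  show (secR v).1 ∈ nb base
  rw [secR_val h]; exact sec_mem_nb base (base_lt h)

lemma secR_cont : ContinuousOn secR {v | ‖v‖ < eps base} := by
  rw [Topology.IsInducing.subtypeVal.continuousOn_iff]
  refine ContinuousOn.congr (f := sec base) ?_ (fun v hv => secR_val hv)
  apply (sec_continuousOn base).mono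
  intro v hv
  rw [Metric.mem_ball, dist_eq_norm]; exact base_lt hv

lemma Dl_pre : IsPreconnected Dl := by
  have h1 : Dl = secR '' Metric.ball 0 rc := by
    ext x
    constructor
    · rintro ⟨h1, h2⟩
      refine ⟨x.1.z, by rwa [Metric.mem_ball, dist_zero_right], ?_⟩
      apply Subtype.ext
      rw [secR_val (NB_lt h1)]
      exact (NB_eq h1).symm
    · rintro ⟨v, hv, rfl⟩
      rw [Metric.mem_ball, dist_zero_right] at hv
      have := hv.trans rc_lt_eps
      exact ⟨secR_NB this, by rw [secR_z this]; exact hv⟩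
  rw [h1]
  apply Metric.isPreconnected_ball.image
  apply secR_cont.mono
  intro v hv
  rw [Metric.mem_ball, dist_zero_right] at hv
  exact hv.trans rc_lt_eps

lemma Cl_pre : IsPreconnected Cl := by
  have h1 : Cl = (fun p : ℝ × ℝ => secR (p.1 * Complex.exp (p.2 * Complex.I))) ''
      (Set.Ioo rc (eps base) ×ˢ Set.univ) := by
    ext x
    constructor
    · rintro ⟨h1, h2⟩
      refine ⟨(‖x.1.z‖, Complex.arg x.1.z), ⟨⟨h2, NB_lt h1⟩, trivial⟩, ?_⟩
      apply Subtype.ext
      simp only [Complex.norm_mul_exp_arg_mul_I]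
      rw [secR_val (NB_lt h1)]
      exact (NB_eq h1).symm
    · rintro ⟨⟨s, t⟩, ⟨⟨h1, h2⟩, -⟩, rfl⟩
      have hn : ‖(s : ℂ) * Complex.exp (t * Complex.I)‖ = s := by
        rw [norm_mul, Complex.norm_exp_ofReal_mul_I, mul_one, Complex.norm_real,
          Real.norm_of_nonneg (rc_pos.le.trans h1.le)]
      have hlt : ‖(s : ℂ) * Complex.exp (t * Complex.I)‖ < eps base := by rw [hn]; exact h2
      refine ⟨secR_NB hlt, ?_⟩
      show rc < ‖(secR ((s : ℂ) * Complex.exp (t * Complex.I))).1.z‖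
      rw [secR_z hlt, hn]; exact h1
  rw [h1]
  apply (isPreconnected_Ioo.prod isPreconnected_univ).image
  apply secR_cont.comp
  · fun_prop
  · rintro ⟨s, t⟩ ⟨⟨h1, h2⟩, -⟩
    show ‖(s : ℂ) * Complex.exp (t * Complex.I)‖ < eps base
    rw [norm_mul, Complex.norm_exp_ofReal_mul_I, mul_one, Complex.norm_real,
      Real.norm_of_nonneg (rc_pos.le.trans h1.le)]
    exact h2

/-- the closed inner disc -/
def Kd : Set R := {x | x ∈ NB ∧ ‖x.1.z‖ ≤ rc}

lemma Kd_closed : IsClosed Kd := by
  have h1 : Kd = secR '' Metric.closedBall 0 rc := by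
    ext x
    constructor
    · rintro ⟨h1, h2⟩
      refine ⟨x.1.z, by rwa [Metric.mem_closedBall, dist_zero_right], ?_⟩
      apply Subtype.ext
      rw [secR_val (NB_lt h1)]
      exact (NB_eq h1).symm
    · rintro ⟨v, hv, rfl⟩
      rw [Metric.mem_closedBall, dist_zero_right] at hv
      have := hv.trans_lt rc_lt_eps
      exact ⟨secR_NB this, by rw [secR_z this]; exact hv⟩
  rw [h1]
  apply IsCompact.isClosed
  apply (ProperSpace.isCompact_closedBall _ _).image_of_continuousOn
  apply secR_cont.mono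
  intro v hv
  rw [Metric.mem_closedBall, dist_zero_right] at hv
  exact hv.trans_lt rc_lt_eps

lemma cont_zR : Continuous (fun x : R => ‖x.1.z‖) :=
  (continuous_z.comp continuous_subtype_val).norm

lemma Dl_open : IsOpen Dl := NB_open.inter (isOpen_lt cont_zR continuous_const)

open Classical in
/-- the flipped base points -/
noncomputable def fl (k : ℕ) : R := if h : flip k base ∈ R then ⟨flip k base, h⟩ else bR

lemma ev_fl : ∀ᶠ k in atTop, (fl k).1 = flip k base := by
  filter_upwards [ev_flip_mem] with k hk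
  unfold fl; rw [dif_pos hk]

lemma fl_not {k : ℕ} (h : (fl k).1 = flip k base) : fl k ∉ NB := by
  intro h1
  have h2 := h1.2 k
  rw [h, flip_w_self] at h2
  simp [base] at h2
  norm_num at h2

lemma fl_tendsto (f : HR) : Tendsto (fun k => f.1 (fl k)) atTop (𝓝 (f.1 bR)) := by
  have h2 := flip_tendsto (ext_hol f) ⟨_, ext_bdd f⟩
  rw [extendZero_mem _ base_mem] at h2
  refine h2.congr' ?_
  filter_upwards [ev_flip_mem] with k hk
  unfold fl
  rw [dif_pos hk, extendZero_mem _ hk]

/-- the curve separates the surface -/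
lemma not_pre : ¬ IsPreconnected (Set.range gam)ᶜ := by
  intro h
  obtain ⟨k, hk⟩ := ev_fl.exists
  have hfl := fl_not hk
  have h1 := h Dl Kdᶜ Dl_open Kd_closed.isOpen_compl ?_ ⟨bR, ?_, bR_Dl⟩ ⟨fl k, ?_, ?_⟩
  · obtain ⟨x, -, hx1, hx2⟩ := h1
    exact hx2 ⟨hx1.1, hx1.2.le⟩
  · intro x hx
    by_cases hd : x ∈ Dl
    · exact Or.inl hd
    · right
      rintro ⟨h1, h2⟩
      rcases h2.eq_or_lt with h3 | h3
      · exact hx (mem_range_gam h1 h3)
      · exact hd ⟨h1, h3⟩
  · intro hr
    have := (range_gam_NB hr).2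
    have h4 := bR_Dl.2
    linarith
  · intro hr
    exact hfl (range_gam_NB hr).1
  · rintro ⟨h1, -⟩
    exact hfl h1

end Pt

end Pool.Agent.Helper503.Surf
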