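import Mathlib
import Pool.Agent.Helper503.SurfI

open Set Filter Topology WeakDual
open scoped Manifold

namespace Pool.Agent.Helper503.Surf

namespace Pt

open Pool.Agent.Helper503.HInf Pool.Agent.Helper503.Shilov

noncomputable abbrev K := characterSpace ℂ HR

/-- the curve inside the character space -/
noncomputable def Gh : Set K := Set.range fun t => ev (gam t)

lemma Gh_closed : IsClosed Gh := (isCompact_range (ev_continuous.comp gam_continuous)).isClosed

lemma ev_mem_Gh {x : R} : ev x ∈ Gh ↔ x ∈ Set.range gam := by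
  constructor
  · rintro ⟨t, ht⟩
    exact ⟨t, ev_injective ht⟩
  · rintro ⟨t, rfl⟩
    exact ⟨t, rfl⟩

lemma tendsto_K {ι : Type*} {l : Filter ι} {F : ι → K} {φ : K}
    (h : ∀ f : HR, Tendsto (fun i => F i f) l (𝓝 (φ f))) : Tendsto F l (𝓝 φ) := by
  rw [Topology.IsInducing.subtypeVal.tendsto_nhds_iff]
  exact tendsto_iff_forall_eval_tendsto_topDualPairing.2 h

section

variable {U V : Set K}

lemma stepA (hU : IsOpen U) (hV : IsOpen V) (hUV : Disjoint U V) (hun : U ∪ V = Ghᶜ)
    (hb : ev bR ∈ U) (x : R) : ev x ∉ V := by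
  set a : Set R := ev ⁻¹' U with ha
  set b : Set R := ev ⁻¹' V with hbd
  have hao : IsOpen a := hU.preimage ev_continuous
  have hbo : IsOpen b := hV.preimage ev_continuous
  have hab : Disjoint a b := hUV.preimage ev
  have hor : ∀ y : R, y ∉ Set.range gam → y ∈ a ∨ y ∈ b := by
    intro y hy
    have : ev y ∈ U ∪ V := by
      rw [hun]
      intro h
      exact hy (ev_mem_Gh.1 h)
    exact this
  have hnot : ∀ y : R, y ∈ Set.range gam → y ∉ a ∧ y ∉ b := by
    intro y hy
    have h1 := ev_mem_Gh.2 hy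
    constructor
    · intro h2
      have : ev y ∈ Ghᶜ := by rw [← hun]; exact Or.inl h2
      exact this h1
    · intro h2
      have : ev y ∈ Ghᶜ := by rw [← hun]; exact Or.inr h2
      exact this h1
  have hDl : Dl ⊆ a := by
    apply Dl_pre.subset_left_of_subset_union hao hbo hab
    · intro y hy
      apply hor
      intro h
      have := (range_gam_NB h).2
      have := hy.2
      linarith
    · exact ⟨bR, bR_Dl, hb⟩
  have hCl : Cl ⊆ a ∨ Cl ⊆ b := by
    apply Cl_pre.subset_or_subset hao hbo hab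
    intro y hy
    apply hor
    intro h
    have := (range_gam_NB h).2
    have := hy.2
    linarith
  have hba : bR ∈ a := hb
  suffices hbe : b = ∅ by
    intro h
    have : x ∈ b := h
    rw [hbe] at this
    exact this
  rcases hCl with hCl | hCl
  · have hcompl : bᶜ = a ∪ NB := by
      ext y
      constructor
      · intro hy
        by_cases hr : y ∈ Set.range gam
        · exact Or.inr (range_gam_NB hr).1
        · rcases hor y hr with h | h
          · exact Or.inl h
          · exact absurd h hy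
      · rintro (hy | hy)
        · exact fun h => Set.disjoint_left.1 hab hy h
        · intro h
          rcases lt_trichotomy ‖y.1.z‖ rc with h1 | h1 | h1
          · exact Set.disjoint_left.1 hab (hDl ⟨hy, h1⟩) h
          · exact (hnot y (mem_range_gam hy h1)).2 h
          · exact Set.disjoint_left.1 hab (hCl ⟨hy, h1⟩) h
    have hcl : IsClopen b := by
      refine ⟨?_, hbo⟩
      rw [← isOpen_compl_iff, hcompl]
      exact hao.union NB_open
    rcases isClopen_iff.1 hcl with h | h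
    · exact h
    · exfalso
      have : bR ∈ b := by rw [h]; trivial
      exact Set.disjoint_left.1 hab hba this
  · exfalso
    have hcompl : (a ∩ Kdᶜ)ᶜ = b ∪ NB := by
      ext y
      constructor
      · intro hy
        by_cases hr : y ∈ NB
        · exact Or.inr hr
        · left
          rcases hor y (fun h => hr (range_gam_NB h).1) with h | h
          · exfalso
            exact hy ⟨h, fun hk => hr hk.1⟩
          · exact h
      · rintro (hy | hy) ⟨h1, h2⟩
        · exact Set.disjoint_left.1 hab h1 hy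
        · have h3 : rc < ‖y.1.z‖ := by
            by_contra h4
            exact h2 ⟨hy, not_lt.1 h4⟩
          exact Set.disjoint_left.1 hab h1 (hCl ⟨hy, h3⟩)
    have hcl : IsClopen (a ∩ Kdᶜ) := by
      refine ⟨?_, hao.inter Kd_closed.isOpen_compl⟩
      rw [← isOpen_compl_iff, hcompl]
      exact hbo.union NB_open
    rcases isClopen_iff.1 hcl with h | h
    · have ht : Tendsto (fun k => (ev (fl k) : K)) atTop (𝓝 (ev bR)) := by
        apply tendsto_K
        intro f
        simp only [ev_apply]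
        exact fl_tendsto f
      obtain ⟨k, hk1, hk2⟩ := ((ht.eventually (hU.mem_nhds hb)).and ev_fl).exists
      have : fl k ∈ a ∩ Kdᶜ := ⟨hk1, fun h => fl_not hk2 h.1⟩
      rw [h] at this
      exact this
    · have : bR ∈ a ∩ Kdᶜ := by rw [h]; trivial
      exact this.2 ⟨bR_Dl.1, bR_Dl.2.le⟩

/-- the part where a perturbed coordinate separates the character from the curve -/
lemma stepB0 (hU : IsOpen U) (hV : IsOpen V) (hUV : Disjoint U V) (hun : U ∪ V = Ghᶜ)
    (hb : ev bR ∈ U) {φ : K} (hφ : φ ∈ V) (g : HR) (e c : ℂ) {δ : ℝ} (hδ : 0 < δ)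
    (hc : ‖c‖ + 2 * δ ≤ rho 0) (he : ‖e‖ * ‖g.1‖ ≤ δ / 4) (hφc : φ (zA + e • g) = c)
    (hcurve : ∀ t, (zA + e • g).1 (gam t) ≠ c) : False := by
  set h : HR := zA + e • g with hh
  set I : Ideal HR := Ideal.span {h - algebraMap ℂ HR c} with hI
  have hull_iff : ∀ χ : K, χ ∈ hull I ↔ χ h = c := by
    intro χ
    constructor
    · intro h1
      have h2 := h1 _ (Ideal.mem_span_singleton_self _)
      rw [map_sub, AlgHomClass.commutes, sub_eq_zero] at h2
      exact h2
    · intro h1 x hx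
      obtain ⟨y, rfl⟩ := Ideal.mem_span_singleton.1 hx
      rw [map_mul, map_sub, AlgHomClass.commutes, h1]
      show (c - c) * _ = 0
      rw [sub_self, zero_mul]
  have hull_closed : IsClosed (hull I : Set K) := by
    have : (hull I : Set K) = (fun χ : K => χ h) ⁻¹' {c} := by
      ext χ; exact hull_iff χ
    rw [this]
    exact isClosed_singleton.preimage (eval_cont h)
  have hdisj : ∀ χ ∈ (hull I : Set K), χ ∉ Gh := by
    rintro χ h1 ⟨t, rfl⟩
    rw [hull_iff, ev_apply] at h1
    exact hcurve t h1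
  have hmem : ∀ χ ∈ (hull I : Set K), χ ∈ U ∨ χ ∈ V := by
    intro χ h1
    have : χ ∈ U ∪ V := by rw [hun]; exact hdisj χ h1
    exact this
  have e1 : V ∩ hull I = hull I ∩ Uᶜ := by
    ext χ
    constructor
    · rintro ⟨h1, h2⟩
      exact ⟨h2, fun h3 => Set.disjoint_left.1 hUV h3 h1⟩
    · rintro ⟨h1, h2⟩
      exact ⟨(hmem χ h1).resolve_left h2, h1⟩
  have e2 : (hull I : Set K) \ (V ∩ hull I) = hull I ∩ Vᶜ := by
    ext χ
    constructor
    · rintro ⟨h1, h2⟩
      exact ⟨h1, fun h3 => h2 ⟨h3, h1⟩⟩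
    · rintro ⟨h1, h2⟩
      exact ⟨h1, fun h3 => h2 h3.1⟩
  obtain ⟨k, hk1, hk2⟩ := shilov I (V ∩ hull I) inter_subset_right
    (by rw [e1]; exact hull_closed.inter hU.isClosed_compl)
    (by rw [e2]; exact hull_closed.inter hV.isClosed_compl)
  have hk0 : ∀ x : R, (zA + e • g).1 x = c → k.1 x = 0 := by
    intro x hx
    have h1 : (ev x : K) ∈ hull I := by rw [hull_iff, ev_apply]; exact hx
    have h2 := stepA hU hV hUV hun hb x
    have h3 := hk2 (ev x) ⟨h1, fun h4 => h2 h4.1⟩
    rwa [ev_apply] at h3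
  obtain ⟨q, hq⟩ := division_R k g hδ hc he hk0
  have h1 : φ k = 0 := by
    rw [hq, map_mul, map_sub, AlgHomClass.commutes, hφc]
    show (c - c) * _ = 0
    rw [sub_self, zero_mul]
  have h2 : φ k = 1 := hk1 φ ⟨hφ, (hull_iff φ).2 hφc⟩
  rw [h1] at h2
  exact zero_ne_one h2

lemma stepB (hU : IsOpen U) (hV : IsOpen V) (hUV : Disjoint U V) (hun : U ∪ V = Ghᶜ)
    (hb : ev bR ∈ U) {φ : K} (hφ : φ ∈ V) : rho 0 ≤ ‖φ zA‖ := by
  by_contra hlt
  push Not at hlt
  by_cases hr : ‖φ zA‖ = rc
  · -- the perturbation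
    have hrc : (rc : ℂ) ≠ 0 := by exact_mod_cast rc_pos.ne'
    set t0 : Circle := ⟨φ zA / rc, mem_sphere_zero_iff_norm.2 (by
      rw [norm_div, hr, Complex.norm_real, Real.norm_of_nonneg rc_pos.le, div_self rc_pos.ne'])⟩
      with ht0
    have ht0v : φ zA = rc * (t0 : ℂ) := by
      show φ zA = rc * (φ zA / rc)
      rw [mul_div_cancel₀ _ hrc]
    have hne : φ ≠ ev (gam t0) := by
      intro h
      have h1 : φ ∈ Ghᶜ := by rw [← hun]; exact Or.inr hφ
      exact h1 ⟨t0, h.symm⟩
    obtain ⟨g0, hg0⟩ : ∃ g0 : HR, φ g0 ≠ g0.1 (gam t0) := by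
      by_contra hcon
      push Not at hcon
      apply hne
      apply CharacterSpace.ext
      intro f
      rw [hcon, ev_apply]
    set s : ℂ := φ g0 - g0.1 (gam t0) with hs
    have hs0 : s ≠ 0 := sub_ne_zero.2 hg0
    set g : HR := s⁻¹ • (g0 - algebraMap ℂ HR (g0.1 (gam t0))) with hg
    have hgt : g.1 (gam t0) = 0 := by
      show s⁻¹ * (g0.1 (gam t0) - g0.1 (gam t0)) = 0
      rw [sub_self, mul_zero]
    have hφg : φ g = 1 := by
      rw [hg, map_smul, map_sub, AlgHomClass.commutes]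
      exact inv_mul_cancel₀ hs0
    have hgc : Continuous (fun t => g.1 (gam t)) := g.1.continuous.comp gam_continuous
    obtain ⟨η, hη, hηg⟩ : ∃ η > 0, ∀ t : Circle, dist t t0 < η → ‖g.1 (gam t)‖ < 1 := by
      have h1 : ∀ᶠ t in 𝓝 t0, ‖g.1 (gam t)‖ < 1 := by
        apply hgc.norm.continuousAt.eventually (gt_mem_nhds _)
        show ‖g.1 (gam t0)‖ < 1
        rw [hgt, norm_zero]; exact one_pos
      exact Metric.eventually_nhds_iff.1 h1
    set B := ‖g.1‖ with hB
    have hB0 : 0 ≤ B := norm_nonneg _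
    set δ : ℝ := (rho 0 - rc) / 4 with hδ
    have hδ0 : 0 < δ := by have := rc_lt_rho; rw [hδ]; linarith
    -- choice of tau
    obtain ⟨τ, hτ0, hτ1, hτ2, hτ3⟩ : ∃ τ : ℝ, 0 < τ ∧ τ ≤ 2 * δ ∧ τ * B ≤ δ / 4 ∧
        τ * (1 + B) < η * rc := by
      have h1 : Tendsto (fun τ : ℝ => τ * B) (𝓝[>] 0) (𝓝 0) := by
        have : Tendsto (fun τ : ℝ => τ * B) (𝓝 0) (𝓝 (0 * B)) :=
          (continuous_id.mul continuous_const).continuousAt
        rw [zero_mul] at this
        exact this.mono_left nhdsWithin_le_nhds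
      have h2 : Tendsto (fun τ : ℝ => τ * (1 + B)) (𝓝[>] 0) (𝓝 0) := by
        have : Tendsto (fun τ : ℝ => τ * (1 + B)) (𝓝 0) (𝓝 (0 * (1 + B))) :=
          (continuous_id.mul continuous_const).continuousAt
        rw [zero_mul] at this
        exact this.mono_left nhdsWithin_le_nhds
      have h3 : Tendsto (fun τ : ℝ => τ) (𝓝[>] 0) (𝓝 0) := tendsto_id.mono_left nhdsWithin_le_nhds
      have e1 := h1.eventually (gt_mem_nhds (show (0:ℝ) < δ / 4 by positivity))
      have e2 := h2.eventually (gt_mem_nhds (show (0:ℝ) < η * rc from mul_pos hη rc_pos))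
      have e3 := h3.eventually (gt_mem_nhds (show (0:ℝ) < 2 * δ by positivity))
      obtain ⟨τ, h4, h5, h6, h7⟩ := (e1.and (e2.and (e3.and self_mem_nhdsWithin))).exists
      exact ⟨τ, h7, h6.le, h4.le, h5⟩
    set e : ℂ := τ * (t0 : ℂ) with he
    have hen : ‖e‖ = τ := by
      rw [he, norm_mul, Circle.norm_coe, mul_one, Complex.norm_real, Real.norm_of_nonneg hτ0.le]
    have hφh : φ (zA + e • g) = (rc + τ) * (t0 : ℂ) := by
      rw [map_add, map_smul, hφg, ht0v, he, smul_eq_mul]
      ring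
    refine stepB0 hU hV hUV hun hb hφ g e ((rc + τ) * (t0 : ℂ)) hδ0 ?_ ?_ hφh ?_
    · rw [norm_mul, Circle.norm_coe, mul_one]
      have : ‖((rc : ℂ) + τ)‖ = rc + τ := by
        rw [← Complex.ofReal_add, Complex.norm_real, Real.norm_of_nonneg]
        have := rc_pos; linarith
      rw [this]
      linarith
    · rw [hen]; exact hτ2
    · intro t ht
      have h1 : (rc : ℂ) * (t : ℂ) + e * g.1 (gam t) = (rc + τ) * (t0 : ℂ) := by
        rw [← ht, ← gam_z]; rfl
      have hgB : ‖g.1 (gam t)‖ ≤ B := g.1.norm_coe_le_norm _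
      have h2 : (rc : ℂ) * ((t : ℂ) - t0) = e * (1 - g.1 (gam t)) := by
        rw [he] at h1 ⊢
        linear_combination h1
      have h3 : rc * dist t t0 ≤ τ * (1 + B) := by
        have h4 : ‖(rc : ℂ) * ((t : ℂ) - t0)‖ = rc * dist t t0 := by
          rw [norm_mul, Complex.norm_real, Real.norm_of_nonneg rc_pos.le, ← dist_eq_norm]
          rfl
        rw [← h4, h2, norm_mul, hen]
        have h5 := norm_sub_le (1 : ℂ) (g.1 (gam t))
        rw [norm_one] at h5
        gcongr
        linarith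
      have h4 : dist t t0 < η := by
        have h5 : rc * dist t t0 < rc * η := by
          rw [mul_comm rc η]
          exact h3.trans_lt hτ3
        exact lt_of_mul_lt_mul_left h5 rc_pos.le
      have h5 := hηg t h4
      have h6 : (rc : ℂ) * (t : ℂ) = (t0 : ℂ) * (rc + τ * (1 - g.1 (gam t))) := by
        rw [he] at h1
        linear_combination h1
      have h7 : rc = ‖(rc : ℂ) + τ * (1 - g.1 (gam t))‖ := by
        have h8 := norm_rc t
        rw [h6, norm_mul, Circle.norm_coe, one_mul] at h8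
        exact h8.symm
      have h8 : rc + τ * (1 - ‖g.1 (gam t)‖) ≤ ‖(rc : ℂ) + τ * (1 - g.1 (gam t))‖ := by
        have h9 := Complex.re_le_norm ((rc : ℂ) + τ * (1 - g.1 (gam t)))
        have h10 : ((rc : ℂ) + τ * (1 - g.1 (gam t))).re = rc + τ * (1 - (g.1 (gam t)).re) := by
          simp
        rw [h10] at h9
        have h11 := Complex.re_le_norm (g.1 (gam t))
        nlinarith
      have h9 : 0 < τ * (1 - ‖g.1 (gam t)‖) := mul_pos hτ0 (by linarith)
      linarith
  · set δ : ℝ := (rho 0 - ‖φ zA‖) / 2 with hδ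
    refine stepB0 (δ := δ) hU hV hUV hun hb hφ 0 0 (φ zA) (by rw [hδ]; linarith) (by
      rw [hδ]; linarith) ?_ ?_ ?_
    · rw [norm_zero, zero_mul, hδ]; linarith
    · rw [zero_smul, add_zero]
    · intro t ht
      rw [zero_smul, add_zero] at ht
      apply hr
      rw [← ht]
      show ‖(gam t).1.z‖ = rc
      rw [gam_z, norm_rc]

lemma stepC (hU : IsOpen U) (hV : IsOpen V) (hUV : Disjoint U V) (hun : U ∪ V = Ghᶜ)
    (hb : ev bR ∈ U) : V = ∅ := by
  have hcompl : Vᶜ = U ∪ {χ : K | ‖χ zA‖ < rho 0} := by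
    ext χ
    constructor
    · intro h
      by_cases hg : χ ∈ Gh
      · right
        obtain ⟨t, rfl⟩ := hg
        show ‖ev (gam t) zA‖ < rho 0
        rw [ev_apply]
        show ‖(gam t).1.z‖ < rho 0
        rw [gam_z, norm_rc]
        exact rc_lt_rho
      · left
        have : χ ∈ U ∪ V := by rw [hun]; exact hg
        exact this.resolve_right h
    · rintro (h | h) hv
      · exact Set.disjoint_left.1 hUV h hv
      · have := stepB hU hV hUV hun hb hv
        have h' : ‖χ zA‖ < rho 0 := h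
        linarith
  have hVc : IsClosed V := by
    rw [← isOpen_compl_iff, hcompl]
    exact hU.union (isOpen_lt (eval_cont zA).norm continuous_const)
  have hbot : (hull (⊥ : Ideal HR) : Set K) = Set.univ := by
    ext χ
    simp only [mem_univ, iff_true]
    intro x hx
    rw [Ideal.mem_bot.1 hx, map_zero]
  obtain ⟨k, hk1, hk2⟩ := shilov (⊥ : Ideal HR) V (by rw [hbot]; exact subset_univ _) hVc (by
    rw [hbot, ← compl_eq_univ_sdiff]; exact hV.isClosed_compl)
  have hk : k = 0 := by
    apply HA_ext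
    intro x
    have h1 := stepA hU hV hUV hun hb x
    have h2 := hk2 (ev x) ⟨by rw [hbot]; trivial, h1⟩
    rw [ev_apply] at h2
    exact h2
  by_contra hne
  obtain ⟨χ, hχ⟩ := Set.nonempty_iff_ne_empty.2 hne
  have := hk1 χ hχ
  rw [hk, map_zero] at this
  exact zero_ne_one this

end

theorem pre : IsPreconnected (Ghᶜ : Set K) := by
  intro U V hU hV hsub hUn hVn
  by_contra hcon
  have hGo : IsOpen (Ghᶜ : Set K) := Gh_closed.isOpen_compl
  have hU' : IsOpen (U ∩ Ghᶜ) := hU.inter hGo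
  have hV' : IsOpen (V ∩ Ghᶜ) := hV.inter hGo
  have hd : Disjoint (U ∩ Ghᶜ) (V ∩ Ghᶜ) := by
    rw [Set.disjoint_left]
    rintro χ ⟨h1, h2⟩ ⟨h3, -⟩
    exact hcon ⟨χ, h2, h1, h3⟩
  have hun : (U ∩ Ghᶜ) ∪ (V ∩ Ghᶜ) = Ghᶜ := by
    rw [← Set.union_inter_distrib_right]
    exact inter_eq_right.2 hsub
  have hbG : ev bR ∈ Ghᶜ := by
    intro h
    have h1 := (range_gam_NB (ev_mem_Gh.1 h)).2
    have h2 := bR_Dl.2
    linarith
  rcases hsub hbG with h | h
  · have := stepC hU' hV' hd hun ⟨h, hbG⟩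
    obtain ⟨χ, h1, h2⟩ := hVn
    have : χ ∈ V ∩ Ghᶜ := ⟨h2, h1⟩
    simp_all
  · have := stepC hV' hU' hd.symm (by rw [Set.union_comm]; exact hun) ⟨h, hbG⟩
    obtain ⟨χ, h1, h2⟩ := hUn
    have : χ ∈ U ∩ Ghᶜ := ⟨h2, h1⟩
    simp_all

theorem separates : ∀ z w : R, z ≠ w → ∃ f : R → ℂ, MDifferentiable 𝓘(ℂ) 𝓘(ℂ) f ∧
    (∃ C : ℝ, ∀ x, ‖f x‖ ≤ C) ∧ f z ≠ f w := by
  intro x y hxy
  have hne : ev x ≠ ev y := fun h => hxy (ev_injective h)
  obtain ⟨f, hf⟩ : ∃ f : HR, f.1 x ≠ f.1 y := by
    by_contra hcon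
    push Not at hcon
    apply hne
    apply CharacterSpace.ext
    intro f
    rw [ev_apply, ev_apply, hcon]
  exact ⟨f.1, f.2, ⟨‖f.1‖, fun x => f.1.norm_coe_le_norm x⟩, hf⟩

end Pt

end Pool.Agent.Helper503.Surf
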