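import Mathlib
import Pool.Agent.Helper503.WA

open Metric Set Filter Topology

namespace Pool.Agent.Helper503.WAC

/-- division by a power, with the sharp bound -/
lemma div_bound {c : ℂ} {R : ℝ} (hR : 0 < R) {G : ℂ → ℂ} (hG : DifferentiableOn ℂ G (ball c R)) {C : ℝ}
    (N : ℕ) (h : ∀ z ∈ ball c R, ‖(z - c) ^ N * G z‖ ≤ C) :
    ∀ z ∈ ball c R, ‖G z‖ ≤ C / R ^ N := by
  intro z hz
  rw [le_div_iff₀ (by positivity)]
  have hz' : ‖z - c‖ < R := by rwa [mem_ball, dist_eq_norm] at hz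
  have key : ∀ r ∈ Ioo ‖z - c‖ R, ‖G z‖ * r ^ N ≤ C := by
    rintro r ⟨hr1, hr2⟩
    have hr0 : 0 < r := (norm_nonneg _).trans_lt hr1
    have hsub : closedBall c r ⊆ ball c R := closedBall_subset_ball hr2
    have hcl : DiffContOnCl ℂ G (ball c r) := by
      refine ⟨hG.mono (ball_subset_closedBall.trans hsub), ?_⟩
      rw [closure_ball c hr0.ne']
      exact hG.continuousOn.mono hsub
    have h1 : ∀ w ∈ frontier (ball c r), ‖G w‖ ≤ C / r ^ N := by
      intro w hw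
      rw [frontier_ball c hr0.ne'] at hw
      have h2 := h w (hsub (sphere_subset_closedBall hw))
      rw [norm_mul, norm_pow] at h2
      have h3 : ‖w - c‖ = r := by rwa [mem_sphere, dist_eq_norm] at hw
      rw [h3] at h2
      rw [le_div_iff₀ (by positivity), mul_comm]
      exact h2
    have h4 := Complex.norm_le_of_forall_mem_frontier_norm_le isBounded_ball hcl h1
      (subset_closure (show z ∈ ball c r by rwa [mem_ball, dist_eq_norm]))
    rwa [le_div_iff₀ (by positivity)] at h4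
  have hlim : Tendsto (fun r : ℝ => ‖G z‖ * r ^ N) (𝓝[<] R) (𝓝 (‖G z‖ * R ^ N)) := by
    apply Tendsto.mono_left _ nhdsWithin_le_nhds
    exact (continuous_const.mul (continuous_id.pow N)).tendsto R
  apply le_of_tendsto hlim
  filter_upwards [Ioo_mem_nhdsLT hz'] with r hr
  exact key r hr

/-- closeness at the centre -/
lemma close_centre {c : ℂ} {r0 ρ R : ℝ} (h0 : 0 ≤ r0) (h1 : r0 < ρ) (h2 : ρ < R) {δ : ℝ} (hδ : 0 < δ) :
    ∃ N0 : ℕ, ∀ N ≥ N0, ∀ h K : ℂ → ℂ, DifferentiableOn ℂ h (ball c R) →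
      DifferentiableOn ℂ K (ball c R) →
      (∀ z ∈ ball c R, h z ≠ 0) → (∀ z ∈ ball c R, h z ≠ 1) →
      (∀ z ∈ ball c R, h z = h c + (z - c) ^ N * K z) → ‖h c‖ ≤ 2 →
      ∀ z, ‖z - c‖ ≤ r0 → ‖h z - h c‖ ≤ δ := by
  have hρ0 : 0 < ρ := h0.trans_lt h1
  obtain ⟨M, hM0, hM⟩ := schottkyD (c := c) hρ0 h2
  have hlim : Tendsto (fun N : ℕ => (M + 2) * (r0 / ρ) ^ N) atTop (𝓝 ((M + 2) * 0)) :=
    (tendsto_pow_atTop_nhds_zero_of_lt_one (by positivity) ((div_lt_one hρ0).2 h1)).const_mul _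
  rw [mul_zero] at hlim
  obtain ⟨N0, hN0⟩ := eventually_atTop.1 (hlim.eventually (ge_mem_nhds hδ))
  refine ⟨N0, fun N hN h K hh hK hz0 hz1 hfac hc z hz => ?_⟩
  have hsub : ball c ρ ⊆ ball c R := ball_subset_ball h2.le
  have hb : ∀ w ∈ ball c ρ, ‖(w - c) ^ N * K w‖ ≤ M + 2 := by
    intro w hw
    have e : (w - c) ^ N * K w = h w - h c := by
      rw [hfac w (hsub hw)]
      ring
    rw [e]
    refine (norm_sub_le _ _).trans ?_
    have := hM h hh hz0 hz1 hc w (ball_subset_closedBall hw)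
    linarith
  have hzρ : z ∈ ball c ρ := by
    rw [mem_ball, dist_eq_norm]
    linarith
  have h3 := div_bound hρ0 (hK.mono hsub) N hb z hzρ
  have e : h z - h c = (z - c) ^ N * K z := by
    rw [hfac z (hsub hzρ)]
    ring
  rw [e, norm_mul, norm_pow]
  calc ‖z - c‖ ^ N * ‖K z‖ ≤ r0 ^ N * ((M + 2) / ρ ^ N) := by gcongr
    _ = (M + 2) * (r0 / ρ) ^ N := by rw [div_pow]; ring
    _ ≤ δ := hN0 N hN

/-- closeness between two nodes -/
lemma close_nodes {c : ℂ} {r0 ρ R : ℝ} (h0 : 0 ≤ r0) (h1 : r0 < ρ) (h2 : ρ < R) {δ : ℝ} (hδ : 0 < δ) :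
    ∃ N0 : ℕ, ∀ N ≥ N0, ∀ h K : ℂ → ℂ, DifferentiableOn ℂ h (ball c R) →
      DifferentiableOn ℂ K (ball c R) →
      (∀ z ∈ ball c R, h z ≠ 0) → (∀ z ∈ ball c R, h z ≠ 1) →
      (∀ z ∈ ball c R, h z = h c + (z - c) ^ N * K z) →
      ∀ u w, ‖u - c‖ ≤ r0 → ‖w - c‖ ≤ r0 → ‖h u‖ ≤ 3/2 → ‖h w - h u‖ ≤ δ := by
  obtain ⟨N0, hN0⟩ := close_centre (c := c) h0 h1 h2 (δ := min (δ / 2) (1 / 10)) (by positivity)
  refine ⟨N0, fun N hN h K hh hK hz0 hz1 hfac u w hu hw huu => ?_⟩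
  have hR0 : 0 < R := h0.trans_lt (h1.trans h2)
  have hcc : c ∈ ball c R := mem_ball_self hR0
  have huR : u ∈ ball c R := by
    rw [mem_ball, dist_eq_norm]
    linarith
  have hc : ‖h c‖ ≤ 2 := by
    by_contra hcon
    push Not at hcon
    have hd : DifferentiableOn ℂ (fun z => (h z)⁻¹) (ball c R) := hh.inv hz0
    have hdK : DifferentiableOn ℂ (fun z => -K z * (h z)⁻¹ * (h c)⁻¹) (ball c R) :=
      (hK.neg.mul hd).mul_const _
    have h3 := hN0 N hN (fun z => (h z)⁻¹) (fun z => -K z * (h z)⁻¹ * (h c)⁻¹) hd hdK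
      (fun z hz => inv_ne_zero (hz0 z hz))
      (fun z hz h1 => hz1 z hz (inv_eq_one.1 h1))
      (by
        intro z hz
        have e := hfac z hz
        have a1 := hz0 z hz
        have a2 := hz0 c hcc
        field_simp
        linear_combination (-1 : ℂ) * e)
      (by
        rw [norm_inv]
        rw [inv_le_comm₀ (by linarith) (by norm_num)]
        linarith) u hu
    have h4 : ‖(h c)⁻¹‖ ≤ 1 / 2 := by
      rw [norm_inv, inv_le_comm₀ (by linarith) (by norm_num)]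
      linarith
    have h5 : ‖(h u)⁻¹‖ ≤ 6 / 10 := by
      have e : (h u)⁻¹ = ((h u)⁻¹ - (h c)⁻¹) + (h c)⁻¹ := by ring
      rw [e]
      refine (norm_add_le _ _).trans ?_
      have := h3.trans (min_le_right _ _)
      linarith
    rw [norm_inv, inv_le_comm₀ (norm_pos_iff.2 (hz0 u huR)) (by norm_num)] at h5
    norm_num at h5
    linarith
  have h3 := (hN0 N hN h K hh hK hz0 hz1 hfac hc u hu).trans (min_le_left _ _)
  have h4 := (hN0 N hN h K hh hK hz0 hz1 hfac hc w hw).trans (min_le_left _ _)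
  have e : h w - h u = (h w - h c) - (h u - h c) := by ring
  rw [e]
  refine (norm_sub_le _ _).trans ?_
  linarith

end Pool.Agent.Helper503.WAC
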