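import Mathlib

open Set

namespace Pool.Agent.Helper503.WAC

variable {ι : Type*}

/-- a permutation of the labels of a finite planar set almost preserves ratios of differences -/
def AC (ε : ℝ) (x : ι → ℂ) (g : Equiv.Perm ι) : Prop :=
  ∀ a y z : ι, a ≠ z → ‖x a - x y‖ ≤ ‖x a - x z‖ →
    ‖(x (g a) - x (g y)) / (x (g a) - x (g z)) - (x a - x y) / (x a - x z)‖ ≤ ε

/-- the relations -/
structure Rels (B0 B1 B2 C D : Equiv.Perm ι) : Prop where
  r1 : D * B0 = B1 * D
  r2 : D * B1 = B2 * D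
  r3 : B1 = B2 * B0
  r4 : B2 * C * B0 = C * B1 * C
  r5 : C * D * C = D * C * D

/-- displacement -/
def vv (x : ι → ℂ) (g : Equiv.Perm ι) (y : ι) : ℂ := x (g y) - x y

lemma add_lemma {B0 B1 B2 C D : Equiv.Perm ι} (hR : Rels B0 B1 B2 C D) (x : ι → ℂ) (p : ι) {κ : ℝ}
    (N : ι → Prop)
    (h1 : ∀ s ∈ ({B0, B1, B2, C, D} : Set (Equiv.Perm ι)), N (s p))
    (h2 : ∀ s ∈ ({B0, B1, B2, C, D} : Set (Equiv.Perm ι)),
      ∀ s' ∈ ({B0, B1, B2, C, D} : Set (Equiv.Perm ι)), N (s (s' p)))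
    (hv : ∀ s ∈ ({B0, B1, B2, C, D} : Set (Equiv.Perm ι)), ∀ y, N y → ‖vv x s y - vv x s p‖ ≤ κ) :
    ∀ s ∈ ({B0, B1, B2, C, D} : Set (Equiv.Perm ι)), ‖vv x s p‖ ≤ 37 * κ := by
  have mB0 : B0 ∈ ({B0, B1, B2, C, D} : Set (Equiv.Perm ι)) := by simp
  have mB1 : B1 ∈ ({B0, B1, B2, C, D} : Set (Equiv.Perm ι)) := by simp
  have mB2 : B2 ∈ ({B0, B1, B2, C, D} : Set (Equiv.Perm ι)) := by simp
  have mC : C ∈ ({B0, B1, B2, C, D} : Set (Equiv.Perm ι)) := by simp
  have mD : D ∈ ({B0, B1, B2, C, D} : Set (Equiv.Perm ι)) := by simp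
  -- relation 1
  have e1 : vv x D (B0 p) + vv x B0 p = vv x B1 (D p) + vv x D p := by
    have h : D (B0 p) = B1 (D p) := by
      have := congrArg (fun g : Equiv.Perm ι => g p) hR.r1
      simpa using this
    simp only [vv, h]
    ring
  have e2 : vv x D (B1 p) + vv x B1 p = vv x B2 (D p) + vv x D p := by
    have h : D (B1 p) = B2 (D p) := by
      have := congrArg (fun g : Equiv.Perm ι => g p) hR.r2
      simpa using this
    simp only [vv, h]
    ring
  have e3 : vv x B1 p = vv x B2 (B0 p) + vv x B0 p := by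
    have h : B1 p = B2 (B0 p) := by
      have := congrArg (fun g : Equiv.Perm ι => g p) hR.r3
      simpa using this
    simp only [vv, h]
    ring
  have e4 : vv x B2 (C (B0 p)) + vv x C (B0 p) + vv x B0 p
      = vv x C (B1 (C p)) + vv x B1 (C p) + vv x C p := by
    have h : B2 (C (B0 p)) = C (B1 (C p)) := by
      have := congrArg (fun g : Equiv.Perm ι => g p) hR.r4
      simpa using this
    simp only [vv, h]
    ring
  have e5 : vv x C (D (C p)) + vv x D (C p) + vv x C p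
      = vv x D (C (D p)) + vv x C (D p) + vv x D p := by
    have h : C (D (C p)) = D (C (D p)) := by
      have := congrArg (fun g : Equiv.Perm ι => g p) hR.r5
      simpa using this
    simp only [vv, h]
    ring
  set b0 := vv x B0 p with hb0
  set b1 := vv x B1 p with hb1
  set b2 := vv x B2 p with hb2
  set c := vv x C p with hc
  set d := vv x D p with hd
  have t1 := hv D mD _ (h1 B0 mB0)
  have t2 := hv B1 mB1 _ (h1 D mD)
  have t3 := hv D mD _ (h1 B1 mB1)
  have t4 := hv B2 mB2 _ (h1 D mD)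
  have t5 := hv B2 mB2 _ (h1 B0 mB0)
  have t6 := hv B2 mB2 _ (h2 C mC B0 mB0)
  have t7 := hv C mC _ (h1 B0 mB0)
  have t8 := hv C mC _ (h2 B1 mB1 C mC)
  have t9 := hv B1 mB1 _ (h1 C mC)
  have t10 := hv C mC _ (h2 D mD C mC)
  have t11 := hv D mD _ (h1 C mC)
  have t12 := hv D mD _ (h2 C mC D mD)
  have t13 := hv C mC _ (h1 D mD)
  rw [← hd] at t1 t3 t11 t12
  rw [← hb1] at t2 t9
  rw [← hb2] at t4 t5 t6
  rw [← hc] at t7 t8 t10 t13
  have hκ : 0 ≤ κ := (norm_nonneg _).trans t1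
  -- b0 ~ b1
  have f1 : ‖b0 - b1‖ ≤ 2 * κ := by
    have : b0 - b1 = (vv x B1 (D p) - b1) - (vv x D (B0 p) - d) := by linear_combination e1
    rw [this]
    exact (norm_sub_le _ _).trans (by linarith)
  have f2 : ‖b1 - b2‖ ≤ 2 * κ := by
    have : b1 - b2 = (vv x B2 (D p) - b2) - (vv x D (B1 p) - d) := by linear_combination e2
    rw [this]
    exact (norm_sub_le _ _).trans (by linarith)
  have f3 : ‖b0‖ ≤ 7 * κ := by
    have e : b0 = (b1 - b2) - (vv x B2 (B0 p) - b2) := by linear_combination (-1 : ℂ) * e3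
    rw [e]
    exact (norm_sub_le _ _).trans (by linarith)
  have f4 : ‖b1‖ ≤ 9 * κ := by
    have : b1 = b0 - (b0 - b1) := by ring
    rw [this]
    exact (norm_sub_le _ _).trans (by linarith)
  have f5 : ‖b2‖ ≤ 11 * κ := by
    have : b2 = b1 - (b1 - b2) := by ring
    rw [this]
    exact (norm_sub_le _ _).trans (by linarith)
  have f6 : ‖c‖ ≤ 32 * κ := by
    have e : c = (vv x B2 (C (B0 p)) - b2) + (vv x C (B0 p) - c) - (vv x C (B1 (C p)) - c)
        - (vv x B1 (C p) - b1) + b2 + b0 - b1 := by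
      linear_combination (-1 : ℂ) * e4
    have := norm_sub_le ((vv x B2 (C (B0 p)) - b2) + (vv x C (B0 p) - c) - (vv x C (B1 (C p)) - c)
        - (vv x B1 (C p) - b1) + b2 + b0) b1
    have u1 := norm_add_le ((vv x B2 (C (B0 p)) - b2) + (vv x C (B0 p) - c) - (vv x C (B1 (C p)) - c)
        - (vv x B1 (C p) - b1) + b2) b0
    have u2 := norm_add_le ((vv x B2 (C (B0 p)) - b2) + (vv x C (B0 p) - c) - (vv x C (B1 (C p)) - c)
        - (vv x B1 (C p) - b1)) b2
    have u3 := norm_sub_le ((vv x B2 (C (B0 p)) - b2) + (vv x C (B0 p) - c) - (vv x C (B1 (C p)) - c))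
        (vv x B1 (C p) - b1)
    have u4 := norm_sub_le ((vv x B2 (C (B0 p)) - b2) + (vv x C (B0 p) - c)) (vv x C (B1 (C p)) - c)
    have u5 := norm_add_le (vv x B2 (C (B0 p)) - b2) (vv x C (B0 p) - c)
    rw [← e] at this
    linarith
  have f7 : ‖d‖ ≤ 37 * κ := by
    have e : d = (vv x C (D (C p)) - c) + (vv x D (C p) - d) - (vv x D (C (D p)) - d)
        - (vv x C (D p) - c) + c := by
      linear_combination (-1 : ℂ) * e5
    have u2 := norm_add_le ((vv x C (D (C p)) - c) + (vv x D (C p) - d) - (vv x D (C (D p)) - d)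
        - (vv x C (D p) - c)) c
    have u3 := norm_sub_le ((vv x C (D (C p)) - c) + (vv x D (C p) - d) - (vv x D (C (D p)) - d))
        (vv x C (D p) - c)
    have u4 := norm_sub_le ((vv x C (D (C p)) - c) + (vv x D (C p) - d)) (vv x D (C (D p)) - d)
    have u5 := norm_add_le (vv x C (D (C p)) - c) (vv x D (C p) - d)
    rw [← e] at u2
    linarith
  intro s hs
  simp only [mem_insert_iff, mem_singleton_iff] at hs
  rcases hs with rfl | rfl | rfl | rfl | rfl
  · exact f3.trans (by linarith)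
  · exact f4.trans (by linarith)
  · exact f5.trans (by linarith)
  · exact f6.trans (by linarith)
  · exact f7

end Pool.Agent.Helper503.WAC
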