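import Mathlib
import Pool.Agent.Helper503.WB

open Set

namespace Pool.Agent.Helper503.WAC

lemma mul_lemma {b0 b1 b2 c d : ℂ} {ε : ℝ} (h0 : 0 ≤ ε) (h1 : ε ≤ 1/100)
    (nb0 : ‖b0‖ ≤ 1) (nb1 : ‖b1‖ ≤ 1) (nb2 : ‖b2‖ ≤ 1) (nc : ‖c‖ ≤ 1)
    (lb0 : 1 - 2 * ε ≤ ‖b0‖) (lc : 1 - 2 * ε ≤ ‖c‖) (ld : 1 - 2 * ε ≤ ‖d‖)
    (e1 : ‖d * b0 - b1 * d‖ ≤ 4 * ε) (e2 : ‖d * b1 - b2 * d‖ ≤ 4 * ε)
    (e3 : ‖b1 - b2 * b0‖ ≤ 2 * ε) (e4 : ‖b2 * (c * b0) - c * (b1 * c)‖ ≤ 8 * ε)
    (e5 : ‖c * (d * c) - d * (c * d)‖ ≤ 8 * ε) :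
    ‖b0 - 1‖ ≤ 110 * ε ∧ ‖b1 - 1‖ ≤ 110 * ε ∧ ‖b2 - 1‖ ≤ 110 * ε ∧ ‖c - 1‖ ≤ 110 * ε ∧
      ‖d - 1‖ ≤ 110 * ε := by
  have f1 : ‖b0 - b1‖ ≤ 5 * ε := by
    have e : d * b0 - b1 * d = d * (b0 - b1) := by ring
    rw [e, norm_mul] at e1
    nlinarith [norm_nonneg (b0 - b1)]
  have f2 : ‖b1 - b2‖ ≤ 5 * ε := by
    have e : d * b1 - b2 * d = d * (b1 - b2) := by ring
    rw [e, norm_mul] at e2
    nlinarith [norm_nonneg (b1 - b2)]
  have f3 : ‖b0 - 1‖ ≤ 22 * ε := by
    have e' : b0 * (b0 - 1) = -(b1 - b2 * b0) + (b1 - b0) - (b2 - b0) * b0 := by ring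
    have u1 : ‖b2 - b0‖ ≤ 10 * ε := by
      have : b2 - b0 = -(b1 - b2) - (b0 - b1) := by ring
      rw [this]
      refine (norm_sub_le _ _).trans ?_
      rw [norm_neg]
      linarith
    have u2 : ‖b1 - b0‖ ≤ 5 * ε := by rw [norm_sub_rev]; exact f1
    have u3 : ‖(b2 - b0) * b0‖ ≤ 10 * ε := by
      rw [norm_mul]
      calc ‖b2 - b0‖ * ‖b0‖ ≤ (10 * ε) * 1 := by gcongr
        _ = 10 * ε := mul_one _
    have u4 : ‖b0 * (b0 - 1)‖ ≤ 17 * ε := by
      rw [e']
      refine (norm_sub_le _ _).trans ?_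
      have := norm_add_le (-(b1 - b2 * b0)) (b1 - b0)
      rw [norm_neg] at this
      linarith
    rw [norm_mul] at u4
    nlinarith [norm_nonneg (b0 - 1)]
  have f4 : ‖b1 - 1‖ ≤ 27 * ε := by
    have : b1 - 1 = (b0 - 1) - (b0 - b1) := by ring
    rw [this]
    exact (norm_sub_le _ _).trans (by linarith)
  have f5 : ‖b2 - 1‖ ≤ 32 * ε := by
    have : b2 - 1 = (b1 - 1) - (b1 - b2) := by ring
    rw [this]
    exact (norm_sub_le _ _).trans (by linarith)
  have f6 : ‖c - 1‖ ≤ 95 * ε := by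
    have e : b2 * (c * b0) - c * (b1 * c) = c * (b2 * b0 - b1 * c) := by ring
    rw [e, norm_mul] at e4
    have u1 : ‖b2 * b0 - b1 * c‖ ≤ 10 * ε := by nlinarith [norm_nonneg (b2 * b0 - b1 * c)]
    have e' : c - 1 = -(b2 * b0 - b1 * c) + (b2 - 1) * b0 + (b0 - 1) - (b1 - 1) * c := by ring
    have u2 : ‖(b2 - 1) * b0‖ ≤ 32 * ε := by
      rw [norm_mul]
      calc ‖b2 - 1‖ * ‖b0‖ ≤ (32 * ε) * 1 := by gcongr
        _ = 32 * ε := mul_one _
    have u3 : ‖(b1 - 1) * c‖ ≤ 27 * ε := by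
      rw [norm_mul]
      calc ‖b1 - 1‖ * ‖c‖ ≤ (27 * ε) * 1 := by gcongr
        _ = 27 * ε := mul_one _
    have v1 := norm_sub_le (-(b2 * b0 - b1 * c) + (b2 - 1) * b0 + (b0 - 1)) ((b1 - 1) * c)
    have v2 := norm_add_le (-(b2 * b0 - b1 * c) + (b2 - 1) * b0) (b0 - 1)
    have v3 := norm_add_le (-(b2 * b0 - b1 * c)) ((b2 - 1) * b0)
    rw [norm_neg] at v3
    rw [← e'] at v1
    linarith
  have f7 : ‖d - 1‖ ≤ 108 * ε := by
    have e : c * (d * c) - d * (c * d) = (c * d) * (c - d) := by ring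
    rw [e, norm_mul, norm_mul] at e5
    have hcd : 96/100 ≤ ‖c‖ * ‖d‖ := by nlinarith
    have u1 : ‖c - d‖ ≤ 9 * ε := by nlinarith [norm_nonneg (c - d)]
    have e' : d - 1 = (c - 1) - (c - d) := by ring
    rw [e']
    exact (norm_sub_le _ _).trans (by linarith)
  refine ⟨by linarith, by linarith, by linarith, by linarith, by linarith⟩

variable {ι : Type*}

lemma AC_mul {ε : ℝ} {x : ι → ℂ} (hx : Function.Injective x) {g : Equiv.Perm ι} (h : AC ε x g)
    {a y z : ι} (haz : a ≠ z) (hyz : ‖x a - x y‖ ≤ ‖x a - x z‖) :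
    ‖(x (g a) - x (g y)) - (x (g a) - x (g z)) / (x a - x z) * (x a - x y)‖
      ≤ ε * ‖x (g a) - x (g z)‖ := by
  have h1 := h a y z haz hyz
  have hg : x (g a) - x (g z) ≠ 0 := by
    rw [sub_ne_zero]
    exact fun h => haz (g.injective (hx h))
  have ha : x a - x z ≠ 0 := by
    rw [sub_ne_zero]
    exact fun h => haz (hx h)
  have e : (x (g a) - x (g y)) - (x (g a) - x (g z)) / (x a - x z) * (x a - x y)
      = ((x (g a) - x (g y)) / (x (g a) - x (g z)) - (x a - x y) / (x a - x z))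
        * (x (g a) - x (g z)) := by
    field_simp
  rw [e, norm_mul]
  gcongr

theorem lemT [Finite ι] {ε : ℝ} (hε : 0 ≤ ε) (hε' : ε ≤ 1 / 10 ^ 7) {x : ι → ℂ}
    (hx : Function.Injective x) {B0 B1 B2 C D : Equiv.Perm ι} (hR : Rels B0 B1 B2 C D)
    (hAC : ∀ s ∈ ({B0, B1, B2, C, D} : Set (Equiv.Perm ι)), AC ε x s)
    (hAC' : ∀ s ∈ ({B0, B1, B2, C, D} : Set (Equiv.Perm ι)), AC ε x s⁻¹) :
    ∀ s ∈ ({B0, B1, B2, C, D} : Set (Equiv.Perm ι)), s = 1 := by
  set S : Set (Equiv.Perm ι) := {B0, B1, B2, C, D} with hS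
  by_contra hcon
  push Not at hcon
  obtain ⟨s0, hs0, hne⟩ := hcon
  obtain ⟨a, ha⟩ : ∃ a, s0 a ≠ a := by
    by_contra hc
    push Not at hc
    exact hne (Equiv.ext hc)
  set G := Subgroup.closure S with hG
  have hSG : ∀ s ∈ S, s ∈ G := fun s hs => Subgroup.subset_closure hs
  set O : Set ι := {j | ∃ g ∈ G, g a = j} with hO
  have hinv : ∀ g ∈ G, ∀ y ∈ O, g y ∈ O := by
    rintro g hg _ ⟨h, hh, rfl⟩
    exact ⟨g * h, G.mul_mem hg hh, rfl⟩
  have haO : a ∈ O := ⟨1, G.one_mem, rfl⟩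
  have hOfin : (O ×ˢ O).Finite := Set.toFinite _
  obtain ⟨⟨p, q⟩, ⟨hp, hq⟩, hmax⟩ := hOfin.exists_maximalFor (fun t => ‖x t.1 - x t.2‖) (O ×ˢ O)
    ⟨(a, a), haO, haO⟩
  simp only at hp hq
  set Δ := ‖x p - x q‖ with hΔ
  have hmax' : ∀ y ∈ O, ∀ z ∈ O, ‖x y - x z‖ ≤ Δ := by
    intro y hy z hz
    by_contra hc
    push Not at hc
    have := hmax (j := (y, z)) ⟨hy, hz⟩ hc.le
    simp only at this
    linarith
  have hΔ0 : 0 < Δ := by
    have h1 := hmax' (s0 a) (hinv s0 (hSG s0 hs0) a haO) a haO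
    have h2 : x (s0 a) - x a ≠ 0 := by
      rw [sub_ne_zero]
      exact fun h => ha (hx h)
    exact (norm_pos_iff.2 h2).trans_le h1
  have hpq : p ≠ q := by
    rintro rfl
    rw [hΔ, sub_self, norm_zero] at hΔ0
    exact lt_irrefl _ hΔ0
  have hpq' : x p - x q ≠ 0 := by
    rw [sub_ne_zero]
    exact fun h => hpq (hx h)
  set lam : Equiv.Perm ι → ℂ := fun g => (x (g p) - x (g q)) / (x p - x q) with hlam
  have hA : ∀ g ∈ G, AC ε x g → ∀ y ∈ O, ‖(x (g p) - x (g y)) - lam g * (x p - x y)‖ ≤ ε * Δ := by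
    intro g hg hgac y hy
    have h1 := AC_mul hx hgac hpq (hmax' p hp y hy)
    refine h1.trans ?_
    have := hmax' _ (hinv g hg p hp) _ (hinv g hg q hq)
    gcongr
  have hmul : ∀ g ∈ G, AC ε x g → ∀ h ∈ G, ‖lam (g * h) - lam g * lam h‖ ≤ 2 * ε := by
    intro g hg hgac h hh
    have h1 := hA g hg hgac _ (hinv h hh q hq)
    have h2 := hA g hg hgac _ (hinv h hh p hp)
    have e : lam (g * h) - lam g * lam h
        = (((x (g p) - x (g (h q))) - lam g * (x p - x (h q)))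
          - ((x (g p) - x (g (h p))) - lam g * (x p - x (h p)))) / (x p - x q) := by
      have e1 : lam (g * h) = (x (g (h p)) - x (g (h q))) / (x p - x q) := rfl
      have e2 : lam h = (x (h p) - x (h q)) / (x p - x q) := rfl
      rw [e1, e2]
      field_simp
      ring
    rw [e, norm_div, div_le_iff₀ (by rw [← hΔ]; exact hΔ0), ← hΔ]
    refine (norm_sub_le _ _).trans ?_
    linarith
  have hle : ∀ g ∈ G, ‖lam g‖ ≤ 1 := by
    intro g hg
    rw [hlam]
    simp only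
    rw [norm_div, ← hΔ, div_le_one hΔ0]
    exact hmax' _ (hinv g hg p hp) _ (hinv g hg q hq)
  have hge : ∀ s ∈ S, 1 - 2 * ε ≤ ‖lam s‖ := by
    intro s hs
    have h1 := hmul s⁻¹ (G.inv_mem (hSG s hs)) (hAC' s hs) s (hSG s hs)
    have h2 : lam (s⁻¹ * s) = 1 := by
      rw [inv_mul_cancel]
      exact div_self hpq'
    rw [h2] at h1
    have h3 := norm_sub_norm_le (1 : ℂ) (lam s⁻¹ * lam s)
    rw [norm_one, norm_mul] at h3
    have h4 := hle s⁻¹ (G.inv_mem (hSG s hs))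
    nlinarith [norm_nonneg (lam s)]
  have mB0 : B0 ∈ S := by simp [hS]
  have mB1 : B1 ∈ S := by simp [hS]
  have mB2 : B2 ∈ S := by simp [hS]
  have mC : C ∈ S := by simp [hS]
  have mD : D ∈ S := by simp [hS]
  have hmul2 : ∀ g ∈ S, ∀ h ∈ S, ‖lam (g * h) - lam g * lam h‖ ≤ 2 * ε := fun g hg h hh =>
    hmul g (hSG g hg) (hAC g hg) h (hSG h hh)
  have hmul3 : ∀ g ∈ S, ∀ h ∈ S, ∀ k ∈ S, ‖lam (g * (h * k)) - lam g * (lam h * lam k)‖ ≤ 4 * ε := by
    intro g hg h hh k hk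
    have h1 := hmul g (hSG g hg) (hAC g hg) (h * k) (G.mul_mem (hSG h hh) (hSG k hk))
    have h2 := hmul2 h hh k hk
    have e : lam (g * (h * k)) - lam g * (lam h * lam k)
        = (lam (g * (h * k)) - lam g * lam (h * k)) + lam g * (lam (h * k) - lam h * lam k) := by ring
    rw [e]
    refine (norm_add_le _ _).trans ?_
    rw [norm_mul]
    have h3 := hle g (hSG g hg)
    nlinarith [norm_nonneg (lam (h * k) - lam h * lam k), norm_nonneg (lam g)]
  have key := mul_lemma (b0 := lam B0) (b1 := lam B1) (b2 := lam B2) (c := lam C) (d := lam D)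
    hε (by norm_num at hε' ⊢; linarith) (hle _ (hSG _ mB0)) (hle _ (hSG _ mB1)) (hle _ (hSG _ mB2))
    (hle _ (hSG _ mC)) (hge _ mB0) (hge _ mC) (hge _ mD)
    (by
      have h1 := hmul2 D mD B0 mB0
      have h2 := hmul2 B1 mB1 D mD
      rw [hR.r1] at h1
      have e : lam D * lam B0 - lam B1 * lam D
          = (lam (B1 * D) - lam B1 * lam D) - (lam (B1 * D) - lam D * lam B0) := by ring
      rw [e]
      exact (norm_sub_le _ _).trans (by linarith))
    (by
      have h1 := hmul2 D mD B1 mB1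
      have h2 := hmul2 B2 mB2 D mD
      rw [hR.r2] at h1
      have e : lam D * lam B1 - lam B2 * lam D
          = (lam (B2 * D) - lam B2 * lam D) - (lam (B2 * D) - lam D * lam B1) := by ring
      rw [e]
      exact (norm_sub_le _ _).trans (by linarith))
    (by
      have h1 := hmul2 B2 mB2 B0 mB0
      rw [← hR.r3] at h1
      exact h1)
    (by
      have h1 := hmul3 B2 mB2 C mC B0 mB0
      have h2 := hmul3 C mC B1 mB1 C mC
      rw [← mul_assoc, hR.r4, mul_assoc] at h1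
      have e : lam B2 * (lam C * lam B0) - lam C * (lam B1 * lam C)
          = (lam (C * (B1 * C)) - lam C * (lam B1 * lam C))
            - (lam (C * (B1 * C)) - lam B2 * (lam C * lam B0)) := by ring
      rw [e]
      exact (norm_sub_le _ _).trans (by linarith))
    (by
      have h1 := hmul3 C mC D mD C mC
      have h2 := hmul3 D mD C mC D mD
      rw [← mul_assoc, hR.r5, mul_assoc] at h1
      have e : lam C * (lam D * lam C) - lam D * (lam C * lam D)
          = (lam (D * (C * D)) - lam D * (lam C * lam D))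
            - (lam (D * (C * D)) - lam C * (lam D * lam C)) := by ring
      rw [e]
      exact (norm_sub_le _ _).trans (by linarith))
  have hlam1 : ∀ s ∈ S, ‖lam s - 1‖ ≤ 110 * ε := by
    intro s hs
    rw [hS] at hs
    simp only [mem_insert_iff, mem_singleton_iff] at hs
    rcases hs with rfl | rfl | rfl | rfl | rfl
    · exact key.1
    · exact key.2.1
    · exact key.2.2.1
    · exact key.2.2.2.1
    · exact key.2.2.2.2
  -- displacement is almost constant
  have hvv : ∀ s ∈ S, ∀ y ∈ O, ‖vv x s y - vv x s p‖ ≤ 111 * ε * Δ := by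
    intro s hs y hy
    have h1 := hA s (hSG s hs) (hAC s hs) y hy
    have h2 := hlam1 s hs
    have h3 := hmax' p hp y hy
    have e : vv x s y - vv x s p
        = -((x (s p) - x (s y)) - lam s * (x p - x y)) - (lam s - 1) * (x p - x y) := by
      simp only [vv]
      ring
    rw [e]
    refine (norm_sub_le _ _).trans ?_
    rw [norm_neg, norm_mul]
    have h4 : ‖lam s - 1‖ * ‖x p - x y‖ ≤ 110 * ε * Δ := by gcongr
    linarith
  have hstepA := add_lemma hR x p (κ := 111 * ε * Δ) (fun y => y ∈ O)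
    (fun s hs => hinv s (hSG s hs) p hp)
    (fun s hs s' hs' => hinv s (hSG s hs) _ (hinv s' (hSG s' hs') p hp)) hvv
  have hdisp : ∀ s ∈ S, ∀ y ∈ O, ‖vv x s y‖ ≤ 4218 * ε * Δ := by
    intro s hs y hy
    have h1 := hstepA s hs
    have h2 := hvv s hs y hy
    have e : vv x s y = (vv x s y - vv x s p) + vv x s p := by ring
    rw [e]
    refine (norm_add_le _ _).trans ?_
    linarith
  -- maximal displacement
  have hSfin : (S ×ˢ O).Finite := by
    apply Set.Finite.prod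
    · rw [hS]
      exact Set.toFinite _
    · exact Set.toFinite _
  obtain ⟨⟨s1, x1⟩, ⟨hs1, hx1⟩, hmax2⟩ := hSfin.exists_maximalFor (fun t => ‖vv x t.1 t.2‖) (S ×ˢ O)
    ⟨(s0, a), hs0, haO⟩
  simp only at hs1 hx1
  set δ := ‖vv x s1 x1‖ with hδ
  have hmax2' : ∀ s ∈ S, ∀ y ∈ O, ‖vv x s y‖ ≤ δ := by
    intro s hs y hy
    by_contra hc
    push Not at hc
    have := hmax2 (j := (s, y)) ⟨hs, hy⟩ hc.le
    simp only at this
    linarith
  have hδ0 : 0 < δ := by
    have h1 := hmax2' s0 hs0 a haO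
    have h2 : vv x s0 a ≠ 0 := by
      rw [vv, sub_ne_zero]
      exact fun h => ha (hx h)
    exact (norm_pos_iff.2 h2).trans_le h1
  have hδΔ : δ ≤ 4218 * ε * Δ := hdisp s1 hs1 x1 hx1
  -- a far point
  obtain ⟨z', hz', hfar⟩ : ∃ z' ∈ O, Δ / 2 ≤ ‖x x1 - x z'‖ := by
    by_contra hc
    push Not at hc
    have h1 := hc p hp
    have h2 := hc q hq
    have h3 : Δ ≤ ‖x x1 - x p‖ + ‖x x1 - x q‖ := by
      have e : x p - x q = (x x1 - x q) - (x x1 - x p) := by ring
      rw [hΔ, e]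
      refine (norm_sub_le _ _).trans ?_
      linarith
    linarith
  have hfar' : 300 * δ ≤ ‖x x1 - x z'‖ := by
    refine le_trans ?_ hfar
    have : 300 * (4218 * ε * Δ) ≤ Δ / 2 := by
      have h1 : 300 * 4218 * ε ≤ 1/2 := by norm_num at hε' ⊢; linarith
      nlinarith
    linarith
  -- a point at the right distance
  obtain ⟨z, hz, hz1, hz2⟩ : ∃ z ∈ O, 300 * δ ≤ ‖x x1 - x z‖ ∧ ‖x x1 - x z‖ ≤ 301 * δ := by
    by_contra hc
    push Not at hc
    have hstab : ∀ g ∈ G, (∀ y ∈ O, ‖x x1 - x y‖ < 300 * δ → ‖x x1 - x (g y)‖ < 300 * δ) := by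
      intro g hg
      have hg' : (∀ y ∈ O, ‖x x1 - x y‖ < 300 * δ ↔ ‖x x1 - x (g y)‖ < 300 * δ) := by
        refine Subgroup.closure_induction (p := fun g _ => (∀ y ∈ O, ‖x x1 - x y‖ < 300 * δ ↔
          ‖x x1 - x (g y)‖ < 300 * δ)) ?_ ?_ ?_ ?_ hg
        · intro s hs y hy
          have h1 := hmax2' s hs y hy
          constructor
          · intro h
            by_contra h2
            push Not at h2
            have h3 := hc (s y) (hinv s (hSG s hs) y hy) h2
            have e : x x1 - x (s y) = (x x1 - x y) - vv x s y := by simp only [vv]; ring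
            have h4 := norm_sub_le (x x1 - x y) (vv x s y)
            rw [← e] at h4
            linarith
          · intro h
            by_contra h2
            push Not at h2
            have h3 := hc y hy h2
            have e : x x1 - x y = (x x1 - x (s y)) + vv x s y := by simp only [vv]; ring
            have h4 := norm_add_le (x x1 - x (s y)) (vv x s y)
            rw [← e] at h4
            linarith
        · intro y _
          rfl
        · intro g h hg hh ihg ihh y hy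
          rw [ihh y hy, ihg (h y) (hinv h hh y hy)]
          rfl
        · intro g hg ih y hy
          have := ih (g⁻¹ y) (hinv g⁻¹ (G.inv_mem hg) y hy)
          rw [this]
          simp
      intro y hy h
      exact (hg' y hy).1 h
    obtain ⟨g1, hg1, hg1a⟩ := hx1
    obtain ⟨g2, hg2, hg2a⟩ := hz'
    have h1 := hstab (g2 * g1⁻¹) (G.mul_mem hg2 (G.inv_mem hg1)) x1 ⟨g1, hg1, hg1a⟩ (by
      rw [sub_self, norm_zero]; positivity)
    have h2 : (g2 * g1⁻¹) x1 = z' := by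
      rw [← hg1a]
      simp [hg2a]
    rw [h2] at h1
    linarith
  -- step B
  have hx1z : x1 ≠ z := by
    rintro rfl
    rw [sub_self, norm_zero] at hz1
    linarith
  have hB : ∀ s ∈ S, ∀ y, (y ∈ O ∧ ‖x x1 - x y‖ ≤ 2 * δ) →
      ‖vv x s y - vv x s x1‖ ≤ (4 / 300 + 304 * ε) * δ := by
    rintro s hs y ⟨hy, hyd⟩
    have h1 := AC_mul hx (hAC s hs) hx1z (show ‖x x1 - x y‖ ≤ ‖x x1 - x z‖ by linarith)
    set l' := (x (s x1) - x (s z)) / (x x1 - x z) with hl'
    have hxz : x x1 - x z ≠ 0 := by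
      rw [sub_ne_zero]
      exact fun h => hx1z (hx h)
    have hpos : 0 < ‖x x1 - x z‖ := norm_pos_iff.2 hxz
    have h2 : ‖l' - 1‖ ≤ 2 / 300 := by
      have e : l' - 1 = (vv x s x1 - vv x s z) / (x x1 - x z) := by
        rw [hl', vv, vv]
        field_simp
        ring
      rw [e, norm_div, div_le_iff₀ hpos]
      have h3 := hmax2' s hs x1 hx1
      have h4 := hmax2' s hs z hz
      have h5 := norm_sub_le (vv x s x1) (vv x s z)
      linarith
    have h3 : ‖x (s x1) - x (s z)‖ ≤ 303 * δ := by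
      have e : x (s x1) - x (s z) = (x x1 - x z) + (vv x s x1 - vv x s z) := by
        simp only [vv]; ring
      rw [e]
      have h3 := hmax2' s hs x1 hx1
      have h4 := hmax2' s hs z hz
      have h5 := norm_sub_le (vv x s x1) (vv x s z)
      have h6 := norm_add_le (x x1 - x z) (vv x s x1 - vv x s z)
      linarith
    have e : vv x s y - vv x s x1
        = -((x (s x1) - x (s y)) - l' * (x x1 - x y)) - (l' - 1) * (x x1 - x y) := by
      simp only [vv]
      ring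
    rw [e]
    refine (norm_sub_le _ _).trans ?_
    rw [norm_neg, norm_mul]
    have h4 : ‖l' - 1‖ * ‖x x1 - x y‖ ≤ 2 / 300 * (2 * δ) := by gcongr
    have h5 : ε * ‖x (s x1) - x (s z)‖ ≤ ε * (303 * δ) := by gcongr
    have h6 : 0 ≤ ε * δ := by positivity
    linarith
  have hnear1 : ∀ s ∈ S, (s x1 ∈ O ∧ ‖x x1 - x (s x1)‖ ≤ δ) := by
    intro s hs
    refine ⟨hinv s (hSG s hs) x1 hx1, ?_⟩
    have h1 := hmax2' s hs x1 hx1
    rw [norm_sub_rev]
    exact h1
  have hstepB := add_lemma hR x x1 (κ := (4 / 300 + 304 * ε) * δ)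
    (fun y => y ∈ O ∧ ‖x x1 - x y‖ ≤ 2 * δ)
    (fun s hs => ⟨(hnear1 s hs).1, (hnear1 s hs).2.trans (by linarith)⟩)
    (fun s hs s' hs' => by
      refine ⟨hinv s (hSG s hs) _ (hnear1 s' hs').1, ?_⟩
      have h1 := hmax2' s hs _ (hnear1 s' hs').1
      have h2 := (hnear1 s' hs').2
      have e : x x1 - x (s (s' x1)) = (x x1 - x (s' x1)) - vv x s (s' x1) := by
        simp only [vv]; ring
      rw [e]
      refine (norm_sub_le _ _).trans ?_
      linarith) hB
  have hfin := hstepB s1 hs1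
  rw [← hδ] at hfin
  have h1 : 37 * ((4 / 300 + 304 * ε) * δ) < δ := by
    have h2 : 37 * (4 / 300 + 304 * ε) < 1 := by norm_num at hε' ⊢; linarith
    nlinarith
  linarith

end Pool.Agent.Helper503.WAC
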