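import Mathlib

open Metric Set Filter Topology Polynomial

namespace Pool.Agent.Helper503.WAC

/-- enumeration of the roots -/
lemma enum_roots {n : ℕ} {Q : ℂ[X]} (hm : Q.Monic) (hd : Q.natDegree = n) :
    ∃ x : Fin n → ℂ, Q = ∏ j, (X - C (x j)) := by
  have hsplit := IsAlgClosed.splits Q
  obtain ⟨l, hl⟩ : ∃ l : List ℂ, (l : Multiset ℂ) = Q.roots := Quotient.exists_rep _
  have hlen : l.length = n := by
    rw [← Multiset.coe_card, hl, ← hsplit.natDegree_eq_card_roots, hd]
  subst hlen
  refine ⟨fun j => l.get j, ?_⟩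
  conv_lhs => rw [hsplit.eq_prod_roots, hm.leadingCoeff, C_1, one_mul, ← hl]
  rw [Multiset.map_coe, Multiset.prod_coe]
  have : ∏ j, (X - C (l.get j)) = (List.ofFn fun j => (X - C (l.get j) : ℂ[X])).prod :=
    (List.prod_ofFn).symm
  rw [this]
  congr 1
  apply List.ext_getElem
  · simp
  · intro i h1 h2
    simp

lemma eval_prod_lin {n : ℕ} (x : Fin n → ℂ) (v : ℂ) :
    (∏ j, (X - C (x j)) : ℂ[X]).eval v = ∏ j, (v - x j) := by
  rw [eval_prod]
  simp

lemma isRoot_prod_lin {n : ℕ} (x : Fin n → ℂ) (v : ℂ) :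
    (∏ j, (X - C (x j)) : ℂ[X]).eval v = 0 ↔ ∃ j, v = x j := by
  rw [eval_prod_lin, Finset.prod_eq_zero_iff]
  constructor
  · rintro ⟨j, _, hj⟩
    exact ⟨j, sub_eq_zero.1 hj⟩
  · rintro ⟨j, hj⟩
    exact ⟨j, Finset.mem_univ _, sub_eq_zero.2 hj⟩

lemma inj_of_separable {n : ℕ} {x : Fin n → ℂ} (h : (∏ j, (X - C (x j)) : ℂ[X]).Separable) :
    Function.Injective x := by
  intro i j hij
  by_contra hne
  have := h.squarefree
  have h2 : (X - C (x i)) * (X - C (x j)) ∣ (∏ j, (X - C (x j)) : ℂ[X]) := by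
    have e : ({i, j} : Finset (Fin n)) ⊆ Finset.univ := Finset.subset_univ _
    have h3 := Finset.prod_dvd_prod_of_subset _ _ (fun j => (X - C (x j) : ℂ[X])) e
    rwa [Finset.prod_pair hne] at h3
  rw [← hij] at h2
  have h3 := this _ h2
  exact Polynomial.not_isUnit_X_sub_C _ h3

lemma prod_of_distinct {n : ℕ} {Q : ℂ[X]} (hm : Q.Monic) (hd : Q.natDegree = n) {x : Fin n → ℂ}
    (hx : Function.Injective x) (hr : ∀ j, Q.eval (x j) = 0) : Q = ∏ j, (X - C (x j)) := by
  have h1 : (∏ j, (X - C (x j)) : ℂ[X]) ∣ Q := by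
    apply Finset.prod_dvd_of_coprime
    · intro i _ j _ hij
      exact Polynomial.pairwise_coprime_X_sub_C hx hij
    · intro j _
      exact Polynomial.dvd_iff_isRoot.2 (hr j)
  have h2 : (∏ j, (X - C (x j)) : ℂ[X]).Monic := monic_prod_of_monic _ _ fun j _ => monic_X_sub_C _
  apply (Polynomial.eq_of_monic_of_dvd_of_natDegree_le h2 hm h1 _)
  rw [hd, natDegree_prod_of_monic _ _ fun j _ => monic_X_sub_C _]
  simp

lemma root_near {n : ℕ} {Q : ℂ[X]} (hm : Q.Monic) (hd : Q.natDegree = n) {v : ℂ} {ε : ℝ} (hε : 0 < ε)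
    (h : ‖Q.eval v‖ < ε ^ n) : ∃ w, Q.eval w = 0 ∧ ‖w - v‖ < ε := by
  obtain ⟨x, hx⟩ := enum_roots hm hd
  by_contra hcon
  push Not at hcon
  have h1 : ∀ j, ε ≤ ‖v - x j‖ := by
    intro j
    rw [norm_sub_rev]
    apply hcon
    rw [hx, isRoot_prod_lin]
    exact ⟨j, rfl⟩
  rw [hx, eval_prod_lin, norm_prod] at h
  have h2 : ∏ _j : Fin n, ε ≤ ∏ j, ‖v - x j‖ := Finset.prod_le_prod (fun _ _ => hε.le) fun j _ => h1 j
  rw [Finset.prod_const, Finset.card_univ, Fintype.card_fin] at h2
  linarith

/-- a continuous family of separable monic polynomials -/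
structure Fam (Z : Type*) [TopologicalSpace Z] (n : ℕ) where
  P : Z → ℂ[X]
  mon : ∀ z, (P z).Monic
  deg : ∀ z, (P z).natDegree = n
  cont : ∀ k, Continuous fun z => (P z).coeff k
  sep : ∀ z, (P z).Separable

namespace Fam

variable {Z : Type*} [TopologicalSpace Z] {n : ℕ} (F : Fam Z n)

lemma eval_cont : Continuous fun q : Z × ℂ => (F.P q.1).eval q.2 := by
  have e : (fun q : Z × ℂ => (F.P q.1).eval q.2)
      = fun q : Z × ℂ => ∑ k ∈ Finset.range (n + 1), (F.P q.1).coeff k * q.2 ^ k := by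
    funext q
    exact eval_eq_sum_range' (by rw [F.deg]; exact Nat.lt_succ_self n) _
  rw [e]
  apply continuous_finsetSum
  intro k _
  exact ((F.cont k).comp continuous_fst).mul (continuous_snd.pow k)

/-- the root space -/
def E : Type _ := {q : Z × ℂ // (F.P q.1).eval q.2 = 0}

instance : TopologicalSpace F.E := inferInstanceAs (TopologicalSpace {q : Z × ℂ // (F.P q.1).eval q.2 = 0})

/-- the projection -/
def pr : F.E → Z := fun q => q.1.1

lemma pr_cont : Continuous F.pr := continuous_fst.comp continuous_subtype_val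

lemma val_cont : Continuous fun q : F.E => q.1.2 := continuous_snd.comp continuous_subtype_val

theorem isCovering : IsCoveringMap F.pr := by
  intro z₁
  obtain ⟨x, hx⟩ := enum_roots (F.mon z₁) (F.deg z₁)
  have hinj : Function.Injective x := inj_of_separable (by rw [← hx]; exact F.sep z₁)
  -- radius
  obtain ⟨r, hr0, hr⟩ : ∃ r : ℝ, 0 < r ∧ ∀ i j, i ≠ j → 2 * r ≤ ‖x i - x j‖ := by
    have hex : ∀ t : Fin n × Fin n, ∃ r : ℝ, 0 < r ∧ (t.1 ≠ t.2 → 2 * r ≤ ‖x t.1 - x t.2‖) := by
      intro t
      by_cases ht : t.1 = t.2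
      · exact ⟨1, one_pos, fun h => (h ht).elim⟩
      · have : 0 < ‖x t.1 - x t.2‖ := norm_pos_iff.2 (sub_ne_zero.2 fun h => ht (hinj h))
        exact ⟨‖x t.1 - x t.2‖ / 2, by positivity, fun _ => by linarith⟩
    choose r hr0 hr using hex
    rcases isEmpty_or_nonempty (Fin n × Fin n) with hE | hE
    · exact ⟨1, one_pos, fun i j _ => (hE.false (i, j)).elim⟩
    · obtain ⟨t, ht⟩ := Finite.exists_min r
      exact ⟨r t, hr0 t, fun i j hij => (by have := ht (i, j); have := hr (i, j) hij; linarith)⟩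
  set U : Set Z := {z | ∀ j, ‖(F.P z).eval (x j)‖ < r ^ n} with hU
  have hUo : IsOpen U := by
    have e : U = ⋂ j, {z | ‖(F.P z).eval (x j)‖ < r ^ n} := by
      ext z
      simp [hU]
    rw [e]
    apply isOpen_iInter_of_finite
    intro j
    exact isOpen_lt ((F.eval_cont.comp (continuous_id.prodMk continuous_const)).norm) continuous_const
  have hz₁ : z₁ ∈ U := by
    intro j
    have : (F.P z₁).eval (x j) = 0 := by
      rw [hx, isRoot_prod_lin]
      exact ⟨j, rfl⟩
    rw [this, norm_zero]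
    positivity
  have hex : ∀ z ∈ U, ∀ j, ∃ w, (F.P z).eval w = 0 ∧ ‖w - x j‖ < r := fun z hz j =>
    root_near (F.mon z) (F.deg z) hr0 (hz j)
  choose! s hs0 hs using hex
  have hdisj : ∀ (v : ℂ) (i j : Fin n), ‖v - x i‖ < r → ‖v - x j‖ < r → i = j := by
    intro v i j h1 h2
    by_contra hij
    have h3 := hr i j hij
    have e : x i - x j = (v - x j) - (v - x i) := by ring
    rw [e] at h3
    have := norm_sub_le (v - x j) (v - x i)
    linarith
  have hsinj : ∀ z ∈ U, Function.Injective (s z) := by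
    intro z hz i j hij
    apply hdisj (s z i) i j (hs z hz i)
    rw [hij]
    exact hs z hz j
  have hsP : ∀ z ∈ U, F.P z = ∏ j, (X - C (s z j)) := fun z hz =>
    prod_of_distinct (F.mon z) (F.deg z) (hsinj z hz) (hs0 z hz)
  have huniq : ∀ z ∈ U, ∀ v j, (F.P z).eval v = 0 → ‖v - x j‖ < r → v = s z j := by
    intro z hz v j hv hvj
    rw [hsP z hz, isRoot_prod_lin] at hv
    obtain ⟨i, rfl⟩ := hv
    rw [hdisj (s z i) i j (hs z hz i) hvj]
  have hidx : ∀ z ∈ U, ∀ v, (F.P z).eval v = 0 → ∃ j, ‖v - x j‖ < r := by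
    intro z hz v hv
    rw [hsP z hz, isRoot_prod_lin] at hv
    obtain ⟨i, rfl⟩ := hv
    exact ⟨i, hs z hz i⟩
  -- continuity of the sections
  have hscont : ∀ j, ContinuousOn (fun z => s z j) U := by
    intro j z' hz'
    apply ContinuousAt.continuousWithinAt
    rw [Metric.continuousAt_iff']
    intro ε hε
    have hpos : 0 < r - ‖s z' j - x j‖ := by linarith [hs z' hz' j]
    set ε' := min ε (r - ‖s z' j - x j‖) with hε'
    have hε'0 : 0 < ε' := lt_min hε hpos
    have hc : Continuous fun z => ‖(F.P z).eval (s z' j)‖ :=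
      (F.eval_cont.comp (continuous_id.prodMk continuous_const)).norm
    have h0 : ‖(F.P z').eval (s z' j)‖ < ε' ^ n := by
      rw [hs0 z' hz' j, norm_zero]
      positivity
    filter_upwards [hUo.mem_nhds hz', (isOpen_lt hc continuous_const).mem_nhds h0] with z hz hz2
    obtain ⟨w, hw0, hw⟩ := root_near (F.mon z) (F.deg z) hε'0 hz2
    have hwj : ‖w - x j‖ < r := by
      have e : w - x j = (w - s z' j) + (s z' j - x j) := by ring
      rw [e]
      have h1 := norm_add_le (w - s z' j) (s z' j - x j)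
      have h2 : ε' ≤ r - ‖s z' j - x j‖ := min_le_right _ _
      linarith
    rw [← huniq z hz w j hw0 hwj, dist_eq_norm]
    exact hw.trans_le (min_le_left _ _)
  -- the index function
  have hidx' : ∀ e : F.pr ⁻¹' U, ∃ j, ‖e.1.1.2 - x j‖ < r := fun e => hidx _ e.2 _ e.1.2
  choose ix hix using hidx'
  have hixcont : Continuous ix := by
    rw [continuous_discrete_rng]
    intro j
    have e : ix ⁻¹' {j} = {e : F.pr ⁻¹' U | ‖e.1.1.2 - x j‖ < r} := by
      ext e
      simp only [mem_preimage, mem_singleton_iff, mem_ofPred_eq]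
      constructor
      · rintro rfl
        exact hix e
      · intro h
        exact hdisj _ _ _ (hix e) h
    rw [e]
    refine isOpen_lt (Continuous.norm ?_) continuous_const
    have hv : Continuous fun e : F.pr ⁻¹' U => e.1.1.2 := F.val_cont.comp continuous_subtype_val
    exact hv.sub continuous_const
  let H : F.pr ⁻¹' U ≃ₜ U × Fin n :=
    { toFun := fun e => (⟨F.pr e.1, e.2⟩, ix e)
      invFun := fun q => ⟨⟨(q.1.1, s q.1.1 q.2), hs0 _ q.1.2 q.2⟩, q.1.2⟩
      left_inv := by
        intro e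
        apply Subtype.ext
        apply Subtype.ext
        refine Prod.ext rfl ?_
        exact (huniq _ e.2 _ (ix e) e.1.2 (hix e)).symm
      right_inv := by
        intro q
        refine Prod.ext rfl ?_
        exact hdisj _ _ _ (hix _) (hs _ q.1.2 q.2)
      continuous_toFun := by
        refine Continuous.prodMk ?_ hixcont
        exact (F.pr_cont.comp continuous_subtype_val).subtype_mk _
      continuous_invFun := by
        refine Continuous.subtype_mk (Continuous.subtype_mk ?_ _) _
        refine Continuous.prodMk (continuous_subtype_val.comp continuous_fst) ?_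
        rw [continuous_prod_of_discrete_right]
        intro j
        exact continuousOn_iff_continuous_domRestrict.1 (hscont j) }
  have hcov : IsEvenlyCovered F.pr z₁ (Fin n) :=
    ⟨inferInstance, U, hz₁, hUo, hUo.preimage F.pr_cont, H, fun e => rfl⟩
  exact hcov.to_isEvenlyCovered_preimage

/-- splitting over simply connected spaces, with prescribed initial labels -/
theorem exists_roots [SimplyConnectedSpace Z] [LocallyPathConnectedSpace Z] (z₀ : Z) {x : Fin n → ℂ}
    (hx : F.P z₀ = ∏ j, (X - C (x j))) :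
    ∃ r : Fin n → Z → ℂ, (∀ j, Continuous (r j)) ∧ (∀ j, r j z₀ = x j) ∧
      ∀ z, F.P z = ∏ j, (X - C (r j z)) := by
  have hinj : Function.Injective x := inj_of_separable (by rw [← hx]; exact F.sep z₀)
  have hroot : ∀ j, (F.P z₀).eval (x j) = 0 := by
    intro j
    rw [hx, isRoot_prod_lin]
    exact ⟨j, rfl⟩
  have hcov := F.isCovering
  have hlift := fun j => (hcov.existsUnique_continuousMap_lifts (ContinuousMap.id Z) z₀
    (⟨(z₀, x j), hroot j⟩ : F.E) rfl).exists
  choose L hL0 hL using hlift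
  have hL1 : ∀ j z, (L j z).1.1 = z := fun j z => congrFun (hL j) z
  have hroot' : ∀ j z, (F.P z).eval (L j z).1.2 = 0 := by
    intro j z
    have := (L j z).2
    rwa [hL1] at this
  have hinj' : ∀ z, Function.Injective fun j => (L j z).1.2 := by
    intro z i j hij
    have h1 : L i z = L j z := by
      apply Subtype.ext
      refine Prod.ext ?_ hij
      rw [hL1, hL1]
    have h2 : (L i : Z → F.E) = L j := hcov.eq_of_comp_eq (L i).continuous (L j).continuous
      ((hL i).trans (hL j).symm) z h1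
    have h3 := congrFun h2 z₀
    rw [hL0, hL0] at h3
    have h4 := congrArg (fun e : F.E => e.1.2) h3
    exact hinj h4
  refine ⟨fun j z => (L j z).1.2, fun j => ?_, fun j => ?_, fun z => ?_⟩
  · exact (continuous_snd.comp continuous_subtype_val).comp (L j).continuous
  · show (L j z₀).1.2 = x j
    rw [hL0]
  · exact prod_of_distinct (F.mon z) (F.deg z) (hinj' z) fun j => hroot' j z

end Fam

/-- uniqueness of continuous root selections -/
lemma root_unique {Z : Type*} [TopologicalSpace Z] [PreconnectedSpace Z] {n : ℕ} {r : Fin n → Z → ℂ}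
    (hr : ∀ j, Continuous (r j)) (hinj : ∀ z, Function.Injective fun j => r j z) {y : Z → ℂ}
    (hy : Continuous y) (h : ∀ z, ∃ j, y z = r j z) {z₀ : Z} {j₀ : Fin n} (h0 : y z₀ = r j₀ z₀) :
    ∀ z, y z = r j₀ z := by
  have hcl : ∀ j, IsClosed {z | y z = r j z} := fun j => isClosed_eq hy (hr j)
  have hop : IsOpen {z | y z = r j₀ z} := by
    rw [← isClosed_compl_iff]
    have e : {z | y z = r j₀ z}ᶜ = ⋃ j ∈ {j | j ≠ j₀}, {z | y z = r j z} := by
      ext z
      simp only [mem_compl_iff, mem_ofPred_eq, mem_iUnion, exists_prop]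
      constructor
      · intro hz
        obtain ⟨j, hj⟩ := h z
        refine ⟨j, ?_, hj⟩
        rintro rfl
        exact hz hj
      · rintro ⟨j, hj, hz⟩ hz'
        exact hj (hinj z (hz.symm.trans hz'))
    rw [e]
    exact (Set.toFinite _).isClosed_biUnion fun j _ => hcl j
  have := IsClopen.eq_univ ⟨hcl j₀, hop⟩ ⟨z₀, h0⟩
  intro z
  have hz : z ∈ {z | y z = r j₀ z} := by rw [this]; trivial
  exact hz

end Pool.Agent.Helper503.WAC
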