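import Mathlib
import Pool.Agent.Helper503.WA2

open Metric Set Filter Topology BoundedContinuousFunction

namespace Pool.Agent.Helper503.WAC

noncomputable section

/-- centre of the disc -/
def cc : ℂ := ⟨1/2, -1/2⟩

/-- radius of the disc -/
def RR : ℝ := 3/4

lemma RR_pos : 0 < RR := by norm_num [RR]

/-- the disc -/
abbrev Dsk : Type := ↥(ball cc RR)

instance : PreconnectedSpace Dsk :=
  isPreconnected_iff_preconnectedSpace.1 (convex_ball cc RR).isPreconnected

instance : Nontrivial (BoundedContinuousFunction (((Fin 4 × Fin 3) × Dsk) ⊕ (Fin 9 × (ℝ × ℝ))) ℂ) := by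
  refine ⟨0, 1, fun h => ?_⟩
  have := congrArg (fun f : BoundedContinuousFunction (((Fin 4 × Fin 3) × Dsk) ⊕ (Fin 9 × (ℝ × ℝ))) ℂ =>
    f (Sum.inr (0, (0, 0)))) h
  simp at this

/-- the edges: letter and level -/
abbrev Edge : Type := Fin 4 × Fin 3

/-- the space before gluing -/
abbrev YY : Type := (Edge × Dsk) ⊕ (Fin 9 × (ℝ × ℝ))

/-- clamping to the unit interval -/
def clamp (t : ℝ) : ℝ := max 0 (min 1 t)

lemma clamp_nonneg (t : ℝ) : 0 ≤ clamp t := le_max_left _ _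

lemma clamp_le_one (t : ℝ) : clamp t ≤ 1 := max_le zero_le_one (min_le_left _ _)

lemma clamp_of_mem {t : ℝ} (h0 : 0 ≤ t) (h1 : t ≤ 1) : clamp t = t := by
  rw [clamp, min_eq_right h1, max_eq_right h0]

lemma clamp_of_le {t : ℝ} (h0 : t ≤ 0) : clamp t = 0 := by
  rw [clamp, min_eq_right (h0.trans zero_le_one), max_eq_left h0]

lemma clamp_of_ge {t : ℝ} (h1 : 1 ≤ t) : clamp t = 1 := by
  rw [clamp, min_eq_left h1, max_eq_right zero_le_one]

@[fun_prop]
lemma clamp_cont : Continuous clamp := by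
  unfold clamp
  fun_prop

lemma norm_sub_cc {t : ℝ} (h0 : 0 ≤ t) (h1 : t ≤ 1) : ‖(t : ℂ) - cc‖ ≤ 71/100 := by
  have h : ‖(t : ℂ) - cc‖ ^ 2 ≤ (71/100 : ℝ) ^ 2 := by
    rw [← Complex.normSq_eq_norm_sq, Complex.normSq_apply]
    simp only [cc, Complex.sub_re, Complex.sub_im, Complex.ofReal_re, Complex.ofReal_im]
    nlinarith
  exact le_of_sq_le_sq h (by norm_num) 

lemma seg_mem (t : ℝ) : ((clamp t : ℝ) : ℂ) ∈ ball cc RR := by
  rw [mem_ball, dist_eq_norm]
  refine (norm_sub_cc (clamp_nonneg t) (clamp_le_one t)).trans_lt ?_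
  norm_num [RR]

/-- the segment from node to node -/
def seg (t : ℝ) : Dsk := ⟨(clamp t : ℝ), seg_mem t⟩

@[fun_prop]
lemma seg_cont : Continuous seg := by
  unfold seg
  fun_prop

/-- the centre as a point of the disc -/
def ctr : Dsk := ⟨cc, mem_ball_self RR_pos⟩

/-- bottom words -/
def W : Fin 9 → Fin 3 → Fin 4 :=
  ![![0,2,1], ![0,3,1], ![1,3,0], ![1,0,2], ![1,0,3], ![0,1,3], ![0,1,0], ![1,2,1], ![2,3,2]]

/-- top words -/
def W' : Fin 9 → Fin 3 → Fin 4 :=
  ![![2,0,1], ![3,0,1], ![3,1,0], ![1,2,0], ![1,3,0], ![0,3,1], ![1,0,1], ![2,1,2], ![3,2,3]]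

/-- points of the discs -/
def dp (e : Edge) (z : Dsk) : YY := Sum.inl (e, z)

/-- points of the cells -/
def cp (κ : Fin 9) (t s : ℝ) : YY := Sum.inr (κ, (t, s))

@[fun_prop]
lemma dp_cont (e : Edge) : Continuous (dp e) := by
  unfold dp
  fun_prop

lemma cp_cont (κ : Fin 9) : Continuous fun q : ℝ × ℝ => cp κ q.1 q.2 := by
  unfold cp
  fun_prop

/-- the gluing relation -/
inductive Glue : YY → YY → Prop
  | nodeu (i : Fin 4) (k : Fin 3) : Glue (dp (i, k) (seg 0)) (dp (0, k) (seg 0))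
  | nodew (i : Fin 4) (k : Fin 3) : Glue (dp (i, k) (seg 1)) (dp (0, k) (seg 1))
  | level (k : Fin 2) : Glue (dp (0, k.castSucc) (seg 1)) (dp (0, k.succ) (seg 0))
  | bot (κ : Fin 9) (m : Fin 3) (τ : ℝ) (h0 : 0 ≤ τ) (h1 : τ ≤ 1) :
      Glue (cp κ ((m : ℕ) + τ) 0) (dp (W κ m, m) (seg τ))
  | top (κ : Fin 9) (m : Fin 3) (τ : ℝ) (h0 : 0 ≤ τ) (h1 : τ ≤ 1) :
      Glue (cp κ ((m : ℕ) + τ) 1) (dp (W' κ m, m) (seg τ))
  | left (κ : Fin 9) (s : ℝ) : Glue (cp κ 0 s) (cp κ 0 0)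
  | right (κ : Fin 9) (s : ℝ) : Glue (cp κ 3 s) (cp κ 3 0)

/-- flat functions: holomorphic on the discs, flat at the centres -/
def Flat (m : Edge → ℕ) (f : YY →ᵇ ℂ) : Prop :=
  ∀ e, ∃ G : ℂ → ℂ, DifferentiableOn ℂ G (ball cc RR) ∧
    ∀ z : Dsk, f (dp e z) = f (dp e ctr) + ((z : ℂ) - cc) ^ (m e + 1) * G z

lemma Flat.add {m : Edge → ℕ} {f g : YY →ᵇ ℂ} (hf : Flat m f) (hg : Flat m g) : Flat m (f + g) := by
  intro e
  obtain ⟨F, hF, hF'⟩ := hf e
  obtain ⟨G, hG, hG'⟩ := hg e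
  refine ⟨fun z => F z + G z, hF.add hG, fun z => ?_⟩
  rw [BoundedContinuousFunction.add_apply, BoundedContinuousFunction.add_apply, hF', hG']
  ring

lemma Flat.mul {m : Edge → ℕ} {f g : YY →ᵇ ℂ} (hf : Flat m f) (hg : Flat m g) : Flat m (f * g) := by
  intro e
  obtain ⟨F, hF, hF'⟩ := hf e
  obtain ⟨G, hG, hG'⟩ := hg e
  refine ⟨fun z => f (dp e ctr) * G z + g (dp e ctr) * F z + (z - cc) ^ (m e + 1) * F z * G z, ?_,
    fun z => ?_⟩
  · refine DifferentiableOn.add (DifferentiableOn.add (hG.const_mul _) (hF.const_mul _)) ?_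
    refine DifferentiableOn.mul (DifferentiableOn.mul ?_ hF) hG
    exact ((differentiable_id.sub_const _).pow _).differentiableOn
  · rw [BoundedContinuousFunction.mul_apply, BoundedContinuousFunction.mul_apply, hF', hG']
    ring

/-- the algebra of flat functions -/
def FL (m : Edge → ℕ) : Subalgebra ℂ (YY →ᵇ ℂ) where
  carrier := {f | Flat m f}
  add_mem' := Flat.add
  mul_mem' := Flat.mul
  algebraMap_mem' := fun r e => ⟨fun _ => 0, differentiableOn_const _, fun z => by simp⟩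

/-- the algebra of functions respecting the gluing -/
def GLU : Subalgebra ℂ (YY →ᵇ ℂ) where
  carrier := {f | ∀ y y', Glue y y' → f y = f y'}
  add_mem' := fun {f g} hf hg y y' h => by
    rw [BoundedContinuousFunction.add_apply, BoundedContinuousFunction.add_apply, hf y y' h, hg y y' h]
  mul_mem' := fun {f g} hf hg y y' h => by
    rw [BoundedContinuousFunction.mul_apply, BoundedContinuousFunction.mul_apply, hf y y' h, hg y y' h]
  algebraMap_mem' := fun r y y' _ => by simp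

/-- the algebras -/
def BB (m : Edge → ℕ) : Subalgebra ℂ (YY →ᵇ ℂ) := FL m ⊓ GLU

lemma mem_BB {m : Edge → ℕ} {f : YY →ᵇ ℂ} : f ∈ BB m ↔ Flat m f ∧ ∀ y y', Glue y y' → f y = f y' :=
  Iff.rfl

lemma flat_closed (m : Edge → ℕ) : IsClosed {f : YY →ᵇ ℂ | Flat m f} := by
  apply IsSeqClosed.isClosed
  intro F f hF hlim e
  choose G hGd hG using fun k => hF k e
  have hcau : CauchySeq F := hlim.cauchySeq
  have hRN : 0 < RR ^ (m e + 1) := pow_pos RR_pos _
  have hb : ∀ k l, ∀ z ∈ ball cc RR, ‖G k z - G l z‖ ≤ (2 * ‖F k - F l‖) / RR ^ (m e + 1) := by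
    intro k l
    apply div_bound RR_pos (G := fun z => G k z - G l z) ((hGd k).sub (hGd l))
    intro z hz
    have e1 : (z - cc) ^ (m e + 1) * (G k z - G l z)
        = (F k - F l) (dp e ⟨z, hz⟩) - (F k - F l) (dp e ctr) := by
      rw [BoundedContinuousFunction.sub_apply, BoundedContinuousFunction.sub_apply, hG k, hG l]
      ring
    rw [e1]
    refine (norm_sub_le _ _).trans ?_
    have h1 := (F k - F l).norm_coe_le_norm (dp e ⟨z, hz⟩)
    have h2 := (F k - F l).norm_coe_le_norm (dp e ctr)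
    linarith
  have hu : UniformCauchySeqOn G atTop (ball cc RR) := by
    rw [Metric.uniformCauchySeqOn_iff]
    intro ε hε
    obtain ⟨N, hN⟩ := Metric.cauchySeq_iff.1 hcau (ε * RR ^ (m e + 1) / 2) (by positivity)
    refine ⟨N, fun k hk l hl z hz => ?_⟩
    rw [dist_eq_norm]
    refine (hb k l z hz).trans_lt ?_
    rw [div_lt_iff₀ hRN]
    have := hN k hk l hl
    rw [dist_eq_norm] at this
    linarith
  have hpt : ∀ z ∈ ball cc RR, ∃ g, Tendsto (fun k => G k z) atTop (𝓝 g) := by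
    intro z hz
    exact cauchySeq_tendsto_of_complete (hu.cauchySeq hz)
  choose! g hg using hpt
  have hTU : TendstoUniformlyOn G g atTop (ball cc RR) := hu.tendstoUniformlyOn_of_tendsto hg
  refine ⟨g, hTU.tendstoLocallyUniformlyOn.differentiableOn (Eventually.of_forall hGd) isOpen_ball,
    fun z => ?_⟩
  have hev : ∀ y : YY, Tendsto (fun k => F k y) atTop (𝓝 (f y)) := by
    intro y
    exact ((continuous_eval_const y).tendsto f).comp hlim
  refine tendsto_nhds_unique (hev (dp e z)) ?_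
  have h2 := (hev (dp e ctr)).add ((hg z z.2).const_mul (((z : ℂ) - cc) ^ (m e + 1)))
  refine h2.congr fun k => ?_
  exact (hG k z).symm

lemma glue_closed : IsClosed {f : YY →ᵇ ℂ | ∀ y y', Glue y y' → f y = f y'} := by
  have e : {f : YY →ᵇ ℂ | ∀ y y', Glue y y' → f y = f y'}
      = ⋂ y, ⋂ y', ⋂ (_ : Glue y y'), {f : YY →ᵇ ℂ | f y = f y'} := by
    ext f
    simp
  rw [e]
  refine isClosed_iInter fun y => isClosed_iInter fun y' => isClosed_iInter fun _ => ?_
  exact isClosed_eq (continuous_eval_const y) (continuous_eval_const y')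

lemma BB_closed (m : Edge → ℕ) : IsClosed (BB m : Set (YY →ᵇ ℂ)) :=
  (flat_closed m).inter glue_closed

instance (m : Edge → ℕ) : Nontrivial (BB m) := inferInstance

instance (m : Edge → ℕ) : CompleteSpace (BB m) := (BB_closed m).completeSpace_coe

/-- evaluation at a point -/
def ev (m : Edge → ℕ) (y : YY) : BB m →ₐ[ℂ] ℂ where
  toFun := fun f => f.1 y
  map_one' := rfl
  map_mul' := fun _ _ => rfl
  map_zero' := rfl
  map_add' := fun _ _ => rfl
  commutes' := fun _ => rfl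

@[simp] lemma ev_apply (m : Edge → ℕ) (y : YY) (f : BB m) : ev m y f = f.1 y := rfl

lemma ev_glue (m : Edge → ℕ) {y y' : YY} (h : Glue y y') : ev m y = ev m y' := by
  ext f
  exact f.2.2 y y' h

lemma flat_mono {m m' : Edge → ℕ} (h : ∀ e, m e ≤ m' e) {f : YY →ᵇ ℂ} (hf : Flat m' f) : Flat m f := by
  intro e
  obtain ⟨F, hF, hF'⟩ := hf e
  refine ⟨fun z => (z - cc) ^ (m' e - m e) * F z, ?_, fun z => ?_⟩
  · exact (((differentiable_id.sub_const _).pow _).differentiableOn).mul hF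
  · rw [hF' z, ← mul_assoc, ← pow_add]
    congr 3
    have := h e
    omega

lemma BB_mono {m m' : Edge → ℕ} (h : ∀ e, m e ≤ m' e) : BB m' ≤ BB m :=
  fun _ hf => ⟨flat_mono h hf.1, hf.2⟩

end

end Pool.Agent.Helper503.WAC
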