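import Mathlib
import Pool.Agent.Helper503.WD
import Pool.Agent.Helper503.ShG

open Metric Set Filter Topology BoundedContinuousFunction

namespace Pool.Agent.Helper503.WAC

section CH

variable {A B : Type*} [CommRing A] [Algebra ℂ A] [CommRing B] [Algebra ℂ B] (j : A →ₐ[ℂ] B)
  (c : B →ₐ[ℂ] ℂ)

lemma restr_inj (h1 : ∀ a f, c (j a) = 0 → ∃ a', j a' = f * j a)
    (h2 : ∀ f, ∃ a', j a' = (f - algebraMap ℂ B (c f)) ^ 2) :
    Function.Injective (fun χ : B →ₐ[ℂ] ℂ => χ.comp j) := by
  intro χ1 χ2 h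
  have hA : ∀ a, χ1 (j a) = χ2 (j a) := fun a => congrArg (fun φ : A →ₐ[ℂ] ℂ => φ a) h
  ext f
  by_cases hex : ∃ a, c (j a) = 0 ∧ χ1 (j a) ≠ 0
  · obtain ⟨a, ha0, ha⟩ := hex
    obtain ⟨a', ha'⟩ := h1 a f ha0
    have e := hA a'
    rw [ha', map_mul, map_mul, ← hA a] at e
    exact mul_right_cancel₀ ha e
  · push Not at hex
    have key : ∀ χ : B →ₐ[ℂ] ℂ, (∀ a, c (j a) = 0 → χ (j a) = 0) → χ f = c f := by
      intro χ hχ
      obtain ⟨a', ha'⟩ := h2 f
      have h3 := hχ a' (by rw [ha']; simp)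
      rw [ha'] at h3
      simp only [map_pow, map_sub, AlgHom.commutes, Algebra.algebraMap_self, RingHom.id_apply] at h3
      exact sub_eq_zero.1 (pow_eq_zero_iff (two_ne_zero) |>.1 h3)
    rw [key χ1 hex, key χ2 (fun a ha => by rw [← hA]; exact hex a ha)]

lemma restr_surj (hj : Function.Injective j) (h1 : ∀ a f, c (j a) = 0 → ∃ a', j a' = f * j a) :
    Function.Surjective (fun χ : B →ₐ[ℂ] ℂ => χ.comp j) := by
  intro χ
  by_cases hex : ∃ a, c (j a) = 0 ∧ χ a ≠ 0
  · obtain ⟨a1, ha1, ha2⟩ := hex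
    obtain ⟨a0, ha0c, ha0⟩ : ∃ a0, c (j a0) = 0 ∧ χ a0 = 1 := by
      refine ⟨(χ a1)⁻¹ • a1, ?_, ?_⟩
      · rw [map_smul, map_smul, ha1, smul_zero]
      · rw [map_smul, smul_eq_mul, inv_mul_cancel₀ ha2]
    choose T hT using fun f => h1 a0 f ha0c
    refine ⟨{ toFun := fun f => χ (T f), map_one' := ?_, map_mul' := ?_, map_zero' := ?_,
              map_add' := ?_, commutes' := ?_ }, ?_⟩
    · have : T 1 = a0 := hj (by rw [hT, one_mul])
      rw [this, ha0]
    · intro f g
      have e : T f * T g = T (f * g) * a0 := by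
        apply hj
        rw [map_mul, map_mul, hT, hT, hT]
        ring
      rw [← map_mul, e, map_mul, ha0, mul_one]
    · have : T 0 = 0 := hj (by rw [hT, zero_mul, map_zero])
      show χ (T 0) = 0
      rw [this, map_zero]
    · intro f g
      have e : T (f + g) = T f + T g := hj (by rw [map_add, hT, hT, hT]; ring)
      show χ (T (f + g)) = χ (T f) + χ (T g)
      rw [e, map_add]
    · intro r
      have e : T (algebraMap ℂ B r) = r • a0 := hj (by rw [map_smul, hT, Algebra.smul_def])
      show χ (T (algebraMap ℂ B r)) = _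
      rw [e, map_smul, ha0, smul_eq_mul, mul_one]
      rfl
    · ext a
      show χ (T (j a)) = χ a
      have e : T (j a) = a * a0 := hj (by rw [map_mul, hT])
      rw [e, map_mul, ha0, mul_one]
  · push Not at hex
    refine ⟨c, ?_⟩
    ext a
    show c (j a) = χ a
    have h3 := hex (a - algebraMap ℂ A (c (j a))) (by simp)
    rw [map_sub, AlgHom.commutes, sub_eq_zero] at h3
    exact h3.symm

end CH

noncomputable section

/-- increment at one edge -/
def bump (m : Edge → ℕ) (e0 : Edge) : Edge → ℕ := Function.update m e0 (m e0 + 1)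

lemma le_bump (m : Edge → ℕ) (e0 e : Edge) : m e ≤ bump m e0 e := by
  by_cases h : e = e0
  · subst h
    simp [bump]
  · simp [bump, h]

/-- bump function -/
def bet (N : ℕ) (z : ℂ) : ℂ := (z - cc) ^ (N + 1) * (z * (z - 1))

@[fun_prop]
lemma bet_cont (N : ℕ) : Continuous (bet N) := by
  unfold bet
  fun_prop

lemma bet_zero (N : ℕ) : bet N 0 = 0 := by simp [bet]

lemma bet_one (N : ℕ) : bet N 1 = 0 := by simp [bet]

lemma norm_cc : ‖cc‖ ≤ 3/4 := by
  have h := norm_sub_cc (le_refl 0) zero_le_one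
  rw [Complex.ofReal_zero, zero_sub, norm_neg] at h
  exact h.trans (by norm_num)

lemma norm_one_sub_cc : ‖1 - cc‖ ≤ 3/4 := by
  have h := norm_sub_cc zero_le_one (le_refl 1)
  rw [Complex.ofReal_one] at h
  exact h.trans (by norm_num)

lemma bet_bound (N : ℕ) (z : Dsk) : ‖bet N z‖ ≤ 4 := by
  have h1 : ‖(z : ℂ) - cc‖ ≤ 3/4 := by
    have := z.2
    rw [mem_ball, dist_eq_norm] at this
    exact this.le
  have h2 : ‖(z : ℂ)‖ ≤ 2 := by
    have e : (z : ℂ) = (z - cc) + cc := by ring
    rw [e]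
    refine (norm_add_le _ _).trans ?_
    linarith [norm_cc]
  have h3 : ‖(z : ℂ) - 1‖ ≤ 2 := by
    have e : (z : ℂ) - 1 = (z - cc) - (1 - cc) := by ring
    rw [e]
    refine (norm_sub_le _ _).trans ?_
    linarith [norm_one_sub_cc]
  rw [bet, norm_mul, norm_mul, norm_pow]
  have h4 : ‖(z : ℂ) - cc‖ ^ (N + 1) ≤ 1 := pow_le_one₀ (norm_nonneg _) (h1.trans (by norm_num))
  calc ‖(z : ℂ) - cc‖ ^ (N + 1) * (‖(z : ℂ)‖ * ‖(z : ℂ) - 1‖) ≤ 1 * (2 * 2) := by gcongr
    _ = 4 := by norm_num

lemma bet_bound' (N : ℕ) (t : ℝ) : ‖bet N (clamp t : ℝ)‖ ≤ 4 := bet_bound N (seg t)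

/-- the extra function -/
def bfun (m : Edge → ℕ) (e0 : Edge) : YY → ℂ :=
  Sum.elim (fun q => if q.1 = e0 then bet (m e0) q.2 else 0)
    (fun q => (∑ j : Fin 3, if (W q.1 j, j) = e0 then bet (m e0) (clamp (q.2.1 - (j : ℕ)) : ℝ) else 0)
        * ((1 - clamp q.2.2 : ℝ) : ℂ)
      + (∑ j : Fin 3, if (W' q.1 j, j) = e0 then bet (m e0) (clamp (q.2.1 - (j : ℕ)) : ℝ) else 0)
        * ((clamp q.2.2 : ℝ) : ℂ))

lemma bfun_cont (m : Edge → ℕ) (e0 : Edge) : Continuous (bfun m e0) := by
  unfold bfun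
  apply Continuous.sumElim
  · rw [continuous_prod_of_discrete_left]
    intro e
    by_cases h : e = e0
    · simp only [h, if_true]
      fun_prop
    · simp only [h, if_false]
      fun_prop
  · rw [continuous_prod_of_discrete_left]
    intro κ
    refine Continuous.add (Continuous.mul ?_ (by fun_prop)) (Continuous.mul ?_ (by fun_prop))
    · refine continuous_finsetSum _ fun j _ => ?_
      by_cases h : (W κ j, j) = e0
      · simp only [h, if_true]
        fun_prop
      · simp only [h, if_false]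
        fun_prop
    · refine continuous_finsetSum _ fun j _ => ?_
      by_cases h : (W' κ j, j) = e0
      · simp only [h, if_true]
        fun_prop
      · simp only [h, if_false]
        fun_prop

lemma bfun_bound (m : Edge → ℕ) (e0 : Edge) (y : YY) : ‖bfun m e0 y‖ ≤ 24 := by
  rcases y with ⟨e, z⟩ | ⟨κ, t, s⟩
  · simp only [bfun, Sum.elim_inl]
    split_ifs
    · exact (bet_bound _ _).trans (by norm_num)
    · simp
  · simp only [bfun, Sum.elim_inr]
    have hs : ∀ V : Fin 3 → Fin 4, ‖∑ j : Fin 3, if (V j, j) = e0 then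
        bet (m e0) (clamp (t - (j : ℕ)) : ℝ) else 0‖ ≤ 12 := by
      intro V
      refine (norm_sum_le _ _).trans ?_
      refine (Finset.sum_le_card_nsmul _ _ 4 ?_).trans (by simp; norm_num)
      intro j _
      split_ifs
      · exact bet_bound' _ _
      · simp
    refine (norm_add_le _ _).trans ?_
    rw [norm_mul, norm_mul, Complex.norm_real, Complex.norm_real, Real.norm_of_nonneg (clamp_nonneg s),
      Real.norm_of_nonneg (by linarith [clamp_le_one s])]
    have h1 := hs (W κ)
    have h2 := hs (W' κ)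
    have h3 := clamp_nonneg s
    have h4 := clamp_le_one s
    nlinarith [mul_le_mul_of_nonneg_right h1 (show 0 ≤ 1 - clamp s by linarith),
      mul_le_mul_of_nonneg_right h2 h3]

/-- the extra element -/
def bel (m : Edge → ℕ) (e0 : Edge) : YY →ᵇ ℂ :=
  BoundedContinuousFunction.ofNormedAddCommGroup (bfun m e0) (bfun_cont m e0) 24 (bfun_bound m e0)

@[simp] lemma bel_apply (m : Edge → ℕ) (e0 : Edge) (y : YY) : bel m e0 y = bfun m e0 y := rfl

lemma sum_single (V : Fin 3 → Fin 4) (N : ℕ) (e0 : Edge) (m : Fin 3) {τ : ℝ} (h0 : 0 ≤ τ) (h1 : τ ≤ 1) :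
    (∑ j : Fin 3, if (V j, j) = e0 then bet N (clamp (((m : ℕ) : ℝ) + τ - (j : ℕ)) : ℝ) else 0)
      = if (V m, m) = e0 then bet N (clamp τ : ℝ) else 0 := by
  rw [Finset.sum_eq_single m]
  · congr 4
    ring
  · intro j _ hj
    split_ifs
    · rcases lt_or_gt_of_ne hj with h | h
      · rw [clamp_of_ge, Complex.ofReal_one, bet_one]
        have : ((j : ℕ) : ℝ) + 1 ≤ ((m : ℕ) : ℝ) := by exact_mod_cast h
        linarith
      · rw [clamp_of_le, Complex.ofReal_zero, bet_zero]
        have : ((m : ℕ) : ℝ) + 1 ≤ ((j : ℕ) : ℝ) := by exact_mod_cast h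
        linarith
    · rfl
  · intro h
    exact absurd (Finset.mem_univ _) h

lemma bel_mem (m : Edge → ℕ) (e0 : Edge) : bel m e0 ∈ BB m := by
  rw [mem_BB]
  constructor
  · intro e
    by_cases h : e = e0
    · subst h
      refine ⟨fun z => z * (z - 1), by fun_prop, fun z => ?_⟩
      simp [bel_apply, bfun, dp, bet, ctr]
    · refine ⟨fun _ => 0, differentiableOn_const _, fun z => ?_⟩
      simp [bel_apply, bfun, dp, h]
  · intro y y' h
    rw [bel_apply, bel_apply]
    cases h with
    | nodeu i k => simp [bfun, dp, seg, clamp_of_le, bet_zero]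
    | nodew i k => simp [bfun, dp, seg, clamp_of_ge, bet_one]
    | level k => simp [bfun, dp, seg, clamp_of_ge, clamp_of_le, bet_one, bet_zero]
    | bot κ m' τ h0 h1 =>
      simp only [bfun, cp, dp, Sum.elim_inr, Sum.elim_inl]
      rw [sum_single _ _ _ _ h0 h1, clamp_of_le (le_refl 0)]
      simp [seg]
    | top κ m' τ h0 h1 =>
      simp only [bfun, cp, dp, Sum.elim_inr, Sum.elim_inl]
      rw [sum_single _ _ _ _ h0 h1, sum_single _ _ _ _ h0 h1, clamp_of_ge (le_refl 1)]
      simp [seg]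
    | left κ s =>
      have key : ∀ V : Fin 3 → Fin 4, (∑ j : Fin 3, if (V j, j) = e0 then
          bet (m e0) (clamp ((0:ℝ) - (j : ℕ)) : ℝ) else 0) = 0 := by
        intro V
        apply Finset.sum_eq_zero
        intro j _
        split_ifs
        · rw [clamp_of_le, Complex.ofReal_zero, bet_zero]
          have : (0:ℝ) ≤ ((j : ℕ) : ℝ) := by positivity
          linarith
        · rfl
      simp only [bfun, cp, Sum.elim_inr, key, zero_mul]
    | right κ s =>
      have key : ∀ V : Fin 3 → Fin 4, (∑ j : Fin 3, if (V j, j) = e0 then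
          bet (m e0) (clamp ((3:ℝ) - (j : ℕ)) : ℝ) else 0) = 0 := by
        intro V
        apply Finset.sum_eq_zero
        intro j _
        split_ifs
        · rw [clamp_of_ge, Complex.ofReal_one, bet_one]
          have : ((j : ℕ) : ℝ) + 1 ≤ 3 := by exact_mod_cast j.2
          linarith
        · rfl
      simp only [bfun, cp, Sum.elim_inr, key, zero_mul]

lemma cc_mul : cc * (cc - 1) = -1/2 := by
  apply Complex.ext
  · simp [cc]
    norm_num
  · simp [cc]
    norm_num

lemma bel_not_mem (m : Edge → ℕ) (e0 : Edge) : bel m e0 ∉ BB (bump m e0) := by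
  intro h
  obtain ⟨G, hG, hG'⟩ := h.1 e0
  have hb : bump m e0 e0 = m e0 + 1 := by simp [bump]
  have h1 : ∀ z ∈ ball cc RR, z ≠ cc → z * (z - 1) = (z - cc) * G z := by
    intro z hz hne
    have h2 := hG' ⟨z, hz⟩
    simp only [bel_apply, bfun, dp, Sum.elim_inl, if_true, bet, ctr, hb, sub_self] at h2
    have h3 : (z - cc) ^ (m e0 + 1) ≠ 0 := pow_ne_zero _ (sub_ne_zero.2 hne)
    apply mul_left_cancel₀ h3
    rw [h2]
    ring
  have hcc : cc ∈ ball cc RR := mem_ball_self RR_pos
  have hlim1 : Tendsto (fun z : ℂ => z * (z - 1)) (𝓝[≠] cc) (𝓝 (cc * (cc - 1))) := by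
    apply Tendsto.mono_left _ nhdsWithin_le_nhds
    exact (by fun_prop : Continuous fun z : ℂ => z * (z - 1)).tendsto cc
  have hlim2 : Tendsto (fun z : ℂ => (z - cc) * G z) (𝓝[≠] cc) (𝓝 ((cc - cc) * G cc)) := by
    apply Tendsto.mono_left _ nhdsWithin_le_nhds
    have hc : ContinuousAt G cc := (hG.differentiableAt (isOpen_ball.mem_nhds hcc)).continuousAt
    exact ((continuous_id.sub continuous_const).tendsto cc).mul hc
  have hev : (fun z : ℂ => z * (z - 1)) =ᶠ[𝓝[≠] cc] fun z : ℂ => (z - cc) * G z := by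
    filter_upwards [nhdsWithin_le_nhds (isOpen_ball.mem_nhds hcc), self_mem_nhdsWithin] with z hz hne
    exact h1 z hz hne
  have := tendsto_nhds_unique hlim1 (hlim2.congr' hev.symm)
  rw [cc_mul, sub_self, zero_mul] at this
  norm_num at this

lemma bel_span (m : Edge → ℕ) (e0 : Edge) {f : YY →ᵇ ℂ} (hf : f ∈ BB m) :
    ∃ lam : ℂ, f - lam • bel m e0 ∈ BB (bump m e0) := by
  obtain ⟨G, hG, hG'⟩ := hf.1 e0
  refine ⟨-2 * G cc, ?_, ?_⟩
  · intro e
    by_cases h : e = e0
    · subst h
      have hcc : cc ∈ ball cc RR := mem_ball_self RR_pos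
      have hd : DifferentiableOn ℂ (fun z => G z - (-2 * G cc) * (z * (z - 1))) (ball cc RR) :=
        hG.sub (by fun_prop)
      have h0 : G cc - (-2 * G cc) * (cc * (cc - 1)) = 0 := by
        rw [cc_mul]
        ring
      refine ⟨dslope (fun z => G z - (-2 * G cc) * (z * (z - 1))) cc, ?_, fun z => ?_⟩
      · exact (Complex.differentiableOn_dslope (isOpen_ball.mem_nhds hcc)).2 hd
      · have hs : ((z : ℂ) - cc) * dslope (fun z => G z - (-2 * G cc) * (z * (z - 1))) cc z
            = G z - (-2 * G cc) * (z * (z - 1)) := by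
          have := sub_smul_dslope (fun z => G z - (-2 * G cc) * (z * (z - 1))) cc (z : ℂ)
          rw [smul_eq_mul] at this
          rw [this, h0, sub_zero]
        have hb : bump m e e = m e + 1 := by simp [bump]
        rw [hb, pow_succ, mul_assoc, hs]
        simp only [BoundedContinuousFunction.sub_apply, BoundedContinuousFunction.smul_apply, bel_apply,
          smul_eq_mul]
        rw [hG' z]
        simp only [bfun, dp, Sum.elim_inl, if_true, bet, ctr, sub_self]
        ring
    · have hb : bump m e0 e = m e := by simp [bump, h]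
      obtain ⟨F, hF, hF'⟩ := hf.1 e
      refine ⟨F, hF, fun z => ?_⟩
      rw [hb]
      simp only [BoundedContinuousFunction.sub_apply, BoundedContinuousFunction.smul_apply, bel_apply,
          smul_eq_mul]
      rw [hF' z]
      simp [bfun, dp, h]
  · intro y y' h
    simp only [BoundedContinuousFunction.sub_apply, BoundedContinuousFunction.smul_apply]
    rw [hf.2 y y' h, (bel_mem m e0).2 y y' h]

lemma mul_mem_bump (m : Edge → ℕ) (e0 : Edge) {a f : YY →ᵇ ℂ} (ha : a ∈ BB (bump m e0))
    (ha0 : a (dp e0 ctr) = 0) (hf : f ∈ BB m) : f * a ∈ BB (bump m e0) := by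
  refine ⟨?_, ?_⟩
  · intro e
    obtain ⟨F, hF, hF'⟩ := ha.1 e
    obtain ⟨G, hG, hG'⟩ := hf.1 e
    by_cases h : e = e0
    · subst h
      refine ⟨fun z => (f (dp e ctr) + (z - cc) ^ (m e + 1) * G z) * F z, ?_, fun z => ?_⟩
      · refine DifferentiableOn.mul ?_ hF
        refine DifferentiableOn.add (differentiableOn_const _) ?_
        exact (((differentiable_id.sub_const _).pow _).differentiableOn).mul hG
      · rw [BoundedContinuousFunction.mul_apply, BoundedContinuousFunction.mul_apply, ha0, hF' z,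
          hG' z, ha0]
        ring
    · have hb : bump m e0 e = m e := by simp [bump, h]
      rw [hb] at hF' ⊢
      refine ⟨fun z => a (dp e ctr) * G z + f (dp e ctr) * F z + (z - cc) ^ (m e + 1) * F z * G z, ?_,
        fun z => ?_⟩
      · refine DifferentiableOn.add (DifferentiableOn.add (hG.const_mul _) (hF.const_mul _)) ?_
        refine DifferentiableOn.mul (DifferentiableOn.mul ?_ hF) hG
        exact ((differentiable_id.sub_const _).pow _).differentiableOn
      · rw [BoundedContinuousFunction.mul_apply, BoundedContinuousFunction.mul_apply, hF', hG']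
        ring
  · intro y y' h
    rw [BoundedContinuousFunction.mul_apply, BoundedContinuousFunction.mul_apply, hf.2 y y' h,
      ha.2 y y' h]

lemma sq_mem_bump (m : Edge → ℕ) (e0 : Edge) {f : YY →ᵇ ℂ} (hf : f ∈ BB m)
    (hf0 : f (dp e0 ctr) = 0) : f ^ 2 ∈ BB (bump m e0) := by
  refine ⟨?_, ?_⟩
  · intro e
    obtain ⟨G, hG, hG'⟩ := hf.1 e
    by_cases h : e = e0
    · subst h
      refine ⟨fun z => (z - cc) ^ (m e) * G z ^ 2, ?_, fun z => ?_⟩
      · exact (((differentiable_id.sub_const _).pow _).differentiableOn).mul (hG.pow _)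
      · have hb : bump m e e = m e + 1 := by simp [bump]
        rw [hb, BoundedContinuousFunction.coe_pow, Pi.pow_apply, Pi.pow_apply, hf0, hG' z, hf0]
        ring
    · have hb : bump m e0 e = m e := by simp [bump, h]
      rw [hb]
      refine ⟨fun z => 2 * f (dp e ctr) * G z + (z - cc) ^ (m e + 1) * G z ^ 2, ?_, fun z => ?_⟩
      · refine DifferentiableOn.add (hG.const_mul _) ?_
        exact (((differentiable_id.sub_const _).pow _).differentiableOn).mul (hG.pow _)
      · rw [BoundedContinuousFunction.coe_pow, Pi.pow_apply, Pi.pow_apply, hG' z]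
        ring
  · intro y y' h
    rw [BoundedContinuousFunction.coe_pow, Pi.pow_apply, Pi.pow_apply, hf.2 y y' h]

/-- restriction of characters along one increment is bijective -/
theorem restr_bij (m : Edge → ℕ) (e0 : Edge) :
    Function.Bijective (fun χ : BB m →ₐ[ℂ] ℂ =>
      χ.comp (Subalgebra.inclusion (BB_mono (le_bump m e0)))) := by
  have h1 : ∀ (a : BB (bump m e0)) (f : BB m), ev m (dp e0 ctr)
      (Subalgebra.inclusion (BB_mono (le_bump m e0)) a) = 0 →
      ∃ a', Subalgebra.inclusion (BB_mono (le_bump m e0)) a'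
        = f * Subalgebra.inclusion (BB_mono (le_bump m e0)) a := by
    intro a f ha
    exact ⟨⟨f.1 * a.1, mul_mem_bump m e0 a.2 ha f.2⟩, rfl⟩
  refine ⟨restr_inj _ (ev m (dp e0 ctr)) h1 ?_,
    restr_surj _ (ev m (dp e0 ctr)) (Subalgebra.inclusion_injective _) h1⟩
  intro f
  refine ⟨⟨(f - algebraMap ℂ (BB m) (ev m (dp e0 ctr) f)).1 ^ 2, ?_⟩, rfl⟩
  apply sq_mem_bump
  · exact (f - algebraMap ℂ (BB m) (ev m (dp e0 ctr) f)).2
  · show f.1 (dp e0 ctr) - _ = 0
    simp

end

end Pool.Agent.Helper503.WAC
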