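import Mathlib
import Pool.Agent.Helper503.WE

open Metric Set Filter Topology BoundedContinuousFunction WeakDual

namespace Pool.Agent.Helper503.WAC

noncomputable section

lemma const_of_01 {Z : Type*} [TopologicalSpace Z] [PreconnectedSpace Z] {g : Z → ℂ} (hg : Continuous g)
    (h : ∀ z, g z = 0 ∨ g z = 1) : ∀ z z', g z = g z' := by
  have hd : IsDiscrete ({0, 1} : Set ℂ) := (Set.toFinite _).isDiscrete
  obtain ⟨y, _, hy⟩ := (isPreconnected_univ (α := Z)).eqOn_const_of_mapsTo hd
    hg.continuousOn (fun z _ => by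
      rcases h z with h | h
      · rw [h]; simp
      · rw [h]; simp) ⟨0, by simp⟩
  intro z z'
  rw [hy (mem_univ z), hy (mem_univ z')]
  rfl

lemma const_glued {g : YY → ℂ} (hg : Continuous g) (h : ∀ y, g y = 0 ∨ g y = 1)
    (hG : ∀ y y', Glue y y' → g y = g y') : ∀ y, g y = g (dp (0, 0) (seg 0)) := by
  have hd : ∀ e z z', g (dp e z) = g (dp e z') := fun e z z' =>
    const_of_01 (hg.comp (dp_cont e)) (fun z => h _) z z'
  have hc : ∀ κ t s, g (cp κ t s) = g (cp κ 0 0) := fun κ t s =>
    const_of_01 (hg.comp (cp_cont κ)) (fun z => h _) (t, s) (0, 0)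
  have h0 : g (dp (0, 1) (seg 0)) = g (dp (0, 0) (seg 0)) := by
    have := hG _ _ (Glue.level 0)
    simp only [Fin.isValue, Fin.castSucc_zero, Fin.succ_zero_eq_one] at this
    rw [← this]
    exact hd _ _ _
  have h1 : g (dp (0, 2) (seg 0)) = g (dp (0, 0) (seg 0)) := by
    have := hG _ _ (Glue.level 1)
    simp only [Fin.isValue, Fin.castSucc_one, Fin.succ_one_eq_two] at this
    rw [← this, hd _ _ (seg 0)]
    exact h0
  have hk : ∀ k, g (dp (0, k) (seg 0)) = g (dp (0, 0) (seg 0)) := by
    intro k
    fin_cases k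
    · rfl
    · exact h0
    · exact h1
  have hdd : ∀ e z, g (dp e z) = g (dp (0, 0) (seg 0)) := by
    rintro ⟨i, k⟩ z
    rw [hd _ z (seg 0), hG _ _ (Glue.nodeu i k), hk]
  rintro (⟨e, z⟩ | ⟨κ, t, s⟩)
  · exact hdd e z
  · show g (cp κ t s) = _
    rw [hc]
    have := hG _ _ (Glue.bot κ 0 0 le_rfl zero_le_one)
    simp only [Fin.isValue, Fin.val_zero, Nat.cast_zero, add_zero] at this
    rw [this]
    exact hdd _ _

/-- evaluation as a character -/
def evc (m : Edge → ℕ) (y : YY) : characterSpace ℂ (BB m) := CharacterSpace.equivAlgHom.symm (ev m y)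

@[simp] lemma evc_apply (m : Edge → ℕ) (y : YY) (f : BB m) : evc m y f = f.1 y := rfl

theorem conn (m : Edge → ℕ) : ConnectedSpace (characterSpace ℂ (BB m)) := by
  have hne : Nonempty (characterSpace ℂ (BB m)) := ⟨evc m (dp (0, 0) (seg 0))⟩
  have hp : PreconnectedSpace (characterSpace ℂ (BB m)) := by
    rw [preconnectedSpace_iff_clopen]
    intro V hV
    have hbot : Shilov.hull (⊥ : Ideal (BB m)) = univ := by
      ext χ
      simp [Shilov.hull]
    obtain ⟨k, hk1, hk0⟩ := Shilov.shilov (⊥ : Ideal (BB m)) V (by rw [hbot]; exact subset_univ _)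
      hV.1 (by rw [hbot, ← compl_eq_univ_sdiff]; exact hV.2.isClosed_compl)
    rw [hbot, ← compl_eq_univ_sdiff] at hk0
    have h01 : ∀ y, k.1 y = 0 ∨ k.1 y = 1 := by
      intro y
      by_cases h : evc m y ∈ V
      · right
        exact hk1 _ h
      · left
        exact hk0 _ h
    have hconst := const_glued k.1.continuous h01 k.2.2
    rcases h01 (dp (0, 0) (seg 0)) with h | h
    · left
      have hk : k = 0 := by
        apply Subtype.ext
        ext y
        rw [hconst y, h]
        rfl
      rw [eq_empty_iff_forall_notMem]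
      intro χ hχ
      have := hk1 χ hχ
      rw [hk, map_zero] at this
      exact zero_ne_one this
    · right
      have hk : k = 1 := by
        apply Subtype.ext
        ext y
        rw [hconst y, h]
        rfl
      rw [eq_univ_iff_forall]
      intro χ
      by_contra hχ
      have := hk0 χ hχ
      rw [hk, map_one] at this
      exact one_ne_zero this
  exact { hp with toNonempty := hne }

end

end Pool.Agent.Helper503.WAC
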