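import Mathlib

open Polynomial

namespace Pool.Agent.Helper503.WAC

theorem isUnit_discr_iff {R : Type*} [CommRing R] {p : R[X]} (hm : p.Monic) (hd : 0 < p.natDegree) :
    IsUnit p.discr ↔ p.Separable := by
  have h1 := resultant_deriv (f := p) (natDegree_pos_iff_degree_pos.1 hd)
  have h2 : resultant p (derivative p) p.natDegree (p.natDegree - 1) = resultant p (derivative p) := by
    have hle : (derivative p).natDegree ≤ p.natDegree - 1 := natDegree_derivative_le p
    obtain ⟨k, hk⟩ := Nat.exists_eq_add_of_le hle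
    have h3 := resultant_add_right_deg p (derivative p) p.natDegree (derivative p).natDegree k le_rfl
    rw [hk, h3, coeff_natDegree, hm.leadingCoeff, one_pow, one_mul]
  rw [h2, hm.leadingCoeff, mul_one] at h1
  rw [Polynomial.Separable, ← isUnit_resultant_iff_isCoprime hm, h1]
  constructor
  · intro h
    exact ((isUnit_one.neg).pow _).mul h
  · intro h
    exact isUnit_of_mul_isUnit_right h

/-- every separable monic polynomial of positive degree has a root -/
def HasRt (R : Type*) [CommRing R] : Prop :=
  ∀ p : R[X], p.Monic → p.Separable → 0 < p.natDegree → ∃ b, p.eval b = 0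

lemma hasRt_of_fac {R : Type*} [CommRing R]
    (h : ∀ p : R[X], p.Monic → 1 < p.natDegree → IsUnit p.discr →
      ∃ q r : R[X], q.Monic ∧ r.Monic ∧ 0 < q.natDegree ∧ 0 < r.natDegree ∧ p = q * r) : HasRt R := by
  have key : ∀ n : ℕ, ∀ p : R[X], p.natDegree = n → p.Monic → p.Separable → 0 < p.natDegree →
      ∃ b, p.eval b = 0 := by
    intro n
    induction n using Nat.strong_induction_on with
    | _ n ih =>
      intro p hpn hm hs hd
      by_cases h1 : 1 < p.natDegree
      · obtain ⟨q, r, hq, hr, hq0, hr0, e⟩ := h p hm h1 ((isUnit_discr_iff hm hd).2 hs)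
        have hdeg : p.natDegree = q.natDegree + r.natDegree := by rw [e, hq.natDegree_mul hr]
        rw [e] at hs
        obtain ⟨b, hb⟩ := ih q.natDegree (by omega) q rfl hq hs.of_mul_left hq0
        exact ⟨b, by rw [e, eval_mul, hb, zero_mul]⟩
      · have h2 : p.natDegree = 1 := by omega
        refine ⟨-p.coeff 0, ?_⟩
        have h3 := eq_X_add_C_of_natDegree_le_one h2.le
        have h4 : p.coeff 1 = 1 := by rw [← h2]; exact hm.coeff_natDegree
        rw [h4, C_1, one_mul] at h3
        rw [h3]
        simp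
  intro p hm hs hd
  exact key _ p rfl hm hs hd

lemma fac_of_hasRt {R : Type*} [CommRing R] [Nontrivial R] (h : HasRt R) :
    ∀ p : R[X], p.Monic → 1 < p.natDegree → IsUnit p.discr →
      ∃ q r : R[X], q.Monic ∧ r.Monic ∧ 0 < q.natDegree ∧ 0 < r.natDegree ∧ p = q * r := by
  intro p hm hd hu
  obtain ⟨b, hb⟩ := h p hm ((isUnit_discr_iff hm (by omega)).1 hu) (by omega)
  obtain ⟨r, hr⟩ := dvd_iff_isRoot.2 (show p.IsRoot b from hb)
  have hX : (X - C b : R[X]).Monic := monic_X_sub_C b
  have hrm : r.Monic := hX.of_mul_monic_left (by rw [← hr]; exact hm)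
  have hdeg : p.natDegree = 1 + r.natDegree := by
    conv_lhs => rw [hr, hX.natDegree_mul hrm, natDegree_X_sub_C]
  exact ⟨X - C b, r, hX, hrm, by rw [natDegree_X_sub_C]; exact one_pos, by omega, hr⟩

end Pool.Agent.Helper503.WAC
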