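import Mathlib
import Pool.Agent.Helper503.WD
import Pool.Agent.Helper503.WC
import Pool.Agent.Helper503.WH

open Metric Set Filter Topology Polynomial
open scoped BoundedContinuousFunction

namespace Pool.Agent.Helper503.WAC

noncomputable section

/-- displacement of the half twist -/
def dl (w : Fin 4) (P : Fin 5) : ℝ := if P = w.castSucc then 1 else if P = w.succ then -1 else 0

lemma coll2 (w : Fin 4) (P Q : Fin 5) (hPQ : P ≠ Q) {d : ℝ} (h : (P : ℝ) + dl w P * d = Q + dl w Q * d)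
    (h1 : -5/8 ≤ d) (h2 : d ≤ 13/8) :
    d = 1/2 ∧ ((P = w.castSucc ∧ Q = w.succ) ∨ (P = w.succ ∧ Q = w.castSucc)) := by
  fin_cases w <;> fin_cases P <;> fin_cases Q <;>
    first
      | exact absurd rfl hPQ
      | (exfalso; simp [dl, Fin.ext_iff] at h; done)
      | (exfalso; simp [dl, Fin.ext_iff] at h; linarith)
      | (refine ⟨?_, by decide⟩; simp [dl, Fin.ext_iff] at h; linarith)

/-- the motion -/
def phi (z : ℂ) : ℂ := z - Complex.I * (z * (1 - z))

@[fun_prop]
lemma phi_cont : Continuous phi := by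
  unfold phi
  fun_prop

lemma phi_ne {z : ℂ} (hz : z ∈ closedBall cc RR) {d : ℝ} (h : phi z = d) :
    -5/8 ≤ d ∧ d ≤ 13/8 ∧ d ≠ 1/2 := by
  have h1 : ‖z - cc‖ ^ 2 ≤ (3/4 : ℝ) ^ 2 := by
    rw [mem_closedBall, dist_eq_norm] at hz
    have : ‖z - cc‖ ≤ 3/4 := hz
    gcongr
  rw [← Complex.normSq_eq_norm_sq, Complex.normSq_apply] at h1
  simp only [cc, Complex.sub_re, Complex.sub_im] at h1
  have hre := congrArg Complex.re h
  have him := congrArg Complex.im h
  simp [phi] at hre him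
  obtain ⟨x, ex⟩ : ∃ x, z.re = x + 1/2 := ⟨z.re - 1/2, by ring⟩
  obtain ⟨y, ey⟩ : ∃ y, z.im = y + 1/2 := ⟨z.im - 1/2, by ring⟩
  rw [ex, ey] at hre him h1
  have e1 : x ^ 2 = y ^ 2 := by nlinarith
  have e2 : d - 1/2 = -2 * (x * y) := by nlinarith
  have e3 : x ^ 2 + (y + 1) ^ 2 ≤ 9/16 := by nlinarith
  have e4 : x ^ 2 ≤ 9/16 := by nlinarith [sq_nonneg (y + 1)]
  have e5 : y ≠ 0 := by
    rintro h0
    rw [h0] at e3
    nlinarith [sq_nonneg x]
  have e6 : (x - y) ^ 2 ≤ 9/4 ∧ (x + y) ^ 2 ≤ 9/4 := by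
    constructor
    · nlinarith [sq_nonneg (x + y)]
    · nlinarith [sq_nonneg (x - y)]
  refine ⟨?_, ?_, ?_⟩
  · nlinarith [sq_nonneg (x - y)]
  · nlinarith [sq_nonneg (x + y)]
  · intro hd
    have e7 : x * y = 0 := by linarith
    rcases mul_eq_zero.1 e7 with h0 | h0
    · apply e5
      rw [h0] at e1
      have : y ^ 2 = 0 := by rw [← e1]; ring
      exact pow_eq_zero_iff (two_ne_zero) |>.1 this
    · exact e5 h0

lemma disc_ne {z : ℂ} (hz : z ∈ closedBall cc RR) (w : Fin 4) {P Q : Fin 5} (hPQ : P ≠ Q) :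
    (P : ℂ) + dl w P * phi z ≠ Q + dl w Q * phi z := by
  intro h
  have hne : dl w P ≠ dl w Q := by
    intro h0
    rw [h0] at h
    have : (P : ℂ) = (Q : ℂ) := by linear_combination h
    apply hPQ
    have h2 : ((P : ℕ) : ℂ) = ((Q : ℕ) : ℂ) := this
    exact Fin.ext (by exact_mod_cast h2)
  have hne' : dl w P - dl w Q ≠ 0 := sub_ne_zero.2 hne
  have hφ : phi z = (((Q : ℝ) - P) / (dl w P - dl w Q) : ℝ) := by
    push_cast
    rw [eq_div_iff (by exact_mod_cast hne')]
    linear_combination h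
  obtain ⟨h1, h2, h3⟩ := phi_ne hz hφ
  refine h3 (coll2 w P Q hPQ ?_ h1 h2).1
  field_simp
  ring

/-- the transposition of a letter -/
def sw (w : Fin 4) : Equiv.Perm (Fin 5) := Equiv.swap w.castSucc w.succ

lemma sw_val (w : Fin 4) (P : Fin 5) : ((sw w P : Fin 5) : ℝ) = P + dl w P := by
  fin_cases w <;> fin_cases P <;> simp [sw, dl, Fin.ext_iff, Equiv.swap_apply_def] <;> norm_num

/-- position after some letters -/
def pos (V : Fin 3 → Fin 4) : ℕ → Equiv.Perm (Fin 5)
  | 0 => 1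
  | 1 => sw (V 0)
  | 2 => sw (V 1) * sw (V 0)
  | _ => sw (V 2) * sw (V 1) * sw (V 0)

lemma pos_end : ∀ κ, pos (W κ) 3 = pos (W' κ) 3 := by
  decide +kernel

lemma pos_red : ∀ κ (m : Fin 3) a b, pos (W κ) m a = (W κ m).castSucc → pos (W κ) m b = (W κ m).succ →
    pos (W κ) 3 b < pos (W κ) 3 a := by
  decide +kernel

lemma pos_red' : ∀ κ (m : Fin 3) a b, pos (W' κ) m a = (W' κ m).castSucc →
    pos (W' κ) m b = (W' κ m).succ → pos (W' κ) 3 b < pos (W' κ) 3 a := by
  decide +kernel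

/-- real part of the motion of the word -/
def xr (V : Fin 3 → Fin 4) (a : Fin 5) (t : ℝ) : ℝ :=
  a + dl (V 0) (pos V 0 a) * clamp t + dl (V 1) (pos V 1 a) * clamp (t - 1)
    + dl (V 2) (pos V 2 a) * clamp (t - 2)

/-- imaginary part of the motion of the word -/
def xi (V : Fin 3 → Fin 4) (a : Fin 5) (t : ℝ) : ℝ :=
  -(dl (V 0) (pos V 0 a) * (clamp t * (1 - clamp t))
    + dl (V 1) (pos V 1 a) * (clamp (t - 1) * (1 - clamp (t - 1)))
    + dl (V 2) (pos V 2 a) * (clamp (t - 2) * (1 - clamp (t - 2))))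

@[fun_prop]
lemma xr_cont (V : Fin 3 → Fin 4) (a : Fin 5) : Continuous (xr V a) := by
  unfold xr
  fun_prop

@[fun_prop]
lemma xi_cont (V : Fin 3 → Fin 4) (a : Fin 5) : Continuous (xi V a) := by
  unfold xi
  fun_prop

lemma x_eq (V : Fin 3 → Fin 4) (a : Fin 5) (m : Fin 3) {τ : ℝ} (h0 : 0 ≤ τ) (h1 : τ ≤ 1) :
    xr V a ((m : ℕ) + τ) = pos V m a + dl (V m) (pos V m a) * τ ∧
    xi V a ((m : ℕ) + τ) = -(dl (V m) (pos V m a) * (τ * (1 - τ))) := by
  fin_cases m
  · have e0 : clamp ((0 : ℕ) + τ) = τ := clamp_of_mem (by simpa using h0) (by simpa using h1) |>.trans (by simp)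
    have e1 : clamp ((0 : ℕ) + τ - 1) = 0 := clamp_of_le (by push_cast; linarith)
    have e2 : clamp ((0 : ℕ) + τ - 2) = 0 := clamp_of_le (by push_cast; linarith)
    constructor
    · simp only [xr, e0, e1, e2, mul_zero, add_zero]
      simp [pos]
    · simp only [xi, e0, e1, e2, mul_zero, add_zero, zero_mul]
      rfl
  · have e0 : clamp ((1 : ℕ) + τ) = 1 := clamp_of_ge (by push_cast; linarith)
    have e1 : clamp ((1 : ℕ) + τ - 1) = τ := by
      have : ((1 : ℕ) : ℝ) + τ - 1 = τ := by push_cast; ring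
      rw [this]
      exact clamp_of_mem h0 h1
    have e2 : clamp ((1 : ℕ) + τ - 2) = 0 := clamp_of_le (by push_cast; linarith)
    constructor
    · simp only [xr, e0, e1, e2, mul_zero, add_zero, mul_one]
      have := sw_val (V 0) a
      simp only [pos, Equiv.Perm.coe_one, id_eq]
      rw [this]
      rfl
    · simp only [xi, e0, e1, e2, mul_zero, add_zero, zero_mul, sub_self, zero_add]
      rfl
  · have e0 : clamp ((2 : ℕ) + τ) = 1 := clamp_of_ge (by push_cast; linarith)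
    have e1 : clamp ((2 : ℕ) + τ - 1) = 1 := clamp_of_ge (by push_cast; linarith)
    have e2 : clamp ((2 : ℕ) + τ - 2) = τ := by
      have : ((2 : ℕ) : ℝ) + τ - 2 = τ := by push_cast; ring
      rw [this]
      exact clamp_of_mem h0 h1
    constructor
    · simp only [xr, e0, e1, e2, mul_one]
      have h1 := sw_val (V 0) a
      have h2 := sw_val (V 1) (sw (V 0) a)
      simp only [pos, Equiv.Perm.coe_one, id_eq, Equiv.Perm.coe_mul, Function.comp_apply]
      rw [h2, h1]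
      rfl
    · simp only [xi, e0, e1, e2, mul_zero, zero_add, sub_self]
      rfl

lemma dl_cast (w : Fin 4) : dl w w.castSucc = 1 := by simp [dl]

lemma dl_succ (w : Fin 4) : dl w w.succ = -1 := by
  have : w.succ ≠ w.castSucc := by
    intro h
    have := congrArg Fin.val h
    simp at this
  simp [dl, this]

lemma pos_real {V : Fin 3 → Fin 4} {m : ℕ} {a b : Fin 5}
    (h : ((pos V m a : Fin 5) : ℝ) = ((pos V m b : Fin 5) : ℝ)) : a = b := by
  have h2 : ((pos V m a : Fin 5) : ℕ) = ((pos V m b : Fin 5) : ℕ) := by exact_mod_cast h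
  exact (pos V m).injective (Fin.ext h2)

lemma claim {V : Fin 3 → Fin 4}
    (hred : ∀ (m : Fin 3) a b, pos V m a = (V m).castSucc → pos V m b = (V m).succ →
      pos V 3 b < pos V 3 a)
    {a b : Fin 5} (hab : a ≠ b) {t : ℝ} (h0 : 0 ≤ t) (h3 : t ≤ 3) (h : xr V a t = xr V b t) :
    0 < (xi V a t - xi V b t) * (((pos V 3 b : Fin 5) : ℝ) - ((pos V 3 a : Fin 5) : ℝ)) := by
  obtain ⟨m, τ, hτ0, hτ1, rfl⟩ : ∃ (m : Fin 3) (τ : ℝ), 0 ≤ τ ∧ τ ≤ 1 ∧ t = (m : ℕ) + τ := by
    rcases le_total t 1 with h1 | h1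
    · exact ⟨0, t, h0, h1, by simp⟩
    rcases le_total t 2 with h2 | h2
    · exact ⟨1, t - 1, by linarith, by linarith, by simp⟩
    · exact ⟨2, t - 2, by linarith, by linarith, by norm_num⟩
  obtain ⟨e1, e2⟩ := x_eq V a m hτ0 hτ1
  obtain ⟨e3, e4⟩ := x_eq V b m hτ0 hτ1
  rw [e1, e3] at h
  have hne : pos V m a ≠ pos V m b := fun h => hab ((pos V m).injective h)
  obtain ⟨hτ, hc⟩ := coll2 (V m) _ _ hne h (by linarith) (by linarith)
  rw [e2, e4, hτ]
  rcases hc with ⟨ha, hb⟩ | ⟨ha, hb⟩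
  · rw [ha, hb, dl_cast, dl_succ]
    have h5 := hred m a b ha hb
    have h6 : ((pos V 3 b : Fin 5) : ℝ) < ((pos V 3 a : Fin 5) : ℝ) := by exact_mod_cast h5
    nlinarith
  · rw [ha, hb, dl_cast, dl_succ]
    have h5 := hred m b a hb ha
    have h6 : ((pos V 3 a : Fin 5) : ℝ) < ((pos V 3 b : Fin 5) : ℝ) := by exact_mod_cast h5
    nlinarith

lemma xr_zero (V : Fin 3 → Fin 4) (a : Fin 5) : xr V a 0 = a := by
  have := (x_eq V a 0 (le_refl 0) zero_le_one).1
  simpa [pos] using this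

lemma xr_three (V : Fin 3 → Fin 4) (a : Fin 5) : xr V a 3 = pos V 3 a := by
  have := (x_eq V a 2 zero_le_one (le_refl 1)).1
  have e : (((2 : Fin 3) : ℕ) : ℝ) + 1 = 3 := by norm_num
  rw [e] at this
  rw [this, mul_one]
  exact (sw_val (V 2) (pos V 2 a)).symm

lemma xi_zero (V : Fin 3 → Fin 4) (a : Fin 5) : xi V a 0 = 0 := by
  have := (x_eq V a 0 (le_refl 0) zero_le_one).2
  simpa using this

lemma xi_three (V : Fin 3 → Fin 4) (a : Fin 5) : xi V a 3 = 0 := by
  have := (x_eq V a 2 zero_le_one (le_refl 1)).2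
  have e : (((2 : Fin 3) : ℕ) : ℝ) + 1 = 3 := by norm_num
  rw [e] at this
  rw [this]
  ring

/-- real part of the homotopy -/
def Fre (κ : Fin 9) (a : Fin 5) (t s : ℝ) : ℝ :=
  (1 - clamp (3 * s - 1)) * xr (W κ) a t + clamp (3 * s - 1) * xr (W' κ) a t

/-- the vertical separation parameter -/
def ll (s : ℝ) : ℝ := min (clamp (3 * s)) (clamp (3 * (1 - s)))

/-- imaginary part of the homotopy -/
def Fim (κ : Fin 9) (a : Fin 5) (t s : ℝ) : ℝ :=
  (1 - ll s) * ((1 - clamp (3 * s - 1)) * xi (W κ) a t + clamp (3 * s - 1) * xi (W' κ) a t)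
    - ll s * (t * (3 - t)) * pos (W κ) 3 a

/-- the homotopy -/
def FF (κ : Fin 9) (a : Fin 5) (t s : ℝ) : ℂ := (Fre κ a t s : ℂ) + Fim κ a t s * Complex.I

lemma FF_cont (κ : Fin 9) (a : Fin 5) : Continuous fun q : ℝ × ℝ => FF κ a q.1 q.2 := by
  unfold FF Fre Fim ll
  fun_prop

lemma FF_re (κ : Fin 9) (a : Fin 5) (t s : ℝ) : (FF κ a t s).re = Fre κ a t s := by simp [FF]

lemma FF_im (κ : Fin 9) (a : Fin 5) (t s : ℝ) : (FF κ a t s).im = Fim κ a t s := by simp [FF]

lemma Fre_zero (κ : Fin 9) (a : Fin 5) (s : ℝ) : Fre κ a 0 s = a := by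
  rw [Fre, xr_zero, xr_zero]
  ring

lemma Fre_three (κ : Fin 9) (a : Fin 5) (s : ℝ) : Fre κ a 3 s = pos (W κ) 3 a := by
  rw [Fre, xr_three, xr_three, ← pos_end]
  ring

lemma Fim_zero (κ : Fin 9) (a : Fin 5) (s : ℝ) : Fim κ a 0 s = 0 := by
  rw [Fim, xi_zero, xi_zero]
  ring

lemma Fim_three (κ : Fin 9) (a : Fin 5) (s : ℝ) : Fim κ a 3 s = 0 := by
  rw [Fim, xi_three, xi_three]
  ring

lemma ll_nonneg (s : ℝ) : 0 ≤ ll s := le_min (clamp_nonneg _) (clamp_nonneg _)

lemma ll_le_one (s : ℝ) : ll s ≤ 1 := (min_le_left _ _).trans (clamp_le_one _)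

lemma cell_ne (κ : Fin 9) {a b : Fin 5} (hab : a ≠ b) {t s : ℝ} (h0 : 0 ≤ t) (h3 : t ≤ 3) :
    FF κ a t s ≠ FF κ b t s := by
  intro h
  have hre : Fre κ a t s = Fre κ b t s := by rw [← FF_re, ← FF_re, h]
  have him : Fim κ a t s = Fim κ b t s := by rw [← FF_im, ← FF_im, h]
  rcases eq_or_lt_of_le (ll_le_one s) with hl | hl
  · rcases eq_or_lt_of_le h0 with ht | ht
    · rw [← ht, Fre_zero, Fre_zero] at hre
      exact hab (Fin.ext (by exact_mod_cast hre))
    rcases eq_or_lt_of_le h3 with ht3 | ht3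
    · rw [ht3, Fre_three, Fre_three] at hre
      exact hab (pos_real hre)
    · rw [Fim, Fim, hl] at him
      have hpos : t * (3 - t) ≠ 0 := by
        have : 0 < t * (3 - t) := mul_pos ht (by linarith)
        exact this.ne'
      apply hab
      apply pos_real (V := W κ) (m := 3)
      apply mul_left_cancel₀ hpos
      linarith
  · have hs : s < 1/3 ∨ 2/3 < s := by
      by_contra hcon
      push Not at hcon
      have e1 : clamp (3 * s) = 1 := clamp_of_ge (by linarith [hcon.1])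
      have e2 : clamp (3 * (1 - s)) = 1 := clamp_of_ge (by linarith [hcon.2])
      rw [ll, e1, e2, min_self] at hl
      exact lt_irrefl _ hl
    have hln := ll_nonneg s
    have hht : 0 ≤ t * (3 - t) := mul_nonneg h0 (by linarith)
    rcases hs with hs | hs
    · have e1 : clamp (3 * s - 1) = 0 := clamp_of_le (by linarith)
      rw [Fre, Fre, e1] at hre
      rw [Fim, Fim, e1] at him
      have hc := claim (pos_red κ) hab h0 h3 (by linarith)
      set u := xi (W κ) a t - xi (W κ) b t with hu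
      set v := ((pos (W κ) 3 b : Fin 5) : ℝ) - ((pos (W κ) 3 a : Fin 5) : ℝ) with hv
      have e2 : (1 - ll s) * u + ll s * (t * (3 - t)) * v = 0 := by
        rw [hu, hv]
        linarith
      have e3 : (1 - ll s) * (u * v) + ll s * (t * (3 - t)) * v ^ 2 = 0 := by
        linear_combination v * e2
      have e4 : 0 < (1 - ll s) * (u * v) := mul_pos (by linarith) hc
      have e5 : 0 ≤ ll s * (t * (3 - t)) * v ^ 2 := by positivity
      linarith
    · have e1 : clamp (3 * s - 1) = 1 := clamp_of_ge (by linarith)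
      rw [Fre, Fre, e1] at hre
      rw [Fim, Fim, e1] at him
      have hc := claim (pos_red' κ) hab h0 h3 (by linarith)
      rw [← pos_end] at hc
      set u := xi (W' κ) a t - xi (W' κ) b t with hu
      set v := ((pos (W κ) 3 b : Fin 5) : ℝ) - ((pos (W κ) 3 a : Fin 5) : ℝ) with hv
      have e2 : (1 - ll s) * u + ll s * (t * (3 - t)) * v = 0 := by
        rw [hu, hv]
        linarith
      have e3 : (1 - ll s) * (u * v) + ll s * (t * (3 - t)) * v ^ 2 = 0 := by
        linear_combination v * e2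
      have e4 : 0 < (1 - ll s) * (u * v) := mul_pos (by linarith) hc
      have e5 : 0 ≤ ll s * (t * (3 - t)) * v ^ 2 := by positivity
      linarith

/-- closed disc -/
abbrev KD : Type := ↥(closedBall cc RR)

/-- compact model -/
abbrev KK : Type := (Edge × KD) ⊕ (Fin 9 × (Icc (0:ℝ) 3 × Icc (0:ℝ) 1))

instance : CompactSpace KD := isCompact_iff_compactSpace.1 (isCompact_closedBall _ _)

/-- the roots over the compact model -/
def xik (a : Fin 5) : C(KK, ℂ) :=
  ⟨Sum.elim (fun q => (a : ℂ) + dl q.1.1 a * phi q.2) (fun q => FF q.1 a q.2.1 q.2.2), by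
    apply Continuous.sumElim
    · rw [continuous_prod_of_discrete_left]
      intro e
      fun_prop
    · rw [continuous_prod_of_discrete_left]
      intro κ
      exact (FF_cont κ a).comp (f := fun q : Icc (0:ℝ) 3 × Icc (0:ℝ) 1 => ((q.1 : ℝ), (q.2 : ℝ)))
        (by fun_prop)⟩

lemma xik_ne {a b : Fin 5} (hab : a ≠ b) (y : KK) : xik a y ≠ xik b y := by
  rcases y with ⟨e, z⟩ | ⟨κ, t, s⟩
  · exact disc_ne z.2 e.1 hab
  · exact cell_ne κ hab t.2.1 t.2.2

/-- from the space to the compact model -/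
def incl : C(YY, KK) :=
  ⟨Sum.elim (fun q => Sum.inl (q.1, ⟨q.2, ball_subset_closedBall q.2.2⟩))
    (fun q => Sum.inr (q.1, (⟨3 * clamp (q.2.1 / 3), by
      have h1 := clamp_nonneg (q.2.1 / 3)
      have h2 := clamp_le_one (q.2.1 / 3)
      exact ⟨by linarith, by linarith⟩⟩, ⟨clamp q.2.2, clamp_nonneg _, clamp_le_one _⟩))), by
    apply Continuous.sumElim
    · fun_prop
    · fun_prop⟩

/-- pull back -/
def pull : C(KK, ℂ) →+* (YY →ᵇ ℂ) where
  toFun := fun f => (BoundedContinuousFunction.mkOfCompact f).compContinuous incl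
  map_one' := rfl
  map_mul' := fun _ _ => rfl
  map_zero' := rfl
  map_add' := fun _ _ => rfl

/-- the roots -/
def xib (a : Fin 5) : YY →ᵇ ℂ := pull (xik a)

lemma xib_dp (a : Fin 5) (e : Edge) (z : Dsk) : xib a (dp e z) = (a : ℂ) + dl e.1 a * phi z := rfl

lemma xib_cp (a : Fin 5) (κ : Fin 9) (t s : ℝ) :
    xib a (cp κ t s) = FF κ a (3 * clamp (t / 3)) (clamp s) := rfl

/-- the polynomial -/
def Qb : (YY →ᵇ ℂ)[X] := ∏ a, (X - C (xib a))

lemma Qb_sep : Qb.Separable := by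
  have h1 : (∏ a, (X - C (xik a)) : C(KK, ℂ)[X]).Separable := by
    apply separable_prod
    · intro a b hab
      apply isCoprime_X_sub_C_of_isUnit_sub
      rw [ContinuousMap.isUnit_iff_forall_ne_zero]
      intro y
      exact sub_ne_zero.2 (xik_ne hab y)
    · intro a
      exact separable_X_sub_C
  have h2 := h1.map (f := pull)
  rw [Polynomial.map_prod] at h2
  simpa [Qb, xib] using h2

end

end Pool.Agent.Helper503.WAC
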