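import Mathlib
import Pool.Agent.Helper503.WQ

open Metric Set Filter Topology Polynomial
open scoped BoundedContinuousFunction

namespace Pool.Agent.Helper503.WAC

noncomputable section

lemma seg_coe {t : ℝ} (h0 : 0 ≤ t) (h1 : t ≤ 1) : ((seg t : Dsk) : ℂ) = t := by
  show ((clamp t : ℝ) : ℂ) = t
  rw [clamp_of_mem h0 h1]

lemma phi_zero : phi 0 = 0 := by simp [phi]

lemma phi_one : phi 1 = 1 := by simp [phi]

lemma c3 {t : ℝ} (h0 : 0 ≤ t) (h3 : t ≤ 3) : 3 * clamp (t / 3) = t := by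
  rw [clamp_of_mem (by positivity) (by linarith)]
  ring

lemma sw_valC (w : Fin 4) (P : Fin 5) : ((P : ℕ) : ℂ) + dl w P = ((sw w P : Fin 5) : ℕ) := by
  have := sw_val w P
  have h2 := congrArg (fun x : ℝ => (x : ℂ)) this
  push_cast at h2
  exact h2.symm

lemma glue_perm {y y' : YY} (h : Glue y y') : ∃ π : Equiv.Perm (Fin 5), ∀ a, xib a y = xib (π a) y' := by
  cases h with
  | nodeu i k =>
    refine ⟨1, fun a => ?_⟩
    rw [xib_dp, xib_dp, seg_coe le_rfl zero_le_one, Complex.ofReal_zero, phi_zero]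
    simp
  | nodew i k =>
    refine ⟨(sw 0)⁻¹ * sw i, fun a => ?_⟩
    rw [xib_dp, xib_dp, seg_coe zero_le_one le_rfl, Complex.ofReal_one, phi_one, mul_one, mul_one,
      sw_valC, sw_valC]
    simp
  | level k =>
    refine ⟨sw 0, fun a => ?_⟩
    rw [xib_dp, xib_dp, seg_coe zero_le_one le_rfl, seg_coe le_rfl zero_le_one, Complex.ofReal_one,
      Complex.ofReal_zero, phi_one, phi_zero, mul_one, mul_zero, add_zero, sw_valC]
  | bot κ m τ h0 h1 =>
    refine ⟨pos (W κ) m, fun a => ?_⟩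
    have hm : ((m : ℕ) : ℝ) ≤ 2 := by exact_mod_cast Nat.le_of_lt_succ m.2
    have hm0 : 0 ≤ ((m : ℕ) : ℝ) := by positivity
    obtain ⟨e1, e2⟩ := x_eq (W κ) a m h0 h1
    have e3 : clamp (3 * (0:ℝ) - 1) = 0 := clamp_of_le (by norm_num)
    have e4 : ll 0 = 0 := by
      rw [ll, mul_zero, clamp_of_le (le_refl 0)]
      exact min_eq_left (clamp_nonneg _)
    rw [xib_cp, xib_dp, c3 (by linarith) (by linarith), seg_coe h0 h1, clamp_of_le (le_refl 0), FF, Fre,
      Fim, e1, e2, e3, e4, phi]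
    push_cast
    ring
  | top κ m τ h0 h1 =>
    refine ⟨pos (W' κ) m, fun a => ?_⟩
    have hm : ((m : ℕ) : ℝ) ≤ 2 := by exact_mod_cast Nat.le_of_lt_succ m.2
    have hm0 : 0 ≤ ((m : ℕ) : ℝ) := by positivity
    obtain ⟨e1, e2⟩ := x_eq (W' κ) a m h0 h1
    have e3 : clamp (3 * (1:ℝ) - 1) = 1 := clamp_of_ge (by norm_num)
    have e4 : ll 1 = 0 := by
      rw [ll, sub_self, mul_zero, clamp_of_le (le_refl 0)]
      exact min_eq_right (clamp_nonneg _)
    rw [xib_cp, xib_dp, c3 (by linarith) (by linarith), seg_coe h0 h1, clamp_of_ge (le_refl 1), FF, Fre,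
      Fim, e1, e2, e3, e4, phi]
    push_cast
    ring
  | left κ s =>
    refine ⟨1, fun a => ?_⟩
    rw [xib_cp, xib_cp, c3 (le_refl 0) (by norm_num), FF, FF, Fre_zero, Fre_zero, Fim_zero, Fim_zero]
    rfl
  | right κ s =>
    refine ⟨1, fun a => ?_⟩
    rw [xib_cp, xib_cp, c3 (by norm_num) (le_refl 3), FF, FF, Fre_three, Fre_three, Fim_three, Fim_three]
    rfl

/-- evaluation of bounded continuous functions -/
def evY (y : YY) : (YY →ᵇ ℂ) →+* ℂ where
  toFun := fun f => f y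
  map_one' := rfl
  map_mul' := fun _ _ => rfl
  map_zero' := rfl
  map_add' := fun _ _ => rfl

lemma Qb_map (y : YY) : Qb.map (evY y) = ∏ a, (X - C (xib a y)) := by
  rw [Qb, Polynomial.map_prod]
  apply Finset.prod_congr rfl
  intro a _
  rw [Polynomial.map_sub, map_X, map_C]
  rfl

lemma Qb_glue {y y' : YY} (h : Glue y y') : Qb.map (evY y) = Qb.map (evY y') := by
  obtain ⟨π, hπ⟩ := glue_perm h
  rw [Qb_map, Qb_map]
  simp_rw [hπ]
  exact Equiv.prod_comp π fun a => (X - C (xib a y') : ℂ[X])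

lemma xib_flat (a : Fin 5) : xib a ∈ FL 0 := by
  intro e
  refine ⟨dslope (fun z => (a : ℂ) + dl e.1 a * phi z) cc, ?_, fun z => ?_⟩
  · apply (Complex.differentiableOn_dslope (isOpen_ball.mem_nhds (mem_ball_self RR_pos))).2
    unfold phi
    fun_prop
  · rw [xib_dp, xib_dp]
    have := sub_smul_dslope (fun z => (a : ℂ) + dl e.1 a * phi z) cc (z : ℂ)
    rw [smul_eq_mul] at this
    simp only [Pi.zero_apply, zero_add, pow_one]
    rw [this]
    simp [ctr]

lemma Qb_coeff_mem (k : ℕ) : Qb.coeff k ∈ BB 0 := by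
  refine ⟨?_, ?_⟩
  · have e : Qb = (∏ a, (X - C (⟨xib a, xib_flat a⟩ : FL 0))).map (FL 0).val.toRingHom := by
      rw [Qb, Polynomial.map_prod]
      simp
    rw [e, coeff_map]
    exact Subtype.prop _
  · intro y y' h
    have h1 := congrArg (fun p : ℂ[X] => p.coeff k) (Qb_glue h)
    simp only [coeff_map] at h1
    exact h1

lemma Qb_monic : Qb.Monic := monic_prod_of_monic _ _ fun _ _ => monic_X_sub_C _

lemma Qb_natDegree : Qb.natDegree = 5 := by
  rw [Qb, natDegree_prod_of_monic _ _ fun j _ => monic_X_sub_C _]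
  simp

/-- inverse-closedness -/
lemma inv_mem {m : Edge → ℕ} {f g : YY →ᵇ ℂ} (hf : f ∈ BB m) (h : f * g = 1) : g ∈ BB m := by
  have hy : ∀ y, f y * g y = 1 := fun y => by
    have := congrArg (fun u : YY →ᵇ ℂ => u y) h
    simpa using this
  have hf0 : ∀ y, f y ≠ 0 := fun y h0 => by
    have := hy y
    rw [h0, zero_mul] at this
    exact zero_ne_one this
  have hg : ∀ y, g y = (f y)⁻¹ := fun y => eq_inv_of_mul_eq_one_right (hy y)
  refine ⟨?_, ?_⟩
  · intro e
    obtain ⟨G, hG, hG'⟩ := hf.1 e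
    refine ⟨fun z => -G z / ((f (dp e ctr) + (z - cc) ^ (m e + 1) * G z) * f (dp e ctr)), ?_,
      fun z => ?_⟩
    · refine DifferentiableOn.div hG.neg ?_ ?_
      · refine DifferentiableOn.mul_const ?_ _
        exact (differentiableOn_const _).add
          ((((differentiable_id.sub_const _).pow _).differentiableOn).mul hG)
      · intro z hz
        rw [← hG' ⟨z, hz⟩]
        exact mul_ne_zero (hf0 _) (hf0 _)
    · rw [hg, hg]
      simp only
      rw [← hG' z]
      have h1 := hf0 (dp e z)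
      have h2 := hf0 (dp e ctr)
      have h3 := hG' z
      field_simp
      linear_combination (-1 : ℂ) * h3
  · intro y y' hyy
    rw [hg, hg, hf.2 y y' hyy]

theorem no_root {b : YY → ℂ} (hb : Continuous b) (hglue : ∀ y y', Glue y y' → b y = b y')
    (hroot : ∀ y, ∃ a, b y = xib a y) : False := by
  have hinj : ∀ (e : Edge) (z : Dsk), Function.Injective fun a => xib a (dp e z) := by
    intro e z a a' h
    by_contra hne
    exact disc_ne (ball_subset_closedBall z.2) e.1 hne h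
  have hfix : ∀ i : Fin 4, ∃ a, ∀ z, b (dp (i, 0) z) = xib a (dp (i, 0) z) := by
    intro i
    obtain ⟨a, ha⟩ := hroot (dp (i, 0) (seg 0))
    refine ⟨a, root_unique (r := fun a z => xib a (dp (i, 0) z)) (fun j => ?_) (hinj (i, 0)) ?_
      (fun z => hroot _) ha⟩
    · exact (xib j).continuous.comp (dp_cont _)
    · exact hb.comp (dp_cont _)
  choose A hA using hfix
  have hval0 : ∀ i, b (dp (i, 0) (seg 0)) = (A i : ℕ) := by
    intro i
    rw [hA, xib_dp, seg_coe le_rfl zero_le_one, Complex.ofReal_zero, phi_zero]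
    simp
  have hval1 : ∀ i, b (dp (i, 0) (seg 1)) = ((sw i (A i) : Fin 5) : ℕ) := by
    intro i
    rw [hA, xib_dp, seg_coe zero_le_one le_rfl, Complex.ofReal_one, phi_one, mul_one, sw_valC]
  have hA0 : ∀ i, A i = A 0 := by
    intro i
    have := hglue _ _ (Glue.nodeu i 0)
    rw [hval0, hval0] at this
    exact Fin.ext (by exact_mod_cast this)
  have hA1 : ∀ i, sw i (A 0) = sw 0 (A 0) := by
    intro i
    have := hglue _ _ (Glue.nodew i 0)
    rw [hval1, hval1, hA0 i] at this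
    exact Fin.ext (by exact_mod_cast this)
  have hfin : ∀ P : Fin 5, ¬ ∀ i, sw i P = sw 0 P := by decide +kernel
  exact hfin _ hA1

theorem exists_q : ∃ q : (BB 0)[X], q.Monic ∧ q.Separable ∧ q.natDegree = 5 ∧
    ∀ y, q.map (ev 0 y).toRingHom = ∏ a, (X - C (xib a y)) := by
  have hlift : Qb ∈ lifts (BB 0).val.toRingHom := by
    rw [lifts_iff_coeff_lifts]
    intro k
    exact ⟨⟨Qb.coeff k, Qb_coeff_mem k⟩, rfl⟩
  obtain ⟨q, hq, hqd, hqm⟩ := lifts_and_natDegree_eq_and_monic hlift Qb_monic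
  rw [Qb_natDegree] at hqd
  have hsep : q.Separable := by
    rw [Polynomial.Separable, ← isUnit_resultant_iff_isCoprime hqm]
    have h1 := Qb_sep
    rw [Polynomial.Separable, ← isUnit_resultant_iff_isCoprime Qb_monic, ← hq, derivative_map] at h1
    have hinj : Function.Injective ((BB 0).val.toRingHom : BB 0 →+* (YY →ᵇ ℂ)) := Subtype.val_injective
    rw [natDegree_map_eq_of_injective hinj, natDegree_map_eq_of_injective hinj, resultant_map_map] at h1
    obtain ⟨g, hg⟩ := h1.exists_right_inv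
    refine IsUnit.of_mul_eq_one (⟨g, inv_mem (Subtype.prop _) hg⟩ : BB 0) ?_
    exact Subtype.ext hg
  refine ⟨q, hqm, hsep, hqd, fun y => ?_⟩
  rw [← Qb_map, ← hq, Polynomial.map_map]
  rfl

theorem not_hasRt : ¬ HasRt (BB 0) := by
  intro hR
  obtain ⟨q, hqm, hsep, hqd, hqy⟩ := exists_q
  obtain ⟨b, hb⟩ := hR q hqm hsep (by omega)
  refine no_root (b := fun y => b.1 y) b.1.continuous b.2.2 fun y => ?_
  have h2 : (q.map (ev 0 y).toRingHom).eval ((ev 0 y).toRingHom b) = (ev 0 y).toRingHom (q.eval b) :=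
    eval_map_apply _ _
  rw [hb, map_zero, hqy] at h2
  exact (isRoot_prod_lin (fun a => xib a y) _).1 h2

end

end Pool.Agent.Helper503.WAC
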