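import Mathlib
import Pool.Agent.Helper503.WA2
import Pool.Agent.Helper503.WB2
import Pool.Agent.Helper503.WC

open Metric Set Filter Topology

namespace Pool.Agent.Helper503.WAC

section flat

variable {c : ℂ} {R : ℝ} {n N : ℕ} {a G : ℕ → ℂ → ℂ} {r : Fin n → ℂ → ℂ}

lemma root_identity
    (hP : ∀ z ∈ ball c R, ∀ v, ∏ j, (v - r j z) = ∑ l ∈ Finset.range (n + 1), a l z * v ^ l)
    {z z1 : ℂ} (hz : z ∈ ball c R) (hz1 : z1 ∈ ball c R) (j : Fin n) :
    (r j z - r j z1) * ∏ k ∈ Finset.univ.erase j, (r j z - r k z1)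
      = -∑ l ∈ Finset.range (n + 1), (a l z - a l z1) * r j z ^ l := by
  have h1 := hP z1 hz1 (r j z)
  have h2 := hP z hz (r j z)
  rw [Finset.prod_eq_zero (Finset.mem_univ j) (sub_self _)] at h2
  rw [Finset.mul_prod_erase Finset.univ (fun k => r j z - r k z1) (Finset.mem_univ j), h1,
    ← sub_eq_zero, sub_neg_eq_add, ← Finset.sum_add_distrib]
  rw [h2]
  apply Finset.sum_congr rfl
  intro l _
  ring

lemma roots_diff
    (hP : ∀ z ∈ ball c R, ∀ v, ∏ j, (v - r j z) = ∑ l ∈ Finset.range (n + 1), a l z * v ^ l)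
    (had : ∀ l, DifferentiableOn ℂ (a l) (ball c R))
    (hr : ∀ j, ContinuousOn (r j) (ball c R))
    (hinj : ∀ z ∈ ball c R, Function.Injective fun j => r j z) (j : Fin n) :
    DifferentiableOn ℂ (r j) (ball c R) := by
  intro z1 hz1
  apply DifferentiableAt.differentiableWithinAt
  have hrc : ContinuousAt (r j) z1 := (hr j).continuousAt (isOpen_ball.mem_nhds hz1)
  set Q : ℂ → ℂ := fun z => ∏ k ∈ Finset.univ.erase j, (r j z - r k z1) with hQ
  have hQc : ContinuousAt Q z1 := by
    apply tendsto_finsetProd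
    intro k _
    exact hrc.sub continuousAt_const
  have hQ0 : Q z1 ≠ 0 := by
    rw [hQ]
    apply Finset.prod_ne_zero_iff.2
    intro k hk h0
    exact (Finset.mem_erase.1 hk).1 (hinj z1 hz1 (sub_eq_zero.1 h0)).symm
  set S : ℂ → ℂ := fun z => -(∑ l ∈ Finset.range (n + 1), dslope (a l) z1 z * r j z ^ l) / Q z with hS
  have hSc : ContinuousAt S z1 := by
    apply ContinuousAt.div _ hQc hQ0
    apply ContinuousAt.neg
    apply tendsto_finsetSum
    intro l _
    refine ContinuousAt.mul ?_ (hrc.pow l)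
    exact continuousAt_dslope_same.2 ((had l).differentiableAt (isOpen_ball.mem_nhds hz1))
  have hev : ∀ᶠ z in 𝓝 z1, r j z - r j z1 = (z - z1) * S z := by
    filter_upwards [isOpen_ball.mem_nhds hz1, hQc.eventually_ne hQ0] with z hz hQz
    have h1 := root_identity hP hz hz1 j
    have h2 : ∀ l, a l z - a l z1 = (z - z1) * dslope (a l) z1 z := by
      intro l
      have := sub_smul_dslope (a l) z1 z
      rw [smul_eq_mul] at this
      exact this.symm
    simp_rw [h2] at h1
    have h3 : ∏ k ∈ Finset.univ.erase j, (r j z - r k z1) = Q z := rfl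
    rw [h3] at h1
    rw [hS]
    simp only
    rw [mul_div_assoc', eq_div_iff hQz, h1, mul_neg, Finset.mul_sum]
    congr 1
    apply Finset.sum_congr rfl
    intro l _
    ring
  have hd : HasDerivAt (r j) (S z1) z1 := by
    rw [hasDerivAt_iff_tendsto_slope]
    have h4 : Tendsto S (𝓝[≠] z1) (𝓝 (S z1)) := hSc.tendsto.mono_left nhdsWithin_le_nhds
    refine h4.congr' ?_
    filter_upwards [nhdsWithin_le_nhds hev, self_mem_nhdsWithin] with z hz hne
    have hne' : z - z1 ≠ 0 := sub_ne_zero.2 hne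
    rw [slope_def_field, hz, mul_div_assoc, mul_comm, div_mul_cancel₀ _ hne']
  exact hd.differentiableAt

lemma roots_flat (hR : 0 < R) (hN : 0 < N)
    (hP : ∀ z ∈ ball c R, ∀ v, ∏ j, (v - r j z) = ∑ l ∈ Finset.range (n + 1), a l z * v ^ l)
    (hG : ∀ l, DifferentiableOn ℂ (G l) (ball c R))
    (ha : ∀ l, ∀ z ∈ ball c R, a l z = a l c + (z - c) ^ N * G l z)
    (hr : ∀ j, ContinuousOn (r j) (ball c R))
    (hinj : ∀ z ∈ ball c R, Function.Injective fun j => r j z) (j : Fin n) :
    ∃ K : ℂ → ℂ, DifferentiableOn ℂ K (ball c R) ∧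
      ∀ z ∈ ball c R, r j z = r j c + (z - c) ^ N * K z := by
  have hc : c ∈ ball c R := mem_ball_self hR
  have had : ∀ l, DifferentiableOn ℂ (a l) (ball c R) := by
    intro l
    have : DifferentiableOn ℂ (fun z => a l c + (z - c) ^ N * G l z) (ball c R) :=
      (differentiableOn_const _).add ((((differentiable_id.sub_const _).pow _).differentiableOn).mul (hG l))
    exact this.congr fun z hz => ha l z hz
  have hrd := roots_diff hP had hr hinj
  set Q : ℂ → ℂ := fun z => ∏ k ∈ Finset.univ.erase j, (r j z - r k c) with hQ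
  have hQd : DifferentiableOn ℂ Q (ball c R) := by
    rw [hQ]
    apply DifferentiableOn.fun_finsetProd
    intro k _
    exact (hrd j).sub_const _
  have hQ0 : Q c ≠ 0 := by
    rw [hQ]
    apply Finset.prod_ne_zero_iff.2
    intro k hk h0
    exact (Finset.mem_erase.1 hk).1 (hinj c hc (sub_eq_zero.1 h0)).symm
  set S : ℂ → ℂ := fun z => -(∑ l ∈ Finset.range (n + 1), G l z * r j z ^ l) / Q z with hS
  have key : ∀ z ∈ ball c R, Q z ≠ 0 → r j z - r j c = (z - c) ^ N * S z := by
    intro z hz hQz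
    have h1 := root_identity hP hz hc j
    have h2 : ∀ l, a l z - a l c = (z - c) ^ N * G l z := by
      intro l
      rw [ha l z hz]
      ring
    simp_rw [h2] at h1
    have h3 : ∏ k ∈ Finset.univ.erase j, (r j z - r k c) = Q z := rfl
    rw [h3] at h1
    rw [hS]
    simp only
    rw [mul_div_assoc', eq_div_iff hQz, h1, mul_neg, Finset.mul_sum]
    congr 1
    apply Finset.sum_congr rfl
    intro l _
    ring
  have hcont : ContinuousOn Q (ball c R) := hQd.continuousOn
  refine ⟨fun z => if z = c then S c else (r j z - r j c) / (z - c) ^ N, ?_, ?_⟩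
  · intro z1 hz1
    apply DifferentiableAt.differentiableWithinAt
    by_cases h1 : z1 = c
    · subst h1
      have hQev : ∀ᶠ z in 𝓝 z1, Q z ≠ 0 :=
        (hcont.continuousAt (isOpen_ball.mem_nhds hz1)).eventually_ne hQ0
      have hSd : DifferentiableAt ℂ S z1 := by
        apply DifferentiableAt.div _ (hQd.differentiableAt (isOpen_ball.mem_nhds hz1)) hQ0
        apply DifferentiableAt.neg
        apply DifferentiableAt.fun_sum
        intro l _
        exact ((hG l).differentiableAt (isOpen_ball.mem_nhds hz1)).mul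
          (((hrd j).differentiableAt (isOpen_ball.mem_nhds hz1)).pow l)
      refine hSd.congr_of_eventuallyEq ?_
      filter_upwards [hQev, isOpen_ball.mem_nhds hz1] with z hQz hz
      by_cases h2 : z = z1
      · rw [if_pos h2, h2]
      · rw [if_neg h2, key z hz hQz, mul_div_assoc, mul_comm,
          div_mul_cancel₀ _ (pow_ne_zero _ (sub_ne_zero.2 h2))]
    · have h3 : DifferentiableAt ℂ (fun z => (r j z - r j c) / (z - c) ^ N) z1 := by
        apply DifferentiableAt.div
        · exact ((hrd j).differentiableAt (isOpen_ball.mem_nhds hz1)).sub_const _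
        · fun_prop
        · exact pow_ne_zero _ (sub_ne_zero.2 h1)
      refine h3.congr_of_eventuallyEq ?_
      filter_upwards [isOpen_compl_singleton.mem_nhds (show z1 ∈ ({c} : Set ℂ)ᶜ from h1)] with z hz
      exact if_neg hz
  · intro z hz
    by_cases h1 : z = c
    · subst h1
      rw [sub_self, zero_pow hN.ne', zero_mul, add_zero]
    · simp only [if_neg h1]
      rw [mul_div_cancel₀ _ (pow_ne_zero _ (sub_ne_zero.2 h1))]
      ring

end flat

/-- ratio -/
noncomputable def rat {n : ℕ} (x : Fin n → ℂ) (i j k : Fin n) : ℂ := (x i - x j) / (x i - x k)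

/-- closeness of labelled configurations -/
def CloseN {n : ℕ} (δ : ℝ) (s : ℕ) (x x' : Fin n → ℂ) : Prop :=
  ∀ i j k, i ≠ k → ‖rat x i j k‖ ≤ 3/2 - s * δ → ‖rat x' i j k - rat x i j k‖ ≤ s * δ

lemma CloseN.trans {n : ℕ} {δ : ℝ} {s t : ℕ} {x x' x'' : Fin n → ℂ} (hδ : 0 ≤ δ) (h : CloseN δ s x x')
    (h' : CloseN δ t x' x'') : CloseN δ (s + t) x x'' := by
  intro i j k hik hb
  push_cast at hb ⊢
  have ht : 0 ≤ t * δ := by positivity
  have h1 := h i j k hik (by linarith)
  have h2 : ‖rat x' i j k‖ ≤ 3/2 - t * δ := by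
    have e : rat x' i j k = (rat x' i j k - rat x i j k) + rat x i j k := by ring
    rw [e]
    refine (norm_add_le _ _).trans ?_
    linarith
  have h3 := h' i j k hik h2
  have e : rat x'' i j k - rat x i j k = (rat x'' i j k - rat x' i j k) + (rat x' i j k - rat x i j k) := by
    ring
  rw [e]
  refine (norm_add_le _ _).trans ?_
  linarith

lemma CloseN.mono {n : ℕ} {δ : ℝ} {s t : ℕ} {x x' : Fin n → ℂ} (hδ : 0 ≤ δ) (hst : s ≤ t)
    (h : CloseN δ s x x') : CloseN δ t x x' := by
  intro i j k hik hb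
  have h1 : (s : ℝ) * δ ≤ t * δ := by gcongr
  exact (h i j k hik (by linarith)).trans h1

lemma CloseN.perm {n : ℕ} {δ : ℝ} {s : ℕ} {x x' : Fin n → ℂ} (h : CloseN δ s x x')
    (g : Equiv.Perm (Fin n)) : CloseN δ s (x ∘ g) (x' ∘ g) := by
  intro i j k hik hb
  exact h (g i) (g j) (g k) (fun e => hik (g.injective e)) hb

lemma CloseN.refl {n : ℕ} (δ : ℝ) (x : Fin n → ℂ) : CloseN δ 0 x x := by
  intro i j k _ _
  simp

lemma AC_of_close {n : ℕ} {δ : ℝ} {s : ℕ} {x : Fin n → ℂ} {g : Equiv.Perm (Fin n)}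
    (h : CloseN δ s x (x ∘ g)) (hδ : s * δ ≤ 1/2) : AC (s * δ) x g := by
  intro a y z haz hle
  apply h a y z haz
  have : ‖rat x a y z‖ ≤ 1 := by
    rw [rat, norm_div]
    exact div_le_one_of_le₀ hle (norm_nonneg _)
  linarith

lemma close_of_flat {c : ℂ} {r0 ρ R : ℝ} (h0 : 0 ≤ r0) (h1 : r0 < ρ) (h2 : ρ < R) {δ : ℝ} (hδ : 0 < δ) :
    ∃ N0 : ℕ, ∀ N ≥ N0, ∀ (n : ℕ) (r : Fin n → ℂ → ℂ),
      (∀ j, DifferentiableOn ℂ (r j) (ball c R)) →
      (∀ j, ∃ K : ℂ → ℂ, DifferentiableOn ℂ K (ball c R) ∧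
        ∀ z ∈ ball c R, r j z = r j c + (z - c) ^ N * K z) →
      (∀ z ∈ ball c R, Function.Injective fun j => r j z) →
      ∀ u w, ‖u - c‖ ≤ r0 → ‖w - c‖ ≤ r0 → CloseN δ 1 (fun j => r j u) (fun j => r j w) := by
  obtain ⟨N0, hN0⟩ := close_nodes (c := c) h0 h1 h2 hδ
  refine ⟨N0, fun N hN n r hr hK hinj u w hu hw i j k hik hb => ?_⟩
  rw [Nat.cast_one, one_mul] at hb ⊢
  have hR0 : 0 < R := h0.trans_lt (h1.trans h2)
  have hc : c ∈ ball c R := mem_ball_self hR0
  have huR : u ∈ ball c R := by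
    rw [mem_ball, dist_eq_norm]
    linarith
  have hwR : w ∈ ball c R := by
    rw [mem_ball, dist_eq_norm]
    linarith
  have hne : ∀ z ∈ ball c R, r i z - r k z ≠ 0 := fun z hz h =>
    hik (hinj z hz (sub_eq_zero.1 h))
  by_cases hij : i = j
  · subst hij
    simp only [rat, sub_self, zero_div, norm_zero]
    exact hδ.le
  by_cases hjk : j = k
  · subst hjk
    simp only [rat]
    rw [div_self (hne u huR), div_self (hne w hwR), sub_self, norm_zero]
    exact hδ.le
  choose K hKd hK using hK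
  have e1 : ∀ z, rat (fun j => r j z) i j k = (r i z - r j z) / (r i z - r k z) := fun z => rfl
  refine hN0 N hN (fun z => (r i z - r j z) / (r i z - r k z))
    (fun z => ((K i z - K j z) * (r i c - r k c) - (r i c - r j c) * (K i z - K k z))
      / ((r i z - r k z) * (r i c - r k c))) ?_ ?_ ?_ ?_ ?_ u w hu hw ?_
  · exact ((hr i).sub (hr j)).div ((hr i).sub (hr k)) hne
  · refine DifferentiableOn.div ?_ (((hr i).sub (hr k)).mul_const _) ?_
    · exact (((hKd i).sub (hKd j)).mul_const _).sub (((hKd i).sub (hKd k)).const_mul _)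
    · intro z hz
      exact mul_ne_zero (hne z hz) (hne c hc)
  · intro z hz
    apply div_ne_zero _ (hne z hz)
    intro h
    exact hij (hinj z hz (sub_eq_zero.1 h))
  · intro z hz h
    rw [div_eq_one_iff_eq (hne z hz)] at h
    exact hjk (hinj z hz (by linear_combination -h))
  · intro z hz
    have f1 := hne z hz
    have f2 := hne c hc
    have f3 := hK i z hz
    have f4 := hK j z hz
    have f5 := hK k z hz
    field_simp
    linear_combination (r i c - r k c - (r i c - r j c)) * f3 - (r i c - r k c) * f4 + (r i c - r j c) * f5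
  · have : (3:ℝ)/2 - δ ≤ 3/2 := by linarith
    exact hb.trans this

end Pool.Agent.Helper503.WAC
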