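import Mathlib
import Pool.Agent.Helper503.WD
import Pool.Agent.Helper503.WW

open Metric Set Filter Topology Polynomial
open scoped BoundedContinuousFunction

namespace Pool.Agent.Helper503.WAC

noncomputable section

instance : LocallyPathConnectedSpace Dsk := isOpen_ball.locallyPathConnectedSpace

instance : ContractibleSpace Dsk := (convex_ball cc RR).contractibleSpace ⟨cc, mem_ball_self RR_pos⟩

variable {m : Edge → ℕ}

/-- the polynomial at a point -/
def PP (p : (BB m)[X]) (y : YY) : ℂ[X] := p.map (ev m y).toRingHom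

lemma PP_coeff (p : (BB m)[X]) (y : YY) (k : ℕ) : (PP p y).coeff k = (p.coeff k).1 y := by
  rw [PP, coeff_map]
  rfl

lemma PP_glue (p : (BB m)[X]) {y y' : YY} (h : Glue y y') : PP p y = PP p y' := by
  rw [PP, PP, ev_glue m h]

lemma PP_cont (p : (BB m)[X]) (k : ℕ) : Continuous fun y => (PP p y).coeff k := by
  simp_rw [PP_coeff]
  exact (p.coeff k).1.continuous

/-- the family over the whole space -/
def FY {p : (BB m)[X]} (hm : p.Monic) (hs : p.Separable) {n : ℕ} (hn : p.natDegree = n) : Fam YY n where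
  P := PP p
  mon := fun y => hm.map _
  deg := fun y => by rw [PP, hm.natDegree_map, hn]
  cont := PP_cont p
  sep := fun y => hs.map

/-- pull back of families -/
def Fam.comap {Z Z' : Type*} [TopologicalSpace Z] [TopologicalSpace Z'] {n : ℕ} (F : Fam Z n) {g : Z' → Z}
    (hg : Continuous g) : Fam Z' n where
  P := fun z => F.P (g z)
  mon := fun _ => F.mon _
  deg := fun _ => F.deg _
  cont := fun k => (F.cont k).comp hg
  sep := fun _ => F.sep _

/-- extension by zero -/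
def ext0 (f : Dsk → ℂ) (z : ℂ) : ℂ := by
  classical
  exact if h : z ∈ ball cc RR then f ⟨z, h⟩ else 0

lemma ext0_apply (f : Dsk → ℂ) {z : ℂ} (h : z ∈ ball cc RR) : ext0 f z = f ⟨z, h⟩ := by
  simp [ext0, h]

lemma ext0_coe (f : Dsk → ℂ) (z : Dsk) : ext0 f z = f z := ext0_apply f z.2

lemma ext0_cont {f : Dsk → ℂ} (hf : Continuous f) : ContinuousOn (ext0 f) (ball cc RR) := by
  rw [continuousOn_iff_continuous_domRestrict]
  have : (ball cc RR).domRestrict (ext0 f) = f := by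
    funext z
    exact ext0_coe f z
  rw [this]
  exact hf

section disc

variable {p : (BB m)[X]} {n : ℕ} {e : Edge} {r : Fin n → Dsk → ℂ}

lemma disc_id (hn : p.natDegree = n)
    (hP : ∀ z, PP p (dp e z) = ∏ j, (X - C (r j z))) :
    ∀ z ∈ ball cc RR, ∀ v, ∏ j, (v - ext0 (r j) z)
      = ∑ l ∈ Finset.range (n + 1), ext0 (fun z => (p.coeff l).1 (dp e z)) z * v ^ l := by
  intro z hz v
  have h1 := congrArg (fun q : ℂ[X] => q.eval v) (hP ⟨z, hz⟩)
  simp only [eval_prod_lin] at h1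
  simp_rw [ext0_apply _ hz]
  rw [← h1, eval_eq_sum_range' (n := n + 1)]
  · simp_rw [PP_coeff]
  · rw [Nat.lt_succ_iff, ← hn]
    exact natDegree_map_le

lemma disc_flatK (hn : p.natDegree = n) (hr : ∀ j, Continuous (r j))
    (hP : ∀ z, PP p (dp e z) = ∏ j, (X - C (r j z)))
    (hinj : ∀ z, Function.Injective fun j => r j z) (j : Fin n) :
    ∃ K : ℂ → ℂ, DifferentiableOn ℂ K (ball cc RR) ∧
      ∀ z ∈ ball cc RR, ext0 (r j) z = ext0 (r j) cc + (z - cc) ^ (m e + 1) * K z := by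
  choose G hG hG' using fun l => (p.coeff l).2.1 e
  refine roots_flat (a := fun l => ext0 (fun z => (p.coeff l).1 (dp e z))) (G := G)
    (r := fun j => ext0 (r j)) RR_pos (Nat.succ_pos _) (disc_id hn hP) hG ?_
    (fun j => ext0_cont (hr j)) ?_ j
  · intro l z hz
    rw [ext0_apply _ hz, ext0_apply _ (mem_ball_self RR_pos)]
    exact hG' l ⟨z, hz⟩
  · intro z hz i k h
    apply hinj ⟨z, hz⟩
    simp only at h ⊢
    rwa [ext0_apply _ hz, ext0_apply _ hz] at h

lemma disc_diff (hn : p.natDegree = n) (hr : ∀ j, Continuous (r j))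
    (hP : ∀ z, PP p (dp e z) = ∏ j, (X - C (r j z)))
    (hinj : ∀ z, Function.Injective fun j => r j z) (j : Fin n) :
    DifferentiableOn ℂ (ext0 (r j)) (ball cc RR) := by
  obtain ⟨K, hK, hK'⟩ := disc_flatK hn hr hP hinj j
  have : DifferentiableOn ℂ (fun z => ext0 (r j) cc + (z - cc) ^ (m e + 1) * K z) (ball cc RR) :=
    (differentiableOn_const _).add ((((differentiable_id.sub_const _).pow _).differentiableOn).mul hK)
  exact this.congr hK'

end disc

/-- the working constant -/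
def dlt : ℝ := 1 / (6 * 10 ^ 7)

lemma dlt_pos : 0 < dlt := by norm_num [dlt]

lemma exists_N0 : ∃ N0 : ℕ, ∀ (m : Edge → ℕ) (e : Edge), N0 ≤ m e + 1 → ∀ (p : (BB m)[X]) (n : ℕ)
    (r : Fin n → Dsk → ℂ), p.natDegree = n → (∀ j, Continuous (r j)) →
    (∀ z, PP p (dp e z) = ∏ j, (X - C (r j z))) → (∀ z, Function.Injective fun j => r j z) →
    CloseN dlt 1 (fun j => r j (seg 0)) (fun j => r j (seg 1)) ∧
    CloseN dlt 1 (fun j => r j (seg 1)) (fun j => r j (seg 0)) := by
  obtain ⟨N0, hN0⟩ := close_of_flat (c := cc) (r0 := 71/100) (ρ := 73/100) (R := RR) (by norm_num)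
    (by norm_num) (by norm_num [RR]) dlt_pos
  refine ⟨N0, fun m e hme p n r hn hr hP hinj => ?_⟩
  have h := hN0 (m e + 1) hme n (fun j => ext0 (r j)) (disc_diff hn hr hP hinj)
    (disc_flatK hn hr hP hinj) (by
      intro z hz i k h
      apply hinj ⟨z, hz⟩
      simp only at h ⊢
      rwa [ext0_apply _ hz, ext0_apply _ hz] at h)
  have e0 : ∀ j, r j (seg 0) = ext0 (r j) 0 := by
    intro j
    have : ((seg 0 : Dsk) : ℂ) = 0 := by
      show ((clamp 0 : ℝ) : ℂ) = 0
      rw [clamp_of_le le_rfl, Complex.ofReal_zero]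
    rw [← this, ext0_coe]
  have e1 : ∀ j, r j (seg 1) = ext0 (r j) 1 := by
    intro j
    have : ((seg 1 : Dsk) : ℂ) = 1 := by
      show ((clamp 1 : ℝ) : ℂ) = 1
      rw [clamp_of_ge le_rfl, Complex.ofReal_one]
    rw [← this, ext0_coe]
  simp_rw [e0, e1]
  have f0 : ‖(0 : ℂ) - cc‖ ≤ 71/100 := by
    have := norm_sub_cc (le_refl 0) zero_le_one
    rwa [Complex.ofReal_zero] at this
  have f1 : ‖(1 : ℂ) - cc‖ ≤ 71/100 := by
    have := norm_sub_cc zero_le_one (le_refl 1)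
    rwa [Complex.ofReal_one] at this
  exact ⟨h 0 1 f0 f1, h 1 0 f1 f0⟩

/-- labelled root data -/
structure Lab (p : (BB m)[X]) (n : ℕ) where
  x : Fin 4 → Fin n → ℂ
  r : Edge → Fin n → Dsk → ℂ
  g : Edge → Equiv.Perm (Fin n)
  xinj : ∀ k, Function.Injective (x k)
  xP : PP p (dp (0, 0) (seg 0)) = ∏ j, (X - C (x 0 j))
  rc : ∀ e j, Continuous (r e j)
  rP : ∀ e z, PP p (dp e z) = ∏ j, (X - C (r e j z))
  rinj : ∀ e z, Function.Injective fun j => r e j z
  r0 : ∀ e j, r e j (seg 0) = x e.2.castSucc j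
  r1 : ∀ e j, r e j (seg 1) = x e.2.succ (g e j)
  g0 : ∀ k, g (0, k) = 1

theorem exists_lab {p : (BB m)[X]} (hm : p.Monic) (hs : p.Separable) {n : ℕ} (hn : p.natDegree = n) :
    Nonempty (Lab p n) := by
  have hinj : ∀ y (x : Fin n → ℂ), PP p y = ∏ j, (X - C (x j)) → Function.Injective x := by
    intro y x hx
    apply inj_of_separable
    rw [← hx]
    exact hs.map
  have hdisc : ∀ (e : Edge) (x : Fin n → ℂ), PP p (dp e (seg 0)) = ∏ j, (X - C (x j)) →
      ∃ r : Fin n → Dsk → ℂ, (∀ j, Continuous (r j)) ∧ (∀ j, r j (seg 0) = x j) ∧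
        ∀ z, PP p (dp e z) = ∏ j, (X - C (r j z)) := by
    intro e x hx
    exact ((FY hm hs hn).comap (dp_cont e)).exists_roots (seg 0) hx
  obtain ⟨x0, hx0⟩ := enum_roots (n := n) (Q := PP p (dp (0, 0) (seg 0))) (hm.map _)
    (by rw [PP, hm.natDegree_map, hn])
  obtain ⟨R0, R0c, R0x, R0P⟩ := hdisc (0, 0) x0 hx0
  set x1 : Fin n → ℂ := fun j => R0 j (seg 1) with hx1d
  have hx1 : PP p (dp (0, 0) (seg 1)) = ∏ j, (X - C (x1 j)) := R0P _
  have hx1' : PP p (dp (0, 1) (seg 0)) = ∏ j, (X - C (x1 j)) := by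
    rw [← hx1]
    exact (PP_glue p (Glue.level 0)).symm
  obtain ⟨R1, R1c, R1x, R1P⟩ := hdisc (0, 1) x1 hx1'
  set x2 : Fin n → ℂ := fun j => R1 j (seg 1) with hx2d
  have hx2 : PP p (dp (0, 1) (seg 1)) = ∏ j, (X - C (x2 j)) := R1P _
  have hx2' : PP p (dp (0, 2) (seg 0)) = ∏ j, (X - C (x2 j)) := by
    rw [← hx2]
    exact (PP_glue p (Glue.level 1)).symm
  obtain ⟨R2, R2c, R2x, R2P⟩ := hdisc (0, 2) x2 hx2'
  set x3 : Fin n → ℂ := fun j => R2 j (seg 1) with hx3d
  have hx3 : PP p (dp (0, 2) (seg 1)) = ∏ j, (X - C (x3 j)) := R2P _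
  set x : Fin 4 → Fin n → ℂ := ![x0, x1, x2, x3] with hx
  have hxu : ∀ k : Fin 3, PP p (dp (0, k) (seg 0)) = ∏ j, (X - C (x k.castSucc j)) := by
    intro k
    fin_cases k
    · exact hx0
    · exact hx1'
    · exact hx2'
  have hxw : ∀ k : Fin 3, PP p (dp (0, k) (seg 1)) = ∏ j, (X - C (x k.succ j)) := by
    intro k
    fin_cases k
    · exact hx1
    · exact hx2
    · exact hx3
  have hxinj : ∀ k, Function.Injective (x k) := by
    intro k
    fin_cases k
    · exact hinj _ _ hx0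
    · exact hinj _ _ hx1
    · exact hinj _ _ hx2
    · exact hinj _ _ hx3
  have href : ∀ k : Fin 3, ∃ r : Fin n → Dsk → ℂ, (∀ j, Continuous (r j)) ∧
      (∀ j, r j (seg 0) = x k.castSucc j) ∧ (∀ z, PP p (dp (0, k) z) = ∏ j, (X - C (r j z))) ∧
      ∀ j, r j (seg 1) = x k.succ j := by
    intro k
    fin_cases k
    · exact ⟨R0, R0c, R0x, R0P, fun _ => rfl⟩
    · exact ⟨R1, R1c, R1x, R1P, fun _ => rfl⟩
    · exact ⟨R2, R2c, R2x, R2P, fun _ => rfl⟩
  have hall : ∀ e : Edge, ∃ r : Fin n → Dsk → ℂ, (∀ j, Continuous (r j)) ∧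
      (∀ j, r j (seg 0) = x e.2.castSucc j) ∧ (∀ z, PP p (dp e z) = ∏ j, (X - C (r j z))) ∧
      (e.1 = 0 → ∀ j, r j (seg 1) = x e.2.succ j) := by
    rintro ⟨i, k⟩
    by_cases hi : i = 0
    · subst hi
      obtain ⟨r, h1, h2, h3, h4⟩ := href k
      exact ⟨r, h1, h2, h3, fun _ => h4⟩
    · obtain ⟨r, h1, h2, h3⟩ := hdisc (i, k) (x k.castSucc) (by rw [← hxu]; exact PP_glue p (Glue.nodeu i k))
      exact ⟨r, h1, h2, h3, fun h => absurd h hi⟩
  choose r rc r0 rP rref using hall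
  have rinj : ∀ e z, Function.Injective fun j => r e j z := fun e z => hinj _ _ (rP e z)
  have hg : ∀ e j, ∃ i, r e j (seg 1) = x e.2.succ i := by
    rintro ⟨i, k⟩ j
    have h1 : PP p (dp (i, k) (seg 1)) = ∏ j, (X - C (x k.succ j)) := by
      rw [← hxw]
      exact PP_glue p (Glue.nodew i k)
    have h2 : (PP p (dp (i, k) (seg 1))).eval (r (i, k) j (seg 1)) = 0 := by
      rw [rP, isRoot_prod_lin]
      exact ⟨j, rfl⟩
    rw [h1, isRoot_prod_lin] at h2
    exact h2
  choose g hg using hg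
  have ginj : ∀ e, Function.Injective (g e) := by
    intro e j j' h
    apply rinj e (seg 1)
    simp only
    rw [hg, hg, h]
  refine ⟨{ x := x, r := r, g := fun e => Equiv.ofBijective (g e) (Finite.injective_iff_bijective.1 (ginj e)),
            xinj := hxinj, xP := hx0, rc := rc, rP := rP, rinj := rinj, r0 := r0, r1 := hg, g0 := ?_ }⟩
  intro k
  ext j
  have h1 := hg (0, k) j
  rw [rref (0, k) rfl j] at h1
  have h2 := hxinj _ h1
  simp only [Equiv.ofBijective_apply, Equiv.Perm.coe_one, id_eq]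
  rw [← h2]

namespace Lab

variable {p : (BB m)[X]} {n : ℕ} (L : Lab p n)

section close

variable (hc : ∀ e, CloseN dlt 1 (fun j => L.r e j (seg 0)) (fun j => L.r e j (seg 1)) ∧
    CloseN dlt 1 (fun j => L.r e j (seg 1)) (fun j => L.r e j (seg 0)))

include hc

lemma close1 (e : Edge) : CloseN dlt 1 (L.x e.2.castSucc) (L.x e.2.succ ∘ L.g e) := by
  have := (hc e).1
  simp_rw [L.r0, L.r1] at this
  exact this

lemma close2 (e : Edge) : CloseN dlt 1 (L.x e.2.succ ∘ L.g e) (L.x e.2.castSucc) := by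
  have := (hc e).2
  simp_rw [L.r0, L.r1] at this
  exact this

lemma ref1 (k : Fin 3) : CloseN dlt 1 (L.x k.castSucc) (L.x k.succ) := by
  have := L.close1 hc (0, k)
  rw [L.g0] at this
  exact this

lemma ref2 (k : Fin 3) : CloseN dlt 1 (L.x k.succ) (L.x k.castSucc) := by
  have := L.close2 hc (0, k)
  rw [L.g0] at this
  exact this

lemma up (k : Fin 4) : CloseN dlt k (L.x 0) (L.x k) := by
  have h0 := L.ref1 hc 0
  have h1 := L.ref1 hc 1
  have h2 := L.ref1 hc 2
  have d := dlt_pos.le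
  fin_cases k
  · exact CloseN.refl _ _
  · exact h0
  · exact h0.trans d h1
  · exact (h0.trans d h1).trans d h2

lemma down (k : Fin 4) : CloseN dlt k (L.x k) (L.x 0) := by
  have h0 := L.ref2 hc 0
  have h1 := L.ref2 hc 1
  have h2 := L.ref2 hc 2
  have d := dlt_pos.le
  fin_cases k
  · exact CloseN.refl _ _
  · exact h0
  · exact h1.trans d h0
  · exact (h2.trans d h1).trans d h0

lemma ac1 (e : Edge) : AC (1 / 10 ^ 7) (L.x 0) (L.g e) := by
  have d := dlt_pos.le
  have h1 := ((L.up hc e.2.castSucc).trans d (L.close1 hc e)).trans d ((L.down hc e.2.succ).perm (L.g e))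
  have hle : (e.2.castSucc : ℕ) + 1 + (e.2.succ : ℕ) ≤ 6 := by
    have := e.2.2
    simp only [Fin.val_castSucc, Fin.val_succ]
    omega
  have h2 := AC_of_close (h1.mono d hle) (by norm_num [dlt])
  have e1 : ((6 : ℕ) : ℝ) * dlt = 1 / 10 ^ 7 := by norm_num [dlt]
  rwa [e1] at h2

lemma ac2 (e : Edge) : AC (1 / 10 ^ 7) (L.x 0) (L.g e)⁻¹ := by
  have d := dlt_pos.le
  have h0 : CloseN dlt 1 (L.x e.2.succ) (L.x e.2.castSucc ∘ ⇑(L.g e)⁻¹) := by
    have := (L.close2 hc e).perm (L.g e)⁻¹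
    have e1 : (L.x e.2.succ ∘ L.g e) ∘ ⇑(L.g e)⁻¹ = L.x e.2.succ := by
      funext j
      simp
    rwa [e1] at this
  have h1 := ((L.up hc e.2.succ).trans d h0).trans d ((L.down hc e.2.castSucc).perm (L.g e)⁻¹)
  have hle : (e.2.succ : ℕ) + 1 + (e.2.castSucc : ℕ) ≤ 6 := by
    have := e.2.2
    simp only [Fin.val_castSucc, Fin.val_succ]
    omega
  have h2 := AC_of_close (h1.mono d hle) (by norm_num [dlt])
  have e1 : ((6 : ℕ) : ℝ) * dlt = 1 / 10 ^ 7 := by norm_num [dlt]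
  rwa [e1] at h2

end close

end Lab

end

end Pool.Agent.Helper503.WAC
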