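import Mathlib
import Pool.Agent.Helper503.WW2
import Pool.Agent.Helper503.WH

open Metric Set Filter Topology Polynomial
open scoped BoundedContinuousFunction

namespace Pool.Agent.Helper503.WAC

noncomputable section

lemma seg_clamp (t : ℝ) : seg (clamp t) = seg t := by
  unfold seg
  congr 2
  exact clamp_of_mem (clamp_nonneg t) (clamp_le_one t)

variable {m : Edge → ℕ}

namespace Lab

variable {p : (BB m)[X]} {n : ℕ} (L : Lab p n)

section cell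

variable (κ : Fin 9) {ρ : Fin n → ℝ × ℝ → ℂ} (hρc : ∀ j, Continuous (ρ j))
  (hρP : ∀ z : ℝ × ℝ, PP p (cp κ z.1 z.2) = ∏ j, (X - C (ρ j z)))

include hρc hρP

lemma path (V : Fin 3 → Fin 4) (s : ℝ)
    (hV : ∀ (k : Fin 3) (τ : ℝ), 0 ≤ τ → τ ≤ 1 → Glue (cp κ ((k : ℕ) + τ) s) (dp (V k, k) (seg τ)))
    (k : Fin 3) (j i : Fin n) (h : ρ j ((k : ℕ), s) = L.x k.castSucc i) :
    ∀ τ, 0 ≤ τ → τ ≤ 1 → ρ j ((k : ℕ) + τ, s) = L.r (V k, k) i (seg τ) := by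
  have key : ∀ τ : ℝ, ρ j ((k : ℕ) + clamp τ, s) = L.r (V k, k) i (seg τ) := by
    refine root_unique (r := fun i τ => L.r (V k, k) i (seg τ)) (y := fun τ => ρ j ((k : ℕ) + clamp τ, s))
      (z₀ := 0) (fun i => (L.rc _ i).comp seg_cont) (fun τ => L.rinj _ _) ((hρc j).comp (by fun_prop))
      (fun τ => ?_) ?_
    · have h1 : PP p (cp κ ((k : ℕ) + clamp τ) s) = PP p (dp (V k, k) (seg τ)) := by
        rw [PP_glue p (hV k (clamp τ) (clamp_nonneg τ) (clamp_le_one τ)), seg_clamp]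
      have h2 : (PP p (cp κ ((k : ℕ) + clamp τ) s)).eval (ρ j ((k : ℕ) + clamp τ, s)) = 0 := by
        have h3 := hρP ((k : ℕ) + clamp τ, s)
        simp only at h3
        rw [h3, isRoot_prod_lin]
        exact ⟨j, rfl⟩
      rw [h1, L.rP, isRoot_prod_lin] at h2
      exact h2
    · rw [clamp_of_le le_rfl, add_zero, h, L.r0]
  intro τ h0 h1
  have := key τ
  rwa [clamp_of_mem h0 h1] at this

lemma path_end (V : Fin 3 → Fin 4) (s : ℝ)
    (hV : ∀ (k : Fin 3) (τ : ℝ), 0 ≤ τ → τ ≤ 1 → Glue (cp κ ((k : ℕ) + τ) s) (dp (V k, k) (seg τ)))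
    (k : Fin 3) (j i : Fin n) (h : ρ j ((k : ℕ), s) = L.x k.castSucc i) :
    ρ j ((k : ℕ) + 1, s) = L.x k.succ (L.g (V k, k) i) := by
  rw [L.path κ hρc hρP V s hV k j i h 1 zero_le_one le_rfl, L.r1]

lemma word (V : Fin 3 → Fin 4) (s : ℝ)
    (hV : ∀ (k : Fin 3) (τ : ℝ), 0 ≤ τ → τ ≤ 1 → Glue (cp κ ((k : ℕ) + τ) s) (dp (V k, k) (seg τ)))
    (j : Fin n) (h : ρ j (0, s) = L.x 0 j) :
    ρ j (1, s) = L.x 1 (L.g (V 0, 0) j) ∧ ρ j (2, s) = L.x 2 (L.g (V 1, 1) (L.g (V 0, 0) j)) ∧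
    ρ j (3, s) = L.x 3 (L.g (V 2, 2) (L.g (V 1, 1) (L.g (V 0, 0) j))) := by
  have h0 := L.path_end κ hρc hρP V s hV 0 j j (by simpa using h)
  have e0 : (((0 : Fin 3) : ℕ) : ℝ) + 1 = 1 := by norm_num
  rw [e0] at h0
  have h1 := L.path_end κ hρc hρP V s hV 1 j (L.g (V 0, 0) j) (by
    have e : (((1 : Fin 3) : ℕ) : ℝ) = 1 := by norm_num
    rw [e]
    exact h0)
  have e1 : (((1 : Fin 3) : ℕ) : ℝ) + 1 = 2 := by norm_num
  rw [e1] at h1
  have h2 := L.path_end κ hρc hρP V s hV 2 j (L.g (V 1, 1) (L.g (V 0, 0) j)) (by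
    have e : (((2 : Fin 3) : ℕ) : ℝ) = 2 := by norm_num
    rw [e]
    exact h1)
  have e2 : (((2 : Fin 3) : ℕ) : ℝ) + 1 = 3 := by norm_num
  rw [e2] at h2
  exact ⟨h0, h1, h2⟩

omit L in
lemma side (hs : p.Separable) (t : ℝ) (hg : ∀ s, PP p (cp κ t s) = PP p (cp κ t 0)) (j : Fin n) (s : ℝ) :
    ρ j (t, s) = ρ j (t, 0) := by
  have h4 : PP p (cp κ t 0) = ∏ j, (X - C (ρ j (t, 0))) := hρP (t, 0)
  have hinj : Function.Injective fun i => ρ i (t, 0) := by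
    apply inj_of_separable
    rw [← h4]
    exact hs.map
  refine root_unique (r := fun i (_ : ℝ) => ρ i (t, 0)) (y := fun s => ρ j (t, s)) (z₀ := 0)
    (fun i => continuous_const) (fun _ => hinj) ((hρc j).comp (by fun_prop)) (fun s => ?_) rfl s
  have h2 : (PP p (cp κ t s)).eval (ρ j (t, s)) = 0 := by
    have h3 : PP p (cp κ t s) = ∏ j, (X - C (ρ j (t, s))) := hρP (t, s)
    rw [h3, isRoot_prod_lin]
    exact ⟨j, rfl⟩
  rw [hg s, h4, isRoot_prod_lin] at h2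
  exact h2

end cell

end Lab

end

end Pool.Agent.Helper503.WAC
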