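import Mathlib
import Pool.Agent.Helper503.WW3

open Metric Set Filter Topology Polynomial
open scoped BoundedContinuousFunction

namespace Pool.Agent.Helper503.WAC

noncomputable section

lemma root_bound {n : ℕ} {Q : ℂ[X]} (hm : Q.Monic) (hd : Q.natDegree = n) {v : ℂ} (hv : Q.eval v = 0) :
    ‖v‖ ≤ ∑ l ∈ Finset.range n, ‖Q.coeff l‖ + 1 := by
  have h1 := Polynomial.IsRoot.norm_lt_cauchyBound hm.ne_zero (show Q.IsRoot v from hv)
  have h2 : cauchyBound Q ≤ ∑ l ∈ Finset.range n, ‖Q.coeff l‖₊ + 1 := by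
    rw [cauchyBound, hm.leadingCoeff, nnnorm_one, div_one, hd]
    gcongr
    apply Finset.sup_le
    intro l hl
    exact Finset.single_le_sum (f := fun l => ‖Q.coeff l‖₊) (fun _ _ => zero_le) hl
  have h3 : ‖v‖₊ ≤ ∑ l ∈ Finset.range n, ‖Q.coeff l‖₊ + 1 := h1.le.trans h2
  have h4 : ((‖v‖₊ : NNReal) : ℝ) ≤ ((∑ l ∈ Finset.range n, ‖Q.coeff l‖₊ + 1 : NNReal) : ℝ) := by
    exact_mod_cast h3
  simpa using h4

variable {m : Edge → ℕ}

namespace Lab

variable {p : (BB m)[X]} {n : ℕ} (L : Lab p n)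

theorem exists_cell (hm : p.Monic) (hs : p.Separable) (hn : p.natDegree = n) (κ : Fin 9) :
    ∃ ρ : Fin n → ℝ × ℝ → ℂ, (∀ j, Continuous (ρ j)) ∧
      (∀ z : ℝ × ℝ, PP p (cp κ z.1 z.2) = ∏ j, (X - C (ρ j z))) ∧
      (∀ j s, ρ j (0, s) = L.x 0 j) ∧ ∀ j s, ρ j (3, s) = ρ j (3, 0) := by
  have h0 : PP p (cp κ 0 0) = ∏ j, (X - C (L.x 0 j)) := by
    have h1 := PP_glue p (Glue.bot κ 0 0 le_rfl zero_le_one)
    have e : (((0 : Fin 3) : ℕ) : ℝ) + 0 = 0 := by norm_num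
    rw [e] at h1
    rw [h1, PP_glue p (Glue.nodeu _ 0)]
    exact L.xP
  obtain ⟨ρ, h1, h2, h3⟩ := ((FY hm hs hn).comap (cp_cont κ)).exists_roots (0, 0) h0
  refine ⟨ρ, h1, h3, fun j s => ?_, fun j s => ?_⟩
  · rw [← h2 j]
    exact side κ h1 h3 hs 0 (fun s => PP_glue p (Glue.left κ s)) j s
  · exact side κ h1 h3 hs 3 (fun s => PP_glue p (Glue.right κ s)) j s

theorem rel (hm : p.Monic) (hs : p.Separable) (hn : p.natDegree = n) (κ : Fin 9) :
    L.g (W κ 2, 2) * L.g (W κ 1, 1) * L.g (W κ 0, 0)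
      = L.g (W' κ 2, 2) * L.g (W' κ 1, 1) * L.g (W' κ 0, 0) := by
  obtain ⟨ρ, h1, h2, h3, h4⟩ := L.exists_cell hm hs hn κ
  ext j
  have e1 := (L.word κ h1 h2 (W κ) 0 (fun k τ a b => Glue.bot κ k τ a b) j (h3 j 0)).2.2
  have e2 := (L.word κ h1 h2 (W' κ) 1 (fun k τ a b => Glue.top κ k τ a b) j (h3 j 1)).2.2
  rw [h4, e1] at e2
  simp only [Equiv.Perm.coe_mul, Function.comp_apply]
  rw [L.xinj 3 e2]

theorem rels (hm : p.Monic) (hs : p.Separable) (hn : p.natDegree = n) :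
    Rels (L.g (1, 0)) (L.g (1, 1)) (L.g (1, 2)) (L.g (2, 0)) (L.g (3, 0)) ∧
      L.g (2, 1) = L.g (2, 0) ∧ L.g (2, 2) = L.g (2, 0) ∧ L.g (3, 1) = L.g (3, 0) ∧
      L.g (3, 2) = L.g (3, 0) := by
  have k0 : L.g (1, 2) * L.g (2, 1) * L.g (0, 0) = L.g (1, 2) * L.g (0, 1) * L.g (2, 0) := L.rel hm hs hn 0
  have k1 : L.g (1, 2) * L.g (3, 1) * L.g (0, 0) = L.g (1, 2) * L.g (0, 1) * L.g (3, 0) := L.rel hm hs hn 1
  have k2 : L.g (0, 2) * L.g (3, 1) * L.g (1, 0) = L.g (0, 2) * L.g (1, 1) * L.g (3, 0) := L.rel hm hs hn 2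
  have k3 : L.g (2, 2) * L.g (0, 1) * L.g (1, 0) = L.g (0, 2) * L.g (2, 1) * L.g (1, 0) := L.rel hm hs hn 3
  have k4 : L.g (3, 2) * L.g (0, 1) * L.g (1, 0) = L.g (0, 2) * L.g (3, 1) * L.g (1, 0) := L.rel hm hs hn 4
  have k5 : L.g (3, 2) * L.g (1, 1) * L.g (0, 0) = L.g (1, 2) * L.g (3, 1) * L.g (0, 0) := L.rel hm hs hn 5
  have k6 : L.g (0, 2) * L.g (1, 1) * L.g (0, 0) = L.g (1, 2) * L.g (0, 1) * L.g (1, 0) := L.rel hm hs hn 6
  have k7 : L.g (1, 2) * L.g (2, 1) * L.g (1, 0) = L.g (2, 2) * L.g (1, 1) * L.g (2, 0) := L.rel hm hs hn 7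
  have k8 : L.g (2, 2) * L.g (3, 1) * L.g (2, 0) = L.g (3, 2) * L.g (2, 1) * L.g (3, 0) := L.rel hm hs hn 8
  simp only [L.g0, mul_one, one_mul] at k0 k1 k2 k3 k4 k5 k6 k7 k8
  have c1 : L.g (2, 1) = L.g (2, 0) := mul_left_cancel k0
  have d1 : L.g (3, 1) = L.g (3, 0) := mul_left_cancel k1
  have c2 : L.g (2, 2) = L.g (2, 0) := (mul_right_cancel k3).trans c1
  have d2 : L.g (3, 2) = L.g (3, 0) := (mul_right_cancel k4).trans d1
  rw [d1] at k2
  rw [d1, d2] at k5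
  rw [c1, c2] at k7
  rw [c1, c2, d1, d2] at k8
  exact ⟨⟨k2, k5, k6, k7, k8⟩, c1, c2, d1, d2⟩

section close

variable (hc : ∀ e, CloseN dlt 1 (fun j => L.r e j (seg 0)) (fun j => L.r e j (seg 1)) ∧
    CloseN dlt 1 (fun j => L.r e j (seg 1)) (fun j => L.r e j (seg 0)))

include hc

theorem trivial_mono (hm : p.Monic) (hs : p.Separable) (hn : p.natDegree = n) : ∀ e, L.g e = 1 := by
  obtain ⟨hR, c1, c2, d1, d2⟩ := L.rels hm hs hn
  have key := lemT (ε := 1 / 10 ^ 7) (by norm_num) le_rfl (L.xinj 0) hR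
    (by
      intro s hs
      simp only [mem_insert_iff, mem_singleton_iff] at hs
      rcases hs with rfl | rfl | rfl | rfl | rfl <;> exact L.ac1 hc _)
    (by
      intro s hs
      simp only [mem_insert_iff, mem_singleton_iff] at hs
      rcases hs with rfl | rfl | rfl | rfl | rfl <;> exact L.ac2 hc _)
  have b0 : L.g (1, 0) = 1 := key _ (by simp)
  have b1 : L.g (1, 1) = 1 := key _ (by simp)
  have b2 : L.g (1, 2) = 1 := key _ (by simp)
  have hC : L.g (2, 0) = 1 := key _ (by simp)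
  have hD : L.g (3, 0) = 1 := key _ (by simp)
  rintro ⟨i, k⟩
  fin_cases i
  · exact L.g0 k
  · fin_cases k
    · exact b0
    · exact b1
    · exact b2
  · fin_cases k
    · exact hC
    · exact c1.trans hC
    · exact c2.trans hC
  · fin_cases k
    · exact hD
    · exact d1.trans hD
    · exact d2.trans hD

theorem exists_root (hm : p.Monic) (hs : p.Separable) (hn : p.natDegree = n) (j : Fin n) :
    ∃ b : BB m, p.eval b = 0 := by
  have hg := L.trivial_mono hc hm hs hn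
  choose ρ ρc ρP ρ0 ρ3 using L.exists_cell hm hs hn
  set bf : YY → ℂ := Sum.elim (fun q => L.r q.1 j q.2) (fun q => ρ q.1 j q.2) with hbf
  have hcont : Continuous bf := by
    apply Continuous.sumElim
    · rw [continuous_prod_of_discrete_left]
      intro e
      exact L.rc e j
    · rw [continuous_prod_of_discrete_left]
      intro κ
      exact ρc κ j
  have hroot : ∀ y, (PP p y).eval (bf y) = 0 := by
    rintro (⟨e, z⟩ | ⟨κ, z⟩)
    · have h1 := L.rP e z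
      have h2 : (PP p (dp e z)).eval (L.r e j z) = 0 := by
        rw [h1, isRoot_prod_lin]
        exact ⟨j, rfl⟩
      exact h2
    · have h1 := ρP κ z
      have h2 : (PP p (cp κ z.1 z.2)).eval (ρ κ j z) = 0 := by
        rw [h1, isRoot_prod_lin]
        exact ⟨j, rfl⟩
      exact h2
  have hbd : ∀ y, ‖bf y‖ ≤ ∑ l ∈ Finset.range n, ‖p.coeff l‖ + 1 := by
    intro y
    refine (root_bound (hm.map _) (by rw [hm.natDegree_map, hn]) (hroot y)).trans ?_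
    gcongr with l hl
    have := PP_coeff p y l
    rw [PP] at this
    rw [this]
    exact (p.coeff l).1.norm_coe_le_norm y
  let B : YY →ᵇ ℂ := BoundedContinuousFunction.ofNormedAddCommGroup bf hcont _ hbd
  have hBdp : ∀ e z, B (dp e z) = L.r e j z := fun _ _ => rfl
  have hBcp : ∀ κ t s, B (cp κ t s) = ρ κ j (t, s) := fun _ _ _ => rfl
  have hbot : ∀ κ (k : Fin 3) (τ : ℝ), 0 ≤ τ → τ ≤ 1 →
      ρ κ j ((k : ℕ) + τ, 0) = L.r (W κ k, k) j (seg τ) := by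
    intro κ k τ h0 h1
    have hW : ∀ (k : Fin 3) (τ : ℝ), 0 ≤ τ → τ ≤ 1 → Glue (cp κ ((k : ℕ) + τ) 0) (dp (W κ k, k) (seg τ)) :=
      fun k τ a b => Glue.bot κ k τ a b
    have e1 := L.word κ (ρc κ) (ρP κ) (W κ) 0 hW j (ρ0 κ j 0)
    simp only [hg, Equiv.Perm.coe_one, id_eq] at e1
    apply L.path κ (ρc κ) (ρP κ) (W κ) 0 hW k j j ?_ τ h0 h1
    fin_cases k
    · simpa using ρ0 κ j 0
    · simpa using e1.1
    · simpa using e1.2.1
  have htop : ∀ κ (k : Fin 3) (τ : ℝ), 0 ≤ τ → τ ≤ 1 →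
      ρ κ j ((k : ℕ) + τ, 1) = L.r (W' κ k, k) j (seg τ) := by
    intro κ k τ h0 h1
    have hW : ∀ (k : Fin 3) (τ : ℝ), 0 ≤ τ → τ ≤ 1 → Glue (cp κ ((k : ℕ) + τ) 1) (dp (W' κ k, k) (seg τ)) :=
      fun k τ a b => Glue.top κ k τ a b
    have e1 := L.word κ (ρc κ) (ρP κ) (W' κ) 1 hW j (ρ0 κ j 1)
    simp only [hg, Equiv.Perm.coe_one, id_eq] at e1
    apply L.path κ (ρc κ) (ρP κ) (W' κ) 1 hW k j j ?_ τ h0 h1
    fin_cases k
    · simpa using ρ0 κ j 1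
    · simpa using e1.1
    · simpa using e1.2.1
  have hB : B ∈ BB m := by
    refine ⟨?_, ?_⟩
    · intro e
      obtain ⟨K, hK, hK'⟩ := disc_flatK hn (L.rc e) (L.rP e) (L.rinj e) j
      refine ⟨K, hK, fun z => ?_⟩
      have := hK' z z.2
      rw [ext0_coe, ext0_apply _ (mem_ball_self RR_pos)] at this
      rw [hBdp, hBdp]
      exact this
    · intro y y' h
      cases h with
      | nodeu i k => rw [hBdp, hBdp, L.r0, L.r0]
      | nodew i k => rw [hBdp, hBdp, L.r1, L.r1, hg, hg]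
      | level k =>
        rw [hBdp, hBdp, L.r1, L.r0, hg]
        fin_cases k <;> rfl
      | bot κ m' τ h0 h1 =>
        rw [hBcp, hBdp]
        exact hbot κ m' τ h0 h1
      | top κ m' τ h0 h1 =>
        rw [hBcp, hBdp]
        exact htop κ m' τ h0 h1
      | left κ s => rw [hBcp, hBcp, ρ0, ρ0]
      | right κ s => rw [hBcp, hBcp, ρ3]
  refine ⟨⟨B, hB⟩, ?_⟩
  apply Subtype.ext
  ext y
  have h1 : (PP p y).eval ((ev m y).toRingHom ⟨B, hB⟩) = (ev m y).toRingHom (p.eval ⟨B, hB⟩) :=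
    eval_map_apply _ _
  have h2 : (ev m y).toRingHom ⟨B, hB⟩ = bf y := rfl
  rw [h2, hroot] at h1
  exact h1.symm

end close

end Lab

/-- for large flatness the algebras have the root property -/
theorem exists_m0 : ∃ m0 : ℕ, ∀ m : Edge → ℕ, (∀ e, m0 ≤ m e) → HasRt (BB m) := by
  obtain ⟨N0, hN0⟩ := exists_N0
  refine ⟨N0, fun m hm0 p hm hs hd => ?_⟩
  obtain ⟨L⟩ := exists_lab hm hs (n := p.natDegree) rfl
  refine L.exists_root (fun e => ?_) hm hs rfl ⟨0, hd⟩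
  exact hN0 m e ((hm0 e).trans (Nat.le_succ _)) p _ (L.r e) rfl (L.rc e) (L.rP e) (L.rinj e)

end

end Pool.Agent.Helper503.WAC
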