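import Mathlib
import Pool.Agent.Helper503.WF
import Pool.Agent.Helper503.WQ2
import Pool.Agent.Helper503.WW4

open Set Filter Topology Polynomial WeakDual
open scoped BoundedContinuousFunction

namespace Pool.Agent.Helper503.WAC

noncomputable section

section gen

variable {A B : Type*} [NormedCommRing A] [NormedAlgebra ℂ A] [CompleteSpace A]
  [NormedCommRing B] [NormedAlgebra ℂ B] [CompleteSpace B]

/-- the map of character spaces induced by an algebra homomorphism -/
def charMap (j : A →ₐ[ℂ] B) (χ : characterSpace ℂ B) : characterSpace ℂ A :=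
  CharacterSpace.equivAlgHom.symm ((CharacterSpace.equivAlgHom χ).comp j)

lemma charMap_apply (j : A →ₐ[ℂ] B) (χ : characterSpace ℂ B) (a : A) : charMap j χ a = χ (j a) := rfl

lemma charMap_cont (j : A →ₐ[ℂ] B) : Continuous (charMap j) := by
  refine continuous_induced_rng.2 (WeakDual.continuous_of_continuous_eval fun a => ?_)
  exact (WeakDual.eval_continuous (j a)).comp continuous_induced_dom

lemma charMap_bij {j : A →ₐ[ℂ] B} (h : Function.Bijective (fun χ : B →ₐ[ℂ] ℂ => χ.comp j)) :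
    Function.Bijective (charMap j) :=
  CharacterSpace.equivAlgHom.symm.bijective.comp (h.comp CharacterSpace.equivAlgHom.bijective)

/-- the homeomorphism of character spaces -/
def charHomeo {j : A →ₐ[ℂ] B} (h : Function.Bijective (fun χ : B →ₐ[ℂ] ℂ => χ.comp j)) :
    characterSpace ℂ B ≃ₜ characterSpace ℂ A :=
  Continuous.homeoOfEquivCompactToT2 (f := Equiv.ofBijective _ (charMap_bij h)) (charMap_cont j)

lemma charHomeo_apply {j : A →ₐ[ℂ] B} (h : Function.Bijective (fun χ : B →ₐ[ℂ] ℂ => χ.comp j))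
    (χ : characterSpace ℂ B) (a : A) : charHomeo h χ a = χ (j a) := rfl

end gen

lemma bij_transfer {A A' B B' : Type*} [CommRing A] [Algebra ℂ A] [CommRing A'] [Algebra ℂ A']
    [CommRing B] [Algebra ℂ B] [CommRing B'] [Algebra ℂ B'] (j' : A' →ₐ[ℂ] B') (j : A →ₐ[ℂ] B)
    (eA : A' ≃ₐ[ℂ] A) (eB : B' ≃ₐ[ℂ] B) (hc : ∀ a, eB (j' a) = j (eA a))
    (h : Function.Bijective (fun χ : B' →ₐ[ℂ] ℂ => χ.comp j')) :
    Function.Bijective (fun χ : B →ₐ[ℂ] ℂ => χ.comp j) := by
  constructor
  · intro χ1 χ2 h12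
    have h1 : (χ1.comp eB.toAlgHom).comp j' = (χ2.comp eB.toAlgHom).comp j' := by
      ext a
      have := congrArg (fun φ : A →ₐ[ℂ] ℂ => φ (eA a)) h12
      simp only [AlgHom.comp_apply] at this ⊢
      have e : eB.toAlgHom (j' a) = j (eA a) := hc a
      rw [e]
      exact this
    have h2 := h.1 h1
    ext b
    have := congrArg (fun φ : B' →ₐ[ℂ] ℂ => φ (eB.symm b)) h2
    simpa using this
  · intro χ
    obtain ⟨ψ, hψ⟩ := h.2 (χ.comp eA.toAlgHom)
    refine ⟨ψ.comp eB.symm.toAlgHom, ?_⟩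
    ext a
    have h1 := congrArg (fun φ : A' →ₐ[ℂ] ℂ => φ (eA.symm a)) hψ
    have h2 : eB.symm (j a) = j' (eA.symm a) := by
      rw [AlgEquiv.symm_apply_eq, hc, AlgEquiv.apply_symm_apply]
    simp only [AlgHom.comp_apply] at h1 ⊢
    have h3 : eB.symm.toAlgHom (j a) = j' (eA.symm a) := h2
    rw [h3, h1]
    simp

lemma hasRt_of_equiv {R S : Type*} [CommRing R] [CommRing S] (e : R ≃+* S) (h : HasRt R) : HasRt S := by
  intro p hm hs hd
  obtain ⟨b, hb⟩ := h (p.map e.symm.toRingHom) (hm.map _) hs.map (by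
    rw [natDegree_map_eq_of_injective e.symm.injective]
    exact hd)
  refine ⟨e b, ?_⟩
  have h1 : ((p.map e.symm.toRingHom).map e.toRingHom).eval (e.toRingHom b)
      = e.toRingHom ((p.map e.symm.toRingHom).eval b) := eval_map_apply _ _
  have h2 : (p.map e.symm.toRingHom).map e.toRingHom = p := by
    rw [Polynomial.map_map]
    have : e.toRingHom.comp e.symm.toRingHom = RingHom.id S := by
      ext x
      simp
    rw [this, Polynomial.map_id]
  rw [h2, hb, map_zero] at h1
  exact h1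

lemma sum_bump (m : Edge → ℕ) (e0 : Edge) : ∑ e, bump m e0 e = ∑ e, m e + 1 := by
  have h : ∀ e, bump m e0 e = m e + if e = e0 then 1 else 0 := by
    intro e
    by_cases he : e = e0
    · subst he
      simp [bump]
    · simp [bump, he]
  simp_rw [h, Finset.sum_add_distrib]
  simp

lemma exists_pred {m : Edge → ℕ} {N : ℕ} (h : ∑ e, m e = N + 1) : ∃ m1 e0, m = bump m1 e0 := by
  have hne : ∃ e0, m e0 ≠ 0 := by
    by_contra hcon
    push Not at hcon
    simp [hcon] at h
  obtain ⟨e0, he0⟩ := hne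
  refine ⟨Function.update m e0 (m e0 - 1), e0, ?_⟩
  funext e
  by_cases he : e = e0
  · subst he
    simp [bump]
    omega
  · simp [bump, he]

lemma eq_zero_of_sum {m : Edge → ℕ} (h : ∑ e, m e = 0) : m = 0 := by
  funext e
  exact (Finset.sum_eq_zero_iff.1 h) e (Finset.mem_univ _)

theorem restr_bij0 (m : Edge → ℕ) :
    Function.Bijective (fun χ : BB 0 →ₐ[ℂ] ℂ =>
      χ.comp (Subalgebra.inclusion (BB_mono (m := 0) (m' := m) (fun _ => Nat.zero_le _)))) := by
  have key : ∀ N : ℕ, ∀ m : Edge → ℕ, ∑ e, m e = N → Function.Bijective (fun χ : BB 0 →ₐ[ℂ] ℂ =>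
      χ.comp (Subalgebra.inclusion (BB_mono (m := 0) (m' := m) (fun _ => Nat.zero_le _)))) := by
    intro N
    induction N with
    | zero =>
      intro m hm
      obtain rfl := eq_zero_of_sum hm
      exact Function.bijective_id
    | succ N ih =>
      intro m hm
      obtain ⟨m1, e0, rfl⟩ := exists_pred hm
      rw [sum_bump] at hm
      exact (restr_bij m1 e0).comp (ih m1 (by omega))
  exact key _ m rfl

theorem switch : ∃ (m : Edge → ℕ) (e0 : Edge), ¬ HasRt (BB m) ∧ HasRt (BB (bump m e0)) := by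
  by_contra hcon
  push Not at hcon
  have key : ∀ N : ℕ, ∀ m : Edge → ℕ, ∑ e, m e = N → ¬ HasRt (BB m) := by
    intro N
    induction N with
    | zero =>
      intro m hm
      obtain rfl := eq_zero_of_sum hm
      exact not_hasRt
    | succ N ih =>
      intro m hm
      obtain ⟨m1, e0, rfl⟩ := exists_pred hm
      rw [sum_bump] at hm
      exact hcon m1 e0 (ih m1 (by omega))
  obtain ⟨m0, hm0⟩ := exists_m0
  exact key _ (fun _ => m0) rfl (hm0 _ fun _ => le_rfl)

lemma evc_cont (m : Edge → ℕ) : Continuous (evc m) := by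
  refine continuous_induced_rng.2 (WeakDual.continuous_of_continuous_eval fun a => ?_)
  exact a.1.continuous

lemma evc_glue (m : Edge → ℕ) {y y' : YY} (h : Glue y y') : evc m y = evc m y' := by
  rw [evc, evc, ev_glue m h]

theorem not_hasRt_C {S : Type*} [TopologicalSpace S] (Ψ : characterSpace ℂ (BB 0) ≃ₜ S) :
    ¬ HasRt C(S, ℂ) := by
  intro hR
  obtain ⟨q, hqm, hsep, hqd, hqy⟩ := exists_q
  let gS : BB 0 →+* C(S, ℂ) :=
    { toFun := fun f => (gelfandTransform ℂ (BB 0) f).comp ⟨Ψ.symm, Ψ.symm.continuous⟩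
      map_one' := by ext s; simp
      map_mul' := fun a b => by ext s; simp
      map_zero' := by ext s; simp
      map_add' := fun a b => by ext s; simp }
  let evs : S → (C(S, ℂ) →+* ℂ) := fun s =>
    { toFun := fun f => f s
      map_one' := rfl
      map_mul' := fun _ _ => rfl
      map_zero' := rfl
      map_add' := fun _ _ => rfl }
  have hcomp : ∀ y, (evs (Ψ (evc 0 y))).comp gS = (ev 0 y).toRingHom := by
    intro y
    ext f
    show (gelfandTransform ℂ (BB 0) f) (Ψ.symm (Ψ (evc 0 y))) = f.1 y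
    rw [Homeomorph.symm_apply_apply]
    rfl
  have hnt : Nontrivial C(S, ℂ) := by
    refine ⟨0, 1, fun h => ?_⟩
    have := congrArg (fun f : C(S, ℂ) => f (Ψ (evc 0 (dp (0, 0) ctr)))) h
    simp at this
  obtain ⟨F, hF⟩ := hR (q.map gS) (hqm.map _) hsep.map (by rw [hqm.natDegree_map]; omega)
  refine no_root (b := fun y => F (Ψ (evc 0 y))) (F.continuous.comp (Ψ.continuous.comp (evc_cont 0)))
    (fun y y' h => by simp only [evc_glue 0 h]) fun y => ?_
  have h2 : ((q.map gS).map (evs (Ψ (evc 0 y)))).eval (evs (Ψ (evc 0 y)) F)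
      = evs (Ψ (evc 0 y)) ((q.map gS).eval F) := eval_map_apply _ _
  rw [hF, map_zero, Polynomial.map_map, hcomp, hqy] at h2
  exact (isRoot_prod_lin (fun a => xib a y) _).1 h2

/-- the Gelfand transform -/
abbrev gel (m : Edge → ℕ) : BB m →ₐ[ℂ] C(characterSpace ℂ (BB m), ℂ) := gelfandTransform ℂ (BB m)

instance : Nonempty YY := ⟨dp (0, 0) ctr⟩

lemma gel_norm (m : Edge → ℕ) (f : BB m) : ‖gel m f‖ = ‖f‖ := by
  apply le_antisymm
  · rw [ContinuousMap.norm_le _ (norm_nonneg _)]
    intro χ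
    have h1 := AlgHom.norm_apply_le_self_mul_norm_one (CharacterSpace.equivAlgHom χ) f
    have h2 : ‖(1 : BB m)‖ = 1 := by
      show ‖(1 : YY →ᵇ ℂ)‖ = 1
      exact norm_one
    rw [h2, mul_one] at h1
    exact h1
  · show ‖f.1‖ ≤ _
    refine (BoundedContinuousFunction.norm_le (norm_nonneg (gel m f))).2 ?_
    intro y
    exact (gel m f).norm_coe_le_norm (evc m y)

theorem homeo_of_bij {X : Type*} [TopologicalSpace X] [CompactSpace X] {A B : Subalgebra ℂ C(X, ℂ)}
    (h : A ≤ B) (hA : IsClosed (A : Set C(X, ℂ))) (hB : IsClosed (B : Set C(X, ℂ)))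
    (hbij : Function.Bijective (fun χ : B →ₐ[ℂ] ℂ => χ.comp (Subalgebra.inclusion h))) :
    ∃ Φ : characterSpace ℂ B ≃ₜ characterSpace ℂ A,
        ∀ (χ : characterSpace ℂ B) (a : A), Φ χ a = χ (Subalgebra.inclusion h a) := by
  have h1 : CompleteSpace A := hA.completeSpace_coe
  have h2 : CompleteSpace B := hB.completeSpace_coe
  exact ⟨charHomeo (A := A) (B := B) (j := Subalgebra.inclusion h) hbij, fun χ a => rfl⟩

theorem conn_of_equiv {X : Type*} [TopologicalSpace X] [CompactSpace X] {A : Subalgebra ℂ C(X, ℂ)}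
    (hA : IsClosed (A : Set C(X, ℂ))) {R : Type*} [NormedCommRing R] [NormedAlgebra ℂ R] [CompleteSpace R]
    (e : R ≃ₐ[ℂ] A) (hc : ConnectedSpace (characterSpace ℂ R)) :
    ConnectedSpace (characterSpace ℂ A) := by
  have h1 : CompleteSpace A := hA.completeSpace_coe
  have hsurj : Function.Surjective (charMap (A := A) (B := R) (e.symm.toAlgHom)) := by
    intro χ
    refine ⟨charMap (A := R) (B := A) e.toAlgHom χ, ?_⟩
    apply CharacterSpace.ext
    intro a
    show χ (e (e.symm a)) = χ a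
    rw [AlgEquiv.apply_symm_apply]
  exact hsurj.connectedSpace (charMap_cont (A := A) (B := R) _)

lemma exists_image {X : Type*} [TopologicalSpace X] [CompactSpace X] {R : Type*} [CommRing R]
    [Algebra ℂ R] (φ : R →ₐ[ℂ] C(X, ℂ)) (h : Function.Injective φ) :
    ∃ (A : Subalgebra ℂ C(X, ℂ)) (e : R ≃ₐ[ℂ] A), ∀ a, (e a : C(X, ℂ)) = φ a :=
  ⟨φ.range, AlgEquiv.ofInjective φ h, fun _ => rfl⟩

section generic

variable {X : Type*} [TopologicalSpace X] [CompactSpace X]

lemma image_closed {R : Type*} [NormedCommRing R] [NormedAlgebra ℂ R] [CompleteSpace R]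
    {φ : R →ₐ[ℂ] C(X, ℂ)} (hφ : Isometry φ) {A : Subalgebra ℂ C(X, ℂ)} {e : R ≃ₐ[ℂ] A}
    (he : ∀ a, (e a : C(X, ℂ)) = φ a) : IsClosed (A : Set C(X, ℂ)) := by
  have h1 : (A : Set C(X, ℂ)) = range φ := by
    ext f
    constructor
    · intro hf
      refine ⟨e.symm ⟨f, hf⟩, ?_⟩
      rw [← he, AlgEquiv.apply_symm_apply]
    · rintro ⟨a, rfl⟩
      rw [← he]
      exact (e a).2
  rw [h1]
  exact hφ.isClosedEmbedding.isClosed_range

lemma generic_finrank {A B : Subalgebra ℂ C(X, ℂ)} (b : C(X, ℂ)) (hb : b ∈ B) (hbA : b ∉ A)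
    (hspan : ∀ f ∈ B, ∃ lam : ℂ, f - lam • b ∈ A) :
    Module.finrank ℂ (B ⧸ (Subalgebra.toSubmodule A).comap B.val.toLinearMap) = 1 := by
  have hb0 : (Submodule.Quotient.mk ⟨b, hb⟩ : B ⧸
      (Subalgebra.toSubmodule A).comap B.val.toLinearMap) ≠ 0 := by
    intro h0
    rw [Submodule.Quotient.mk_eq_zero, Submodule.mem_comap] at h0
    exact hbA h0
  rw [finrank_eq_one_iff_of_nonzero' _ hb0]
  intro w
  obtain ⟨y, rfl⟩ := Submodule.Quotient.mk_surjective _ w
  obtain ⟨lam, hlam⟩ := hspan y y.2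
  refine ⟨lam, ?_⟩
  rw [← Submodule.Quotient.mk_smul, eq_comm, Submodule.Quotient.eq, Submodule.mem_comap]
  exact hlam

end generic

section assemble

variable {R R' : Type} [NormedCommRing R] [NormedAlgebra ℂ R] [CompleteSpace R]
  [NormedCommRing R'] [NormedAlgebra ℂ R'] [CompleteSpace R']

theorem exists_pair (X : Type) [TopologicalSpace X] [CompactSpace X] (g : R →ₐ[ℂ] C(X, ℂ))
    (hg : ∀ a, ‖g a‖ = ‖a‖) (j : R' →ₐ[ℂ] R) (hj : ∀ a, ‖j a‖ = ‖a‖)
    (hbij : Function.Bijective (fun χ : R →ₐ[ℂ] ℂ => χ.comp j))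
    (hsep : ∀ x y : X, (∀ a, g (j a) x = g (j a) y) → x = y)
    (b : R) (hb : ∀ a, j a ≠ b) (hspan : ∀ f : R, ∃ (lam : ℂ) (a : R'), j a = f - lam • b)
    (hconn : ConnectedSpace (characterSpace ℂ R')) :
    ∃ (A B : Subalgebra ℂ C(X, ℂ)) (h : A ≤ B) (_ : R' ≃+* A) (_ : R ≃+* B),
      IsClosed (A : Set C(X, ℂ)) ∧ IsClosed (B : Set C(X, ℂ)) ∧
      (∀ x y : X, x ≠ y → ∃ f ∈ A, f x ≠ f y) ∧
      (∃ Φ : characterSpace ℂ B ≃ₜ characterSpace ℂ A,
        ∀ (χ : characterSpace ℂ B) (a : A), Φ χ a = χ (Subalgebra.inclusion h a)) ∧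
      ConnectedSpace (characterSpace ℂ A) ∧
      Module.finrank ℂ (B ⧸ (Subalgebra.toSubmodule A).comap B.val.toLinearMap) = 1 := by
  have hgi : Isometry g := AddMonoidHomClass.isometry_of_norm g hg
  have hji : Isometry j := AddMonoidHomClass.isometry_of_norm j hj
  obtain ⟨B, eB, hB⟩ := exists_image g hgi.injective
  obtain ⟨A, eA, hA⟩ := exists_image (g.comp j) (hgi.injective.comp hji.injective)
  have hA' : ∀ a, (eA a : C(X, ℂ)) = g (j a) := hA
  have hcB : IsClosed (B : Set C(X, ℂ)) := image_closed hgi hB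
  have hcA : IsClosed (A : Set C(X, ℂ)) := image_closed (φ := g.comp j) (hgi.comp hji) hA
  have h : A ≤ B := by
    intro f hf
    have h1 : f = g (j (eA.symm ⟨f, hf⟩)) := by
      rw [← hA', AlgEquiv.apply_symm_apply]
    rw [h1, ← hB]
    exact Subtype.prop _
  have hbijAB : Function.Bijective (fun χ : B →ₐ[ℂ] ℂ => χ.comp (Subalgebra.inclusion h)) := by
    refine bij_transfer j (Subalgebra.inclusion h) eA eB (fun a => ?_) hbij
    apply Subtype.ext
    rw [hB]
    exact (hA' a).symm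
  refine ⟨A, B, h, eA.toRingEquiv, eB.toRingEquiv, hcA, hcB, ?_, homeo_of_bij h hcA hcB hbijAB,
    conn_of_equiv hcA eA hconn, ?_⟩
  · intro x y hne
    by_contra hcon
    push Not at hcon
    apply hne
    apply hsep
    intro a
    have := hcon (eA a) (eA a).2
    rw [hA'] at this
    exact this
  · refine generic_finrank (g b) ?_ ?_ ?_
    · rw [← hB]
      exact Subtype.prop _
    · intro hmem
      have h1 : g (j (eA.symm ⟨_, hmem⟩)) = g b := by
        rw [← hA', AlgEquiv.apply_symm_apply]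
      exact hb _ (hgi.injective h1)
    · intro f hf
      obtain ⟨lam, a, ha⟩ := hspan (eB.symm ⟨f, hf⟩)
      refine ⟨lam, ?_⟩
      have h1 : f = g (eB.symm ⟨f, hf⟩) := by
        rw [← hB, AlgEquiv.apply_symm_apply]
      have h2 : f - lam • g b = g (j a) := by
        conv_lhs => rw [h1]
        rw [ha, map_sub, map_smul]
      rw [h2, ← hA']
      exact Subtype.prop _

end assemble

theorem main : ∃ (X : Type) (_ : TopologicalSpace X) (_ : CompactSpace X) (_ : T2Space X)
    (A B : Subalgebra ℂ C(X, ℂ)) (h : A ≤ B),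
      (IsClosed (A : Set C(X, ℂ)) ∧ IsClosed (B : Set C(X, ℂ)) ∧
      (∀ x y : X, x ≠ y → ∃ f ∈ A, f x ≠ f y) ∧
      (∃ Φ : characterSpace ℂ B ≃ₜ characterSpace ℂ A,
        ∀ (χ : characterSpace ℂ B) (a : A), Φ χ a = χ (Subalgebra.inclusion h a)) ∧
      ConnectedSpace (characterSpace ℂ A) ∧
      Module.finrank ℂ (B ⧸ (Subalgebra.toSubmodule A).comap B.val.toLinearMap) = 1) ∧
      HasRt A ∧ ¬ HasRt B := by
  obtain ⟨m, e0, hnot, hyes⟩ := switch
  obtain ⟨A, B, h, eA, eB, hAB⟩ := exists_pair (characterSpace ℂ (BB m)) (gel m) (gel_norm m)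
    (Subalgebra.inclusion (BB_mono (le_bump m e0))) (fun _ => rfl) (restr_bij m e0)
    (by
      intro x y hxy
      have h1 : (CharacterSpace.equivAlgHom x).comp (Subalgebra.inclusion (BB_mono (le_bump m e0)))
          = (CharacterSpace.equivAlgHom y).comp (Subalgebra.inclusion (BB_mono (le_bump m e0))) := by
        ext a
        exact hxy a
      exact CharacterSpace.equivAlgHom.injective ((restr_bij m e0).1 h1))
    ⟨bel m e0, bel_mem m e0⟩
    (by
      intro a ha
      have h2 : (a : YY →ᵇ ℂ) = bel m e0 := congrArg Subtype.val ha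
      exact bel_not_mem m e0 (h2 ▸ a.2))
    (by
      intro f
      obtain ⟨lam, hlam⟩ := bel_span m e0 f.2
      exact ⟨lam, ⟨_, hlam⟩, rfl⟩)
    (conn (bump m e0))
  exact ⟨characterSpace ℂ (BB m), inferInstance, inferInstance, inferInstance, A, B, h, hAB,
    hasRt_of_equiv eA hyes, fun hw => hnot (hasRt_of_equiv eB.symm hw)⟩

end

end Pool.Agent.Helper503.WAC
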